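import Pool.Agent.Lib.MP_d610d0_nt.CA.LC.Stm

set_option autoImplicit false

/-!
Project CA, piece LB: large conductors for boxes of primes.
-/

namespace Pool.Agent.CA.LC

open Finset Filter
open Pool.Agent.MP89da58 (tri primChars)
open Pool.Agent.CH (wJ wL)
open Pool.Agent.CH.D (xj Sf R_spc)

/-- A product of arithmetic functions up to `X` depends only on their values up to `X`. -/
theorem LB_prod_congr {ι : Type*} [DecidableEq ι] (s : Finset ι) (f g : ι → ArithmeticFunction ℂ)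
    (X : ℕ) (h : ∀ i ∈ s, ∀ n ≤ X, f i n = g i n) :
    ∀ n ≤ X, (∏ i ∈ s, f i) n = (∏ i ∈ s, g i) n := by
  induction s using Finset.induction_on with
  | empty => intro n _; simp
  | insert a s ha ih =>
    intro n hn
    rw [prod_insert ha, prod_insert ha, ArithmeticFunction.mul_apply,
      ArithmeticFunction.mul_apply]
    refine sum_congr rfl fun x hx => ?_
    obtain ⟨hx1, hx2⟩ := Nat.mem_divisorsAntidiagonal.1 hx
    have hpos : 0 < n := Nat.pos_of_ne_zero hx2
    have h1 : x.1 ≤ X := (Nat.le_of_dvd hpos (Dvd.intro _ hx1)).trans hn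
    have h2 : x.2 ≤ X := (Nat.le_of_dvd hpos (Dvd.intro_left _ hx1)).trans hn
    rw [h a (mem_insert_self _ _) _ h1, ih (fun i hi => h i (mem_insert_of_mem hi)) _ h2]

/-- The indicator function of the primes in `[lo, hi]` up to `X`. -/
noncomputable def LB_f (lo hi : ℝ) (X : ℕ) : ArithmeticFunction ℂ where
  toFun n := if n ≤ X then pI lo hi n else 0
  map_zero' := by simp

theorem LB_f_apply (lo hi : ℝ) (X n : ℕ) : LB_f lo hi X n = if n ≤ X then pI lo hi n else 0 := rfl

theorem LB_pI_apply (lo hi : ℝ) (n : ℕ) :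
    (pI lo hi n = 0) ∨ (pI lo hi n = 1 ∧ lo ≤ (n : ℝ) ∧ (n : ℝ) ≤ hi) := by
  by_cases h : n.Prime ∧ lo ≤ (n : ℝ) ∧ (n : ℝ) ≤ hi
  · right
    refine ⟨?_, h.2⟩
    show (if n.Prime ∧ lo ≤ (n : ℝ) ∧ (n : ℝ) ≤ hi then (1 : ℂ) else 0) = 1
    rw [if_pos h]
  · left
    show (if n.Prime ∧ lo ≤ (n : ℝ) ∧ (n : ℝ) ≤ hi then (1 : ℂ) else 0) = 0
    rw [if_neg h]

theorem LB_cut_apply (f : ArithmeticFunction ℂ) (e n : ℕ) :
    cut f e n = if 2 ^ e ≤ n ∧ n < 2 ^ (e + 1) then f n else 0 := rfl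

/-- The pieces are blocks. -/
theorem LB_bd (lo hi : ℝ) (X e : ℕ) : Bd (cut (LB_f lo hi X) e) (2 ^ (e + 1)) where
  one := one_le_pow₀ (by norm_num)
  bd n := by
    rw [LB_cut_apply]
    split_ifs
    · rw [LB_f_apply]
      split_ifs
      · rcases LB_pI_apply lo hi n with h | h
        · rw [h, norm_zero]; exact zero_le_one
        · rw [h.1, norm_one]
      · rw [norm_zero]; exact zero_le_one
    · rw [norm_zero]; exact zero_le_one
  sp n hn := by
    rw [LB_cut_apply] at hn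
    split_ifs at hn with h
    · have h1 : ((2 : ℝ) ^ e) ≤ n := by exact_mod_cast h.1
      have h2 : (n : ℝ) < 2 ^ (e + 1) := by exact_mod_cast h.2
      have h3 : (0 : ℝ) < 2 ^ (e + 1) := by positivity
      constructor
      · rw [pow_succ]; linarith
      · linarith
    · exact absurd rfl hn

/-- A nonzero piece has its size in the range of the primes. -/
theorem LB_ne (lo hi : ℝ) (X e : ℕ) (h : cut (LB_f lo hi X) e ≠ 0) :
    lo ≤ (2 : ℝ) ^ (e + 1) ∧ (2 : ℝ) ^ (e + 1) ≤ 2 * hi := by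
  obtain ⟨n, hn⟩ : ∃ n, cut (LB_f lo hi X) e n ≠ 0 := by
    by_contra hcon
    push Not at hcon
    exact h (ArithmeticFunction.ext hcon)
  rw [LB_cut_apply] at hn
  split_ifs at hn with h1
  · rw [LB_f_apply] at hn
    split_ifs at hn with h2
    · rcases LB_pI_apply lo hi n with h3 | h3
      · exact absurd h3 hn
      · have h4 : ((2 : ℝ) ^ e) ≤ n := by exact_mod_cast h1.1
        have h5 : (n : ℝ) < 2 ^ (e + 1) := by exact_mod_cast h1.2
        refine ⟨h3.2.1.trans h5.le, ?_⟩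
        rw [pow_succ]
        linarith [h3.2.2]
    · exact absurd rfl hn
  · exact absurd rfl hn

/-- The number of dyadic blocks. -/
theorem LB_log (k : ℕ) : ∀ᶠ J : ℕ in atTop,
    ((Nat.log 2 (27 * J ^ 3) + 1 : ℕ) : ℝ) ^ k ≤ (Real.log J) ^ (k + 1) := by
  have hL : Tendsto (fun J : ℕ => Real.log (J : ℝ)) atTop atTop :=
    Real.tendsto_log_atTop.comp tendsto_natCast_atTop_atTop
  filter_upwards [hL.eventually_ge_atTop (max 6 ((11 : ℝ) ^ k)), eventually_ge_atTop 2] with J hJ hJ2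
  have h6 : (6 : ℝ) ≤ Real.log J := (le_max_left _ _).trans hJ
  have h11 : (11 : ℝ) ^ k ≤ Real.log J := (le_max_right _ _).trans hJ
  have hJ0 : (0 : ℝ) < J := by positivity
  have hX : 27 * J ^ 3 ≠ 0 := by positivity
  -- the logarithm to the base two
  have h1 : ((2 : ℝ) ^ (Nat.log 2 (27 * J ^ 3))) ≤ 27 * (J : ℝ) ^ 3 := by
    have := Nat.pow_log_le_self 2 hX
    exact_mod_cast this
  have h2 : (Nat.log 2 (27 * J ^ 3) : ℝ) * Real.log 2 ≤ Real.log 27 + 3 * Real.log J := by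
    have h3 := Real.log_le_log (by positivity) h1
    rw [Real.log_pow, Real.log_mul (by norm_num) (by positivity), Real.log_pow] at h3
    push_cast at h3
    exact h3
  have h27 : Real.log 27 ≤ 4 := by
    rw [show (27 : ℝ) = 3 ^ 3 by norm_num, Real.log_pow]
    have : Real.log 3 ≤ 4 / 3 := by
      rw [Real.log_le_iff_le_exp (by norm_num)]
      have := Real.add_one_le_exp (1 / 3 : ℝ)
      have h4 : Real.exp (4 / 3) = Real.exp (1 / 3) ^ 4 := by
        rw [← Real.exp_nat_mul]; norm_num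
      rw [h4]
      calc (3 : ℝ) ≤ (1 / 3 + 1) ^ 4 := by norm_num
        _ ≤ _ := by gcongr
    push_cast
    linarith
  have hlog2 : (1 / 2 : ℝ) ≤ Real.log 2 := by
    have := Real.log_two_gt_d9
    linarith
  have h5 : (Nat.log 2 (27 * J ^ 3) : ℝ) ≤ 8 + 6 * Real.log J := by
    have h6 : (0 : ℝ) ≤ (Nat.log 2 (27 * J ^ 3) : ℝ) := Nat.cast_nonneg _
    nlinarith
  have h7 : ((Nat.log 2 (27 * J ^ 3) + 1 : ℕ) : ℝ) ≤ 11 * Real.log J := by
    push_cast
    linarith
  calc ((Nat.log 2 (27 * J ^ 3) + 1 : ℕ) : ℝ) ^ k ≤ (11 * Real.log J) ^ k := by gcongr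
    _ = (11 : ℝ) ^ k * (Real.log J) ^ k := by rw [mul_pow]
    _ ≤ Real.log J * (Real.log J) ^ k := by gcongr
    _ = (Real.log J) ^ (k + 1) := by rw [pow_succ, mul_comm]

/-- **CA LC LB.** Large conductors for boxes of primes. -/
theorem p_LB : S_LB := by
  intro hLBa hcmp hdya hbxp _ hcof hspc k lo hi hOK A
  obtain ⟨B, hB⟩ := hLBa k (A + (k + 1)) (1 / 1000) (by norm_num)
  refine ⟨B, ?_⟩
  have hL : Tendsto (fun J : ℕ => Real.log (J : ℝ)) atTop atTop :=
    Real.tendsto_log_atTop.comp tendsto_natCast_atTop_atTop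
  filter_upwards [hB, hOK.lo, hOK.hi, LB_log k, eventually_ge_atTop 2,
    hL.eventually_ge_atTop (max 1 (1000 * ((k + 1) * Real.log 2 + Real.log 27)))]
    with J hJB hlo hhi hlog hJ2 hJL R hR1 hR2 j hj
  have hJ0 : (0 : ℝ) < J := by positivity
  have hJ1 : (1 : ℝ) < J := by exact_mod_cast (show 1 < J by omega)
  have hL1 : (1 : ℝ) ≤ Real.log J := (le_max_left _ _).trans hJL
  have hL2 : 1000 * ((k + 1) * Real.log 2 + Real.log 27) ≤ Real.log J := (le_max_right _ _).trans hJL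
  have hL0 : (0 : ℝ) < Real.log J := by linarith
  have hlog2 : 0 < Real.log 2 := Real.log_pos (by norm_num)
  have hlog27 : 0 < Real.log 27 := Real.log_pos (by norm_num)
  set X : ℕ := 27 * J ^ 3 with hXdef
  set f : Fin k → ArithmeticFunction ℂ := fun i => LB_f (lo J i) (hi J i) X with hf
  set w : (Σ q, DirichletCharacter ℂ q) → ℕ → ℂ :=
    fun p n => p.2 (n : ZMod p.1) * (wJ J j n : ℂ) with hw
  -- the sum in terms of the product
  have hS : ∀ p : (Σ q, DirichletCharacter ℂ q),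
      Sf (fun n => bx k (lo J) (hi J) n) J j p.2 = ∑ n ∈ Icc 1 X, (∏ i, f i) n * w p n := by
    intro p
    rw [Sf]
    refine sum_congr rfl fun n hn => ?_
    obtain ⟨hn1, hn2⟩ := mem_Icc.1 hn
    rw [hbxp k (lo J) (hi J) n hn1]
    have h1 : (∏ i, pI (lo J i) (hi J i)) n = (∏ i, f i) n := by
      refine LB_prod_congr Finset.univ _ _ X (fun i _ m hm => ?_) n hn2
      rw [hf]
      show pI (lo J i) (hi J i) m = LB_f (lo J i) (hi J i) X m
      rw [LB_f_apply, if_pos hm]
    rw [h1, hw, mul_assoc]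
  simp_rw [hS]
  have hK0 : (0 : ℝ) ≤ (R : ℝ) * (J : ℝ) ^ 2 / (Real.log J) ^ (A + (k + 1)) := by positivity
  have hmain : ∀ e : Fin k → ℕ, ∑ p ∈ primChars R,
      ‖∑ n ∈ Icc 1 X, (∏ i, cut (f i) (e i)) n * w p n‖
        ≤ (R : ℝ) * (J : ℝ) ^ 2 / (Real.log J) ^ (A + (k + 1)) := by
    intro e
    -- if all terms vanish
    have hzero : (∀ n ∈ Icc 1 X, (∏ i, cut (f i) (e i)) n ≠ 0 → (wJ J j n : ℂ) = 0) →
        ∑ p ∈ primChars R, ‖∑ n ∈ Icc 1 X, (∏ i, cut (f i) (e i)) n * w p n‖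
          ≤ (R : ℝ) * (J : ℝ) ^ 2 / (Real.log J) ^ (A + (k + 1)) := by
      intro h
      rw [sum_eq_zero]
      · exact hK0
      · intro p _
        rw [norm_eq_zero]
        refine sum_eq_zero fun n hn => ?_
        by_cases h1 : (∏ i, cut (f i) (e i)) n = 0
        · rw [h1, zero_mul]
        · rw [hw]
          show _ * (p.2 (n : ZMod p.1) * (wJ J j n : ℂ)) = 0
          rw [h n hn h1, mul_zero, mul_zero]
    set N : Fin k → ℝ := fun i => 2 ^ (e i + 1) with hN
    have hbd : ∀ i, Bd (cut (f i) (e i)) (N i) := fun i => LB_bd _ _ _ _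
    obtain ⟨C, hC⟩ := hcof k
    have hsup := (hC (fun i => cut (f i) (e i)) N hbd Finset.univ).2.1
    by_cases hc1 : ∃ i, cut (f i) (e i) = 0
    · obtain ⟨i, hi0⟩ := hc1
      refine hzero fun n _ h => absurd ?_ h
      rw [prod_eq_zero (mem_univ i) hi0]
      rfl
    push Not at hc1
    by_cases hc2 : 2 ^ (k + 1) * ∏ i, N i < (J : ℝ) ^ 3
    · refine hzero fun n hn h => ?_
      have h1 := (hsup n h).2
      by_contra hne
      have hne' : wJ J j n ≠ 0 := fun h0 => hne (by rw [h0]; norm_num)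
      have h2 := ((hspc J (by omega)).2.1 j hj n (mem_Icc.1 hn).1 hne').1
      have h3 : J ^ 3 < n := lt_of_le_of_lt (Nat.pow_le_pow_left (mem_Ioc.1 hj).1.le 3) h2
      have h4 : ((J : ℝ) ^ 3) < n := by exact_mod_cast h3
      have h5 : (0 : ℝ) < n := by linarith [pow_pos hJ0 3]
      have h6 : (2 : ℝ) ^ (k + 1) * ∏ i, N i = 2 * (2 ^ k * ∏ i, N i) := by ring
      linarith
    push Not at hc2
    by_cases hc3 : 2 ^ k * (27 * (J : ℝ) ^ 3) < ∏ i, N i
    · refine hzero fun n hn h => ?_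
      have h1 := (hsup n h).1
      have h2 : ((n : ℕ) : ℝ) ≤ 27 * (J : ℝ) ^ 3 := by
        have := (mem_Icc.1 hn).2
        rw [hXdef] at this
        exact_mod_cast this
      have h3 : (2 : ℝ) ^ k * (n : ℝ) ≤ 2 ^ k * (27 * (J : ℝ) ^ 3) := by gcongr
      linarith
    push Not at hc3
    -- the main case
    have hNpos : ∀ i, 0 < N i := fun i => by rw [hN]; positivity
    set t : Fin k → ℝ := fun i => Real.log (N i) / Real.log J with ht
    have hJt : ∀ S : Finset (Fin k), (J : ℝ) ^ (∑ i ∈ S, t i) = ∏ i ∈ S, N i := by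
      intro S
      rw [Real.rpow_def_of_pos hJ0, mul_sum, Real.exp_sum]
      refine prod_congr rfl fun i _ => ?_
      rw [ht]
      show Real.exp (Real.log J * (Real.log (N i) / Real.log J)) = N i
      rw [mul_div_cancel₀ _ hL0.ne', Real.exp_log (hNpos i)]
    have hsum : ∑ i, t i = Real.log (∏ i, N i) / Real.log J := by
      rw [Real.log_prod (fun i _ => (hNpos i).ne'), sum_div]
    have hprod0 : 0 < ∏ i, N i := prod_pos fun i _ => hNpos i
    have ht1 : ∀ i, 1 / 13 ≤ t i := by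
      intro i
      have h1 := (LB_ne _ _ _ _ (hc1 i)).1
      have h2 : (J : ℝ) ^ (1 / 12 : ℝ) ≤ N i := (hlo i).trans h1
      have h3 := Real.log_le_log (Real.rpow_pos_of_pos hJ0 _) h2
      rw [Real.log_rpow hJ0] at h3
      rw [ht]
      show 1 / 13 ≤ Real.log (N i) / Real.log J
      rw [le_div_iff₀ hL0]
      linarith
    have ht2 : ∀ i, t i ≤ 33 / 20 + 1 / 1000 := by
      intro i
      have h1 := (LB_ne _ _ _ _ (hc1 i)).2
      have h2 : N i ≤ 2 * (J : ℝ) ^ (33 / 20 : ℝ) := h1.trans (by linarith [hhi i])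
      have h3 := Real.log_le_log (hNpos i) h2
      rw [Real.log_mul (by norm_num) (Real.rpow_pos_of_pos hJ0 _).ne', Real.log_rpow hJ0] at h3
      rw [ht]
      show Real.log (N i) / Real.log J ≤ _
      rw [div_le_iff₀ hL0]
      have hk0 : (0 : ℝ) ≤ k := Nat.cast_nonneg _
      nlinarith
    have hs1 : 3 - 1 / 1000 ≤ ∑ i, t i := by
      rw [hsum, le_div_iff₀ hL0]
      have h3 := Real.log_le_log (by positivity) hc2
      rw [Real.log_pow, Real.log_mul (by positivity) hprod0.ne', Real.log_pow] at h3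
      push_cast at h3
      nlinarith
    have hs2 : ∑ i, t i ≤ 3 + 1 / 1000 := by
      rw [hsum, div_le_iff₀ hL0]
      have h3 := Real.log_le_log hprod0 hc3
      rw [Real.log_mul (by positivity) (by positivity), Real.log_mul (by norm_num) (by positivity),
        Real.log_pow, Real.log_pow] at h3
      push_cast at h3
      nlinarith
    obtain ⟨S, hS1, hS2⟩ := hcmp k t hOK.k5 ht1 ht2 hs1 hs2
    have hlba := hJB R hR1 hR2 j hj (fun i => cut (f i) (e i)) N hbd hc3 S
      (by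
        rw [← hJt]
        exact Real.rpow_le_rpow_of_exponent_le hJ1.le hS1)
      (by
        rw [← hJt]
        exact Real.rpow_le_rpow_of_exponent_le hJ1.le hS2)
    refine le_trans (le_of_eq ?_) hlba
    refine sum_congr rfl fun p _ => ?_
    rw [Wf]
    refine congrArg _ (sum_congr rfl fun n _ => ?_)
    rw [hw, mul_assoc]
  have hfs : ∀ i n, f i n ≠ 0 → n ≤ X := by
    intro i n h
    by_contra hcon
    apply h
    rw [hf]
    show LB_f (lo J i) (hi J i) X n = 0
    rw [LB_f_apply, if_neg hcon]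
  refine (hdya k X _ (primChars R) w _ f hK0 hfs hmain).trans ?_
  calc ((Nat.log 2 X + 1 : ℕ) : ℝ) ^ k * ((R : ℝ) * (J : ℝ) ^ 2 / (Real.log J) ^ (A + (k + 1)))
      ≤ (Real.log J) ^ (k + 1) * ((R : ℝ) * (J : ℝ) ^ 2 / (Real.log J) ^ (A + (k + 1))) := by
        gcongr
    _ = (R : ℝ) * (J : ℝ) ^ 2 / (Real.log J) ^ A := by
        rw [pow_add (Real.log J) A (k + 1)]
        field_simp

end Pool.Agent.CA.LC
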