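import Pool.Agent.Lib.MP_d610d0_nt.CA.LC.Stm

set_option autoImplicit false

/-!
Piece A4: the fourth moment of the dual sums.
-/

namespace Pool.Agent.CA.LC

open Finset Filter
open Pool.Agent.MP89da58 (tri primChars)
open Pool.Agent.CH.V (pz ex)
open Pool.Agent.CH.D (R_ls)

private lemma A4_pz_norm (t x : ℝ) : ‖pz t x‖ = 1 := by
  rw [pz, ← mul_neg, show (Complex.I * -((t * Real.log x : ℝ) : ℂ)) = ((-(t * Real.log x) : ℝ) : ℂ) *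
    Complex.I from by push_cast; ring]
  exact Complex.norm_exp_ofReal_mul_I _

private lemma A4_pz_mul (t x y : ℝ) (hx : 0 < x) (hy : 0 < y) : pz t (x * y) = pz t x * pz t y := by
  rw [pz, pz, pz, ← Complex.exp_add, Real.log_mul hx.ne' hy.ne']
  congr 1
  push_cast
  ring

private lemma A4_pz_conj (t x : ℝ) : (starRingEnd ℂ) (pz t x) = pz (-t) x := by
  rw [pz, pz, ← Complex.exp_conj]
  congr 1
  rw [map_neg, map_mul, Complex.conj_I, Complex.conj_ofReal]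
  push_cast
  ring

/-- number of factorisations with both factors at most `u` -/
private def A4_c (u n : ℕ) : ℕ := ((Icc 1 u ×ˢ Icc 1 u).filter fun q => q.1 * q.2 = n).card

private lemma A4_c_le (u n : ℕ) (hn : 1 ≤ n) : A4_c u n ≤ n.divisors.card := by
  rw [A4_c]
  refine card_le_card_of_injOn (fun q => q.1) ?_ ?_
  · intro q hq
    simp only [coe_filter, Set.mem_setOf_eq] at hq
    simp only [mem_coe, Nat.mem_divisors]
    exact ⟨⟨q.2, hq.2.symm⟩, by omega⟩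
  · intro q hq q' hq' h
    simp only [coe_filter, mem_product, mem_Icc, Set.mem_setOf_eq] at hq hq'
    have h' : q.1 = q'.1 := h
    ext
    · exact h'
    · have h1 : q.1 * q.2 = q.1 * q'.2 := by rw [hq.2, h', hq'.2]
      exact Nat.eq_of_mul_eq_mul_left (by omega) h1

private lemma A4_sq (r u : ℕ) (χ : DirichletCharacter ℂ r) (θ : ℝ) :
    (∑ m ∈ Icc 1 u, χ (m : ZMod r) * pz (-θ) m) ^ 2 =
      ∑ n ∈ Ioc 0 (0 + u ^ 2), ((A4_c u n : ℂ) * pz (-θ) n) * χ (n : ZMod r) := by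
  have hmaps : ∀ q ∈ Icc 1 u ×ˢ Icc 1 u, q.1 * q.2 ∈ Ioc 0 (0 + u ^ 2) := by
    intro q hq
    rw [mem_product, mem_Icc, mem_Icc] at hq
    rw [mem_Ioc]
    constructor
    · exact Nat.mul_pos hq.1.1 hq.2.1
    · rw [zero_add, sq]
      exact Nat.mul_le_mul hq.1.2 hq.2.2
  rw [sq, sum_mul_sum, ← sum_product', ← sum_fiberwise_of_maps_to hmaps]
  refine sum_congr rfl fun n _ => ?_
  have h1 : ∀ q ∈ (Icc 1 u ×ˢ Icc 1 u).filter (fun q => q.1 * q.2 = n),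
      χ (q.1 : ZMod r) * pz (-θ) q.1 * (χ (q.2 : ZMod r) * pz (-θ) q.2) =
        pz (-θ) n * χ (n : ZMod r) := by
    intro q hq
    rw [mem_filter, mem_product, mem_Icc, mem_Icc] at hq
    obtain ⟨⟨⟨ha, -⟩, ⟨hb, -⟩⟩, h⟩ := hq
    have ha' : (0 : ℝ) < q.1 := by exact_mod_cast ha
    have hb' : (0 : ℝ) < q.2 := by exact_mod_cast hb
    rw [← h]
    push_cast
    rw [A4_pz_mul _ _ _ ha' hb', map_mul]
    ring
  rw [sum_congr rfl h1, sum_const, nsmul_eq_mul, A4_c]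
  ring

private lemma A4_inv (r u : ℕ) (hr : 2 ≤ r) (χ : DirichletCharacter ℂ r) (θ : ℝ) :
    ‖∑ m ∈ Icc 1 u, χ⁻¹ (m : ZMod r) * pz θ m‖ = ‖∑ m ∈ Icc 1 u, χ (m : ZMod r) * pz (-θ) m‖ := by
  haveI : NeZero r := ⟨by omega⟩
  have h : (starRingEnd ℂ) (∑ m ∈ Icc 1 u, χ (m : ZMod r) * pz (-θ) m) =
      ∑ m ∈ Icc 1 u, χ⁻¹ (m : ZMod r) * pz θ m := by
    rw [map_sum]
    refine sum_congr rfl fun m _ => ?_
    rw [map_mul, A4_pz_conj, neg_neg]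
    congr 1
    exact MulChar.star_apply' χ (m : ZMod r)
  rw [← h, RCLike.norm_conj]

theorem p_A4 : S_A4 := by
  rintro ⟨C1, hC1, hls⟩ ⟨-, hdv⟩
  obtain ⟨C2, hC2⟩ := hdv 2
  set C : ℕ := ⌈C1 * 2 ^ C2⌉₊ + C2 with hC
  refine ⟨C, fun Q u θ hQ hu => ?_⟩
  have hu' : (1 : ℝ) ≤ u := by exact_mod_cast hu
  have hlog : 0 ≤ Real.log u := Real.log_nonneg hu'
  have h1 : ∑ p ∈ primChars Q, ‖∑ m ∈ Icc 1 u, p.2⁻¹ (m : ZMod p.1) * pz θ m‖ ^ 4 =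
      ∑ p ∈ primChars Q, ‖∑ n ∈ Ioc 0 (0 + u ^ 2), ((A4_c u n : ℂ) * pz (-θ) n) *
        p.2 (n : ZMod p.1)‖ ^ 2 := by
    refine sum_congr rfl fun p hp => ?_
    have hp2 : 2 ≤ p.1 := by
      rw [primChars, mem_sigma, mem_Icc] at hp
      exact hp.1.1
    rw [A4_inv p.1 u hp2 p.2 θ, ← A4_sq, norm_pow]
    ring
  rw [h1]
  refine (hls Q 0 (u ^ 2) (fun n => (A4_c u n : ℂ) * pz (-θ) n)).trans ?_
  have h2 : ∑ n ∈ Ioc 0 (0 + u ^ 2), ‖(A4_c u n : ℂ) * pz (-θ) n‖ ^ 2 ≤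
      (u : ℝ) ^ 2 * (2 ^ C2 * (1 + Real.log u) ^ C2) := by
    have h3 : ∑ n ∈ Ioc 0 (0 + u ^ 2), ‖(A4_c u n : ℂ) * pz (-θ) n‖ ^ 2 ≤
        ∑ n ∈ Icc 1 (u ^ 2), ((n.divisors.card : ℕ) : ℝ) ^ 2 := by
      rw [zero_add]
      have e : Ioc 0 (u ^ 2) = Icc 1 (u ^ 2) := by
        ext n
        rw [mem_Ioc, mem_Icc]
        omega
      rw [e]
      refine sum_le_sum fun n hn => ?_
      rw [norm_mul, A4_pz_norm, mul_one, Complex.norm_natCast]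
      have h4 : ((A4_c u n : ℕ) : ℝ) ≤ ((n.divisors.card : ℕ) : ℝ) := by
        exact_mod_cast A4_c_le u n (mem_Icc.mp hn).1
      exact pow_le_pow_left₀ (Nat.cast_nonneg _) h4 2
    refine h3.trans ((hC2 (u ^ 2)).trans ?_)
    rw [← mul_pow]
    push_cast
    rw [Real.log_pow]
    push_cast
    have h5 : 1 + 2 * Real.log u ≤ 2 * (1 + Real.log u) := by linarith
    exact mul_le_mul_of_nonneg_left (pow_le_pow_left₀ (by positivity) h5 _) (by positivity)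
  have h6 : C1 * (((u ^ 2 : ℕ) : ℝ) + (Q : ℝ) ^ 2) * ∑ n ∈ Ioc 0 (0 + u ^ 2),
      ‖(A4_c u n : ℂ) * pz (-θ) n‖ ^ 2 ≤ C1 * (((u ^ 2 : ℕ) : ℝ) + (Q : ℝ) ^ 2) *
      ((u : ℝ) ^ 2 * (2 ^ C2 * (1 + Real.log u) ^ C2)) :=
    mul_le_mul_of_nonneg_left h2 (by positivity)
  refine h6.trans ?_
  push_cast
  have h7 : C1 * 2 ^ C2 ≤ (C : ℝ) := by
    have h8 : C1 * 2 ^ C2 ≤ (⌈C1 * 2 ^ C2⌉₊ : ℝ) := Nat.le_ceil _
    have h9 : ((⌈C1 * 2 ^ C2⌉₊ : ℕ) : ℝ) ≤ (C : ℝ) := by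
      rw [hC]
      push_cast
      have : (0 : ℝ) ≤ C2 := Nat.cast_nonneg _
      linarith
    exact h8.trans h9
  have h10 : (1 + Real.log u) ^ C2 ≤ (1 + Real.log u) ^ C :=
    pow_le_pow_right₀ (by linarith) (by omega)
  have h11 : C1 * 2 ^ C2 * (1 + Real.log u) ^ C2 ≤ C * (1 + Real.log u) ^ C :=
    mul_le_mul h7 h10 (by positivity) (Nat.cast_nonneg _)
  calc C1 * ((u : ℝ) ^ 2 + (Q : ℝ) ^ 2) * ((u : ℝ) ^ 2 * (2 ^ C2 * (1 + Real.log u) ^ C2))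
      = (((Q : ℝ) ^ 2 + (u : ℝ) ^ 2) * (u : ℝ) ^ 2) * (C1 * 2 ^ C2 * (1 + Real.log u) ^ C2) := by ring
    _ ≤ (((Q : ℝ) ^ 2 + (u : ℝ) ^ 2) * (u : ℝ) ^ 2) * (C * (1 + Real.log u) ^ C) :=
        mul_le_mul_of_nonneg_left h11 (by positivity)
    _ = C * ((Q : ℝ) ^ 2 + (u : ℝ) ^ 2) * (u : ℝ) ^ 2 * (1 + Real.log u) ^ C := by ring

end Pool.Agent.CA.LC
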