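import Pool.Agent.Lib.MP_d610d0_nt.CA.LC.Stm

set_option autoImplicit false

/-!
Project CA, section LC: piece LBa (groupable products of blocks).
-/

namespace Pool.Agent.CA.LC

open Finset Filter
open scoped ContDiff
open Pool.Agent.MP89da58 (tri primChars)
open Pool.Agent.CH (zJ wJ wL)
open Pool.Agent.CH.D (R_spc)

/-- the real inequality at the end -/
theorem LBa_real (A c : ℕ) (C K L x y z R M N G H : ℝ) (hC : 1 ≤ C) (hK : 1 ≤ K) (hL : 1 ≤ L)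
    (hx : 1 ≤ x) (hR : 0 ≤ R) (hM : 0 ≤ M) (hN : 0 ≤ N) (hy : R ^ 2 * y ≤ x) (hz : 0 ≤ z)
    (hMz : M * z ≤ K * x ^ 2) (hNz : N * z ≤ K * x ^ 2) (hMN : M * N ≤ K * x ^ 3)
    (hG0 : 0 ≤ G) (hH0 : 0 ≤ H)
    (hG : G ≤ M * (5 * L) ^ c) (hH : H ≤ N * (5 * L) ^ c)
    (e1 : 3 * (C ^ 2 * (5 * L) ^ (2 * c) * L ^ (2 * A)) * K ≤ y)
    (e2 : 6 * (C ^ 2 * (5 * L) ^ (2 * c) * L ^ (2 * A)) * K ^ 2 ≤ z)
    (e3 : 3 * (C ^ 2 * (5 * L) ^ (2 * c) * L ^ (2 * A)) * K ^ 2 ≤ R ^ 2) :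
    C * Real.sqrt ((R ^ 2 + M / x) * (R ^ 2 + N / x) * (G * H)) ≤ R * x ^ 2 / L ^ A := by
  have hx0 : 0 < x := by linarith
  have hL0 : 0 < L := by linarith
  have hLA : 0 < L ^ A := pow_pos hL0 A
  rw [le_div_iff₀ hLA]
  have hS : Real.sqrt ((R ^ 2 + M / x) * (R ^ 2 + N / x) * (G * H)) ≤
      R * x ^ 2 / (C * L ^ A) := by
    apply Real.sqrt_le_iff.2
    refine ⟨by positivity, ?_⟩
    rw [div_pow, le_div_iff₀ (by positivity)]
    set D : ℝ := C ^ 2 * (5 * L) ^ (2 * c) * L ^ (2 * A) with hD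
    have hD0 : 0 < D := by positivity
    have hGH : G * H ≤ (M * N) * (5 * L) ^ (2 * c) := by
      calc G * H ≤ (M * (5 * L) ^ c) * (N * (5 * L) ^ c) :=
            mul_le_mul hG hH hH0 (by positivity)
        _ = (M * N) * (5 * L) ^ (2 * c) := by rw [two_mul, pow_add]; ring
    have hE0 : 0 ≤ (R ^ 2 + M / x) * (R ^ 2 + N / x) := by positivity
    have h1 : (R ^ 2 + M / x) * (R ^ 2 + N / x) * (G * H) * (C * L ^ A) ^ 2 ≤
        ((R ^ 2 + M / x) * (R ^ 2 + N / x)) * (M * N) * D := by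
      calc (R ^ 2 + M / x) * (R ^ 2 + N / x) * (G * H) * (C * L ^ A) ^ 2
          ≤ (R ^ 2 + M / x) * (R ^ 2 + N / x) * ((M * N) * (5 * L) ^ (2 * c)) *
            (C * L ^ A) ^ 2 := by
            apply mul_le_mul_of_nonneg_right _ (by positivity)
            exact mul_le_mul_of_nonneg_left hGH hE0
        _ = ((R ^ 2 + M / x) * (R ^ 2 + N / x)) * (M * N) * D := by
            rw [hD]
            have : (C * L ^ A) ^ 2 = C ^ 2 * L ^ (2 * A) := by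
              rw [mul_pow, ← pow_mul, mul_comm A 2]
            rw [this]; ring
    refine h1.trans ?_
    -- the three terms
    have h2 : ((R ^ 2 + M / x) * (R ^ 2 + N / x)) * (M * N) =
        R ^ 4 * (M * N) + R ^ 2 * ((M + N) * (M * N)) / x + (M * N) ^ 2 / x ^ 2 := by
      field_simp
      ring
    rw [h2, add_mul, add_mul]
    have hMN0 : 0 ≤ M * N := mul_nonneg hM hN
    have t1 : R ^ 4 * (M * N) * D ≤ R ^ 2 * x ^ 4 / 3 := by
      have a1 : R ^ 4 * (M * N) * D ≤ R ^ 4 * (K * x ^ 3) * D := by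
        apply mul_le_mul_of_nonneg_right _ hD0.le
        exact mul_le_mul_of_nonneg_left hMN (by positivity)
      have a2 : R ^ 2 * (3 * D * K) ≤ x :=
        (mul_le_mul_of_nonneg_left e1 (by positivity)).trans hy
      have a3 : R ^ 4 * (K * x ^ 3) * D = (R ^ 2 * x ^ 3 / 3) * (R ^ 2 * (3 * D * K)) := by ring
      rw [a3] at a1
      refine a1.trans ((mul_le_mul_of_nonneg_left a2 (by positivity)).trans (le_of_eq ?_))
      ring
    have t2 : R ^ 2 * ((M + N) * (M * N)) / x * D ≤ R ^ 2 * x ^ 4 / 3 := by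
      have hDz : 6 * D * K ^ 2 ≤ z := e2
      have hK0 : (0 : ℝ) < K := by linarith
      have a1 : (M + N) * (6 * D * K ^ 2) ≤ 2 * (K * x ^ 2) := by
        have := mul_le_mul_of_nonneg_left hDz (add_nonneg hM hN)
        linarith [add_mul M N z]
      have a2 : (M + N) * (M * N) * (6 * D * K ^ 2) ≤ 2 * (K * x ^ 2) * (K * x ^ 3) := by
        calc (M + N) * (M * N) * (6 * D * K ^ 2) = ((M + N) * (6 * D * K ^ 2)) * (M * N) := by
              ring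
          _ ≤ (2 * (K * x ^ 2)) * (K * x ^ 3) :=
              mul_le_mul a1 hMN hMN0 (by positivity)
      have a3 : (M + N) * (M * N) * D ≤ x ^ 5 / 3 := by
        have hK2 : 0 < 6 * K ^ 2 := by positivity
        have : (M + N) * (M * N) * D * (6 * K ^ 2) ≤ x ^ 5 / 3 * (6 * K ^ 2) := by
          calc (M + N) * (M * N) * D * (6 * K ^ 2) = (M + N) * (M * N) * (6 * D * K ^ 2) := by ring
            _ ≤ 2 * (K * x ^ 2) * (K * x ^ 3) := a2
            _ = x ^ 5 / 3 * (6 * K ^ 2) := by ring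
        exact le_of_mul_le_mul_right this hK2
      rw [div_mul_eq_mul_div, div_le_iff₀ hx0]
      calc R ^ 2 * ((M + N) * (M * N)) * D = R ^ 2 * ((M + N) * (M * N) * D) := by ring
        _ ≤ R ^ 2 * (x ^ 5 / 3) := mul_le_mul_of_nonneg_left a3 (by positivity)
        _ = R ^ 2 * x ^ 4 / 3 * x := by ring
    have t3 : (M * N) ^ 2 / x ^ 2 * D ≤ R ^ 2 * x ^ 4 / 3 := by
      have a1 : (M * N) ^ 2 ≤ (K * x ^ 3) ^ 2 := pow_le_pow_left₀ hMN0 hMN 2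
      rw [div_mul_eq_mul_div, div_le_iff₀ (by positivity)]
      calc (M * N) ^ 2 * D ≤ (K * x ^ 3) ^ 2 * D := mul_le_mul_of_nonneg_right a1 hD0.le
        _ = (x ^ 6 / 3) * (3 * D * K ^ 2) := by ring
        _ ≤ (x ^ 6 / 3) * R ^ 2 := mul_le_mul_of_nonneg_left e3 (by positivity)
        _ = R ^ 2 * x ^ 4 / 3 * x ^ 2 := by ring
    have h3 : (R * x ^ 2) ^ 2 = R ^ 2 * x ^ 4 := by ring
    rw [h3]
    linarith
  calc C * Real.sqrt ((R ^ 2 + M / x) * (R ^ 2 + N / x) * (G * H)) * L ^ A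
      ≤ C * (R * x ^ 2 / (C * L ^ A)) * L ^ A := by
        apply mul_le_mul_of_nonneg_right _ hLA.le
        exact mul_le_mul_of_nonneg_left hS (by linarith)
    _ = R * x ^ 2 := by
        have : C ≠ 0 := by linarith
        field_simp

/-- powers of `log J` are small -/
theorem LBa_log (E : ℝ) (k : ℕ) (η : ℝ) (hη : 0 < η) (hE : 0 < E) :
    ∀ᶠ J : ℕ in atTop, E * (Real.log J) ^ k ≤ (J : ℝ) ^ η := by
  have hlog : Tendsto (fun J : ℕ => Real.log (J : ℝ)) atTop atTop :=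
    Real.tendsto_log_atTop.comp tendsto_natCast_atTop_atTop
  have h1 := isLittleO_log_rpow_rpow_atTop (s := η) (k : ℝ) hη
  have h2 := h1.bound (show (0 : ℝ) < E⁻¹ by positivity)
  have h3 := tendsto_natCast_atTop_atTop (R := ℝ) |>.eventually h2
  filter_upwards [h3, hlog.eventually_ge_atTop 1] with J hJ hL
  rw [Real.rpow_natCast, Real.norm_of_nonneg (by positivity),
    Real.norm_of_nonneg (Real.rpow_nonneg (Nat.cast_nonneg J) η)] at hJ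
  calc E * (Real.log J) ^ k ≤ E * (E⁻¹ * (J : ℝ) ^ η) := mul_le_mul_of_nonneg_left hJ hE.le
    _ = (J : ℝ) ^ η := by rw [← mul_assoc, mul_inv_cancel₀ hE.ne', one_mul]

/-- the logarithm of the length -/
theorem LBa_len (L : ℝ) (J M : ℕ) (hL : L = Real.log J) (hL1 : 1 ≤ L) (hJ : 1 ≤ J)
    (hM : (M : ℝ) ≤ (J : ℝ) ^ 3) : 1 + Real.log M ≤ 5 * L := by
  rcases Nat.eq_zero_or_pos M with h | h
  · subst h; simp; linarith
  · have h1 : Real.log M ≤ Real.log ((J : ℝ) ^ 3) :=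
      Real.log_le_log (by exact_mod_cast h) hM
    rw [Real.log_pow, ← hL] at h1
    push_cast at h1
    linarith

theorem p_LBa : S_LBa := by
  intro hbil hcof hcvl hspc m A δ hδ
  obtain ⟨C, hC, hbil⟩ := hbil
  obtain ⟨c, hcof⟩ := hcof m
  set K : ℝ := 8 ^ m * 27 with hKdef
  have h8 : (1 : ℝ) ≤ 8 ^ m := one_le_pow₀ (by norm_num)
  have h2m : (1 : ℝ) ≤ 2 ^ m := one_le_pow₀ (by norm_num)
  have h4m : (1 : ℝ) ≤ 4 ^ m := one_le_pow₀ (by norm_num)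
  have hK1 : 1 ≤ K := by rw [hKdef]; linarith
  have hK0 : 0 < K := by linarith
  have hlog : Tendsto (fun J : ℕ => Real.log (J : ℝ)) atTop atTop :=
    Real.tendsto_log_atTop.comp tendsto_natCast_atTop_atTop
  refine ⟨A + c + 1, ?_⟩
  filter_upwards [LBa_log (3 * C ^ 2 * 5 ^ (2 * c) * K) (2 * c + 2 * A) (4 / 10000) (by norm_num)
      (by positivity),
    LBa_log (6 * C ^ 2 * 5 ^ (2 * c) * K ^ 2) (2 * c + 2 * A) δ hδ (by positivity),
    hlog.eventually_ge_atTop (max 1 (3 * C ^ 2 * 5 ^ (2 * c) * K ^ 2)),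
    (tendsto_natCast_atTop_atTop (R := ℝ)).eventually_ge_atTop K,
    eventually_ge_atTop 1] with J hJ1 hJ2 hJ3 hJ4 hJ5
  intro R hR1 hR2 j hj f N hf hprod S hS hS'
  set L : ℝ := Real.log J with hLdef
  have hL : 1 ≤ L := le_trans (le_max_left _ _) hJ3
  have hL3 : 3 * C ^ 2 * 5 ^ (2 * c) * K ^ 2 ≤ L := le_trans (le_max_right _ _) hJ3
  have hL0 : 0 < L := by linarith
  have hx : (1 : ℝ) ≤ (J : ℝ) := by exact_mod_cast hJ5
  have hx0 : (0 : ℝ) < J := by linarith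
  have hR0 : 0 < R := by
    have : (0 : ℝ) < (R : ℝ) := lt_of_lt_of_le (by positivity) hR1
    exact_mod_cast this
  set P : ℝ := ∏ i ∈ S, N i with hP
  set Q : ℝ := ∏ i ∈ Sᶜ, N i with hQ
  have hP0 : 0 < P := lt_of_lt_of_le (Real.rpow_pos_of_pos hx0 _) hS
  have hQ0 : 0 < Q := lt_of_lt_of_le (Real.rpow_pos_of_pos hx0 _) hS'
  have hPQ : P * Q ≤ 2 ^ m * (27 * (J : ℝ) ^ 3) := by
    rw [hP, hQ, Finset.prod_mul_prod_compl]; exact hprod
  set M : ℕ := ⌊2 ^ m * P⌋₊ with hM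
  set M' : ℕ := ⌊2 ^ m * Q⌋₊ with hM'
  have hMP : (M : ℝ) ≤ 2 ^ m * P := Nat.floor_le (by positivity)
  have hMQ : (M' : ℝ) ≤ 2 ^ m * Q := Nat.floor_le (by positivity)
  -- sizes
  have h248 : (2 : ℝ) ^ m * 2 ^ m * 2 ^ m = 8 ^ m := by
    rw [← mul_pow, ← mul_pow]; norm_num
  have hMM : (M : ℝ) * M' ≤ K * (J : ℝ) ^ 3 := by
    calc (M : ℝ) * M' ≤ (2 ^ m * P) * (2 ^ m * Q) :=
          mul_le_mul hMP hMQ (Nat.cast_nonneg _) (by positivity)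
      _ = 2 ^ m * 2 ^ m * (P * Q) := by ring
      _ ≤ 2 ^ m * 2 ^ m * (2 ^ m * (27 * (J : ℝ) ^ 3)) :=
          mul_le_mul_of_nonneg_left hPQ (by positivity)
      _ = K * (J : ℝ) ^ 3 := by rw [hKdef, ← h248]; ring
  have hone : ∀ (P Q : ℝ) (M : ℕ), 0 < P → (J : ℝ) ^ (1 + δ) ≤ Q →
      P * Q ≤ 2 ^ m * (27 * (J : ℝ) ^ 3) → (M : ℝ) ≤ 2 ^ m * P →
      (M : ℝ) * (J : ℝ) ^ δ ≤ K * (J : ℝ) ^ 2 := by
    intro P Q M hP0 hQ hPQ hM
    have a1 : (J : ℝ) ^ (1 + δ) = J * (J : ℝ) ^ δ := by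
      rw [Real.rpow_add hx0, Real.rpow_one]
    have a2 : P * (J * (J : ℝ) ^ δ) ≤ 2 ^ m * (27 * (J : ℝ) ^ 3) := by
      rw [← a1]
      exact (mul_le_mul_of_nonneg_left hQ hP0.le).trans hPQ
    have a3 : P * (J : ℝ) ^ δ ≤ 2 ^ m * (27 * (J : ℝ) ^ 2) := by
      have : (P * (J : ℝ) ^ δ) * J ≤ (2 ^ m * (27 * (J : ℝ) ^ 2)) * J := by
        calc (P * (J : ℝ) ^ δ) * J = P * (J * (J : ℝ) ^ δ) := by ring
          _ ≤ 2 ^ m * (27 * (J : ℝ) ^ 3) := a2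
          _ = (2 ^ m * (27 * (J : ℝ) ^ 2)) * J := by ring
      exact le_of_mul_le_mul_right this hx0
    calc (M : ℝ) * (J : ℝ) ^ δ ≤ (2 ^ m * P) * (J : ℝ) ^ δ :=
          mul_le_mul_of_nonneg_right hM (Real.rpow_nonneg hx0.le _)
      _ = 2 ^ m * (P * (J : ℝ) ^ δ) := by ring
      _ ≤ 2 ^ m * (2 ^ m * (27 * (J : ℝ) ^ 2)) := mul_le_mul_of_nonneg_left a3 (by positivity)
      _ = (2 ^ m * 2 ^ m) * 27 * (J : ℝ) ^ 2 := by ring
      _ ≤ K * (J : ℝ) ^ 2 := by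
          apply mul_le_mul_of_nonneg_right _ (by positivity)
          rw [hKdef, ← h248]
          have : (0 : ℝ) ≤ 2 ^ m * 2 ^ m := by positivity
          nlinarith
  have hMz := hone P Q M hP0 hS' hPQ hMP
  have hNz := hone Q P M' hQ0 hS (by rw [mul_comm]; exact hPQ) hMQ
  have hδ1 : (1 : ℝ) ≤ (J : ℝ) ^ δ := Real.one_le_rpow hx hδ.le
  have hlen : ∀ M : ℕ, (M : ℝ) * (J : ℝ) ^ δ ≤ K * (J : ℝ) ^ 2 → (M : ℝ) ≤ (J : ℝ) ^ 3 := by
    intro M h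
    have a1 : (M : ℝ) ≤ M * (J : ℝ) ^ δ := le_mul_of_one_le_right (Nat.cast_nonneg _) hδ1
    calc (M : ℝ) ≤ K * (J : ℝ) ^ 2 := a1.trans h
      _ ≤ J * (J : ℝ) ^ 2 := mul_le_mul_of_nonneg_right hJ4 (by positivity)
      _ = (J : ℝ) ^ 3 := by ring
  have hgM := LBa_len L J M hLdef hL hJ5 (hlen M hMz)
  have hgM' := LBa_len L J M' hLdef hL hJ5 (hlen M' hNz)
  -- the two factors
  set g : ArithmeticFunction ℂ := ∏ i ∈ S, f i with hg
  set h : ArithmeticFunction ℂ := ∏ i ∈ Sᶜ, f i with hh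
  have hgh : ∏ i, f i = g * h := by rw [hg, hh, Finset.prod_mul_prod_compl]
  obtain ⟨-, g2, g3⟩ := hcof f N hf S
  obtain ⟨-, h2, h3⟩ := hcof f N hf Sᶜ
  have hgn : ∀ n, g n ≠ 0 → n ≤ M := fun n hn => Nat.le_floor (g2 n hn).2
  have hhn : ∀ n, h n ≠ 0 → n ≤ M' := fun n hn => Nat.le_floor (h2 n hn).2
  have hw0 : ∀ n, 27 * J ^ 3 < n → wJ J j n = 0 := by
    intro n hn
    by_contra hne
    have hn1 : 1 ≤ n := by omega
    have h4 := ((hspc J hJ5).2.1 j hj n hn1 hne).2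
    have h5 : j + 1 ≤ 3 * J := by
      have := (mem_Ioc.1 hj).2
      omega
    have h6 : (j + 1) ^ 3 ≤ (3 * J) ^ 3 := Nat.pow_le_pow_left h5 3
    have h7 : (3 * J) ^ 3 = 27 * J ^ 3 := by ring
    omega
  have hW : ∀ p : (Σ q, DirichletCharacter ℂ q), Wf (∏ i, f i) J j p.2 =
      ∑ a ∈ Icc 1 M, ∑ b ∈ Icc 1 M',
        g a * h b * p.2 ((a * b : ℕ) : ZMod p.1) * (wJ J j (a * b) : ℂ) := by
    intro p
    have e1 := hcvl g h M M' (27 * J ^ 3) (fun n => p.2 (n : ZMod p.1) * (wJ J j n : ℂ)) hgn hhn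
      (fun n hn => by simp only [hw0 n hn]; simp)
    unfold Wf
    rw [hgh]
    calc ∑ n ∈ Icc 1 (27 * J ^ 3), (g * h) n * p.2 (n : ZMod p.1) * (wJ J j n : ℂ)
        = ∑ n ∈ Icc 1 (27 * J ^ 3), (g * h) n * (p.2 (n : ZMod p.1) * (wJ J j n : ℂ)) :=
          Finset.sum_congr rfl fun n _ => mul_assoc _ _ _
      _ = _ := e1
      _ = _ := Finset.sum_congr rfl fun a _ => Finset.sum_congr rfl fun b _ =>
          (mul_assoc _ _ _).symm
  have hkey := hbil J j M M' R (fun n => g n) (fun n => h n) hJ5 hR0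
  have hW' : ∑ p ∈ primChars R, ‖Wf (∏ i, f i) J j p.2‖ =
      ∑ p ∈ primChars R, ‖∑ a ∈ Icc 1 M, ∑ b ∈ Icc 1 M',
        g a * h b * p.2 ((a * b : ℕ) : ZMod p.1) * (wJ J j (a * b) : ℂ)‖ :=
    Finset.sum_congr rfl fun p _ => by rw [hW p]
  rw [hW']
  refine hkey.trans ?_
  have hD : C ^ 2 * (5 * L) ^ (2 * c) * L ^ (2 * A) =
      C ^ 2 * 5 ^ (2 * c) * L ^ (2 * c + 2 * A) := by
    rw [mul_pow, pow_add]; ring
  refine LBa_real A c C K L J ((J : ℝ) ^ (4 / 10000 : ℝ)) ((J : ℝ) ^ δ) R M M'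
    (∑ m ∈ Icc 1 M, ‖g m‖ ^ 2) (∑ n ∈ Icc 1 M', ‖h n‖ ^ 2) hC hK1 hL hx (Nat.cast_nonneg _)
    (Nat.cast_nonneg _) (Nat.cast_nonneg _) ?_ (Real.rpow_nonneg hx0.le _) hMz hNz hMM
    (Finset.sum_nonneg fun _ _ => sq_nonneg _) (Finset.sum_nonneg fun _ _ => sq_nonneg _)
    ?_ ?_ ?_ ?_ ?_
  · calc (R : ℝ) ^ 2 * (J : ℝ) ^ (4 / 10000 : ℝ)
        ≤ ((J : ℝ) ^ (4998 / 10000 : ℝ)) ^ 2 * (J : ℝ) ^ (4 / 10000 : ℝ) := by
          apply mul_le_mul_of_nonneg_right _ (Real.rpow_nonneg hx0.le _)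
          exact pow_le_pow_left₀ (Nat.cast_nonneg R) hR2 2
      _ = (J : ℝ) := by
          rw [← Real.rpow_natCast, ← Real.rpow_mul hx0.le, ← Real.rpow_add hx0]
          norm_num
  · refine (g3 M).trans (mul_le_mul_of_nonneg_left ?_ (Nat.cast_nonneg _))
    refine pow_le_pow_left₀ ?_ hgM c
    have := Real.log_natCast_nonneg M
    linarith
  · refine (h3 M').trans (mul_le_mul_of_nonneg_left ?_ (Nat.cast_nonneg _))
    refine pow_le_pow_left₀ ?_ hgM' c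
    have := Real.log_natCast_nonneg M'
    linarith
  · rw [hD]
    calc 3 * (C ^ 2 * 5 ^ (2 * c) * L ^ (2 * c + 2 * A)) * K =
          3 * C ^ 2 * 5 ^ (2 * c) * K * L ^ (2 * c + 2 * A) := by ring
      _ ≤ _ := hJ1
  · rw [hD]
    calc 6 * (C ^ 2 * 5 ^ (2 * c) * L ^ (2 * c + 2 * A)) * K ^ 2 =
          6 * C ^ 2 * 5 ^ (2 * c) * K ^ 2 * L ^ (2 * c + 2 * A) := by ring
      _ ≤ _ := hJ2
  · rw [hD]
    calc 3 * (C ^ 2 * 5 ^ (2 * c) * L ^ (2 * c + 2 * A)) * K ^ 2 =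
          (3 * C ^ 2 * 5 ^ (2 * c) * K ^ 2) * L ^ (2 * c + 2 * A) := by ring
      _ ≤ L * L ^ (2 * c + 2 * A) := mul_le_mul_of_nonneg_right hL3 (by positivity)
      _ ≤ L ^ 2 * L ^ (2 * c + 2 * A) := by
          apply mul_le_mul_of_nonneg_right _ (by positivity)
          nlinarith
      _ = (L ^ (A + c + 1)) ^ 2 := by rw [← pow_add, ← pow_mul]; congr 1; ring
      _ ≤ (R : ℝ) ^ 2 := pow_le_pow_left₀ (by positivity) hR1 2

end Pool.Agent.CA.LC
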