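import Pool.Agent.Lib.MP_d610d0_nt.CA.LC.Stm

set_option autoImplicit false

/-!
Project CA, section LC, piece LBb: products with a very long smooth block.
-/

namespace Pool.Agent.CA.LC

open Finset Filter
open Pool.Agent.MP89da58 (tri primChars)
open Pool.Agent.CH (wJ wL)
open Pool.Agent.CH.D (R_spc)

private theorem LBb_mem {R : ℕ} {p : Σ q, DirichletCharacter ℂ q} (hp : p ∈ primChars R) :
    2 ≤ p.1 ∧ p.1 ≤ R ∧ p.2 ≠ 1 := by
  classical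
  rw [Pool.Agent.MP89da58.primChars, mem_sigma, mem_filter, mem_Icc] at hp
  refine ⟨hp.1.1, hp.1.2, ?_⟩
  have h3 := hp.2.2
  have h2 := hp.1.1
  have : NeZero p.1 := ⟨by omega⟩
  intro h
  rw [h, DirichletCharacter.isPrimitive_def, DirichletCharacter.conductor_one] at h3
  omega

private theorem LBb_ev (D K : ℝ) (n : ℕ) : ∀ᶠ J : ℕ in atTop, 1 ≤ Real.log J ∧
    K * (J : ℝ) ^ (1 + 1 / 50000 : ℝ) ≤ (J : ℝ) ^ 2 ∧
    D * (Real.log J) ^ n ≤ (J : ℝ) ^ (19 / 50000 : ℝ) := by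
  have h1 : ∀ᶠ x : ℝ in atTop, 1 ≤ Real.log x := Real.tendsto_log_atTop.eventually_ge_atTop _
  have h2 : ∀ᶠ x : ℝ in atTop, K ≤ x ^ (49999 / 50000 : ℝ) :=
    (tendsto_rpow_atTop (by norm_num)).eventually_ge_atTop _
  have h3 : ∀ᶠ x : ℝ in atTop, D * (Real.log x) ^ n ≤ x ^ (19 / 50000 : ℝ) := by
    have h := (isLittleO_log_rpow_rpow_atTop (n : ℝ) (s := 19 / 50000) (by norm_num)).def
      (c := 1 / (|D| + 1)) (by positivity)
    filter_upwards [h, eventually_ge_atTop 1] with x hx hx1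
    rw [Real.norm_of_nonneg (Real.rpow_nonneg (Real.log_nonneg hx1) _),
      Real.norm_of_nonneg (Real.rpow_nonneg (by linarith) _), Real.rpow_natCast] at hx
    have hD : D ≤ |D| + 1 := (le_abs_self D).trans (by linarith)
    have hD1 : 0 < |D| + 1 := by positivity
    have hL : 0 ≤ (Real.log x) ^ n := pow_nonneg (Real.log_nonneg hx1) _
    calc D * (Real.log x) ^ n ≤ (|D| + 1) * (Real.log x) ^ n := mul_le_mul_of_nonneg_right hD hL
      _ ≤ (|D| + 1) * (1 / (|D| + 1) * x ^ (19 / 50000 : ℝ)) := mul_le_mul_of_nonneg_left hx hD1.le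
      _ = x ^ (19 / 50000 : ℝ) := by field_simp
  have h4 : ∀ᶠ x : ℝ in atTop, 1 ≤ Real.log x ∧ K * x ^ (1 + 1 / 50000 : ℝ) ≤ x ^ 2 ∧
      D * (Real.log x) ^ n ≤ x ^ (19 / 50000 : ℝ) := by
    filter_upwards [h1, h2, h3, eventually_gt_atTop 0] with x a1 a2 a3 a4
    refine ⟨a1, ?_, a3⟩
    calc K * x ^ (1 + 1 / 50000 : ℝ) ≤ x ^ (49999 / 50000 : ℝ) * x ^ (1 + 1 / 50000 : ℝ) :=
          mul_le_mul_of_nonneg_right a2 (Real.rpow_nonneg a4.le _)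
      _ = x ^ 2 := by
          rw [← Real.rpow_add a4, ← Real.rpow_natCast]
          norm_num
  exact tendsto_natCast_atTop_atTop.eventually h4

/-- the bound for one character -/
private theorem LBb_one {m : ℕ} {Ct : ℝ} {Cd : ℕ} (hCt : 0 < Ct)
    (ht : ∀ (J j e r X : ℕ) (N : ℝ) (i : Fin 2)
      (χ : DirichletCharacter ℂ r), 1 ≤ J → j ∈ Ioc J (2 * J) → 1 ≤ e → 1 ≤ r → χ ≠ 1 → 1 ≤ N →
      ‖∑ l ∈ Icc 1 X, χ (l : ZMod r) * ((Vs i (l / N) : ℝ) : ℂ) * (wJ J j (e * l) : ℂ)‖ ≤ Ct * r)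
    (hd1 : ∀ m n : ℕ, dm m n ≤ ((n.divisors.card : ℕ) : ℝ) ^ m)
    (hd2 : ∀ x : ℕ, ∑ n ∈ Icc 1 x, ((n.divisors.card : ℕ) : ℝ) ^ m ≤ x * (1 + Real.log x) ^ Cd)
    (hcvl : R_cvl) (hspc : R_spc) (J j E : ℕ) (hJ : 1 ≤ J) (hj : j ∈ Ioc J (2 * J))
    (g h : ArithmeticFunction ℂ) (N : ℝ) (hg : ∀ n, ‖g n‖ ≤ dm m n) (hgE : ∀ n, g n ≠ 0 → n ≤ E)
    (hh : Sb h N) (hhB : Bd h N) (r : ℕ) (χ : DirichletCharacter ℂ r) (hr : 1 ≤ r) (hχ : χ ≠ 1) :
    ‖Wf (g * h) J j χ‖ ≤ Ct * r * (E * (1 + Real.log E) ^ Cd) := by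
  obtain ⟨hN, i, hi⟩ := hh
  have hjJ := Finset.mem_Ioc.1 hj
  have hw : ∀ n : ℕ, 27 * J ^ 3 < n → χ (n : ZMod r) * (wJ J j n : ℂ) = 0 := by
    intro n hn
    by_contra hc
    have h1 : wJ J j n ≠ 0 := by
      intro h0
      apply hc
      rw [h0, Complex.ofReal_zero, mul_zero]
    have h2 := ((hspc J hJ).2.1 j hj n (by omega) h1).2
    have h3 : (j + 1) ^ 3 ≤ (3 * J) ^ 3 := Nat.pow_le_pow_left (by omega) 3
    have h4 : (3 * J) ^ 3 = 27 * J ^ 3 := by ring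
    omega
  have hX : ∀ n, h n ≠ 0 → n ≤ ⌊2 * N⌋₊ := fun n hn => Nat.le_floor (hhB.sp n hn).2
  have e1 : Wf (g * h) J j χ = ∑ e ∈ Icc 1 E, g e * χ (e : ZMod r) *
      ∑ l ∈ Icc 1 ⌊2 * N⌋₊, χ (l : ZMod r) * ((Vs i (l / N) : ℝ) : ℂ) * (wJ J j (e * l) : ℂ) := by
    unfold Wf
    have e2 := hcvl g h E ⌊2 * N⌋₊ (27 * J ^ 3) (fun n => χ (n : ZMod r) * (wJ J j n : ℂ)) hgE hX hw
    have e3 : ∑ n ∈ Icc 1 (27 * J ^ 3), (g * h) n * χ (n : ZMod r) * (wJ J j n : ℂ) =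
        ∑ n ∈ Icc 1 (27 * J ^ 3), (g * h) n * (χ (n : ZMod r) * (wJ J j n : ℂ)) :=
      Finset.sum_congr rfl fun n _ => mul_assoc _ _ _
    rw [e3, e2]
    apply Finset.sum_congr rfl
    intro e _
    rw [Finset.mul_sum]
    apply Finset.sum_congr rfl
    intro l hl
    rw [hi l (Finset.mem_Icc.1 hl).1, Nat.cast_mul, map_mul]
    ring
  rw [e1]
  have hE0 : 0 ≤ Ct * (r : ℝ) := by positivity
  calc _ ≤ ∑ e ∈ Icc 1 E, ‖g e * χ (e : ZMod r) *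
        ∑ l ∈ Icc 1 ⌊2 * N⌋₊, χ (l : ZMod r) * ((Vs i (l / N) : ℝ) : ℂ) *
          (wJ J j (e * l) : ℂ)‖ := norm_sum_le _ _
    _ ≤ ∑ e ∈ Icc 1 E, ((e.divisors.card : ℕ) : ℝ) ^ m * (Ct * r) := by
        apply Finset.sum_le_sum
        intro e he
        rw [norm_mul, norm_mul]
        have h1 := ht J j e r ⌊2 * N⌋₊ N i χ hJ hj (Finset.mem_Icc.1 he).1 hr hχ hN
        have h2 : ‖g e‖ * ‖χ (e : ZMod r)‖ ≤ ((e.divisors.card : ℕ) : ℝ) ^ m := by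
          calc ‖g e‖ * ‖χ (e : ZMod r)‖ ≤ ‖g e‖ * 1 :=
                mul_le_mul_of_nonneg_left (DirichletCharacter.norm_le_one χ _) (norm_nonneg _)
            _ ≤ _ := by
                rw [mul_one]
                exact (hg e).trans (hd1 m e)
        exact mul_le_mul h2 h1 (norm_nonneg _) (by positivity)
    _ = (Ct * r) * ∑ e ∈ Icc 1 E, ((e.divisors.card : ℕ) : ℝ) ^ m := by
        rw [← Finset.sum_mul, mul_comm]
    _ ≤ (Ct * r) * (E * (1 + Real.log E) ^ Cd) := mul_le_mul_of_nonneg_left (hd2 E) hE0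

theorem p_LBb : S_LBb := by
  intro htiv hdvm hcof hcvl hspc m A
  obtain ⟨Ct, hCt, ht⟩ := htiv
  obtain ⟨hd1, hd2⟩ := hdvm
  obtain ⟨Cd, hCd⟩ := hd2 m
  obtain ⟨Cc, hCc⟩ := hcof m
  filter_upwards [LBb_ev (Ct * (4 ^ m * 27) * 3 ^ Cd) (4 ^ m * 27) (Cd + A),
    eventually_ge_atTop 1] with J hJ hJ1
  obtain ⟨hL, hJ2, hJ3⟩ := hJ
  intro R hR hR1 j hj f N hB hprod k hk hNk
  have hJ0 : (0 : ℝ) < J := by exact_mod_cast hJ1
  have hR0 : (0 : ℝ) < R := by exact_mod_cast hR1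
  have hN1 : ∀ i, 1 ≤ N i := fun i => (hB i).one
  set S : Finset (Fin m) := Finset.univ.erase k with hS
  obtain ⟨hc1, hc2, -⟩ := hCc f N hB S
  have hPS : 0 ≤ ∏ i ∈ S, N i := Finset.prod_nonneg fun i _ => by linarith [hN1 i]
  set E : ℕ := ⌊2 ^ m * ∏ i ∈ S, N i⌋₊ with hE
  have hfac : ∏ i, f i = (∏ i ∈ S, f i) * f k :=
    (Finset.prod_erase_mul Finset.univ f (Finset.mem_univ k)).symm
  have hfacN : ∏ i, N i = (∏ i ∈ S, N i) * N k :=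
    (Finset.prod_erase_mul Finset.univ N (Finset.mem_univ k)).symm
  have hEb : (E : ℝ) ≤ (4 ^ m * 27) * (J : ℝ) ^ (1 + 1 / 50000 : ℝ) := by
    have h1 : (E : ℝ) ≤ 2 ^ m * ∏ i ∈ S, N i := Nat.floor_le (by positivity)
    refine h1.trans ?_
    have h2 : (∏ i ∈ S, N i) * (J : ℝ) ^ (2 - 1 / 50000 : ℝ) ≤ 2 ^ m * (27 * (J : ℝ) ^ 3) := by
      rw [hfacN] at hprod
      exact (mul_le_mul_of_nonneg_left hNk hPS).trans hprod
    have h3 : (J : ℝ) ^ 3 = (J : ℝ) ^ (1 + 1 / 50000 : ℝ) * (J : ℝ) ^ (2 - 1 / 50000 : ℝ) := by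
      rw [← Real.rpow_add hJ0, ← Real.rpow_natCast]
      norm_num
    have h4 : 0 < (J : ℝ) ^ (2 - 1 / 50000 : ℝ) := Real.rpow_pos_of_pos hJ0 _
    have h5 : ∏ i ∈ S, N i ≤ 2 ^ m * (27 * (J : ℝ) ^ (1 + 1 / 50000 : ℝ)) := by
      apply le_of_mul_le_mul_right _ h4
      calc _ ≤ 2 ^ m * (27 * (J : ℝ) ^ 3) := h2
        _ = _ := by rw [h3]; ring
    calc 2 ^ m * ∏ i ∈ S, N i ≤ 2 ^ m * (2 ^ m * (27 * (J : ℝ) ^ (1 + 1 / 50000 : ℝ))) :=
          mul_le_mul_of_nonneg_left h5 (by positivity)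
      _ = _ := by
          rw [show (4 : ℝ) = 2 * 2 by norm_num, mul_pow]
          ring
  have hlog : (1 + Real.log E) ^ Cd ≤ (3 * Real.log J) ^ Cd := by
    have h0 : 0 ≤ 1 + Real.log E := by
      have := Real.log_natCast_nonneg E
      linarith
    apply pow_le_pow_left₀ h0
    rcases Nat.eq_zero_or_pos E with hE0 | hE0
    · rw [hE0, Nat.cast_zero, Real.log_zero]
      linarith
    · have h1 : Real.log E ≤ Real.log ((J : ℝ) ^ 2) :=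
        Real.log_le_log (by exact_mod_cast hE0) (hEb.trans hJ2)
      rw [Real.log_pow] at h1
      push_cast at h1
      linarith
  have hone : ∀ p ∈ primChars R, ‖Wf (∏ i, f i) J j p.2‖ ≤
      Ct * R * (E * (1 + Real.log E) ^ Cd) := by
    intro p hp
    obtain ⟨hp1, hp2, hp3⟩ := LBb_mem hp
    rw [hfac]
    have h1 := LBb_one hCt ht hd1 hCd hcvl hspc J j E hJ1 hj (∏ i ∈ S, f i) (f k) (N k) hc1
      (fun n hn => Nat.le_floor (hc2 n hn).2) hk (hB k) p.1 p.2 (by omega) hp3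
    refine h1.trans ?_
    have h2 : (p.1 : ℝ) ≤ R := by exact_mod_cast hp2
    have h3 : 0 ≤ (E : ℝ) * (1 + Real.log E) ^ Cd := by
      have := Real.log_natCast_nonneg E
      positivity
    exact mul_le_mul_of_nonneg_right (mul_le_mul_of_nonneg_left h2 hCt.le) h3
  have hcard : ((primChars R).card : ℝ) ≤ (R : ℝ) ^ 2 := by
    exact_mod_cast Pool.Agent.MP89da58.card_primChars R
  have hRR : (R : ℝ) ^ 2 ≤ (J : ℝ) ^ (9996 / 10000 : ℝ) := by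
    calc (R : ℝ) ^ 2 ≤ ((J : ℝ) ^ (4998 / 10000 : ℝ)) ^ 2 := pow_le_pow_left₀ hR0.le hR 2
      _ = (J : ℝ) ^ (9996 / 10000 : ℝ) := by
          rw [← Real.rpow_natCast, ← Real.rpow_mul hJ0.le]
          norm_num
  have hlE : 0 ≤ (1 + Real.log E) ^ Cd := by
    have := Real.log_natCast_nonneg E
    positivity
  have hL0 : 0 < Real.log J := by linarith
  calc ∑ p ∈ primChars R, ‖Wf (∏ i, f i) J j p.2‖
      ≤ ∑ p ∈ primChars R, Ct * R * (E * (1 + Real.log E) ^ Cd) := Finset.sum_le_sum hone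
    _ = ((primChars R).card : ℝ) * (Ct * R * (E * (1 + Real.log E) ^ Cd)) := by
        rw [Finset.sum_const, nsmul_eq_mul]
    _ ≤ (J : ℝ) ^ (9996 / 10000 : ℝ) * (Ct * R * (((4 ^ m * 27) * (J : ℝ) ^ (1 + 1 / 50000 : ℝ)) *
          (3 * Real.log J) ^ Cd)) := by
        apply mul_le_mul (hcard.trans hRR) _ (by positivity) (by positivity)
        apply mul_le_mul_of_nonneg_left _ (by positivity)
        exact mul_le_mul hEb hlog hlE (by positivity)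
    _ = R * ((J : ℝ) ^ (9996 / 10000 : ℝ) * (J : ℝ) ^ (1 + 1 / 50000 : ℝ)) *
          ((Ct * (4 ^ m * 27) * 3 ^ Cd * (Real.log J) ^ (Cd + A)) / (Real.log J) ^ A) := by
        rw [pow_add, mul_pow]
        field_simp
    _ ≤ R * ((J : ℝ) ^ (9996 / 10000 : ℝ) * (J : ℝ) ^ (1 + 1 / 50000 : ℝ)) *
          ((J : ℝ) ^ (19 / 50000 : ℝ) / (Real.log J) ^ A) := by
        apply mul_le_mul_of_nonneg_left _ (by positivity)
        exact div_le_div_of_nonneg_right hJ3 (by positivity)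
    _ = R * ((J : ℝ) ^ (9996 / 10000 : ℝ) * (J : ℝ) ^ (1 + 1 / 50000 : ℝ) *
          (J : ℝ) ^ (19 / 50000 : ℝ)) / (Real.log J) ^ A := by ring
    _ = (R : ℝ) * (J : ℝ) ^ 2 / (Real.log J) ^ A := by
        rw [← Real.rpow_add hJ0, ← Real.rpow_add hJ0, ← Real.rpow_natCast (J : ℝ) 2]
        norm_num

end Pool.Agent.CA.LC
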