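import Pool.Agent.Lib.MP_d610d0_nt.CA.LC.Stm

set_option autoImplicit false

/-!
Project CA, section LC, piece LBm: products of smooth and short Möbius blocks.
-/

namespace Pool.Agent.CA.LC

open Finset Filter
open Pool.Agent.MP89da58 (tri primChars)
open Pool.Agent.CH (zJ wJ wL Rough VV Wt dsum thP EE)
open Pool.Agent.CH.D (xj kap dp Sf FL FT R_ls R_kf R_kb R_spc R_bA)

/-- The case of a small product of lengths: nothing meets the window. -/
theorem LBm_zero (hspc : R_spc) (J j m : ℕ) (hJ : 1 ≤ J) (hj : j ∈ Ioc J (2 * J))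
    (F : ArithmeticFunction ℂ) (P : ℝ) (hF : ∀ n, F n ≠ 0 → (n : ℝ) ≤ 2 ^ m * P)
    (hP : P < (J : ℝ) ^ 3 / 2 ^ (m + 1)) {r : ℕ} (χ : DirichletCharacter ℂ r) :
    Wf F J j χ = 0 := by
  unfold Wf
  refine Finset.sum_eq_zero fun n hn => ?_
  rw [Finset.mem_Icc] at hn
  by_cases hFn : F n = 0
  · rw [hFn, zero_mul, zero_mul]
  · have h1 := hF n hFn
    have hw : wJ J j n = 0 := by
      by_contra hw
      have h2 := ((hspc J hJ).2.1 j hj n hn.1 hw).1
      rw [Finset.mem_Ioc] at hj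
      have h3 : J ^ 3 < n := lt_of_le_of_lt (Nat.pow_le_pow_left hj.1.le 3) h2
      have h4 : (J : ℝ) ^ 3 < (n : ℝ) := by exact_mod_cast h3
      have h5 : (2 : ℝ) ^ m * P < 2 ^ m * ((J : ℝ) ^ 3 / 2 ^ (m + 1)) :=
        mul_lt_mul_of_pos_left hP (by positivity)
      have h6 : (2 : ℝ) ^ m * ((J : ℝ) ^ 3 / 2 ^ (m + 1)) = (J : ℝ) ^ 3 / 2 := by
        have h8 : (2 : ℝ) ^ m ≠ 0 := by positivity
        rw [pow_succ (2 : ℝ) m, mul_div_assoc', mul_div_mul_left _ _ h8]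
      have h7 : (0 : ℝ) ≤ (J : ℝ) ^ 3 := by positivity
      linarith
    rw [hw]
    simp

/-- The length as a power of `J`. -/
theorem LBm_pow (x L N : ℝ) (hx : 0 < x) (hL : L = Real.log x) (hL0 : 0 < L) (hN : 0 < N) :
    x ^ (Real.log N / L) = N := by
  rw [Real.rpow_def_of_pos hx, ← hL, mul_div_cancel₀ _ hL0.ne', Real.exp_log hN]

/-- [CA LC LBm] -/
theorem p_LBm : S_LBm := by
  intro hLBa hLBb hLBc hcmb hblk hcof hspc m A
  obtain ⟨B, hB⟩ := hLBa m A (1 / 100000 / 2) (by norm_num)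
  refine ⟨B, ?_⟩
  have hlog : Tendsto (fun J : ℕ => Real.log (J : ℝ)) atTop atTop :=
    Real.tendsto_log_atTop.comp tendsto_natCast_atTop_atTop
  filter_upwards [hB, hLBb m A, hLBc m A, hlog.eventually_ge_atTop 1,
    hlog.eventually_ge_atTop (200000 * Real.log (2 ^ m * 27)),
    hlog.eventually_ge_atTop (200000 * Real.log (2 ^ (m + 1))), eventually_ge_atTop 3] with
    J hA1 hA2 hA3 hL1 hL2 hL3 hJ3
  intro R hR1 hR2 j hj f N hf hprod
  have hJ1 : (1 : ℝ) < (J : ℝ) := by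
    have : (3 : ℝ) ≤ (J : ℝ) := by exact_mod_cast hJ3
    linarith
  have hJ0 : (0 : ℝ) < (J : ℝ) := by linarith
  have hL0 : 0 < Real.log (J : ℝ) := by linarith
  have hRone : (1 : ℝ) ≤ (R : ℝ) := le_trans (one_le_pow₀ hL1) hR1
  have hRn : 1 ≤ R := by exact_mod_cast hRone
  have hbd : ∀ i, Bd (f i) (N i) := by
    intro i
    rcases hf i with h | h
    · exact hblk.1 _ _ h
    · exact hblk.2.1 _ _ h.1
  have hN1 : ∀ i, 1 ≤ N i := fun i => (hbd i).one
  have hN0 : ∀ i, 0 < N i := fun i => lt_of_lt_of_le one_pos (hN1 i)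
  by_cases hsm : ∏ i, N i < (J : ℝ) ^ 3 / 2 ^ (m + 1)
  · obtain ⟨C, hC⟩ := hcof m
    have hF : ∀ n, (∏ i, f i) n ≠ 0 → (n : ℝ) ≤ 2 ^ m * ∏ i, N i :=
      fun n hn => ((hC f N hbd Finset.univ).2.1 n hn).2
    have hz : ∑ p ∈ primChars R, ‖Wf (∏ i, f i) J j p.2‖ = 0 := by
      refine Finset.sum_eq_zero fun p _ => ?_
      rw [LBm_zero hspc J j m (by omega) hj (∏ i, f i) (∏ i, N i) hF hsm p.2, norm_zero]
    rw [hz]
    positivity
  · have hsm' : (J : ℝ) ^ 3 / 2 ^ (m + 1) ≤ ∏ i, N i := not_lt.1 hsm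
    have hpos : 0 < ∏ i, N i := Finset.prod_pos fun i _ => hN0 i
    have hpw : ∀ i, (J : ℝ) ^ (Real.log (N i) / Real.log (J : ℝ)) = N i :=
      fun i => LBm_pow _ _ _ hJ0 rfl hL0 (hN0 i)
    have hS : ∀ S : Finset (Fin m), (J : ℝ) ^ (∑ i ∈ S, Real.log (N i) / Real.log (J : ℝ)) =
        ∏ i ∈ S, N i := by
      intro S
      rw [Real.rpow_sum_of_pos hJ0]
      exact Finset.prod_congr rfl fun i _ => hpw i
    have hsum : (∑ i, Real.log (N i) / Real.log (J : ℝ)) * Real.log (J : ℝ) =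
        Real.log (∏ i, N i) := by
      rw [← Finset.sum_div, div_mul_cancel₀ _ hL0.ne', Real.log_prod (fun i _ => (hN0 i).ne')]
    have hlogJ3 : Real.log ((J : ℝ) ^ 3) = 3 * Real.log (J : ℝ) := by
      rw [Real.log_pow]; norm_num
    have hlow : 3 - (1 / 100000 : ℝ) / 2 ≤ ∑ i, Real.log (N i) / Real.log (J : ℝ) := by
      have h1 : Real.log ((J : ℝ) ^ 3 / 2 ^ (m + 1)) ≤ Real.log (∏ i, N i) :=
        Real.log_le_log (by positivity) hsm'
      rw [Real.log_div (by positivity) (by positivity), hlogJ3, ← hsum] at h1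
      by_contra hc
      have hc' := not_le.1 hc
      have h2 : (∑ i, Real.log (N i) / Real.log (J : ℝ)) * Real.log (J : ℝ) <
          (3 - (1 / 100000 : ℝ) / 2) * Real.log (J : ℝ) := mul_lt_mul_of_pos_right hc' hL0
      linarith
    have hupp : ∑ i, Real.log (N i) / Real.log (J : ℝ) ≤ 3 + (1 / 100000 : ℝ) / 2 := by
      have h1 : Real.log (∏ i, N i) ≤ Real.log (2 ^ m * (27 * (J : ℝ) ^ 3)) :=
        Real.log_le_log hpos hprod
      have h3 : (2 : ℝ) ^ m * (27 * (J : ℝ) ^ 3) = (2 ^ m * 27) * (J : ℝ) ^ 3 := by ring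
      rw [h3, Real.log_mul (by positivity) (by positivity), hlogJ3, ← hsum] at h1
      by_contra hc
      have hc' := not_le.1 hc
      have h2 : (3 + (1 / 100000 : ℝ) / 2) * Real.log (J : ℝ) <
          (∑ i, Real.log (N i) / Real.log (J : ℝ)) * Real.log (J : ℝ) :=
        mul_lt_mul_of_pos_right hc' hL0
      linarith
    have hexp : ∀ {a b : ℝ}, a ≤ b → (J : ℝ) ^ a ≤ (J : ℝ) ^ b :=
      fun h => Real.rpow_le_rpow_of_exponent_le hJ1.le h
    have hexp' : ∀ {a b : ℝ}, a < b → (J : ℝ) ^ a < (J : ℝ) ^ b :=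
      fun h => Real.rpow_lt_rpow_of_exponent_lt hJ1 h
    have hsmooth : ∀ k, (J : ℝ) ^ (4 / 5 : ℝ) < N k → Sb (f k) (N k) := by
      intro k hk
      rcases hf k with h | h
      · exact h
      · exact absurd h.2 (not_le.2 hk)
    rcases hcmb m (fun i => Real.log (N i) / Real.log (J : ℝ)) (1 / 100000) (by norm_num)
      (by norm_num) (fun i => div_nonneg (Real.log_nonneg (hN1 i)) hL0.le) hlow hupp with
      ⟨S, hS1, hS2⟩ | ⟨k, hk⟩ | ⟨k, l, hkl, hk1, hk2, hl1, hl2⟩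
    · exact hA1 R hR1 hR2 j hj f N hbd hprod S (by rw [← hS S]; exact hexp hS1)
        (by rw [← hS Sᶜ]; exact hexp hS2)
    · have h1 : (J : ℝ) ^ (2 - 1 / 50000 : ℝ) ≤ N k := by
        rw [← hpw k]
        apply hexp
        have : (2 : ℝ) - 2 * (1 / 100000) ≤ Real.log (N k) / Real.log (J : ℝ) := hk
        linarith
      exact hA2 R hR2 hRn j hj f N hbd hprod k
        (hsmooth k (lt_of_lt_of_le (hexp' (by norm_num)) h1)) h1
    · have hk1' : (J : ℝ) ^ (1 - 1 / 50000 : ℝ) ≤ N k := by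
        rw [← hpw k]
        apply hexp
        have : (1 : ℝ) - 2 * (1 / 100000) ≤ Real.log (N k) / Real.log (J : ℝ) := hk1
        linarith
      have hk2' : N k ≤ (J : ℝ) ^ (1 + 1 / 50000 : ℝ) := by
        rw [← hpw k]
        apply hexp
        have : Real.log (N k) / Real.log (J : ℝ) ≤ (1 : ℝ) + 2 * (1 / 100000) := hk2
        linarith
      have hl1' : (J : ℝ) ^ (1 - 1 / 50000 : ℝ) ≤ N l := by
        rw [← hpw l]
        apply hexp
        have : (1 : ℝ) - 2 * (1 / 100000) ≤ Real.log (N l) / Real.log (J : ℝ) := hl1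
        linarith
      have hl2' : N l ≤ (J : ℝ) ^ (1 + 1 / 50000 : ℝ) := by
        rw [← hpw l]
        apply hexp
        have : Real.log (N l) / Real.log (J : ℝ) ≤ (1 : ℝ) + 2 * (1 / 100000) := hl2
        linarith
      exact hA3 R hR2 hRn j hj f N hbd hprod k l hkl
        (hsmooth k (lt_of_lt_of_le (hexp' (by norm_num)) hk1'))
        (hsmooth l (lt_of_lt_of_le (hexp' (by norm_num)) hl1')) hk1' hk2' hl1' hl2'

end Pool.Agent.CA.LC
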