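import Pool.Agent.Lib.MP_d610d0_nt.CA.LC.Stm

set_option autoImplicit false

/-!
Project CA, section LC, piece LL: large conductors for the primes.
-/

namespace Pool.Agent.CA.LC

open Finset Filter
open Pool.Agent.MP89da58 (tri primChars)
open Pool.Agent.CH (wJ)
open Pool.Agent.CH.D (Sf FL R_spc)

private lemma LL_Z : ∀ᶠ J : ℕ in atTop, 27 * J ^ 3 ≤ ⌊(J : ℝ) ^ (4 / 5 : ℝ) / 2⌋₊ ^ 4 := by
  have h1 : ∀ᶠ J : ℕ in atTop, (6912 : ℝ) ≤ (J : ℝ) ^ (1 / 5 : ℝ) :=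
    ((tendsto_rpow_atTop (by norm_num : (0 : ℝ) < 1 / 5)).comp
      tendsto_natCast_atTop_atTop).eventually_ge_atTop 6912
  filter_upwards [h1] with J hJ
  set s : ℝ := (J : ℝ) ^ (1 / 5 : ℝ) with hs
  have hJ0 : (0 : ℝ) ≤ (J : ℝ) := Nat.cast_nonneg J
  have e1 : (J : ℝ) ^ (4 / 5 : ℝ) = s ^ 4 := by
    rw [hs, ← Real.rpow_natCast, ← Real.rpow_mul hJ0]
    norm_num
  have e2 : (J : ℝ) = s ^ 5 := by
    rw [hs, ← Real.rpow_natCast, ← Real.rpow_mul hJ0]
    norm_num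
  rw [e1]
  set Z : ℕ := ⌊s ^ 4 / 2⌋₊ with hZ
  have h2 : s ^ 4 / 2 < (Z : ℝ) + 1 := Nat.lt_floor_add_one _
  have h3 : (1 : ℝ) ≤ s := by linarith
  have h4 : s ≤ s ^ 4 := by
    calc s = s ^ 1 := (pow_one s).symm
      _ ≤ s ^ 4 := pow_le_pow_right₀ h3 (by norm_num)
  have h5 : s ^ 4 / 4 ≤ (Z : ℝ) := by linarith
  have h6 : (s ^ 4 / 4) ^ 4 ≤ (Z : ℝ) ^ 4 := pow_le_pow_left₀ (by positivity) h5 4
  have h7 : 27 * (s ^ 5) ^ 3 ≤ (s ^ 4 / 4) ^ 4 := by
    have h8 : (s ^ 4 / 4) ^ 4 - 27 * (s ^ 5) ^ 3 = s ^ 15 * (s - 6912) / 256 := by ring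
    have h9 : 0 ≤ s ^ 15 * (s - 6912) / 256 := by
      apply div_nonneg (mul_nonneg (by positivity) (by linarith)) (by norm_num)
    linarith
  have h10 : (27 : ℝ) * (J : ℝ) ^ 3 ≤ (Z : ℝ) ^ 4 := by
    rw [e2]
    exact h7.trans h6
  exact_mod_cast h10

theorem p_LL : S_LL := by
  intro hLBm hdec hspc A
  obtain ⟨C, hC⟩ := hdec 4 (by norm_num)
  obtain ⟨B, hB⟩ := hLBm (2 * 4) (A + C)
  refine ⟨B, ?_⟩
  filter_upwards [hC, hB, LL_Z, eventually_ge_atTop 3] with J h1 h2 h3 hJ3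
  intro R hR1 hR2 j hj
  obtain ⟨-, hsp, -⟩ := hspc J (by omega)
  have hlog : 0 < Real.log J := by
    apply Real.log_pos
    have : (3 : ℝ) ≤ J := by exact_mod_cast hJ3
    linarith
  have key := h1 (Σ q, DirichletCharacter ℂ q) (primChars R)
    (fun p n => if n = 0 then 0 else p.2 (n : ZMod p.1) * (wJ J j n : ℂ))
    ((R : ℝ) * (J : ℝ) ^ 2 / (Real.log J) ^ (A + C)) ⌊(J : ℝ) ^ (4 / 5 : ℝ) / 2⌋₊
    (by positivity) h3 ?_ ?_
  · refine le_trans (le_of_eq ?_) (key.trans (le_of_eq ?_))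
    · apply sum_congr rfl
      intro p _
      congr 1
      unfold Sf
      apply sum_congr rfl
      intro n hn
      rw [mem_Icc] at hn
      rw [if_neg (by omega), mul_assoc]
      rfl
    · rw [pow_add]
      field_simp
  · intro p n hn
    by_cases h0 : n = 0
    · simp [h0] at hn
    · simp only [if_neg h0] at hn
      have hw : wJ J j n ≠ 0 := by
        intro h
        apply hn
        rw [h]
        simp
      obtain ⟨ha, hb⟩ := hsp j hj n (by omega) hw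
      rw [mem_Ioc] at hj
      have hc : J ^ 3 ≤ j ^ 3 := Nat.pow_le_pow_left hj.1.le 3
      have hd : (j + 1) ^ 3 ≤ (3 * J) ^ 3 := Nat.pow_le_pow_left (by omega) 3
      have he : (3 * J) ^ 3 = 27 * J ^ 3 := by ring
      constructor <;> omega
  · intro f N hf hN
    refine le_trans (le_of_eq ?_) (h2 R hR1 hR2 j hj f N ?_ hN)
    · apply sum_congr rfl
      intro p _
      congr 1
      unfold Wf
      apply sum_congr rfl
      intro n hn
      rw [mem_Icc] at hn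
      rw [if_neg (by omega), mul_assoc]
    · intro i
      rcases hf i with h | ⟨h, h'⟩
      · exact Or.inl h
      · refine Or.inr ⟨h, h'.trans ?_⟩
        have := Nat.floor_le (a := (J : ℝ) ^ (4 / 5 : ℝ) / 2) (by positivity)
        linarith

end Pool.Agent.CA.LC
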