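import Pool.Agent.Lib.MP_d610d0_nt.CA.LC.Stm

set_option autoImplicit false

/-!
Piece LT: large conductors for `cv c θ`.
-/

namespace Pool.Agent.CA.LC

open Finset Filter
open Pool.Agent.MP89da58 (tri primChars)
open Pool.Agent.CH (zJ wJ wL Rough VV Wt dsum thP EE)
open Pool.Agent.CH.D (xj kap dp Sf FL FT R_ls R_kf R_kb R_spc R_bA)

/-- powers of logarithms against powers -/
private theorem LT_log (c : ℝ) (k : ℕ) {e : ℝ} (he : 0 < e) :
    ∀ᶠ J : ℕ in atTop, c * Real.log J ^ k ≤ (J : ℝ) ^ e := by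
  have h1 := (isLittleO_log_rpow_rpow_atTop (k : ℝ) he).bound
    (show (0 : ℝ) < 1 / (|c| + 1) by positivity)
  have h2 := (tendsto_natCast_atTop_atTop (R := ℝ)).eventually h1
  filter_upwards [h2, eventually_ge_atTop 1] with J hJ hJ1
  have hJ0 : (1 : ℝ) ≤ J := by exact_mod_cast hJ1
  have hl : 0 ≤ Real.log (J : ℝ) := Real.log_nonneg hJ0
  rw [Real.rpow_natCast, Real.norm_of_nonneg (pow_nonneg hl k),
    Real.norm_of_nonneg (Real.rpow_nonneg (by linarith) e)] at hJ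
  have h3 : (0 : ℝ) < |c| + 1 := by positivity
  rw [one_div, inv_mul_eq_div, le_div_iff₀ h3] at hJ
  calc c * Real.log (J : ℝ) ^ k ≤ (|c| + 1) * Real.log (J : ℝ) ^ k := by
        apply mul_le_mul_of_nonneg_right _ (pow_nonneg hl k)
        linarith [le_abs_self c]
    _ = Real.log (J : ℝ) ^ k * (|c| + 1) := mul_comm _ _
    _ ≤ (J : ℝ) ^ e := hJ

private theorem LT_logge (c : ℝ) : ∀ᶠ J : ℕ in atTop, c ≤ Real.log (J : ℝ) :=
  (Real.tendsto_log_atTop.comp tendsto_natCast_atTop_atTop).eventually_ge_atTop c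

/-- the inequality for one block -/
private theorem LT_alg {J L R M N S C K : ℝ} {c A : ℕ} (hJ : 1 ≤ J) (hL : 1 ≤ L) (hR : 0 < R)
    (hM : 0 ≤ M) (hN : 0 ≤ N) (hC : 0 ≤ C) (hMN : M * N ≤ 54 * J ^ 3)
    (hM2 : M ≤ 54 * J ^ (2 - 1 / 10000 : ℝ)) (hN2 : N ≤ 54 * J ^ (2 - 1 / 10000 : ℝ))
    (hS : S ≤ K ^ 4 * (M * N) * (5 * L) ^ c)
    (hR1 : L ^ (A + c + 1) ≤ R) (hR2 : R ≤ J ^ (4998 / 10000 : ℝ))
    (h1 : 2 * C ^ 2 * K ^ 4 * 5 ^ c * 6000 * L ^ (c + 2 * A) ≤ J ^ (1 / 10000 : ℝ))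
    (h2 : 2 * C ^ 2 * K ^ 4 * 5 ^ c * 3000 ≤ L) :
    C * Real.sqrt ((R ^ 2 + M / J) * (R ^ 2 + N / J) * S) ≤ R * J ^ 2 / L ^ A := by
  have hJ0 : 0 < J := by linarith
  have hL0 : 0 < L := by linarith
  set q : ℝ := J ^ (2 - 1 / 10000 : ℝ) with hq
  have hq0 : 0 < q := Real.rpow_pos_of_pos hJ0 _
  have hqJ : q * J ^ (1 / 10000 : ℝ) = J ^ 2 := by
    rw [hq, ← Real.rpow_add hJ0, ← Real.rpow_natCast]
    norm_num
  have hRJ : R ^ 2 * J ≤ q := by
    have h3 : R ^ 2 ≤ (J ^ (4998 / 10000 : ℝ)) ^ 2 := pow_le_pow_left₀ hR.le hR2 2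
    calc R ^ 2 * J ≤ (J ^ (4998 / 10000 : ℝ)) ^ 2 * J := mul_le_mul_of_nonneg_right h3 hJ0.le
      _ = J ^ (4998 / 10000 * 2 + 1 : ℝ) := by
          rw [← Real.rpow_natCast, ← Real.rpow_mul hJ0.le, Real.rpow_add hJ0, Real.rpow_one]
          norm_num
      _ ≤ q := Real.rpow_le_rpow_of_exponent_le hJ (by norm_num)
  have hMN0 : 0 ≤ M * N := mul_nonneg hM hN
  -- the main polynomial bound
  have hY : (R ^ 2 + M / J) * (R ^ 2 + N / J) * (M * N) ≤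
      6000 * (J ^ 2 * R ^ 2 * q) + 3000 * J ^ 4 := by
    have e1 : (R ^ 2 + M / J) * (R ^ 2 + N / J) * (M * N) =
        (M * N) * (R ^ 2 * R ^ 2) + (M * N) * (R ^ 2 * ((M + N) / J)) +
          (M * N) * (M * N) / J ^ 2 := by
      field_simp
      ring
    rw [e1]
    have e2 : (M * N) * (R ^ 2 * R ^ 2) ≤ 54 * (J ^ 2 * R ^ 2 * q) := by
      calc (M * N) * (R ^ 2 * R ^ 2) ≤ 54 * J ^ 3 * (R ^ 2 * R ^ 2) :=
            mul_le_mul_of_nonneg_right hMN (by positivity)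
        _ = 54 * J ^ 2 * R ^ 2 * (R ^ 2 * J) := by ring
        _ ≤ 54 * J ^ 2 * R ^ 2 * q := mul_le_mul_of_nonneg_left hRJ (by positivity)
        _ = 54 * (J ^ 2 * R ^ 2 * q) := by ring
    have e3 : (M * N) * (R ^ 2 * ((M + N) / J)) ≤ 5832 * (J ^ 2 * R ^ 2 * q) := by
      have e4 : (M + N) / J ≤ 108 * q / J :=
        div_le_div_of_nonneg_right (by linarith) hJ0.le
      calc (M * N) * (R ^ 2 * ((M + N) / J)) ≤ (54 * J ^ 3) * (R ^ 2 * (108 * q / J)) := by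
            apply mul_le_mul hMN _ (by positivity) (by positivity)
            exact mul_le_mul_of_nonneg_left e4 (by positivity)
        _ = 5832 * (J ^ 2 * R ^ 2 * q) := by
            field_simp
            ring
    have e5 : (M * N) * (M * N) / J ^ 2 ≤ 2916 * J ^ 4 := by
      rw [div_le_iff₀ (by positivity)]
      calc (M * N) * (M * N) ≤ (54 * J ^ 3) * (54 * J ^ 3) :=
            mul_le_mul hMN hMN hMN0 (by positivity)
        _ = 2916 * J ^ 4 * J ^ 2 := by ring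
    have e6 : 0 ≤ J ^ 2 * R ^ 2 * q := by positivity
    have e7 : 0 ≤ J ^ 4 := by positivity
    linarith
  have hX : C ^ 2 * ((R ^ 2 + M / J) * (R ^ 2 + N / J) * S) ≤ (R * J ^ 2 / L ^ A) ^ 2 := by
    have hG : 0 ≤ (R ^ 2 + M / J) * (R ^ 2 + N / J) := by positivity
    have e1 : (R ^ 2 + M / J) * (R ^ 2 + N / J) * S ≤
        K ^ 4 * (5 * L) ^ c * (6000 * (J ^ 2 * R ^ 2 * q) + 3000 * J ^ 4) := by
      calc (R ^ 2 + M / J) * (R ^ 2 + N / J) * S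
          ≤ (R ^ 2 + M / J) * (R ^ 2 + N / J) * (K ^ 4 * (M * N) * (5 * L) ^ c) :=
            mul_le_mul_of_nonneg_left hS hG
        _ = K ^ 4 * (5 * L) ^ c * ((R ^ 2 + M / J) * (R ^ 2 + N / J) * (M * N)) := by ring
        _ ≤ _ := mul_le_mul_of_nonneg_left hY (by positivity)
    rw [div_pow, le_div_iff₀ (by positivity)]
    have e2 : C ^ 2 * ((R ^ 2 + M / J) * (R ^ 2 + N / J) * S) * (L ^ A) ^ 2 ≤
        C ^ 2 * (K ^ 4 * (5 * L) ^ c * (6000 * (J ^ 2 * R ^ 2 * q) + 3000 * J ^ 4)) *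
          (L ^ A) ^ 2 := by
      apply mul_le_mul_of_nonneg_right _ (by positivity)
      exact mul_le_mul_of_nonneg_left e1 (by positivity)
    refine e2.trans ?_
    have e3 : C ^ 2 * (K ^ 4 * (5 * L) ^ c * (6000 * (J ^ 2 * R ^ 2 * q) + 3000 * J ^ 4)) *
        (L ^ A) ^ 2 =
        (2 * C ^ 2 * K ^ 4 * 5 ^ c * 6000 * L ^ (c + 2 * A)) * (J ^ 2 * R ^ 2 * q / 2) +
        (2 * C ^ 2 * K ^ 4 * 5 ^ c * 3000) * (L ^ (c + 2 * A) * J ^ 4 / 2) := by
      rw [mul_pow, pow_add, pow_mul']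
      ring
    rw [e3]
    have e4 : (2 * C ^ 2 * K ^ 4 * 5 ^ c * 6000 * L ^ (c + 2 * A)) * (J ^ 2 * R ^ 2 * q / 2) ≤
        R ^ 2 * J ^ 4 / 2 := by
      calc (2 * C ^ 2 * K ^ 4 * 5 ^ c * 6000 * L ^ (c + 2 * A)) * (J ^ 2 * R ^ 2 * q / 2)
          ≤ J ^ (1 / 10000 : ℝ) * (J ^ 2 * R ^ 2 * q / 2) :=
            mul_le_mul_of_nonneg_right h1 (by positivity)
        _ = (q * J ^ (1 / 10000 : ℝ)) * (J ^ 2 * R ^ 2 / 2) := by ring
        _ = R ^ 2 * J ^ 4 / 2 := by rw [hqJ]; ring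
    have e5 : (2 * C ^ 2 * K ^ 4 * 5 ^ c * 3000) * (L ^ (c + 2 * A) * J ^ 4 / 2) ≤
        R ^ 2 * J ^ 4 / 2 := by
      have e6 : L * L ^ (c + 2 * A) ≤ R ^ 2 := by
        calc L * L ^ (c + 2 * A) = L ^ (c + 2 * A + 1) := by ring
          _ ≤ L ^ ((A + c + 1) * 2) := pow_le_pow_right₀ hL (by omega)
          _ = (L ^ (A + c + 1)) ^ 2 := pow_mul _ _ _
          _ ≤ R ^ 2 := pow_le_pow_left₀ (by positivity) hR1 2
      calc (2 * C ^ 2 * K ^ 4 * 5 ^ c * 3000) * (L ^ (c + 2 * A) * J ^ 4 / 2)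
          ≤ L * (L ^ (c + 2 * A) * J ^ 4 / 2) := mul_le_mul_of_nonneg_right h2 (by positivity)
        _ = (L * L ^ (c + 2 * A)) * (J ^ 4 / 2) := by ring
        _ ≤ R ^ 2 * (J ^ 4 / 2) := mul_le_mul_of_nonneg_right e6 (by positivity)
        _ = R ^ 2 * J ^ 4 / 2 := by ring
    have e7 : (R * J ^ 2) ^ 2 = R ^ 2 * J ^ 4 := by ring
    rw [e7]
    linarith
  calc C * Real.sqrt ((R ^ 2 + M / J) * (R ^ 2 + N / J) * S)
      = Real.sqrt (C ^ 2 * ((R ^ 2 + M / J) * (R ^ 2 + N / J) * S)) := by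
        rw [Real.sqrt_mul (sq_nonneg C), Real.sqrt_sq hC]
    _ ≤ Real.sqrt ((R * J ^ 2 / L ^ A) ^ 2) := Real.sqrt_le_sqrt hX
    _ = R * J ^ 2 / L ^ A := Real.sqrt_sq (by positivity)

/-- one dyadic block of a double sum -/
private theorem LT_dy (X k : ℕ) (F : ℕ → ℕ → ℂ)
    (h1 : ∀ m n, 1 ≤ m → 1 ≤ n → X < m * n → F m n = 0) (h2 : ∀ m n, Nat.log 2 m ≠ k → F m n = 0) :
    ∑ m ∈ Icc 1 X, ∑ n ∈ Icc 1 X, F m n =
      ∑ m ∈ Icc 1 (2 ^ (k + 1)), ∑ n ∈ Icc 1 (X / 2 ^ k), F m n := by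
  have e1 : ∀ m ∈ Icc 1 X, ∑ n ∈ Icc 1 X, F m n = ∑ n ∈ Icc 1 (X / 2 ^ k), F m n := by
    intro m hm
    rw [mem_Icc] at hm
    symm
    apply sum_subset (Icc_subset_Icc_right (Nat.div_le_self _ _))
    intro n hn hn2
    rw [mem_Icc] at hn hn2
    by_cases hk : Nat.log 2 m = k
    · apply h1 m n hm.1 hn.1
      have h3 : 2 ^ k ≤ m := by
        rw [← hk]
        exact Nat.pow_log_le_self 2 (by omega)
      have h4 : X / 2 ^ k < n := by omega
      calc X < 2 ^ k * n := by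
            rw [Nat.div_lt_iff_lt_mul (by positivity)] at h4
            rwa [mul_comm]
        _ ≤ m * n := Nat.mul_le_mul_right n h3
    · exact h2 m n hk
  rw [sum_congr rfl e1]
  have e2 : ∀ Y : ℕ, X ≤ Y → ∑ m ∈ Icc 1 X, ∑ n ∈ Icc 1 (X / 2 ^ k), F m n =
      ∑ m ∈ Icc 1 Y, ∑ n ∈ Icc 1 (X / 2 ^ k), F m n := by
    intro Y hY
    apply sum_subset (Icc_subset_Icc_right hY)
    intro m hm hm2
    rw [mem_Icc] at hm hm2
    apply sum_eq_zero
    intro n hn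
    rw [mem_Icc] at hn
    apply h1 m n hm.1 hn.1
    calc X < m := by omega
      _ ≤ m * n := Nat.le_mul_of_pos_right m (by omega)
  have e3 : ∀ Y : ℕ, 2 ^ (k + 1) ≤ Y → ∑ m ∈ Icc 1 (2 ^ (k + 1)), ∑ n ∈ Icc 1 (X / 2 ^ k), F m n =
      ∑ m ∈ Icc 1 Y, ∑ n ∈ Icc 1 (X / 2 ^ k), F m n := by
    intro Y hY
    apply sum_subset (Icc_subset_Icc_right hY)
    intro m hm hm2
    rw [mem_Icc] at hm hm2
    apply sum_eq_zero
    intro n hn
    apply h2 m n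
    have h3 : 2 ^ (k + 1) ≤ m := by omega
    have h4 : k + 1 ≤ Nat.log 2 m := Nat.le_log_of_pow_le (by norm_num) h3
    omega
  rw [e2 (max X (2 ^ (k + 1))) (le_max_left _ _), e3 (max X (2 ^ (k + 1))) (le_max_right _ _)]

/-- sums over dyadic ranges -/
private theorem LT_split (X : ℕ) (F : ℕ → ℕ → ℂ)
    (h1 : ∀ m n, 1 ≤ m → 1 ≤ n → X < m * n → F m n = 0) :
    ∑ m ∈ Icc 1 X, ∑ n ∈ Icc 1 X, F m n =
      ∑ k ∈ range (Nat.log 2 X + 1), ∑ m ∈ Icc 1 (2 ^ (k + 1)), ∑ n ∈ Icc 1 (X / 2 ^ k),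
        if Nat.log 2 m = k then F m n else 0 := by
  have e1 : ∀ k ∈ range (Nat.log 2 X + 1),
      ∑ m ∈ Icc 1 (2 ^ (k + 1)), ∑ n ∈ Icc 1 (X / 2 ^ k),
        (if Nat.log 2 m = k then F m n else 0) =
      ∑ m ∈ Icc 1 X, ∑ n ∈ Icc 1 X, if Nat.log 2 m = k then F m n else 0 := by
    intro k _
    symm
    apply LT_dy
    · intro m n hm hn hX
      rw [h1 m n hm hn hX, ite_self]
    · intro m n hk
      rw [if_neg hk]
  rw [sum_congr rfl e1]
  symm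
  rw [sum_comm]
  apply sum_congr rfl
  intro m hm
  rw [mem_Icc] at hm
  rw [sum_comm]
  apply sum_congr rfl
  intro n _
  rw [Finset.sum_ite_eq, if_pos]
  rw [mem_range]
  have := Nat.log_mono_right (b := 2) hm.2
  omega

/-- the number of dyadic ranges and the logarithms -/
private theorem LT_logX {J : ℕ} (hJ : 1 ≤ J) {L : ℝ} (hL : L = Real.log J) (h10 : 10 ≤ L) :
    ((Nat.log 2 (27 * J ^ 3) + 1 : ℕ) : ℝ) ≤ L ^ 2 ∧
    ∀ M : ℕ, (M : ℝ) ≤ 54 * (J : ℝ) ^ 3 → 1 + Real.log M ≤ 5 * L := by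
  have hJ0 : (0 : ℝ) < J := by exact_mod_cast hJ
  have h54 : Real.log 54 ≤ 4 := by
    rw [Real.log_le_iff_le_exp (by norm_num)]
    have := Real.exp_one_gt_d9
    calc (54 : ℝ) ≤ 2.718 ^ 4 := by norm_num
      _ ≤ (Real.exp 1) ^ 4 := pow_le_pow_left₀ (by norm_num) (by linarith) 4
      _ = Real.exp 4 := by rw [← Real.exp_nat_mul]; norm_num
  have hlogX : Real.log (54 * (J : ℝ) ^ 3) ≤ 4 + 3 * L := by
    rw [Real.log_mul (by norm_num) (by positivity), Real.log_pow, hL]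
    push_cast
    linarith
  constructor
  · set k := Nat.log 2 (27 * J ^ 3) with hk
    have h1 : 2 ^ k ≤ 27 * J ^ 3 := Nat.pow_log_le_self 2 (by positivity)
    have h2 : ((2 : ℝ)) ^ k ≤ 27 * (J : ℝ) ^ 3 := by exact_mod_cast h1
    have h3 : (k : ℝ) * Real.log 2 ≤ 4 + 3 * L := by
      rw [← Real.log_pow]
      refine (Real.log_le_log (by positivity) h2).trans (le_trans ?_ hlogX)
      apply Real.log_le_log (by positivity)
      nlinarith [pow_pos hJ0 3]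
    have h4 := Real.log_two_gt_d9
    have h5 : (k : ℝ) * (1 / 2) ≤ 4 + 3 * L := by
      refine le_trans ?_ h3
      apply mul_le_mul_of_nonneg_left _ (Nat.cast_nonneg k)
      linarith
    push_cast
    nlinarith
  · intro M hM
    rcases Nat.eq_zero_or_pos M with h0 | h0
    · subst h0
      simp
      linarith
    · have h1 : Real.log M ≤ Real.log (54 * (J : ℝ) ^ 3) :=
        Real.log_le_log (by exact_mod_cast h0) hM
      linarith

/-- number of divisors -/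
private noncomputable def LT_d (n : ℕ) : ℝ := ((n.divisors.card : ℕ) : ℝ)

private theorem LT_d0 (n : ℕ) : 0 ≤ LT_d n := Nat.cast_nonneg _

private theorem LT_d1 {n : ℕ} (hn : 1 ≤ n) : 1 ≤ LT_d n := by
  unfold LT_d
  have : 0 < n.divisors.card := card_pos.2 (Nat.nonempty_divisors.2 (by omega))
  exact_mod_cast this

private theorem LT_dd {m n : ℕ} (hn : n ≠ 0) (h : m ∣ n) : LT_d m ≤ LT_d n := by
  unfold LT_d
  exact_mod_cast card_le_card (Nat.divisors_subset_of_dvd hn h)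

/-- the window vanishes far out -/
private theorem LT_win (hspc : R_spc) {J j n : ℕ} (hJ : 1 ≤ J) (hj : j ∈ Ioc J (2 * J))
    (hn : 27 * J ^ 3 < n) : wJ J j n = 0 := by
  by_contra h
  obtain ⟨_, h2, _⟩ := hspc J hJ
  obtain ⟨_, h4⟩ := h2 j hj n (by omega) h
  rw [mem_Ioc] at hj
  have h5 : (j + 1) ^ 3 ≤ (3 * J) ^ 3 := Nat.pow_le_pow_left (by omega) 3
  have h6 : (3 * J) ^ 3 = 27 * J ^ 3 := by ring
  omega

/-- bilinear forms with a long first variable -/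
private theorem LT_II (hbil : R_bil) (hdvm : R_dvm) (hspc : R_spc) (K : ℝ) (A : ℕ) :
    ∃ B : ℕ, ∀ᶠ J : ℕ in atTop, ∀ R : ℕ,
    (Real.log J) ^ B ≤ (R : ℝ) → (R : ℝ) ≤ (J : ℝ) ^ (4998 / 10000 : ℝ) → ∀ j ∈ Ioc J (2 * J),
    ∀ a b : ℕ → ℂ, (∀ m, 1 ≤ m → ‖a m‖ ≤ K * LT_d m ^ 3) →
    (∀ n, 1 ≤ n → ‖b n‖ ≤ K * LT_d n ^ 3) →
    (∀ m, 1 ≤ m → a m ≠ 0 → (J : ℝ) ^ (1 + 1 / 10000 : ℝ) ≤ m ∧ (m : ℝ) ≤ (J : ℝ) ^ (19 / 10 : ℝ)) →
    ∑ p ∈ primChars R, ‖∑ m ∈ Icc 1 (27 * J ^ 3), ∑ n ∈ Icc 1 (27 * J ^ 3),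
      a m * b n * p.2 ((m * n : ℕ) : ZMod p.1) * (wJ J j (m * n) : ℂ)‖
      ≤ (R : ℝ) * (J : ℝ) ^ 2 / (Real.log J) ^ A := by
  obtain ⟨C, hC1, hC⟩ := hbil
  obtain ⟨D, hD⟩ := hdvm.2 6
  have hC0 : 0 ≤ C := by linarith
  refine ⟨(A + 2) + 2 * D + 1, ?_⟩
  filter_upwards [LT_log (2 * C ^ 2 * K ^ 4 * 5 ^ (2 * D) * 6000) (2 * D + 2 * (A + 2))
      (show (0 : ℝ) < 1 / 10000 by norm_num),
    LT_logge (2 * C ^ 2 * K ^ 4 * 5 ^ (2 * D) * 3000), LT_logge 10,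
    LT_log 2 0 (show (0 : ℝ) < 1 / 20 by norm_num), eventually_ge_atTop 1]
    with J h1 h2 h10 h3 hJ
  intro R hR1 hR2 j hj a b ha hb hs
  set L := Real.log (J : ℝ) with hL
  have hJ1 : (1 : ℝ) ≤ J := by exact_mod_cast hJ
  have hJ0 : (0 : ℝ) < J := by linarith
  have hL1 : 1 ≤ L := by linarith
  have hR0 : (0 : ℝ) < R := lt_of_lt_of_le (by positivity) hR1
  have hRn : 1 ≤ R := by exact_mod_cast hR0
  obtain ⟨hlog1, hlog2⟩ := LT_logX hJ hL h10
  set X := 27 * J ^ 3 with hX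
  have hXr : (X : ℝ) = 27 * (J : ℝ) ^ 3 := by rw [hX]; push_cast; ring
  -- splitting
  have hsplit : ∀ p ∈ primChars R, ‖∑ m ∈ Icc 1 X, ∑ n ∈ Icc 1 X,
      a m * b n * p.2 ((m * n : ℕ) : ZMod p.1) * (wJ J j (m * n) : ℂ)‖ ≤
      ∑ k ∈ range (Nat.log 2 X + 1), ‖∑ m ∈ Icc 1 (2 ^ (k + 1)), ∑ n ∈ Icc 1 (X / 2 ^ k),
        (if Nat.log 2 m = k then a m else 0) * b n * p.2 ((m * n : ℕ) : ZMod p.1) *
          (wJ J j (m * n) : ℂ)‖ := by
    intro p _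
    rw [LT_split X (fun m n => a m * b n * p.2 ((m * n : ℕ) : ZMod p.1) *
      (wJ J j (m * n) : ℂ)) (by
        intro m n _ _ hmn
        rw [LT_win hspc hJ hj hmn]
        simp)]
    refine (norm_sum_le _ _).trans (le_of_eq ?_)
    apply sum_congr rfl
    intro k _
    congr 1
    apply sum_congr rfl
    intro m _
    apply sum_congr rfl
    intro n _
    split_ifs
    · rfl
    · ring
  have hblock : ∀ k ∈ range (Nat.log 2 X + 1), ∑ p ∈ primChars R,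
      ‖∑ m ∈ Icc 1 (2 ^ (k + 1)), ∑ n ∈ Icc 1 (X / 2 ^ k),
        (if Nat.log 2 m = k then a m else 0) * b n * p.2 ((m * n : ℕ) : ZMod p.1) *
          (wJ J j (m * n) : ℂ)‖ ≤ (R : ℝ) * (J : ℝ) ^ 2 / L ^ (A + 2) := by
    intro k _
    by_cases hk : ∀ m, 1 ≤ m → Nat.log 2 m = k → a m = 0
    · have h0 : ∑ p ∈ primChars R, ‖∑ m ∈ Icc 1 (2 ^ (k + 1)), ∑ n ∈ Icc 1 (X / 2 ^ k),
          (if Nat.log 2 m = k then a m else 0) * b n * p.2 ((m * n : ℕ) : ZMod p.1) *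
            (wJ J j (m * n) : ℂ)‖ = 0 := by
        apply sum_eq_zero
        intro p _
        rw [norm_eq_zero]
        apply sum_eq_zero
        intro m hm
        rw [mem_Icc] at hm
        apply sum_eq_zero
        intro n _
        have : (if Nat.log 2 m = k then a m else 0) = 0 := by
          split_ifs with h
          · exact hk m hm.1 h
          · rfl
        rw [this]
        simp
      rw [h0]
      positivity
    · push Not at hk
      obtain ⟨m0, hm1, hmk, hma⟩ := hk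
      obtain ⟨hlo, hup⟩ := hs m0 hm1 hma
      have hk1 : 2 ^ k ≤ m0 := by
        rw [← hmk]
        exact Nat.pow_log_le_self 2 (by omega)
      have hk2 : m0 < 2 ^ (k + 1) := by
        rw [← hmk]
        exact Nat.lt_pow_succ_log_self (by norm_num) m0
      have hk1' : (2 : ℝ) ^ k ≤ m0 := by exact_mod_cast hk1
      have hk2' : (m0 : ℝ) ≤ 2 ^ (k + 1) := by exact_mod_cast hk2.le
      have hNle : ((X / 2 ^ k : ℕ) : ℝ) ≤ 27 * (J : ℝ) ^ 3 / 2 ^ k := by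
        rw [← hXr]
        have := @Nat.cast_div_le ℝ _ _ _ X (2 ^ k)
        push_cast at this ⊢
        exact this
      have hMc : ((2 ^ (k + 1) : ℕ) : ℝ) = 2 * 2 ^ k := by push_cast; ring
      have hMN : ((2 ^ (k + 1) : ℕ) : ℝ) * ((X / 2 ^ k : ℕ) : ℝ) ≤ 54 * (J : ℝ) ^ 3 := by
        rw [hMc]
        calc 2 * (2 : ℝ) ^ k * ((X / 2 ^ k : ℕ) : ℝ)
            ≤ 2 * (2 : ℝ) ^ k * (27 * (J : ℝ) ^ 3 / 2 ^ k) :=
              mul_le_mul_of_nonneg_left hNle (by positivity)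
          _ = 54 * (J : ℝ) ^ 3 := by
              field_simp
              ring
      have hM2 : ((2 ^ (k + 1) : ℕ) : ℝ) ≤ 54 * (J : ℝ) ^ (2 - 1 / 10000 : ℝ) := by
        rw [hMc]
        have h4 : (J : ℝ) ^ (19 / 10 : ℝ) ≤ (J : ℝ) ^ (2 - 1 / 10000 : ℝ) :=
          Real.rpow_le_rpow_of_exponent_le hJ1 (by norm_num)
        have h5 : (0 : ℝ) ≤ (J : ℝ) ^ (2 - 1 / 10000 : ℝ) := Real.rpow_nonneg hJ0.le _
        linarith
      have hN2 : ((X / 2 ^ k : ℕ) : ℝ) ≤ 54 * (J : ℝ) ^ (2 - 1 / 10000 : ℝ) := by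
        refine hNle.trans ?_
        have h4 : (J : ℝ) ^ (1 + 1 / 10000 : ℝ) ≤ 2 * 2 ^ k := by
          calc (J : ℝ) ^ (1 + 1 / 10000 : ℝ) ≤ m0 := hlo
            _ ≤ 2 ^ (k + 1) := hk2'
            _ = 2 * 2 ^ k := by ring
        rw [div_le_iff₀ (by positivity)]
        have h5 : (J : ℝ) ^ (2 - 1 / 10000 : ℝ) * (J : ℝ) ^ (1 + 1 / 10000 : ℝ) = (J : ℝ) ^ 3 := by
          rw [← Real.rpow_add hJ0, ← Real.rpow_natCast]
          norm_num
        have h6 : (0 : ℝ) ≤ (J : ℝ) ^ (2 - 1 / 10000 : ℝ) := Real.rpow_nonneg hJ0.le _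
        calc 27 * (J : ℝ) ^ 3
            = 27 * ((J : ℝ) ^ (2 - 1 / 10000 : ℝ) * (J : ℝ) ^ (1 + 1 / 10000 : ℝ)) := by rw [h5]
          _ ≤ 27 * ((J : ℝ) ^ (2 - 1 / 10000 : ℝ) * (2 * 2 ^ k)) := by
              apply mul_le_mul_of_nonneg_left _ (by norm_num)
              exact mul_le_mul_of_nonneg_left h4 h6
          _ = 54 * (J : ℝ) ^ (2 - 1 / 10000 : ℝ) * 2 ^ k := by ring
      -- mean squares
      have hsq : ∀ (N : ℕ) (f : ℕ → ℂ), (N : ℝ) ≤ 54 * (J : ℝ) ^ 3 →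
          (∀ n, 1 ≤ n → ‖f n‖ ≤ K * LT_d n ^ 3) →
          ∑ n ∈ Icc 1 N, ‖f n‖ ^ 2 ≤ K ^ 2 * N * (5 * L) ^ D := by
        intro N f hN hf
        calc ∑ n ∈ Icc 1 N, ‖f n‖ ^ 2 ≤ ∑ n ∈ Icc 1 N, K ^ 2 * LT_d n ^ 6 := by
              apply sum_le_sum
              intro n hn
              rw [mem_Icc] at hn
              calc ‖f n‖ ^ 2 ≤ (K * LT_d n ^ 3) ^ 2 :=
                    pow_le_pow_left₀ (norm_nonneg _) (hf n hn.1) 2
                _ = K ^ 2 * LT_d n ^ 6 := by ring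
          _ = K ^ 2 * ∑ n ∈ Icc 1 N, LT_d n ^ 6 := by rw [mul_sum]
          _ ≤ K ^ 2 * (N * (1 + Real.log N) ^ D) :=
              mul_le_mul_of_nonneg_left (hD N) (sq_nonneg K)
          _ ≤ K ^ 2 * (N * (5 * L) ^ D) := by
              apply mul_le_mul_of_nonneg_left _ (sq_nonneg K)
              apply mul_le_mul_of_nonneg_left _ (Nat.cast_nonneg N)
              apply pow_le_pow_left₀ _ (hlog2 N hN)
              have := Real.log_natCast_nonneg N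
              linarith
          _ = K ^ 2 * N * (5 * L) ^ D := by ring
      have hM54 : ((2 ^ (k + 1) : ℕ) : ℝ) ≤ 54 * (J : ℝ) ^ 3 := by
        refine hM2.trans ?_
        apply mul_le_mul_of_nonneg_left _ (by norm_num)
        calc (J : ℝ) ^ (2 - 1 / 10000 : ℝ) ≤ (J : ℝ) ^ ((3 : ℕ) : ℝ) :=
              Real.rpow_le_rpow_of_exponent_le hJ1 (by norm_num)
          _ = (J : ℝ) ^ 3 := Real.rpow_natCast _ _
      have hN54 : ((X / 2 ^ k : ℕ) : ℝ) ≤ 54 * (J : ℝ) ^ 3 := by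
        refine hN2.trans ?_
        apply mul_le_mul_of_nonneg_left _ (by norm_num)
        calc (J : ℝ) ^ (2 - 1 / 10000 : ℝ) ≤ (J : ℝ) ^ ((3 : ℕ) : ℝ) :=
              Real.rpow_le_rpow_of_exponent_le hJ1 (by norm_num)
          _ = (J : ℝ) ^ 3 := Real.rpow_natCast _ _
      have hSa := hsq (2 ^ (k + 1)) (fun m => if Nat.log 2 m = k then a m else 0) hM54 (by
        intro m hm
        split_ifs
        · exact ha m hm
        · rw [norm_zero]
          exact (norm_nonneg _).trans (ha m hm))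
      have hSb := hsq (X / 2 ^ k) b hN54 hb
      have hS : (∑ m ∈ Icc 1 (2 ^ (k + 1)), ‖(if Nat.log 2 m = k then a m else 0 : ℂ)‖ ^ 2) *
          ∑ n ∈ Icc 1 (X / 2 ^ k), ‖b n‖ ^ 2 ≤
          K ^ 4 * (((2 ^ (k + 1) : ℕ) : ℝ) * ((X / 2 ^ k : ℕ) : ℝ)) * (5 * L) ^ (2 * D) := by
        calc (∑ m ∈ Icc 1 (2 ^ (k + 1)), ‖(if Nat.log 2 m = k then a m else 0 : ℂ)‖ ^ 2) *
              ∑ n ∈ Icc 1 (X / 2 ^ k), ‖b n‖ ^ 2
            ≤ (K ^ 2 * ((2 ^ (k + 1) : ℕ) : ℝ) * (5 * L) ^ D) *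
              (K ^ 2 * ((X / 2 ^ k : ℕ) : ℝ) * (5 * L) ^ D) :=
              mul_le_mul hSa hSb (by positivity) (by positivity)
          _ = K ^ 4 * (((2 ^ (k + 1) : ℕ) : ℝ) * ((X / 2 ^ k : ℕ) : ℝ)) * (5 * L) ^ (2 * D) := by
              rw [two_mul D, pow_add]
              ring
      refine (hC J j (2 ^ (k + 1)) (X / 2 ^ k) R (fun m => if Nat.log 2 m = k then a m else 0) b
        hJ hRn).trans ?_
      exact LT_alg (A := A + 2) hJ1 hL1 hR0 (Nat.cast_nonneg _) (Nat.cast_nonneg _) hC0 hMN hM2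
        hN2 hS hR1 hR2 h1 h2
  calc ∑ p ∈ primChars R, ‖∑ m ∈ Icc 1 X, ∑ n ∈ Icc 1 X,
        a m * b n * p.2 ((m * n : ℕ) : ZMod p.1) * (wJ J j (m * n) : ℂ)‖
      ≤ ∑ p ∈ primChars R, ∑ k ∈ range (Nat.log 2 X + 1),
        ‖∑ m ∈ Icc 1 (2 ^ (k + 1)), ∑ n ∈ Icc 1 (X / 2 ^ k),
        (if Nat.log 2 m = k then a m else 0) * b n * p.2 ((m * n : ℕ) : ZMod p.1) *
          (wJ J j (m * n) : ℂ)‖ := sum_le_sum hsplit
    _ = ∑ k ∈ range (Nat.log 2 X + 1), ∑ p ∈ primChars R,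
        ‖∑ m ∈ Icc 1 (2 ^ (k + 1)), ∑ n ∈ Icc 1 (X / 2 ^ k),
        (if Nat.log 2 m = k then a m else 0) * b n * p.2 ((m * n : ℕ) : ZMod p.1) *
          (wJ J j (m * n) : ℂ)‖ := sum_comm
    _ ≤ ∑ k ∈ range (Nat.log 2 X + 1), (R : ℝ) * (J : ℝ) ^ 2 / L ^ (A + 2) := sum_le_sum hblock
    _ = ((Nat.log 2 X + 1 : ℕ) : ℝ) * ((R : ℝ) * (J : ℝ) ^ 2 / L ^ (A + 2)) := by
        rw [sum_const, card_range, nsmul_eq_mul]
    _ ≤ L ^ 2 * ((R : ℝ) * (J : ℝ) ^ 2 / L ^ (A + 2)) :=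
        mul_le_mul_of_nonneg_right hlog1 (by positivity)
    _ = (R : ℝ) * (J : ℝ) ^ 2 / L ^ A := by
        rw [pow_add]
        field_simp

/-- a sum over the divisors as a double sum -/
private theorem LT_conv (X : ℕ) (g : ℕ → ℕ → ℂ)
    (hg : ∀ m k, 1 ≤ m → 1 ≤ k → X < m * k → g m k = 0) :
    ∑ n ∈ Icc 1 X, ∑ d ∈ n.divisors, g d (n / d) = ∑ m ∈ Icc 1 X, ∑ k ∈ Icc 1 X, g m k := by
  have hI : Icc 1 X = Ioc 0 X := by
    ext x
    simp only [mem_Icc, mem_Ioc]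
    omega
  have h1 : ∀ n ∈ Icc 1 X, ∑ d ∈ n.divisors, g d (n / d) =
      ∑ x ∈ Icc 1 X ×ˢ Icc 1 X, if x.1 * x.2 = n then g x.1 x.2 else 0 := by
    intro n hn
    rw [mem_Icc] at hn
    rw [← Nat.sum_divisorsAntidiagonal (fun a b => g a b),
      Nat.divisorsAntidiagonal_eq_prod_filter_of_le (by omega) hn.2, sum_filter, hI]
  rw [sum_congr rfl h1, sum_comm, sum_product]
  apply sum_congr rfl
  intro m hm
  apply sum_congr rfl
  intro k hk
  rw [mem_Icc] at hm hk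
  rw [Finset.sum_ite_eq]
  split_ifs with h
  · rfl
  · have h2 : 1 ≤ m * k := Nat.mul_pos (by omega) (by omega)
    have h3 : X < m * k := by
      by_contra h4
      push Not at h4
      exact h (mem_Icc.2 ⟨h2, h4⟩)
    exact (hg m k (by omega) (by omega) h3).symm

/-- associativity of the Dirichlet product -/
private theorem LT_assoc (f g : ℕ → ℝ) {n : ℕ} (hn : 1 ≤ n) :
    ∑ e ∈ n.divisors, f e * dsum g (n / e) =
      ∑ u ∈ n.divisors, ∑ e ∈ u.divisors, f e * g (u / e) := by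
  let F : ArithmeticFunction ℝ := ⟨fun n => if n = 0 then 0 else f n, by simp⟩
  let G : ArithmeticFunction ℝ := ⟨fun n => if n = 0 then 0 else g n, by simp⟩
  have hF : ∀ m, 1 ≤ m → F m = f m := fun m hm => by
    change (if m = 0 then 0 else f m) = f m
    rw [if_neg (by omega)]
  have hG : ∀ m, 1 ≤ m → G m = g m := fun m hm => by
    change (if m = 0 then 0 else g m) = g m
    rw [if_neg (by omega)]
  have h1 : (F * (G * (ArithmeticFunction.zeta : ArithmeticFunction ℝ))) n =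
      ((F * G) * (ArithmeticFunction.zeta : ArithmeticFunction ℝ)) n := by
    rw [mul_assoc]
  rw [ArithmeticFunction.mul_apply, Nat.sum_divisorsAntidiagonal (fun a b => F a *
    (G * (ArithmeticFunction.zeta : ArithmeticFunction ℝ)) b),
    ArithmeticFunction.coe_mul_zeta_apply] at h1
  have h2 : ∑ e ∈ n.divisors, f e * dsum g (n / e) =
      ∑ i ∈ n.divisors, F i * (G * (ArithmeticFunction.zeta : ArithmeticFunction ℝ)) (n / i) := by
    apply sum_congr rfl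
    intro e he
    have he1 : 1 ≤ e := Nat.pos_of_mem_divisors he
    rw [hF e he1, ArithmeticFunction.coe_mul_zeta_apply]
    unfold dsum
    congr 1
    apply sum_congr rfl
    intro d hd
    rw [hG d (Nat.pos_of_mem_divisors hd)]
  rw [h2, h1]
  apply sum_congr rfl
  intro u hu
  have hu1 : 1 ≤ u := Nat.pos_of_mem_divisors hu
  rw [ArithmeticFunction.mul_apply, Nat.sum_divisorsAntidiagonal (fun a b => F a * G b)]
  apply sum_congr rfl
  intro e he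
  have he1 : 1 ≤ e := Nat.pos_of_mem_divisors he
  have hue : 1 ≤ u / e := Nat.div_pos (Nat.le_of_dvd hu1 (Nat.dvd_of_mem_divisors he)) he1
  rw [hF e he1, hG _ hue]

/-- bound for divisor sums -/
private theorem LT_sumd {n : ℕ} (hn : 1 ≤ n) (h : ℕ → ℝ) (K : ℝ) (hK : 0 ≤ K)
    (hh : ∀ e ∈ n.divisors, |h e| ≤ K * LT_d n ^ 2) :
    |∑ e ∈ n.divisors, h e| ≤ K * LT_d n ^ 3 := by
  calc |∑ e ∈ n.divisors, h e| ≤ ∑ e ∈ n.divisors, |h e| := abs_sum_le_sum_abs _ _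
    _ ≤ ∑ e ∈ n.divisors, K * LT_d n ^ 2 := sum_le_sum hh
    _ = LT_d n * (K * LT_d n ^ 2) := by
        rw [sum_const, nsmul_eq_mul]
        rfl
    _ = K * LT_d n ^ 3 := by ring

/-- a primitive character of conductor at least two is not trivial -/
private theorem LT_prim {R : ℕ} {p : Σ q, DirichletCharacter ℂ q} (hp : p ∈ primChars R) :
    2 ≤ p.1 ∧ p.1 ≤ R ∧ p.2 ≠ 1 := by
  classical
  unfold primChars at hp
  rw [mem_sigma, mem_Icc, mem_filter] at hp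
  obtain ⟨⟨h1, h2⟩, _, h3⟩ := hp
  refine ⟨h1, h2, ?_⟩
  intro h4
  have h5 : p.2.conductor = p.1 := h3
  rw [h4] at h5
  haveI : NeZero p.1 := ⟨by omega⟩
  rw [DirichletCharacter.conductor_one] at h5
  omega

/-- the type I part -/
private theorem LT_I (htI : Pool.Agent.CH.D.R_tI) {J j R X : ℕ} (hJ : 1 ≤ J)
    (hj : j ∈ Ioc J (2 * J)) (g : ℕ → ℂ) {G : ℝ} (hG : ∑ m ∈ Icc 1 X, ‖g m‖ ≤ G) :
    ∑ p ∈ primChars R, ‖∑ m ∈ Icc 1 X, ∑ n ∈ Icc 1 X,
      g m * 1 * p.2 ((m * n : ℕ) : ZMod p.1) * (wJ J j (m * n) : ℂ)‖ ≤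
      (R : ℝ) ^ 2 * (3 * R * G) := by
  have hG0 : 0 ≤ G := le_trans (by positivity) hG
  have h1 : ∀ p ∈ primChars R, ‖∑ m ∈ Icc 1 X, ∑ n ∈ Icc 1 X,
      g m * 1 * p.2 ((m * n : ℕ) : ZMod p.1) * (wJ J j (m * n) : ℂ)‖ ≤ 3 * R * G := by
    intro p hp
    obtain ⟨hp1, hp2, hp3⟩ := LT_prim hp
    have hp2' : (p.1 : ℝ) ≤ R := by exact_mod_cast hp2
    calc ‖∑ m ∈ Icc 1 X, ∑ n ∈ Icc 1 X,
          g m * 1 * p.2 ((m * n : ℕ) : ZMod p.1) * (wJ J j (m * n) : ℂ)‖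
        ≤ ∑ m ∈ Icc 1 X, ‖∑ n ∈ Icc 1 X,
          g m * 1 * p.2 ((m * n : ℕ) : ZMod p.1) * (wJ J j (m * n) : ℂ)‖ := norm_sum_le _ _
      _ ≤ ∑ m ∈ Icc 1 X, ‖g m‖ * (3 * R) := by
          apply sum_le_sum
          intro m hm
          rw [mem_Icc] at hm
          have e1 : ∑ n ∈ Icc 1 X, g m * 1 * p.2 ((m * n : ℕ) : ZMod p.1) *
              (wJ J j (m * n) : ℂ) = g m * (p.2 (m : ZMod p.1) *
              ∑ n ∈ Icc 1 X, p.2 (n : ZMod p.1) * (wJ J j (m * n) : ℂ)) := by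
            rw [mul_sum, mul_sum]
            apply sum_congr rfl
            intro n _
            push_cast
            rw [map_mul]
            ring
          rw [e1, norm_mul, norm_mul]
          apply mul_le_mul_of_nonneg_left _ (norm_nonneg _)
          have e2 := (htI J j m X p.1 p.2 hJ hj hm.1 hp1 hp3).1
          calc ‖p.2 (m : ZMod p.1)‖ * ‖∑ n ∈ Icc 1 X, p.2 (n : ZMod p.1) *
                (wJ J j (m * n) : ℂ)‖
              ≤ 1 * (3 * p.1) := mul_le_mul (p.2.norm_le_one _) e2 (norm_nonneg _) (by norm_num)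
            _ ≤ 3 * R := by linarith
      _ = (∑ m ∈ Icc 1 X, ‖g m‖) * (3 * R) := by rw [sum_mul]
      _ ≤ G * (3 * R) := mul_le_mul_of_nonneg_right hG (by positivity)
      _ = 3 * R * G := by ring
  calc ∑ p ∈ primChars R, ‖∑ m ∈ Icc 1 X, ∑ n ∈ Icc 1 X,
        g m * 1 * p.2 ((m * n : ℕ) : ZMod p.1) * (wJ J j (m * n) : ℂ)‖
      ≤ ∑ p ∈ primChars R, 3 * R * G := sum_le_sum h1
    _ = ((primChars R).card : ℝ) * (3 * R * G) := by rw [sum_const, nsmul_eq_mul]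
    _ ≤ (R : ℝ) ^ 2 * (3 * R * G) := by
        apply mul_le_mul_of_nonneg_right _ (by positivity)
        exact_mod_cast Pool.Agent.MP89da58.card_primChars R

theorem p_LT : S_LT := by
  intro hbil hdvm _ hspc htI c θ hc A
  obtain ⟨K0, hK0⟩ := hc.c_bd
  obtain ⟨D, hD⟩ := hdvm.2 3
  set K : ℝ := max K0 1 with hK
  have hK1 : 1 ≤ K := le_max_right _ _
  have hKp : 0 ≤ K := by linarith
  obtain ⟨B, hB⟩ := LT_II hbil hdvm hspc K (A + 1)
  refine ⟨B, ?_⟩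
  filter_upwards [hB, hK0, hc.c_sp, hc.t_bd, hc.t_sp, eventually_ge_atTop 1, LT_logge 10,
    LT_log 27 0 (show (0 : ℝ) < 19 / 10 - 27 / 20 by norm_num),
    LT_log (3 * K * 3 ^ D) (D + (A + 1)) (show (0 : ℝ) < 3 / 10000 by norm_num)]
    with J hB hcb hcs htb hts hJ h10 h27 hlast
  intro R hR1 hR2 j hj
  set L := Real.log (J : ℝ) with hL
  have hJ1 : (1 : ℝ) ≤ J := by exact_mod_cast hJ
  have hJ0 : (0 : ℝ) < J := by linarith
  have hL1 : 1 ≤ L := by linarith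
  have hR0 : (0 : ℝ) ≤ R := Nat.cast_nonneg R
  set X := 27 * J ^ 3 with hX
  have hXr : (X : ℝ) = 27 * (J : ℝ) ^ 3 := by rw [hX]; push_cast; ring
  set T : ℝ := (J : ℝ) ^ (1 + 1 / 10000 : ℝ) with hT
  have hT0 : 0 < T := Real.rpow_pos_of_pos hJ0 _
  classical
  -- the two parts of `c` and the convolution
  obtain ⟨c1, hc1⟩ : ∃ c1 : ℕ → ℝ, c1 = fun e : ℕ => if (e : ℝ) < T then c J e else 0 := ⟨_, rfl⟩
  obtain ⟨c2, hc2⟩ : ∃ c2 : ℕ → ℝ, c2 = fun e : ℕ => if (e : ℝ) < T then 0 else c J e := ⟨_, rfl⟩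
  obtain ⟨γ, hγ⟩ : ∃ γ : ℕ → ℝ, γ = fun u : ℕ => ∑ e ∈ u.divisors, c1 e * θ J (u / e) := ⟨_, rfl⟩
  obtain ⟨γ1, hγ1⟩ : ∃ γ1 : ℕ → ℝ, γ1 = fun e : ℕ => if (e : ℝ) < T then γ e else 0 := ⟨_, rfl⟩
  obtain ⟨γ2, hγ2⟩ : ∃ γ2 : ℕ → ℝ, γ2 = fun e : ℕ => if (e : ℝ) < T then 0 else γ e := ⟨_, rfl⟩
  have hcK : ∀ e, |c J e| ≤ K := fun e => (hcb e).trans (le_max_left _ _)
  have hc1K : ∀ e, |c1 e| ≤ K := by
    intro e
    rw [hc1]
    simp only
    split_ifs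
    · exact hcK e
    · rw [abs_zero]; exact hKp
  have hγK : ∀ u, 1 ≤ u → |γ u| ≤ K * LT_d u ^ 3 := by
    intro u hu
    rw [hγ]
    apply LT_sumd hu _ K hKp
    intro e he
    have he1 := Nat.dvd_of_mem_divisors he
    rw [abs_mul]
    have h1 : |θ J (u / e)| ≤ LT_d u ^ 2 :=
      (htb _).trans (pow_le_pow_left₀ (LT_d0 _) (LT_dd (by omega) (Nat.div_dvd_of_dvd he1)) 2)
    exact mul_le_mul (hc1K e) h1 (abs_nonneg _) hKp
  have hβ : ∀ n, 1 ≤ n → |dsum (θ J) n| ≤ K * LT_d n ^ 3 := by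
    intro n hn
    unfold dsum
    apply LT_sumd hn _ K hKp
    intro e he
    have he1 := Nat.dvd_of_mem_divisors he
    calc |θ J e| ≤ LT_d e ^ 2 := htb e
      _ ≤ LT_d n ^ 2 := pow_le_pow_left₀ (LT_d0 _) (LT_dd (by omega) he1) 2
      _ ≤ K * LT_d n ^ 2 := le_mul_of_one_le_left (by positivity) hK1
  -- the decomposition
  have hwX : ∀ m n : ℕ, 1 ≤ m → 1 ≤ n → X < m * n → (wJ J j (m * n) : ℂ) = 0 := by
    intro m n _ _ hmn
    rw [LT_win hspc hJ hj hmn]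
    simp
  have hdec : ∀ p ∈ primChars R, Sf (cv c θ J) J j p.2 =
      (∑ m ∈ Icc 1 X, ∑ n ∈ Icc 1 X, (c2 m : ℂ) * (dsum (θ J) n : ℂ) *
        p.2 ((m * n : ℕ) : ZMod p.1) * (wJ J j (m * n) : ℂ)) +
      ((∑ m ∈ Icc 1 X, ∑ n ∈ Icc 1 X, (γ2 m : ℂ) * 1 *
        p.2 ((m * n : ℕ) : ZMod p.1) * (wJ J j (m * n) : ℂ)) +
      ∑ m ∈ Icc 1 X, ∑ n ∈ Icc 1 X, (γ1 m : ℂ) * 1 *
        p.2 ((m * n : ℕ) : ZMod p.1) * (wJ J j (m * n) : ℂ)) := by
    intro p _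
    have e1 := LT_conv X (fun m n => (c2 m : ℂ) * (dsum (θ J) n : ℂ) *
        p.2 ((m * n : ℕ) : ZMod p.1) * (wJ J j (m * n) : ℂ)) (by
          intro m n hm hn hmn
          rw [hwX m n hm hn hmn, mul_zero])
    have e2 := LT_conv X (fun m n => (γ2 m : ℂ) * 1 *
        p.2 ((m * n : ℕ) : ZMod p.1) * (wJ J j (m * n) : ℂ)) (by
          intro m n hm hn hmn
          rw [hwX m n hm hn hmn, mul_zero])
    have e3 := LT_conv X (fun m n => (γ1 m : ℂ) * 1 *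
        p.2 ((m * n : ℕ) : ZMod p.1) * (wJ J j (m * n) : ℂ)) (by
          intro m n hm hn hmn
          rw [hwX m n hm hn hmn, mul_zero])
    rw [← e1, ← e2, ← e3, ← sum_add_distrib, ← sum_add_distrib]
    unfold Sf
    apply sum_congr rfl
    intro n hn
    rw [mem_Icc] at hn
    have hn1 : 1 ≤ n := hn.1
    have e4 : ∀ f g : ℕ → ℝ, ∑ d ∈ n.divisors, (f d : ℂ) * (g (n / d) : ℂ) *
        p.2 ((d * (n / d) : ℕ) : ZMod p.1) * (wJ J j (d * (n / d)) : ℂ) =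
        ((∑ d ∈ n.divisors, f d * g (n / d) : ℝ) : ℂ) * p.2 (n : ZMod p.1) *
          (wJ J j n : ℂ) := by
      intro f g
      push_cast
      rw [sum_mul, sum_mul]
      apply sum_congr rfl
      intro d hd
      have h1 : d * (n / d) = n := Nat.mul_div_cancel' (Nat.dvd_of_mem_divisors hd)
      have h2 : ((d : ZMod p.1) * ((n / d : ℕ) : ZMod p.1)) = (n : ZMod p.1) := by
        rw [← Nat.cast_mul, h1]
      rw [h1, h2]
    have e5 := e4 c2 (dsum (θ J))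
    have e6 := e4 γ2 (fun _ => 1)
    have e7 := e4 γ1 (fun _ => 1)
    simp only [Complex.ofReal_one] at e6 e7
    rw [e5, e6, e7, ← add_mul, ← add_mul, ← add_mul, ← add_mul]
    congr 2
    rw [← Complex.ofReal_add, ← Complex.ofReal_add]
    congr 1
    have e8 : ∑ d ∈ n.divisors, γ2 d * 1 + ∑ d ∈ n.divisors, γ1 d * 1 =
        ∑ e ∈ n.divisors, c1 e * dsum (θ J) (n / e) := by
      rw [LT_assoc _ _ hn1, ← sum_add_distrib]
      apply sum_congr rfl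
      intro u _
      rw [hγ2, hγ1, hγ]
      simp only
      split_ifs <;> ring
    rw [e8, ← sum_add_distrib]
    unfold cv
    apply sum_congr rfl
    intro e _
    rw [hc2, hc1]
    simp only
    split_ifs <;> ring
  -- the three parts
  have p1 := hB R hR1 hR2 j hj (fun m => (c2 m : ℂ)) (fun n => (dsum (θ J) n : ℂ)) (by
      intro m hm
      rw [Complex.norm_real, Real.norm_eq_abs]
      have h1 : |c2 m| ≤ K := by
        rw [hc2]
        simp only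
        split_ifs
        · rw [abs_zero]; exact hKp
        · exact hcK m
      exact h1.trans (le_mul_of_one_le_right hKp (one_le_pow₀ (LT_d1 hm)))) (by
      intro n hn
      rw [Complex.norm_real, Real.norm_eq_abs]
      exact hβ n hn) (by
      intro m _ hm
      have h1 : c2 m ≠ 0 := by
        intro h
        apply hm
        rw [h]
        simp
      rw [hc2] at h1
      simp only at h1
      split_ifs at h1 with h2
      · exact absurd rfl h1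
      · push Not at h2
        refine ⟨h2, (hcs m h1).trans ?_⟩
        have h3 : (J : ℝ) ^ (19 / 10 : ℝ) = (J : ℝ) ^ (19 / 10 - 27 / 20 : ℝ) *
            (J : ℝ) ^ (27 / 20 : ℝ) := by
          rw [← Real.rpow_add hJ0]
          norm_num
        rw [h3]
        apply mul_le_mul_of_nonneg_right _ (Real.rpow_nonneg hJ0.le _)
        rw [pow_zero, mul_one] at h27
        exact h27)
  have p2 := hB R hR1 hR2 j hj (fun m => (γ2 m : ℂ)) (fun _ => 1) (by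
      intro m hm
      rw [Complex.norm_real, Real.norm_eq_abs, hγ2]
      simp only
      split_ifs
      · rw [abs_zero]
        exact mul_nonneg hKp (pow_nonneg (LT_d0 _) 3)
      · exact hγK m hm) (by
      intro n hn
      rw [norm_one]
      have h1 : 1 ≤ LT_d n ^ 3 := one_le_pow₀ (LT_d1 hn)
      nlinarith) (by
      intro m hm1 hm
      have h1 : γ2 m ≠ 0 := by
        intro h
        apply hm
        rw [h]
        simp
      rw [hγ2] at h1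
      simp only at h1
      split_ifs at h1 with h2
      · exact absurd rfl h1
      · push Not at h2
        refine ⟨h2, ?_⟩
        rw [hγ] at h1
        obtain ⟨e, he, hne⟩ := exists_ne_zero_of_sum_ne_zero h1
        have he1 := Nat.dvd_of_mem_divisors he
        have hce : c1 e ≠ 0 := left_ne_zero_of_mul hne
        have hte : θ J (m / e) ≠ 0 := right_ne_zero_of_mul hne
        have h4 : (e : ℝ) < T := by
          rw [hc1] at hce
          simp only at hce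
          split_ifs at hce with h5
          · exact h5
          · exact absurd rfl hce
        have h5 := hts _ hte
        have h6 : (m : ℝ) = (e : ℝ) * ((m / e : ℕ) : ℝ) := by
          rw [← Nat.cast_mul, Nat.mul_div_cancel' he1]
        rw [h6]
        calc (e : ℝ) * ((m / e : ℕ) : ℝ) ≤ T * (J : ℝ) ^ (31 / 50 : ℝ) :=
              mul_le_mul h4.le h5 (Nat.cast_nonneg _) hT0.le
          _ = (J : ℝ) ^ (1 + 1 / 10000 + 31 / 50 : ℝ) := by
              rw [hT, ← Real.rpow_add hJ0]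
          _ ≤ (J : ℝ) ^ (19 / 10 : ℝ) := Real.rpow_le_rpow_of_exponent_le hJ1 (by norm_num))
  have hG : ∑ m ∈ Icc 1 X, ‖((γ1 m : ℝ) : ℂ)‖ ≤ K * (T * (3 * L) ^ D) := by
    have h1 : ∑ m ∈ Icc 1 X, ‖((γ1 m : ℝ) : ℂ)‖ ≤ ∑ m ∈ Icc 1 ⌊T⌋₊, K * LT_d m ^ 3 := by
      calc ∑ m ∈ Icc 1 X, ‖((γ1 m : ℝ) : ℂ)‖
          ≤ ∑ m ∈ Icc 1 X, if m ∈ Icc 1 ⌊T⌋₊ then K * LT_d m ^ 3 else 0 := by
            apply sum_le_sum
            intro m hm
            rw [mem_Icc] at hm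
            rw [Complex.norm_real, Real.norm_eq_abs, hγ1]
            simp only
            split_ifs with h2 h3 h3
            · exact hγK m hm.1
            · exact absurd (mem_Icc.2 ⟨hm.1, Nat.le_floor h2.le⟩) h3
            · rw [abs_zero]
              exact mul_nonneg hKp (pow_nonneg (LT_d0 _) 3)
            · rw [abs_zero]
        _ = ∑ m ∈ (Icc 1 X).filter (fun m => m ∈ Icc 1 ⌊T⌋₊), K * LT_d m ^ 3 := by
            rw [sum_filter]
        _ ≤ ∑ m ∈ Icc 1 ⌊T⌋₊, K * LT_d m ^ 3 := by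
            apply sum_le_sum_of_subset_of_nonneg
            · intro m hm
              exact (mem_filter.1 hm).2
            · intro m _ _
              exact mul_nonneg hKp (pow_nonneg (LT_d0 _) 3)
    refine h1.trans ?_
    rw [← mul_sum]
    apply mul_le_mul_of_nonneg_left _ hKp
    refine (hD ⌊T⌋₊).trans ?_
    have h2 : ((⌊T⌋₊ : ℕ) : ℝ) ≤ T := Nat.floor_le hT0.le
    apply mul_le_mul h2 _ _ hT0.le
    · apply pow_le_pow_left₀
      · have := Real.log_natCast_nonneg ⌊T⌋₊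
        linarith
      · have h3 : Real.log ((⌊T⌋₊ : ℕ) : ℝ) ≤ 2 * L := by
          rcases Nat.eq_zero_or_pos ⌊T⌋₊ with h0 | h0
          · rw [h0]
            simp
            linarith
          · refine (Real.log_le_log (by exact_mod_cast h0) h2).trans ?_
            rw [hT, Real.log_rpow hJ0]
            have : 0 ≤ L := by linarith
            nlinarith
        linarith
    · apply pow_nonneg
      have := Real.log_natCast_nonneg ⌊T⌋₊
      linarith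
  have p3 := LT_I (R := R) htI hJ hj (fun m => ((γ1 m : ℝ) : ℂ)) hG
  have hp3 : (R : ℝ) ^ 2 * (3 * R * (K * (T * (3 * L) ^ D))) ≤
      (R : ℝ) * (J : ℝ) ^ 2 / L ^ (A + 1) := by
    rw [le_div_iff₀ (by positivity)]
    have h1 : (R : ℝ) ^ 2 ≤ (J : ℝ) ^ (9996 / 10000 : ℝ) := by
      calc (R : ℝ) ^ 2 ≤ ((J : ℝ) ^ (4998 / 10000 : ℝ)) ^ 2 := pow_le_pow_left₀ hR0 hR2 2
        _ = (J : ℝ) ^ (9996 / 10000 : ℝ) := by
            rw [← Real.rpow_natCast, ← Real.rpow_mul hJ0.le]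
            norm_num
    have h2 : (J : ℝ) ^ (9996 / 10000 : ℝ) * T * (J : ℝ) ^ (3 / 10000 : ℝ) = (J : ℝ) ^ 2 := by
      rw [hT, ← Real.rpow_add hJ0, ← Real.rpow_add hJ0, ← Real.rpow_natCast]
      norm_num
    calc (R : ℝ) ^ 2 * (3 * R * (K * (T * (3 * L) ^ D))) * L ^ (A + 1)
        = (R : ℝ) ^ 2 * (R * T * (3 * K * 3 ^ D * L ^ (D + (A + 1)))) := by
          rw [mul_pow, pow_add L D]
          ring
      _ ≤ (J : ℝ) ^ (9996 / 10000 : ℝ) * (R * T * (J : ℝ) ^ (3 / 10000 : ℝ)) := by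
          apply mul_le_mul h1 _ (by positivity) (by positivity)
          exact mul_le_mul_of_nonneg_left hlast (by positivity)
      _ = R * ((J : ℝ) ^ (9996 / 10000 : ℝ) * T * (J : ℝ) ^ (3 / 10000 : ℝ)) := by ring
      _ = R * (J : ℝ) ^ 2 := by rw [h2]
  calc ∑ p ∈ primChars R, ‖Sf (cv c θ J) J j p.2‖
      ≤ ∑ p ∈ primChars R, (‖∑ m ∈ Icc 1 X, ∑ n ∈ Icc 1 X, (c2 m : ℂ) * (dsum (θ J) n : ℂ) *
          p.2 ((m * n : ℕ) : ZMod p.1) * (wJ J j (m * n) : ℂ)‖ +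
        (‖∑ m ∈ Icc 1 X, ∑ n ∈ Icc 1 X, (γ2 m : ℂ) * 1 *
          p.2 ((m * n : ℕ) : ZMod p.1) * (wJ J j (m * n) : ℂ)‖ +
        ‖∑ m ∈ Icc 1 X, ∑ n ∈ Icc 1 X, (γ1 m : ℂ) * 1 *
          p.2 ((m * n : ℕ) : ZMod p.1) * (wJ J j (m * n) : ℂ)‖)) := by
        apply sum_le_sum
        intro p hp
        rw [hdec p hp]
        exact (norm_add_le _ _).trans (by gcongr; exact norm_add_le _ _)
    _ ≤ (R : ℝ) * (J : ℝ) ^ 2 / L ^ (A + 1) + ((R : ℝ) * (J : ℝ) ^ 2 / L ^ (A + 1) +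
        (R : ℝ) * (J : ℝ) ^ 2 / L ^ (A + 1)) := by
        rw [sum_add_distrib, sum_add_distrib]
        exact add_le_add p1 (add_le_add p2 (p3.trans hp3))
    _ = 3 * ((R : ℝ) * (J : ℝ) ^ 2 / L ^ (A + 1)) := by ring
    _ ≤ L * ((R : ℝ) * (J : ℝ) ^ 2 / L ^ (A + 1)) := by
        apply mul_le_mul_of_nonneg_right _ (by positivity)
        linarith
    _ = (R : ℝ) * (J : ℝ) ^ 2 / L ^ A := by
        rw [pow_succ L A]
        field_simp

end Pool.Agent.CA.LC
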