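import Pool.Agent.Lib.MP_d610d0_nt.CA.LC.Stm

set_option autoImplicit false

/-!
Piece bil: the bilinear large sieve in one window.
-/

namespace Pool.Agent.CA.LC

open Finset Filter MeasureTheory
open Pool.Agent.MP89da58 (tri primChars)
open Pool.Agent.BVall (boxL)
open Pool.Agent.CH (wJ)
open Pool.Agent.CH.D (xj R_bA)

private lemma bil_memLp_box (lam x : ℝ) : MemLp (fun s => (boxL lam x s : ℂ)) 2 := by
  have h : (fun s => (boxL lam x s : ℂ)) = (Set.Icc (x - 1 / lam) x).indicator fun _ => (1 : ℂ) := by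
    funext s
    rw [boxL]
    by_cases hs : s ∈ Set.Icc (x - 1 / lam) x
    · rw [Set.indicator_of_mem hs, Set.indicator_of_mem hs, Complex.ofReal_one]
    · rw [Set.indicator_of_notMem hs, Set.indicator_of_notMem hs, Complex.ofReal_zero]
  rw [h]
  exact memLp_indicator_const 2 measurableSet_Icc 1 (Or.inr (by simp))

/-- the first factor -/
private noncomputable def bilA (J M : ℕ) (a : ℕ → ℂ) (p : Σ q, DirichletCharacter ℂ q) (s : ℝ) : ℂ :=
  ∑ m ∈ Icc 1 M, a m * p.2 (m : ZMod p.1) * (boxL (2 * J) (Real.log m) s : ℂ)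

/-- the second factor -/
private noncomputable def bilB (J j N : ℕ) (b : ℕ → ℂ) (p : Σ q, DirichletCharacter ℂ q) (s : ℝ) : ℂ :=
  ∑ n ∈ Icc 1 N, b n * p.2 (n : ZMod p.1) * (boxL (2 * J) (Real.log (xj j) - Real.log n) s : ℂ)

private lemma bil_memLpA (J M : ℕ) (a : ℕ → ℂ) (p : Σ q, DirichletCharacter ℂ q) :
    MemLp (bilA J M a p) 2 := by
  have h : bilA J M a p = fun s => ∑ m ∈ Icc 1 M, a m * p.2 (m : ZMod p.1) *
      (boxL (2 * J) (Real.log m) s : ℂ) := rfl
  rw [h]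
  exact memLp_finsetSum _ fun m _ => (bil_memLp_box _ _).const_mul _

private lemma bil_memLpB (J j N : ℕ) (b : ℕ → ℂ) (p : Σ q, DirichletCharacter ℂ q) :
    MemLp (bilB J j N b p) 2 := by
  have h : bilB J j N b p = fun s => ∑ n ∈ Icc 1 N, b n * p.2 (n : ZMod p.1) *
      (boxL (2 * J) (Real.log (xj j) - Real.log n) s : ℂ) := rfl
  rw [h]
  exact memLp_finsetSum _ fun n _ => (bil_memLp_box _ _).const_mul _

private lemma bil_w (J j m n : ℕ) (hJ : 1 ≤ J) (hm : 1 ≤ m) (hn : 1 ≤ n) :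
    (2 * (J : ℝ)) * ∫ s, boxL (2 * J) (Real.log m) s * boxL (2 * J) (Real.log (xj j) - Real.log n) s =
      wJ J j (m * n) := by
  have hJ' : (1 : ℝ) ≤ J := by exact_mod_cast hJ
  have hm' : (0 : ℝ) < m := by exact_mod_cast hm
  have hn' : (0 : ℝ) < n := by exact_mod_cast hn
  have hx : (0 : ℝ) < xj j := by unfold xj; positivity
  rw [Pool.Agent.BVall.integral_boxL_mul (by linarith), wJ]
  congr 2
  have e : (((m * n : ℕ) : ℝ) / ((j : ℝ) + 1 / 2) ^ 3) = m * n / xj j := by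
    unfold xj; push_cast; rfl
  rw [e, Real.log_div (by positivity) hx.ne', Real.log_mul hm'.ne' hn'.ne']
  ring

private lemma bil_eq (J j M N : ℕ) (a b : ℕ → ℂ) (p : Σ q, DirichletCharacter ℂ q) (hJ : 1 ≤ J) :
    ∑ m ∈ Icc 1 M, ∑ n ∈ Icc 1 N,
      a m * b n * p.2 ((m * n : ℕ) : ZMod p.1) * (wJ J j (m * n) : ℂ) =
    ((2 * (J : ℝ) : ℝ) : ℂ) * ∫ s, bilA J M a p s * bilB J j N b p s := by
  have h1 : ∀ s, bilA J M a p s * bilB J j N b p s =
      ∑ m ∈ Icc 1 M, ∑ n ∈ Icc 1 N, (a m * b n * p.2 ((m * n : ℕ) : ZMod p.1)) *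
          ((boxL (2 * J) (Real.log m) s * boxL (2 * J) (Real.log (xj j) - Real.log n) s : ℝ) : ℂ) := by
    intro s
    rw [bilA, bilB, sum_mul_sum]
    refine sum_congr rfl fun m _ => sum_congr rfl fun n _ => ?_
    rw [Nat.cast_mul, map_mul]
    push_cast
    ring
  simp_rw [h1]
  have hint : ∀ m n : ℕ, Integrable fun s =>
      (a m * b n * p.2 ((m * n : ℕ) : ZMod p.1)) *
          ((boxL (2 * J) (Real.log m) s * boxL (2 * J) (Real.log (xj j) - Real.log n) s : ℝ) : ℂ) :=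
    fun m n => ((Pool.Agent.BVall.integrable_boxL_mul _ _).ofReal).const_mul _
  rw [integral_finsetSum _ (fun m _ => integrable_finsetSum _ fun n _ => hint m n), mul_sum]
  refine sum_congr rfl fun m hm => ?_
  rw [integral_finsetSum _ (fun n _ => hint m n), mul_sum]
  refine sum_congr rfl fun n hn => ?_
  rw [integral_const_mul, integral_complex_ofReal, ← bil_w J j m n hJ (mem_Icc.mp hm).1
    (mem_Icc.mp hn).1]
  push_cast
  ring

private lemma bil_box_shift (lam x y s : ℝ) : boxL lam (y - x) s = boxL lam x (y - 1 / lam - s) := by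
  rw [boxL, boxL]
  by_cases h : s ∈ Set.Icc (y - x - 1 / lam) (y - x)
  · have h' : y - 1 / lam - s ∈ Set.Icc (x - 1 / lam) x := by
      obtain ⟨h1, h2⟩ := h
      exact ⟨by linarith, by linarith⟩
    rw [Set.indicator_of_mem h, Set.indicator_of_mem h']
  · have h' : y - 1 / lam - s ∉ Set.Icc (x - 1 / lam) x := by
      rintro ⟨h1, h2⟩
      exact h ⟨by linarith, by linarith⟩
    rw [Set.indicator_of_notMem h, Set.indicator_of_notMem h']

private lemma bil_B (J j N R : ℕ) (b : ℕ → ℂ) :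
    ∫ s, ∑ p ∈ primChars R, ‖bilB J j N b p s‖ ^ 2 = ∫ s, ∑ p ∈ primChars R, ‖bilA J N b p s‖ ^ 2 := by
  rw [← integral_sub_left_eq_self (fun s => ∑ p ∈ primChars R, ‖bilA J N b p s‖ ^ 2) volume
    (Real.log (xj j) - 1 / (2 * J))]
  refine integral_congr_ae (Eventually.of_forall fun s => ?_)
  refine sum_congr rfl fun p _ => ?_
  rw [bilA, bilB]
  congr 2
  refine sum_congr rfl fun n _ => ?_
  rw [bil_box_shift]

private lemma bil_sum (J j M N R : ℕ) (a b : ℕ → ℂ) (hJ : 1 ≤ J) (t : ℝ) (ht : 0 < t) :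
    ∑ p ∈ primChars R, ‖∑ m ∈ Icc 1 M, ∑ n ∈ Icc 1 N,
      a m * b n * p.2 ((m * n : ℕ) : ZMod p.1) * (wJ J j (m * n) : ℂ)‖ ≤
      J * (t * (∫ s, ∑ p ∈ primChars R, ‖bilA J M a p s‖ ^ 2) +
        (∫ s, ∑ p ∈ primChars R, ‖bilB J j N b p s‖ ^ 2) / t) := by
  have hA : ∀ p, Integrable fun s => ‖bilA J M a p s‖ ^ 2 :=
    fun p => (bil_memLpA J M a p).norm.integrable_sq
  have hB : ∀ p, Integrable fun s => ‖bilB J j N b p s‖ ^ 2 :=
    fun p => (bil_memLpB J j N b p).norm.integrable_sq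
  rw [integral_finsetSum _ (fun p _ => hA p), integral_finsetSum _ (fun p _ => hB p), mul_sum, sum_div,
    ← sum_add_distrib, mul_sum]
  refine sum_le_sum fun p _ => ?_
  rw [bil_eq J j M N a b p hJ, norm_mul, Complex.norm_real, Real.norm_of_nonneg (by positivity)]
  have hAB : Integrable fun s => bilA J M a p s * bilB J j N b p s :=
    (bil_memLpA J M a p).integrable_mul (bil_memLpB J j N b p)
  have h1 : ∫ s, (t * ‖bilA J M a p s‖ ^ 2 + ‖bilB J j N b p s‖ ^ 2 / t) / 2 =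
      (t * (∫ s, ‖bilA J M a p s‖ ^ 2) + (∫ s, ‖bilB J j N b p s‖ ^ 2) / t) / 2 := by
    rw [integral_div, integral_add ((hA p).const_mul t) ((hB p).div_const t), integral_const_mul,
      integral_div]
  have h2 : ‖∫ s, bilA J M a p s * bilB J j N b p s‖ ≤
      (t * (∫ s, ‖bilA J M a p s‖ ^ 2) + (∫ s, ‖bilB J j N b p s‖ ^ 2) / t) / 2 := by
    rw [← h1]
    refine (norm_integral_le_integral_norm _).trans ?_
    refine integral_mono hAB.norm ((((hA p).const_mul t).add ((hB p).div_const t)).div_const 2) ?_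
    intro s
    show ‖bilA J M a p s * bilB J j N b p s‖ ≤
      (t * ‖bilA J M a p s‖ ^ 2 + ‖bilB J j N b p s‖ ^ 2 / t) / 2
    rw [norm_mul]
    set x := ‖bilA J M a p s‖
    set y := ‖bilB J j N b p s‖
    have h3 : (t * x ^ 2 + y ^ 2 / t) / 2 - x * y = (t * x - y) ^ 2 / (2 * t) := by
      field_simp
      ring
    have h4 : 0 ≤ (t * x - y) ^ 2 / (2 * t) := by positivity
    linarith
  have hJ0 : (0 : ℝ) ≤ 2 * J := by positivity
  have h5 := mul_le_mul_of_nonneg_left h2 hJ0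
  linarith

private lemma bil_opt (S J X Y : ℝ) (hJ : 0 ≤ J) (hX : 0 ≤ X) (hY : 0 ≤ Y)
    (h : ∀ t : ℝ, 0 < t → S ≤ J * (t * X + Y / t)) : S ≤ 2 * J * Real.sqrt (X * Y) := by
  have hd : ∀ d : ℝ, 0 < d → S ≤ 2 * J * Real.sqrt ((X + d) * (Y + d)) := by
    intro d hd
    have hx : 0 < X + d := by linarith
    have hy : 0 < Y + d := by linarith
    have ht : 0 < Real.sqrt (Y + d) / Real.sqrt (X + d) := by positivity
    have h1 := h _ ht
    have sx := Real.mul_self_sqrt hx.le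
    have sy := Real.mul_self_sqrt hy.le
    have px : 0 < Real.sqrt (X + d) := Real.sqrt_pos.mpr hx
    have py : 0 < Real.sqrt (Y + d) := Real.sqrt_pos.mpr hy
    rw [Real.sqrt_mul hx.le]
    have h2 : Real.sqrt (Y + d) / Real.sqrt (X + d) * X ≤ Real.sqrt (X + d) * Real.sqrt (Y + d) := by
      rw [div_mul_eq_mul_div, div_le_iff₀ px]
      nlinarith
    have h3 : Y / (Real.sqrt (Y + d) / Real.sqrt (X + d)) ≤ Real.sqrt (X + d) * Real.sqrt (Y + d) := by
      rw [div_div_eq_mul_div, div_le_iff₀ py]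
      nlinarith
    have h4 := mul_le_mul_of_nonneg_left (add_le_add h2 h3) hJ
    linarith
  have hc : Tendsto (fun d : ℝ => 2 * J * Real.sqrt ((X + d) * (Y + d))) (nhdsWithin 0 (Set.Ioi 0))
      (nhds (2 * J * Real.sqrt ((X + 0) * (Y + 0)))) := by
    have : Continuous fun d : ℝ => 2 * J * Real.sqrt ((X + d) * (Y + d)) := by fun_prop
    exact (this.tendsto 0).mono_left nhdsWithin_le_nhds
  rw [add_zero, add_zero] at hc
  refine ge_of_tendsto hc ?_
  filter_upwards [self_mem_nhdsWithin] with d hd0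
  exact hd d hd0

theorem p_bil : S_bil := by
  rintro ⟨C, hC, hbA⟩
  refine ⟨2 * C, by linarith, fun J j M N R a b hJ hR => ?_⟩
  have hJ' : (1 : ℝ) ≤ J := by exact_mod_cast hJ
  have hJ0 : (0 : ℝ) < J := by linarith
  set SA : ℝ := ∑ m ∈ Icc 1 M, ‖a m‖ ^ 2 with hSA
  set SB : ℝ := ∑ n ∈ Icc 1 N, ‖b n‖ ^ 2 with hSB
  have hSA0 : 0 ≤ SA := sum_nonneg fun _ _ => by positivity
  have hSB0 : 0 ≤ SB := sum_nonneg fun _ _ => by positivity
  set X : ℝ := C * ((R : ℝ) ^ 2 + M / J) / J * SA with hX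
  set Y : ℝ := C * ((R : ℝ) ^ 2 + N / J) / J * SB with hY
  have hX0 : 0 ≤ X := by positivity
  have hY0 : 0 ≤ Y := by positivity
  have hA : ∫ s, ∑ p ∈ primChars R, ‖bilA J M a p s‖ ^ 2 ≤ X := hbA J M R a hJ hR
  have hB : ∫ s, ∑ p ∈ primChars R, ‖bilB J j N b p s‖ ^ 2 ≤ Y := by
    rw [bil_B]
    exact hbA J N R b hJ hR
  have h1 := bil_opt _ J X Y hJ0.le hX0 hY0 (fun t ht => (bil_sum J j M N R a b hJ t ht).trans
    (mul_le_mul_of_nonneg_left (add_le_add (mul_le_mul_of_nonneg_left hA ht.le)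
      (div_le_div_of_nonneg_right hB ht.le)) hJ0.le))
  refine h1.trans (le_of_eq ?_)
  have h2 : X * Y = (C / J) ^ 2 * (((R : ℝ) ^ 2 + M / J) * ((R : ℝ) ^ 2 + N / J) * (SA * SB)) := by
    rw [hX, hY]
    field_simp
  rw [h2, Real.sqrt_mul (by positivity), Real.sqrt_sq (by positivity)]
  field_simp

end Pool.Agent.CA.LC
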