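import Pool.Agent.Lib.MP_d610d0_nt.CA.LC.Stm

set_option autoImplicit false

/-!
Project CA, section LC, piece bxp: the number of prime tuples in a box is a `k`-fold Dirichlet product.
-/

namespace Pool.Agent.CA.LC

open Finset Filter

theorem bxp_key (M : ℕ) : ∀ (k : ℕ) (f : Fin k → ArithmeticFunction ℂ) (n : ℕ), 1 ≤ n → n ≤ M →
    (∏ i, f i) n = ∑ q ∈ (Fintype.piFinset (fun _ : Fin k => range (M + 1))).filter
      (fun q => ∏ i, q i = n), ∏ i, f i (q i) := by
  intro k
  induction k with
  | zero =>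
    intro f n hn hM
    by_cases h1 : n = 1
    · subst h1
      have hs : (Fintype.piFinset (fun _ : Fin 0 => range (M + 1))).filter
          (fun q => ∏ i, q i = 1) = {fun i => i.elim0} := by
        ext q
        simp only [mem_filter, Fintype.mem_piFinset, mem_singleton]
        constructor
        · intro _
          exact Subsingleton.elim _ _
        · intro _
          exact ⟨fun i => i.elim0, by simp⟩
      rw [hs]
      simp
    · have hs : (Fintype.piFinset (fun _ : Fin 0 => range (M + 1))).filter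
          (fun q => ∏ i, q i = n) = ∅ := by
        apply filter_eq_empty_iff.2
        intro q _ hq
        apply h1
        rw [← hq]
        simp
      rw [hs, sum_empty]
      simp only [univ_eq_empty, prod_empty]
      exact ArithmeticFunction.one_apply_ne h1
  | succ k ih =>
    intro f n hn hM
    rw [Fin.prod_univ_succ, ArithmeticFunction.mul_apply]
    have step : ∀ x ∈ n.divisorsAntidiagonal, f 0 x.1 * (∏ i : Fin k, f i.succ) x.2 =
        ∑ q ∈ (Fintype.piFinset (fun _ : Fin k => range (M + 1))).filter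
          (fun q => ∏ i, q i = x.2), f 0 x.1 * ∏ i : Fin k, f i.succ (q i) := by
      intro x hx
      have hx1 := (Nat.mem_divisorsAntidiagonal.1 hx)
      have hx2 : 1 ≤ x.2 := by
        rcases Nat.eq_zero_or_pos x.2 with h | h
        · exfalso
          rw [h, Nat.mul_zero] at hx1
          omega
        · exact h
      have hx3 : x.2 ≤ n := Nat.le_of_dvd (by omega) ⟨x.1, by rw [← hx1.1]; ring⟩
      rw [ih (fun i => f i.succ) x.2 hx2 (le_trans hx3 hM), mul_sum]
    rw [sum_congr rfl step, sum_sigma']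
    refine sum_nbij' (fun y => (Fin.cons y.1.1 y.2 : Fin (k + 1) → ℕ))
      (fun q => (⟨(q 0, ∏ i : Fin k, q i.succ), fun i => q i.succ⟩ : (_ : ℕ × ℕ) × (Fin k → ℕ))) ?_ ?_ ?_ ?_ ?_
    · intro y hy
      rw [mem_sigma] at hy
      obtain ⟨h1, h2⟩ := hy
      rw [mem_filter, Fintype.mem_piFinset] at h2
      have h3 := (Nat.mem_divisorsAntidiagonal.1 h1)
      rw [mem_filter, Fintype.mem_piFinset]
      refine ⟨?_, ?_⟩
      · intro i
        refine Fin.cases ?_ ?_ i
        · rw [Fin.cons_zero, mem_range]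
          have : y.1.1 ≤ n := Nat.le_of_dvd (by omega) ⟨y.1.2, h3.1.symm⟩
          omega
        · intro j
          rw [Fin.cons_succ]
          exact h2.1 j
      · rw [Fin.prod_univ_succ, Fin.cons_zero]
        simp only [Fin.cons_succ]
        rw [h2.2]
        exact h3.1
    · intro q hq
      rw [mem_filter, Fintype.mem_piFinset] at hq
      rw [mem_sigma]
      refine ⟨?_, ?_⟩
      · rw [Nat.mem_divisorsAntidiagonal]
        refine ⟨?_, by omega⟩
        rw [← hq.2, Fin.prod_univ_succ]
      · rw [mem_filter, Fintype.mem_piFinset]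
        exact ⟨fun i => hq.1 i.succ, rfl⟩
    · intro y hy
      rw [mem_sigma] at hy
      obtain ⟨h1, h2⟩ := hy
      rw [mem_filter] at h2
      obtain ⟨⟨a, b⟩, q⟩ := y
      simp only at h2
      simp only [Fin.cons_zero, Fin.cons_succ]
      rw [h2.2]
    · intro q _
      funext i
      refine Fin.cases ?_ ?_ i
      · simp
      · intro j
        simp
    · intro y _
      rw [Fin.prod_univ_succ, Fin.cons_zero]
      simp only [Fin.cons_succ]

theorem p_bxp : S_bxp := by
  intro k lo hi n hn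
  rw [bxp_key n k (fun i => pI (lo i) (hi i)) n hn le_rfl]
  have h1 : ∀ q : Fin k → ℕ, ∏ i, (pI (lo i) (hi i)) (q i) =
      if (∀ i ∈ (univ : Finset (Fin k)), (q i).Prime ∧ lo i ≤ (q i : ℝ) ∧ (q i : ℝ) ≤ hi i) then (1 : ℂ) else 0 := by
    intro q
    have h2 : ∀ i ∈ (univ : Finset (Fin k)), (pI (lo i) (hi i)) (q i) =
        if ((q i).Prime ∧ lo i ≤ (q i : ℝ) ∧ (q i : ℝ) ≤ hi i) then (1 : ℂ) else 0 := fun i _ => rfl
    rw [prod_congr rfl h2, prod_ite_zero, prod_const_one]
    by_cases h : ∀ i ∈ (univ : Finset (Fin k)), (q i).Prime ∧ lo i ≤ (q i : ℝ) ∧ (q i : ℝ) ≤ hi i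
    · rw [if_pos h, if_pos h]
    · rw [if_neg h, if_neg h]
  rw [sum_congr rfl (fun q _ => h1 q), ← sum_filter, sum_const, nsmul_eq_mul, mul_one, bx]
  push_cast
  congr 2
  ext q
  simp only [mem_filter, Fintype.mem_piFinset]
  constructor
  · rintro ⟨h2, h3⟩
    exact ⟨⟨fun i => (h2 i).1, h3⟩, fun i _ => (h2 i).2⟩
  · rintro ⟨⟨h2, h3⟩, h4⟩
    exact ⟨fun i => ⟨h2 i, h4 i (mem_univ i)⟩, h3⟩

end Pool.Agent.CA.LC
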