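import Pool.Agent.Lib.MP_d610d0_nt.CA.LC.Stm

/-!
# Piece cmb: combinatorial lemma (subset sums)
-/

namespace Pool.Agent.CA.LC

open Finset

/-- Greedy lemma. -/
theorem cmb_greedy {m : ℕ} (t : Fin m → ℝ) (lo hi : ℝ) (U : Finset (Fin m))
    (hU : ∑ i ∈ U, t i ≤ hi) (U' : Finset (Fin m)) :
    (∀ i ∈ U', t i ≤ hi - lo) → Disjoint U U' → lo ≤ ∑ i ∈ U ∪ U', t i →
    ∃ S : Finset (Fin m), lo ≤ ∑ i ∈ S, t i ∧ ∑ i ∈ S, t i ≤ hi := by
  induction U' using Finset.induction_on with
  | empty =>
    intro _ _ h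
    refine ⟨U, ?_, hU⟩
    simpa using h
  | insert a s ha ih =>
    intro h1 h2 h3
    have hd : Disjoint U s := by
      refine Disjoint.mono_right ?_ h2
      exact Finset.subset_insert a s
    have haU : a ∉ U := by
      intro h
      exact (Finset.disjoint_left.mp h2 h) (Finset.mem_insert_self a s)
    by_cases hc : lo ≤ ∑ i ∈ U ∪ s, t i
    · exact ih (fun i hi => h1 i (Finset.mem_insert_of_mem hi)) hd hc
    · push Not at hc
      refine ⟨U ∪ insert a s, h3, ?_⟩
      have e : U ∪ insert a s = insert a (U ∪ s) := by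
        ext x
        simp only [Finset.mem_union, Finset.mem_insert]
        tauto
      have hn : a ∉ U ∪ s := by
        simp only [Finset.mem_union, not_or]
        exact ⟨haU, ha⟩
      rw [e, Finset.sum_insert hn]
      have := h1 a (Finset.mem_insert_self a s)
      linarith

theorem p_cmb : S_cmb := by
  intro m t δ hδ hδ1 ht h3 h3'
  have key : (∃ S : Finset (Fin m), 1 + δ ≤ ∑ i ∈ S, t i ∧ ∑ i ∈ S, t i ≤ 2 - δ) →
      (∃ S : Finset (Fin m), 1 + δ / 2 ≤ ∑ i ∈ S, t i ∧ 1 + δ / 2 ≤ ∑ i ∈ Sᶜ, t i) := by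
    rintro ⟨S, hS1, hS2⟩
    refine ⟨S, by linarith, ?_⟩
    have := Finset.sum_add_sum_compl S t
    linarith
  by_cases c2 : ∃ k, 2 - 2 * δ ≤ t k
  · exact Or.inr (Or.inl c2)
  push Not at c2
  by_cases c1 : ∃ k, 1 + δ ≤ t k
  · obtain ⟨k, hk⟩ := c1
    left
    apply key
    refine ⟨{k}, ?_, ?_⟩
    · simpa using hk
    · have := c2 k
      simp only [Finset.sum_singleton]
      linarith
  push Not at c1
  by_cases c0 : ∃ k, 1 - 2 * δ < t k
  · obtain ⟨k, hk⟩ := c0
    by_cases c00 : ∃ l, l ≠ k ∧ 1 - 2 * δ < t l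
    · obtain ⟨l, hl, hl'⟩ := c00
      right; right
      refine ⟨l, k, hl, hl'.le, ?_, hk.le, ?_⟩
      · have := c1 l
        linarith
      · have := c1 k
        linarith
    · push Not at c00
      left
      apply key
      apply cmb_greedy t (1 + δ) (2 - δ) {k} (by simp only [Finset.sum_singleton]; have := c1 k; linarith)
        ({k}ᶜ)
      · intro i hi
        have hik : i ≠ k := by simpa using hi
        have := c00 i hik
        linarith
      · exact disjoint_compl_right
      · rw [Finset.union_compl]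
        linarith
  · push Not at c0
    left
    apply key
    apply cmb_greedy t (1 + δ) (2 - δ) ∅ (by simp only [Finset.sum_empty]; linarith) univ
    · intro i _
      have := c0 i
      linarith
    · exact Finset.disjoint_empty_left _
    · rw [Finset.empty_union]
      linarith

end Pool.Agent.CA.LC
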