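import Pool.Agent.Lib.MP_d610d0_nt.CA.LC.Stm

set_option autoImplicit false

/-!
Piece cmp: combinatorial lemma for products of at least five primes.
-/

namespace Pool.Agent.CA.LC

open Finset Filter

theorem cmp_greedy {m : ℕ} (t : Fin m → ℝ) (a b : ℝ) (U' : Finset (Fin m)) :
    ∀ U : Finset (Fin m), (∀ i ∈ U', t i ≤ b - a) → ∑ i ∈ U, t i ≤ b → Disjoint U U' →
    a ≤ ∑ i ∈ U, t i + ∑ i ∈ U', t i →
    ∃ S : Finset (Fin m), a ≤ ∑ i ∈ S, t i ∧ ∑ i ∈ S, t i ≤ b := by
  induction U' using Finset.induction_on with
  | empty =>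
    intro U _ hU _ h
    refine ⟨U, ?_, hU⟩
    simpa using h
  | insert i s his ih =>
    intro U ht hU hd h
    by_cases h1 : a ≤ ∑ i ∈ U, t i
    · exact ⟨U, h1, hU⟩
    · have hiU : i ∉ U := by
        intro hi
        exact (Finset.disjoint_left.1 hd hi) (Finset.mem_insert_self _ _)
      have h2 : t i ≤ b - a := ht i (Finset.mem_insert_self _ _)
      have h3 : ∑ j ∈ insert i U, t j = t i + ∑ j ∈ U, t j := Finset.sum_insert hiU
      have h4 : ∑ j ∈ insert i s, t j = t i + ∑ j ∈ s, t j := Finset.sum_insert his
      refine ih (insert i U) (fun j hj => ht j (Finset.mem_insert_of_mem hj)) ?_ ?_ ?_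
      · rw [h3]
        push Not at h1
        linarith
      · rw [Finset.disjoint_left]
        intro x hx hxs
        rcases Finset.mem_insert.1 hx with rfl | hx
        · exact his hxs
        · exact Finset.disjoint_left.1 hd hx (Finset.mem_insert_of_mem hxs)
      · rw [h3]
        rw [h4] at h
        linarith

theorem p_cmp : S_cmp := by
  intro m t hm h0 h1 hlo hhi
  have key : ∀ S : Finset (Fin m), 1001 / 1000 ≤ ∑ i ∈ S, t i → ∑ i ∈ S, t i ≤ 1998 / 1000 →
      ∃ S : Finset (Fin m), 1 + 1 / 1000 ≤ ∑ i ∈ S, t i ∧ 1 + 1 / 1000 ≤ ∑ i ∈ Sᶜ, t i := by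
    intro S hS1 hS2
    refine ⟨S, by linarith, ?_⟩
    have := Finset.sum_add_sum_compl S t
    linarith
  by_cases hA : ∃ k, 1001 / 1000 ≤ t k
  · obtain ⟨k, hk⟩ := hA
    have := h1 k
    exact key {k} (by simpa using hk) (by simp only [Finset.sum_singleton]; linarith)
  push Not at hA
  by_cases hB : ∃ k, 997 / 1000 < t k
  · obtain ⟨k, hk⟩ := hB
    by_cases hC : ∃ l, l ≠ k ∧ 997 / 1000 < t l
    · obtain ⟨l, hlk, hl⟩ := hC
      have hcard : 3 ≤ (((Finset.univ : Finset (Fin m)).erase k).erase l).card := by
        rw [Finset.card_erase_of_mem (Finset.mem_erase.2 ⟨hlk, Finset.mem_univ _⟩),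
          Finset.card_erase_of_mem (Finset.mem_univ _), Finset.card_univ, Fintype.card_fin]
        omega
      have hsum : ∑ i ∈ ((Finset.univ : Finset (Fin m)).erase k).erase l, t i ≤ 1007 / 1000 := by
        have e1 := Finset.add_sum_erase (Finset.univ : Finset (Fin m)) t (Finset.mem_univ k)
        have e2 := Finset.add_sum_erase ((Finset.univ : Finset (Fin m)).erase k) t
          (Finset.mem_erase.2 ⟨hlk, Finset.mem_univ l⟩)
        linarith
      have hex : ∃ i ∈ ((Finset.univ : Finset (Fin m)).erase k).erase l, t i ≤ 34 / 100 := by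
        by_contra hcon
        push Not at hcon
        have h2 : ∑ i ∈ ((Finset.univ : Finset (Fin m)).erase k).erase l, (34 / 100 : ℝ) ≤
            ∑ i ∈ ((Finset.univ : Finset (Fin m)).erase k).erase l, t i :=
          Finset.sum_le_sum fun i hi => (hcon i hi).le
        rw [Finset.sum_const, nsmul_eq_mul] at h2
        have h3 : (3 : ℝ) ≤ ((((Finset.univ : Finset (Fin m)).erase k).erase l).card : ℝ) := by
          exact_mod_cast hcard
        nlinarith
      obtain ⟨i, hi, hti⟩ := hex
      have hik : i ≠ k := (Finset.mem_erase.1 (Finset.mem_erase.1 hi).2).1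
      have h3 : ∑ j ∈ {i, k}, t j = t i + t k := Finset.sum_pair hik
      have h4 := h0 i
      have h5 := hA k
      exact key {i, k} (by rw [h3]; linarith) (by rw [h3]; linarith)
    · push Not at hC
      obtain ⟨S, hS1, hS2⟩ := cmp_greedy t (1001 / 1000) (1998 / 1000) {k}ᶜ {k}
        (fun i hi => by
          have h2 : i ≠ k := by simpa using hi
          have := hC i h2
          linarith)
        (by
          have := hA k
          simp only [Finset.sum_singleton]
          linarith)
        (by
          rw [Finset.disjoint_left]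
          intro x hx hx'
          exact (Finset.mem_compl.1 hx') hx)
        (by
          rw [Finset.sum_add_sum_compl]
          linarith)
      exact key S hS1 hS2
  · push Not at hB
    obtain ⟨S, hS1, hS2⟩ := cmp_greedy t (1001 / 1000) (1998 / 1000) Finset.univ ∅
      (fun i _ => by
        have := hB i
        linarith)
      (by simp; norm_num)
      (by simp)
      (by
        rw [Finset.sum_empty, zero_add]
        linarith)
    exact key S hS1 hS2

end Pool.Agent.CA.LC
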