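import Pool.Agent.Lib.MP_d610d0_nt.CA.LC.Stm

set_option autoImplicit false

/-!
Project CA, section LC, piece cof: coefficients of products of blocks.
-/

namespace Pool.Agent.CA.LC

open Finset Filter

theorem cof_nat_succ (c n : ℕ) : (ArithmeticFunction.zeta ^ (c + 1) : ArithmeticFunction ℕ) n =
    ∑ x ∈ n.divisorsAntidiagonal, (ArithmeticFunction.zeta ^ c : ArithmeticFunction ℕ) x.2 := by
  rw [pow_succ', ArithmeticFunction.mul_apply]
  refine Finset.sum_congr rfl fun x hx => ?_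
  have h1 : x.1 ≠ 0 := (Nat.ne_zero_of_mem_divisorsAntidiagonal hx).1
  rw [ArithmeticFunction.zeta_apply_ne h1, one_mul]

theorem cof_dm_succ (c n : ℕ) : dm (c + 1) n = ∑ x ∈ n.divisorsAntidiagonal, dm c x.2 := by
  unfold dm
  rw [cof_nat_succ]
  push_cast
  rfl

theorem cof_dm_nonneg (c n : ℕ) : 0 ≤ dm c n := by
  unfold dm
  exact Nat.cast_nonneg _

theorem cof_dm_zero (c : ℕ) : dm c 0 = 0 := by
  unfold dm
  rw [ArithmeticFunction.map_zero]
  norm_num

theorem cof_dm_le_succ (c n : ℕ) : dm c n ≤ dm (c + 1) n := by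
  by_cases hn : n = 0
  · rw [hn, cof_dm_zero, cof_dm_zero]
  · rw [cof_dm_succ]
    have hmem : (1, n) ∈ n.divisorsAntidiagonal := by
      rw [Nat.mem_divisorsAntidiagonal]
      exact ⟨one_mul n, hn⟩
    exact Finset.single_le_sum (f := fun x : ℕ × ℕ => dm c x.2)
      (fun x _ => cof_dm_nonneg c x.2) hmem

theorem cof_dm_mono {c m : ℕ} (h : c ≤ m) (n : ℕ) : dm c n ≤ dm m n :=
  monotone_nat_of_le_succ (f := fun k => dm k n) (fun k => cof_dm_le_succ k n) h

theorem cof_main {m : ℕ} (f : Fin m → ArithmeticFunction ℂ) (N : Fin m → ℝ)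
    (hf : ∀ i, Bd (f i) (N i)) (S : Finset (Fin m)) :
    (∀ n, ‖(∏ i ∈ S, f i) n‖ ≤ dm S.card n) ∧
    (∀ n, (∏ i ∈ S, f i) n ≠ 0 →
      ∏ i ∈ S, N i ≤ 2 ^ S.card * (n : ℝ) ∧ (n : ℝ) ≤ 2 ^ S.card * ∏ i ∈ S, N i) := by
  induction S using Finset.induction_on with
  | empty =>
    refine ⟨fun n => ?_, fun n hn => ?_⟩
    · rw [Finset.prod_empty, Finset.card_empty]
      unfold dm
      rw [pow_zero, ArithmeticFunction.one_apply, ArithmeticFunction.one_apply]
      by_cases h : n = 1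
      · simp [h]
      · simp [h]
    · rw [Finset.prod_empty, ArithmeticFunction.one_apply] at hn
      have h1 : n = 1 := by
        by_contra h
        rw [if_neg h] at hn
        exact hn rfl
      rw [h1]
      simp
  | insert a S ha ih =>
    obtain ⟨ih1, ih2⟩ := ih
    rw [Finset.prod_insert ha, Finset.card_insert_of_notMem ha, Finset.prod_insert ha]
    refine ⟨fun n => ?_, fun n hn => ?_⟩
    · rw [ArithmeticFunction.mul_apply, cof_dm_succ]
      refine (norm_sum_le _ _).trans (Finset.sum_le_sum fun x _ => ?_)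
      rw [norm_mul]
      calc ‖f a x.1‖ * ‖(∏ i ∈ S, f i) x.2‖ ≤ 1 * dm S.card x.2 :=
            mul_le_mul ((hf a).bd _) (ih1 _) (norm_nonneg _) zero_le_one
        _ = dm S.card x.2 := one_mul _
    · rw [ArithmeticFunction.mul_apply] at hn
      obtain ⟨x, hx, hne⟩ := Finset.exists_ne_zero_of_sum_ne_zero hn
      have hfa : f a x.1 ≠ 0 := left_ne_zero_of_mul hne
      have hg : (∏ i ∈ S, f i) x.2 ≠ 0 := right_ne_zero_of_mul hne
      obtain ⟨hs1, hs2⟩ := (hf a).sp _ hfa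
      obtain ⟨hg1, hg2⟩ := ih2 _ hg
      have hN : 1 ≤ N a := (hf a).one
      have hP : 1 ≤ ∏ i ∈ S, N i := by
        have : ∏ i ∈ S, (1 : ℝ) ≤ ∏ i ∈ S, N i :=
          Finset.prod_le_prod (fun _ _ => zero_le_one) fun i _ => (hf i).one
        rwa [Finset.prod_const_one] at this
      have hn' : (n : ℝ) = (x.1 : ℝ) * (x.2 : ℝ) := by
        rw [← (Nat.mem_divisorsAntidiagonal.1 hx).1]
        push_cast
        ring
      have hx1 : (0 : ℝ) ≤ (x.1 : ℝ) := Nat.cast_nonneg _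
      have hx2 : (0 : ℝ) ≤ (x.2 : ℝ) := Nat.cast_nonneg _
      constructor
      · calc N a * ∏ i ∈ S, N i ≤ (2 * (x.1 : ℝ)) * (2 ^ S.card * (x.2 : ℝ)) :=
              mul_le_mul (by linarith) hg1 (by linarith) (by linarith)
          _ = 2 ^ (S.card + 1) * (n : ℝ) := by rw [hn', pow_succ]; ring
      · calc (n : ℝ) = (x.1 : ℝ) * (x.2 : ℝ) := hn'
          _ ≤ (2 * N a) * (2 ^ S.card * ∏ i ∈ S, N i) :=
              mul_le_mul hs2 hg2 hx2 (by linarith)
          _ = 2 ^ (S.card + 1) * (N a * ∏ i ∈ S, N i) := by rw [pow_succ]; ring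

/-- [CA LC cof] -/
theorem p_cof : S_cof := by
  intro hdvm m
  obtain ⟨C, hC⟩ := hdvm.2 (2 * m)
  refine ⟨C, fun f N hf S => ?_⟩
  obtain ⟨h1, h2⟩ := cof_main f N hf S
  have hcard : S.card ≤ m := by
    have := Finset.card_le_univ S
    rwa [Fintype.card_fin] at this
  have hdm : ∀ n, ‖(∏ i ∈ S, f i) n‖ ≤ dm m n := fun n => (h1 n).trans (cof_dm_mono hcard n)
  have hpow : (2 : ℝ) ^ S.card ≤ 2 ^ m := pow_le_pow_right₀ (by norm_num) hcard
  refine ⟨hdm, fun n hn => ?_, fun X => ?_⟩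
  · obtain ⟨h3, h4⟩ := h2 n hn
    have hP : 1 ≤ ∏ i ∈ S, N i := by
      have : ∏ i ∈ S, (1 : ℝ) ≤ ∏ i ∈ S, N i :=
        Finset.prod_le_prod (fun _ _ => zero_le_one) fun i _ => (hf i).one
      rwa [Finset.prod_const_one] at this
    exact ⟨h3.trans (mul_le_mul_of_nonneg_right hpow (Nat.cast_nonneg _)),
      h4.trans (mul_le_mul_of_nonneg_right hpow (by linarith))⟩
  · refine le_trans (Finset.sum_le_sum fun n _ => ?_) (hC X)
    calc ‖(∏ i ∈ S, f i) n‖ ^ 2 ≤ (((n.divisors.card : ℕ) : ℝ) ^ m) ^ 2 :=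
          pow_le_pow_left₀ (norm_nonneg _) ((hdm n).trans (hdvm.1 m n)) 2
      _ = ((n.divisors.card : ℕ) : ℝ) ^ (2 * m) := by rw [← pow_mul, mul_comm m 2]

end Pool.Agent.CA.LC
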