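import Pool.Agent.Lib.MP_d610d0_nt.CA.LC.Stm

set_option autoImplicit false

/-!
Piece cvl.
-/

namespace Pool.Agent.CA.LC

open Finset Filter

theorem p_cvl : S_cvl := by
  intro g h M N X w hg hh hw
  have hR : ∑ m ∈ Icc 1 M, ∑ n ∈ Icc 1 N, g m * h n * w (m * n) =
      ∑ x ∈ Icc 1 M ×ˢ Icc 1 N, g x.1 * h x.2 * w (x.1 * x.2) := by
    rw [Finset.sum_product]
  have hR2 : ∑ x ∈ Icc 1 M ×ˢ Icc 1 N, g x.1 * h x.2 * w (x.1 * x.2) =
      ∑ x ∈ (Icc 1 M ×ˢ Icc 1 N).filter (fun x => x.1 * x.2 ≤ X),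
        g x.1 * h x.2 * w (x.1 * x.2) := by
    symm
    apply Finset.sum_subset (Finset.filter_subset _ _)
    intro x hx hx'
    have h1 : X < x.1 * x.2 := by
      by_contra h2
      exact hx' (Finset.mem_filter.2 ⟨hx, not_lt.1 h2⟩)
    rw [hw _ h1, mul_zero]
  have hmap : ∀ x ∈ (Icc 1 M ×ˢ Icc 1 N).filter (fun x => x.1 * x.2 ≤ X),
      x.1 * x.2 ∈ Icc 1 X := by
    intro x hx
    rw [Finset.mem_filter, Finset.mem_product, Finset.mem_Icc, Finset.mem_Icc] at hx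
    rw [Finset.mem_Icc]
    exact ⟨Nat.mul_pos hx.1.1.1 hx.1.2.1, hx.2⟩
  rw [hR, hR2, ← Finset.sum_fiberwise_of_maps_to hmap]
  apply Finset.sum_congr rfl
  intro n hn
  rw [Finset.mem_Icc] at hn
  rw [ArithmeticFunction.mul_apply, Finset.sum_mul]
  symm
  apply Finset.sum_subset_zero_on_sdiff
  · intro x hx
    rw [Finset.mem_filter, Finset.mem_filter] at hx
    rw [Nat.mem_divisorsAntidiagonal]
    exact ⟨hx.2, by omega⟩
  · intro x hx
    rw [Finset.mem_sdiff, Nat.mem_divisorsAntidiagonal] at hx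
    obtain ⟨⟨hx1, hx2⟩, hx3⟩ := hx
    by_cases h1 : g x.1 = 0
    · rw [h1, zero_mul, zero_mul]
    by_cases h2 : h x.2 = 0
    · rw [h2, mul_zero, zero_mul]
    exfalso
    apply hx3
    have h3 : x.1 ≠ 0 := by
      intro h0; rw [h0, zero_mul] at hx1; exact hx2 hx1.symm
    have h4 : x.2 ≠ 0 := by
      intro h0; rw [h0, mul_zero] at hx1; exact hx2 hx1.symm
    rw [Finset.mem_filter, Finset.mem_filter, Finset.mem_product, Finset.mem_Icc, Finset.mem_Icc]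
    exact ⟨⟨⟨⟨Nat.pos_of_ne_zero h3, hg _ h1⟩, ⟨Nat.pos_of_ne_zero h4, hh _ h2⟩⟩,
      by rw [hx1]; exact hn.2⟩, hx1⟩
  · intro x hx
    rw [Finset.mem_filter] at hx
    rw [hx.2]

end Pool.Agent.CA.LC
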