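import Pool.Agent.Lib.MP_d610d0_nt.CA.LC.Stm

set_option autoImplicit false

/-!
Project CA, section LC, piece der: the derivative of `u ↦ (uc)^(iθ) hF V θ (s u c)`.
-/

namespace Pool.Agent.CA.LC

open MeasureTheory
open scoped ContDiff
open Pool.Agent.CH.V (pz ex)

theorem der_norm_pz (t x : ℝ) : ‖pz t x‖ = 1 := by
  unfold pz
  rw [Complex.norm_exp]
  simp

theorem der_norm_ex (x : ℝ) : ‖ex x‖ = 1 := by
  unfold ex
  rw [Complex.norm_exp]
  simp

theorem der_meas_pz (t : ℝ) : Measurable (fun v : ℝ => pz t v) := by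
  unfold pz
  fun_prop

theorem der_meas_ex (ξ : ℝ) : Measurable (fun v : ℝ => ex (-(ξ * v))) := by
  unfold ex
  fun_prop

/-- derivative of the exponential factor -/
theorem der_ex_deriv (ξ v : ℝ) : HasDerivAt (fun v : ℝ => ex (-(ξ * v)))
    (-(2 * Real.pi * Complex.I * ξ) * ex (-(ξ * v))) v := by
  unfold ex
  have h0 : HasDerivAt (fun v : ℝ => -(ξ * v)) (-(ξ * 1)) v :=
    ((hasDerivAt_id v).const_mul ξ).neg
  have h1 := (h0.ofReal_comp.const_mul (2 * Real.pi * Complex.I)).cexp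
  refine h1.congr_deriv ?_
  push_cast
  ring

/-- derivative of the power factor -/
theorem der_pz_deriv (θ v : ℝ) (hv : v ≠ 0) : HasDerivAt (fun v : ℝ => pz (-θ) v)
    (Complex.I * θ / v * pz (-θ) v) v := by
  unfold pz
  have h0 : HasDerivAt (fun v : ℝ => -θ * Real.log v) (-θ * v⁻¹) v :=
    (Real.hasDerivAt_log hv).const_mul (-θ)
  have h1 := ((h0.ofReal_comp.const_mul Complex.I).neg).cexp
  refine h1.congr_deriv ?_
  have hv' : (v : ℂ) ≠ 0 := by exact_mod_cast hv
  simp only [Pi.neg_apply]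
  push_cast
  field_simp

/-- integrability -/
theorem der_int (W : ℝ → ℝ) (hW : Continuous W) (hs : ∀ x, W x ≠ 0 → 1 / 2 ≤ x ∧ x ≤ 2)
    (t ξ : ℝ) : Integrable (fun v : ℝ => (W v : ℂ) * pz t v * ex (-(ξ * v))) := by
  have hcs : HasCompactSupport W :=
    HasCompactSupport.of_support_subset_isCompact (K := Set.Icc (1 / 2) 2) isCompact_Icc
      fun x hx => Set.mem_Icc.2 (hs x hx)
  have hi : Integrable W := hW.integrable_of_hasCompactSupport hcs
  refine Integrable.mono' hi.norm ?_ ?_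
  · have h1 : Measurable (fun v : ℝ => (W v : ℂ)) := Complex.measurable_ofReal.comp hW.measurable
    exact ((h1.mul (der_meas_pz t)).mul (der_meas_ex ξ)).aestronglyMeasurable
  · refine Filter.Eventually.of_forall fun v => ?_
    rw [norm_mul, norm_mul, der_norm_pz, der_norm_ex, mul_one, mul_one, Complex.norm_real]

/-- the derivative of `hF` -/
theorem der_hF (V : ℝ → ℝ) (hV : Vsm V) (θ ξ : ℝ) : HasDerivAt (fun ξ : ℝ => hF V θ ξ)
    (-(2 * Real.pi * Complex.I) * hF (fun v => v * V v) θ ξ) ξ := by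
  have hc : Continuous (fun v : ℝ => v * V v) := continuous_id.mul hV.sm.continuous
  have hs : ∀ x : ℝ, x * V x ≠ 0 → 1 / 2 ≤ x ∧ x ≤ 2 := fun x hx =>
    hV.sp x (right_ne_zero_of_mul hx)
  have hcs : HasCompactSupport (fun v : ℝ => v * V v) :=
    HasCompactSupport.of_support_subset_isCompact (K := Set.Icc (1 / 2) 2) isCompact_Icc
      fun x hx => Set.mem_Icc.2 (hs x hx)
  have hb : Integrable (fun v : ℝ => v * V v) := hc.integrable_of_hasCompactSupport hcs
  have hmV : Measurable (fun v : ℝ => (V v : ℂ)) :=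
    Complex.measurable_ofReal.comp hV.sm.continuous.measurable
  have key := hasDerivAt_integral_of_dominated_loc_of_deriv_le (μ := volume) (𝕜 := ℝ)
    (F := fun (ξ : ℝ) (v : ℝ) => (V v : ℂ) * pz (-θ) v * ex (-(ξ * v)))
    (F' := fun (ξ : ℝ) (v : ℝ) => -(2 * Real.pi * Complex.I) *
      (((v * V v : ℝ) : ℂ) * pz (-θ) v * ex (-(ξ * v))))
    (x₀ := ξ) (s := Set.univ) (bound := fun v => 2 * Real.pi * ‖v * V v‖)
    Filter.univ_mem
    (Filter.Eventually.of_forall fun x =>
      ((hmV.mul (der_meas_pz (-θ))).mul (der_meas_ex x)).aestronglyMeasurable)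
    (der_int V hV.sm.continuous hV.sp (-θ) ξ)
    ((der_int (fun v => v * V v) hc hs (-θ) ξ).const_mul _).aestronglyMeasurable
    (Filter.Eventually.of_forall fun v x _ => ?_)
    (hb.norm.const_mul _)
    (Filter.Eventually.of_forall fun v x _ => ?_)
  · have h := key.2
    rw [integral_const_mul] at h
    exact h
  · rw [norm_mul, norm_mul, norm_mul, der_norm_pz, der_norm_ex, mul_one, mul_one,
      Complex.norm_real, norm_neg, norm_mul, norm_mul, Complex.norm_I, mul_one]
    simp [abs_of_pos Real.pi_pos]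
  · have h1 : HasDerivAt (fun x : ℝ => ex (-(x * v)))
        (-(2 * Real.pi * Complex.I * v) * ex (-(x * v))) x := by
      have := der_ex_deriv v x
      simp_rw [mul_comm v] at this
      exact this
    refine (h1.const_mul ((V v : ℂ) * pz (-θ) v)).congr_deriv ?_
    push_cast
    ring

/-- integration by parts -/
theorem der_parts (V : ℝ → ℝ) (hV : Vsm V) (θ ξ : ℝ) :
    hF (V1 V) θ ξ + (Complex.I * θ * hF V θ ξ +
      ξ * (-(2 * Real.pi * Complex.I) * hF (fun v => v * V v) θ ξ)) = 0 := by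
  have hd : Differentiable ℝ V := hV.sm.differentiable (by simp)
  have hc : Continuous (fun v : ℝ => v * V v) := continuous_id.mul hV.sm.continuous
  have hs : ∀ x : ℝ, x * V x ≠ 0 → 1 / 2 ≤ x ∧ x ≤ 2 := fun x hx =>
    hV.sp x (right_ne_zero_of_mul hx)
  have hsm : ContDiff ℝ ∞ (fun v : ℝ => v * V v) := contDiff_id.mul hV.sm
  have hc1 : Continuous (V1 V) := hsm.continuous_deriv (by simp)
  have hs1 : ∀ x : ℝ, V1 V x ≠ 0 → 1 / 2 ≤ x ∧ x ≤ 2 := by
    intro x hx
    by_contra hn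
    have hx' : x ∈ (Set.Icc (1 / 2 : ℝ) 2)ᶜ := fun h => hn (Set.mem_Icc.1 h)
    have ho : (Set.Icc (1 / 2 : ℝ) 2)ᶜ ∈ nhds x := isClosed_Icc.isOpen_compl.mem_nhds hx'
    apply hx
    unfold V1
    have h0 : (fun u : ℝ => u * V u) =ᶠ[nhds x] fun _ => 0 := by
      filter_upwards [ho] with y hy
      by_contra h
      exact hy (Set.mem_Icc.2 (hs y h))
    rw [h0.deriv_eq]
    simp
  set G : ℝ → ℂ := fun v => ((v * V v : ℝ) : ℂ) * pz (-θ) v * ex (-(ξ * v)) with hG
  set G' : ℝ → ℂ := fun v => (V1 V v : ℂ) * pz (-θ) v * ex (-(ξ * v)) +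
    (Complex.I * θ * ((V v : ℂ) * pz (-θ) v * ex (-(ξ * v))) +
      ξ * (-(2 * Real.pi * Complex.I) *
        (((v * V v : ℝ) : ℂ) * pz (-θ) v * ex (-(ξ * v))))) with hG'
  have hder : ∀ v, HasDerivAt G (G' v) v := by
    intro v
    by_cases hv : 0 < v
    · have h1 : HasDerivAt (fun v : ℝ => v * V v) (V1 V v) v :=
        ((differentiable_id.mul hd) v).hasDerivAt
      have h2 := (h1.ofReal_comp.mul (der_pz_deriv θ v hv.ne')).mul (der_ex_deriv ξ v)
      refine h2.congr_deriv ?_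
      have hv' : (v : ℂ) ≠ 0 := by exact_mod_cast hv.ne'
      simp only [hG', Pi.mul_apply]
      push_cast
      field_simp
      ring
    · have h0 : V v = 0 := by
        by_contra h
        linarith [(hV.sp v h).1, not_lt.1 hv]
      have h1 : V1 V v = 0 := by
        by_contra h
        linarith [(hs1 v h).1, not_lt.1 hv]
      have h2 : G' v = 0 := by simp [hG', h0, h1]
      rw [h2]
      have h3 : G =ᶠ[nhds v] fun _ => 0 := by
        have : Set.Iio (1 / 2 : ℝ) ∈ nhds v := Iio_mem_nhds (by linarith [not_lt.1 hv])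
        filter_upwards [this] with y hy
        have hy0 : V y = 0 := by
          by_contra h
          exact absurd (hV.sp y h).1 (not_le.2 hy)
        simp [hG, hy0]
      exact (hasDerivAt_const v (0 : ℂ)).congr_of_eventuallyEq h3
  have i1 := der_int (V1 V) hc1 hs1 (-θ) ξ
  have i2 := (der_int V hV.sm.continuous hV.sp (-θ) ξ).const_mul (Complex.I * θ)
  have i3 := ((der_int (fun v => v * V v) hc hs (-θ) ξ).const_mul
    (-(2 * Real.pi * Complex.I))).const_mul (ξ : ℂ)
  have hint : Integrable G' := i1.add (i2.add i3)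
  have h := integral_eq_zero_of_hasDerivAt_of_integrable hder hint
    (der_int (fun v => v * V v) hc hs (-θ) ξ)
  have e1 : ∫ v, G' v = (∫ v : ℝ, (V1 V v : ℂ) * pz (-θ) v * ex (-(ξ * v))) +
      ∫ v : ℝ, (Complex.I * θ * ((V v : ℂ) * pz (-θ) v * ex (-(ξ * v))) +
      ξ * (-(2 * Real.pi * Complex.I) *
        (((v * V v : ℝ) : ℂ) * pz (-θ) v * ex (-(ξ * v))))) := integral_add i1 (i2.add i3)
  have e2 : ∫ v : ℝ, (Complex.I * θ * ((V v : ℂ) * pz (-θ) v * ex (-(ξ * v))) +
      ξ * (-(2 * Real.pi * Complex.I) *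
        (((v * V v : ℝ) : ℂ) * pz (-θ) v * ex (-(ξ * v))))) =
      (∫ v : ℝ, Complex.I * θ * ((V v : ℂ) * pz (-θ) v * ex (-(ξ * v)))) +
      ∫ v : ℝ, ξ * (-(2 * Real.pi * Complex.I) *
        (((v * V v : ℝ) : ℂ) * pz (-θ) v * ex (-(ξ * v)))) := integral_add i2 i3
  rw [e1, e2, integral_const_mul, integral_const_mul, integral_const_mul] at h
  exact h

/-- [CA LC der] -/
theorem p_der : S_der := by
  intro V hV θ c s u hc _ hu
  have hu' : (u : ℂ) ≠ 0 := by exact_mod_cast hu.ne'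
  have hc' : (c : ℂ) ≠ 0 := by exact_mod_cast hc.ne'
  have h1 : HasDerivAt (fun u : ℝ => u * c) (1 * c) u := (hasDerivAt_id u).mul_const c
  have h2 : HasDerivAt (fun u : ℝ => s * (u * c)) (s * (1 * c)) u := h1.const_mul s
  have h3 := (der_pz_deriv θ (u * c) (mul_pos hu hc).ne').scomp u h1
  have h4 := (der_hF V hV θ (s * (u * c))).scomp u h2
  refine (h3.mul h4).congr_deriv ?_
  have hp := der_parts V hV θ (s * (u * c))
  have hp' : hF (V1 V) θ (s * (u * c)) = -(Complex.I * θ * hF V θ (s * (u * c)) +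
      ((s * (u * c) : ℝ) : ℂ) *
        (-(2 * Real.pi * Complex.I) * hF (fun v => v * V v) θ (s * (u * c)))) :=
    eq_neg_of_add_eq_zero_left hp
  rw [hp']
  simp only [Function.comp, Complex.real_smul]
  push_cast
  field_simp

end Pool.Agent.CA.LC
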