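import Pool.Agent.Lib.MP_d610d0_nt.CA.LC.Stm

set_option autoImplicit false

/-!
Project CA, section LC, piece dvm: divisor moments.
-/

namespace Pool.Agent.CA.LC

open Finset
open Pool.Agent.MP89da58 (sum_dA sum_inv_le card_divisors_eq_sum card_divisors_mul_le)

private lemma dvm_one (m n : ℕ) : dm m n ≤ ((n.divisors.card : ℕ) : ℝ) ^ m := by
  unfold dm
  norm_cast
  induction m generalizing n with
  | zero =>
    rw [pow_zero, pow_zero, ArithmeticFunction.one_apply]
    split_ifs <;> omega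
  | succ m ih =>
    have h1 : (ArithmeticFunction.zeta ^ (m + 1) : ArithmeticFunction ℕ) n =
        ∑ i ∈ n.divisors, (ArithmeticFunction.zeta ^ m : ArithmeticFunction ℕ) i := by
      have h2 := ArithmeticFunction.coe_mul_zeta_apply
        (f := (ArithmeticFunction.zeta ^ m : ArithmeticFunction ℕ)) (x := n)
      rw [ArithmeticFunction.natCoe_nat] at h2
      rw [pow_succ]
      exact h2
    rw [h1, pow_succ, mul_comm, ← smul_eq_mul, ← sum_const]
    apply sum_le_sum
    intro i hi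
    rw [Nat.mem_divisors] at hi
    refine (ih i).trans ?_
    exact Nat.pow_le_pow_left (card_le_card (Nat.divisors_subset_of_dvd hi.2 hi.1)) m

private lemma dvm_step (k n : ℕ) : ((n.divisors.card : ℕ) : ℝ) ^ (k + 1) ≤
    ∑ x ∈ n.divisorsAntidiagonal, (x.1.divisors.card : ℝ) ^ k * (x.2.divisors.card : ℝ) ^ k := by
  rw [pow_succ]
  nth_rw 2 [card_divisors_eq_sum]
  rw [mul_sum]
  apply sum_le_sum
  intro x hx
  rw [Nat.mem_divisorsAntidiagonal] at hx
  rw [← hx.1, mul_one, ← mul_pow]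
  apply pow_le_pow_left₀ (Nat.cast_nonneg _)
  exact_mod_cast card_divisors_mul_le x.1 x.2

private lemma dvm_div (k N : ℕ) :
    ∑ n ∈ Icc 1 N, (n.divisors.card : ℝ) ^ k * (n : ℝ)⁻¹ ≤ (1 + Real.log N) ^ (2 ^ k) := by
  induction k with
  | zero => simpa using sum_inv_le N
  | succ k ih =>
    have h0 : ∀ n ∈ Icc 1 N, (n.divisors.card : ℝ) ^ (k + 1) * (n : ℝ)⁻¹ ≤
        ∑ x ∈ n.divisorsAntidiagonal, ((x.1.divisors.card : ℝ) ^ k * (x.1 : ℝ)⁻¹) *
          ((x.2.divisors.card : ℝ) ^ k * (x.2 : ℝ)⁻¹) := by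
      intro n _
      refine (mul_le_mul_of_nonneg_right (dvm_step k n) (by positivity)).trans ?_
      rw [sum_mul]
      apply sum_le_sum
      intro x hx
      rw [Nat.mem_divisorsAntidiagonal] at hx
      rw [← hx.1, Nat.cast_mul, mul_inv]
      apply le_of_eq
      ring
    refine (sum_le_sum h0).trans ?_
    rw [sum_dA (fun a b : ℕ => ((a.divisors.card : ℝ) ^ k * (a : ℝ)⁻¹) *
      ((b.divisors.card : ℝ) ^ k * (b : ℝ)⁻¹))]
    calc ∑ d ∈ Icc 1 N, ∑ m ∈ Icc 1 N, (if d * m ≤ N then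
          ((d.divisors.card : ℝ) ^ k * (d : ℝ)⁻¹) * ((m.divisors.card : ℝ) ^ k * (m : ℝ)⁻¹) else 0)
        ≤ ∑ d ∈ Icc 1 N, ∑ m ∈ Icc 1 N,
          ((d.divisors.card : ℝ) ^ k * (d : ℝ)⁻¹) * ((m.divisors.card : ℝ) ^ k * (m : ℝ)⁻¹) := by
          apply sum_le_sum
          intro d _
          apply sum_le_sum
          intro m _
          split_ifs
          · exact le_rfl
          · positivity
      _ = (∑ d ∈ Icc 1 N, (d.divisors.card : ℝ) ^ k * (d : ℝ)⁻¹) ^ 2 := by
          rw [pow_two, sum_mul_sum]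
      _ ≤ ((1 + Real.log N) ^ (2 ^ k)) ^ 2 :=
          pow_le_pow_left₀ (sum_nonneg fun _ _ => by positivity) ih 2
      _ = (1 + Real.log N) ^ (2 ^ (k + 1)) := by rw [← pow_mul, pow_succ]

private lemma dvm_two (k N : ℕ) :
    ∑ n ∈ Icc 1 N, ((n.divisors.card : ℕ) : ℝ) ^ k ≤ N * (1 + Real.log N) ^ (2 ^ k - 1) := by
  induction k generalizing N with
  | zero => simp
  | succ k ih =>
    have hlog : 0 ≤ Real.log N := Real.log_natCast_nonneg N
    calc ∑ n ∈ Icc 1 N, ((n.divisors.card : ℕ) : ℝ) ^ (k + 1)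
        ≤ ∑ n ∈ Icc 1 N, ∑ x ∈ n.divisorsAntidiagonal,
            (x.1.divisors.card : ℝ) ^ k * (x.2.divisors.card : ℝ) ^ k :=
          sum_le_sum fun n _ => dvm_step k n
      _ = ∑ d ∈ Icc 1 N, ∑ m ∈ Icc 1 N,
            (if d * m ≤ N then (d.divisors.card : ℝ) ^ k * (m.divisors.card : ℝ) ^ k else 0) :=
          sum_dA (fun a b : ℕ => (a.divisors.card : ℝ) ^ k * (b.divisors.card : ℝ) ^ k) N
      _ ≤ ∑ d ∈ Icc 1 N, (d.divisors.card : ℝ) ^ k *
            ((N : ℝ) * (d : ℝ)⁻¹ * (1 + Real.log N) ^ (2 ^ k - 1)) := by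
          apply sum_le_sum
          intro d hd
          rw [mem_Icc] at hd
          rw [← sum_filter, ← mul_sum]
          apply mul_le_mul_of_nonneg_left _ (by positivity)
          have h1 : ((Icc 1 N).filter fun m => d * m ≤ N) ⊆ Icc 1 (N / d) := by
            intro m hm
            rw [mem_filter, mem_Icc] at hm
            rw [mem_Icc]
            refine ⟨hm.1.1, ?_⟩
            rw [Nat.le_div_iff_mul_le hd.1]
            linarith [hm.2, mul_comm d m]
          have h3 : ((N / d : ℕ) : ℝ) ≤ N / d := Nat.cast_div_le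
          have h4 : Real.log ((N / d : ℕ) : ℝ) ≤ Real.log N := by
            by_cases h5 : N / d = 0
            · rw [h5]; simp [hlog]
            · apply Real.log_le_log
              · exact_mod_cast Nat.pos_of_ne_zero h5
              · exact_mod_cast Nat.div_le_self N d
          have h6 := Real.log_natCast_nonneg (N / d)
          calc ∑ m ∈ (Icc 1 N).filter (fun m => d * m ≤ N), (m.divisors.card : ℝ) ^ k
              ≤ ∑ m ∈ Icc 1 (N / d), (m.divisors.card : ℝ) ^ k :=
                sum_le_sum_of_subset_of_nonneg h1 fun _ _ _ => by positivity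
            _ ≤ ((N / d : ℕ) : ℝ) * (1 + Real.log ((N / d : ℕ) : ℝ)) ^ (2 ^ k - 1) := ih _
            _ ≤ (N : ℝ) * (d : ℝ)⁻¹ * (1 + Real.log N) ^ (2 ^ k - 1) := by
                rw [← div_eq_mul_inv]
                apply mul_le_mul h3 (pow_le_pow_left₀ (by linarith) (by linarith) _) _
                  (by positivity)
                apply pow_nonneg
                linarith
      _ = N * (1 + Real.log N) ^ (2 ^ k - 1) *
            ∑ d ∈ Icc 1 N, (d.divisors.card : ℝ) ^ k * (d : ℝ)⁻¹ := by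
          rw [mul_sum]
          apply sum_congr rfl
          intro d _
          ring
      _ ≤ N * (1 + Real.log N) ^ (2 ^ k - 1) * (1 + Real.log N) ^ (2 ^ k) :=
          mul_le_mul_of_nonneg_left (dvm_div k N) (by positivity)
      _ = N * (1 + Real.log N) ^ (2 ^ (k + 1) - 1) := by
          have h7 : 1 ≤ 2 ^ k := Nat.one_le_two_pow
          have h8 : 2 ^ (k + 1) - 1 = (2 ^ k - 1) + 2 ^ k := by
            rw [pow_succ]
            omega
          rw [h8, pow_add]
          ring

theorem p_dvm : S_dvm :=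
  ⟨dvm_one, fun k => ⟨2 ^ k - 1, fun x => dvm_two k x⟩⟩

end Pool.Agent.CA.LC
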