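import Pool.Agent.Lib.MP_d610d0_nt.CA.LC.Stm

set_option autoImplicit false

/-!
Project CA, piece `dya`: dyadic decomposition of a product of finitely many arithmetic functions.
-/

namespace Pool.Agent.CA.LC

open Finset

/-- Coefficients of a finite sum of arithmetic functions. -/
theorem dya_sum_apply {κ : Type} (s : Finset κ) (g : κ → ArithmeticFunction ℂ) (n : ℕ) :
    (∑ e ∈ s, g e) n = ∑ e ∈ s, g e n := by
  classical
  induction s using Finset.induction_on with
  | empty => simp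
  | insert a s ha ih => rw [Finset.sum_insert ha, Finset.sum_insert ha, ArithmeticFunction.add_apply, ih]

/-- An arithmetic function supported in `[1, X]` is the sum of its dyadic blocks. -/
theorem dya_split (X : ℕ) (f : ArithmeticFunction ℂ) (hf : ∀ n, f n ≠ 0 → n ≤ X) :
    f = ∑ e ∈ range (Nat.log 2 X + 1), cut f e := by
  ext n
  rw [dya_sum_apply]
  by_cases h0 : f n = 0
  · rw [h0]
    symm
    apply Finset.sum_eq_zero
    intro e _
    change (if 2 ^ e ≤ n ∧ n < 2 ^ (e + 1) then f n else 0) = 0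
    split_ifs
    · exact h0
    · rfl
  · have hn0 : n ≠ 0 := by
      rintro rfl
      exact h0 ArithmeticFunction.map_zero
    have hnX : n ≤ X := hf n h0
    have hmem : Nat.log 2 n ∈ range (Nat.log 2 X + 1) :=
      Finset.mem_range.2 (Nat.lt_succ_of_le (Nat.log_mono_right hnX))
    have hkey : ∀ e : ℕ, (2 ^ e ≤ n ∧ n < 2 ^ (e + 1)) ↔ e = Nat.log 2 n := by
      intro e
      constructor
      · rintro ⟨h1, h2⟩
        exact (Nat.log_eq_of_pow_le_of_lt_pow h1 h2).symm
      · rintro rfl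
        exact ⟨Nat.pow_log_le_self 2 hn0, Nat.lt_pow_succ_log_self one_lt_two n⟩
    rw [Finset.sum_eq_single (Nat.log 2 n)]
    · change f n = if 2 ^ (Nat.log 2 n) ≤ n ∧ n < 2 ^ (Nat.log 2 n + 1) then f n else 0
      rw [if_pos ((hkey _).2 rfl)]
    · intro e _ hne
      change (if 2 ^ e ≤ n ∧ n < 2 ^ (e + 1) then f n else 0) = 0
      rw [if_neg (fun h => hne ((hkey e).1 h))]
    · intro h
      exact absurd hmem h

theorem p_dya : S_dya := by
  intro k X ι P w K f hK hsupp hbd
  classical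
  set E : ℕ := Nat.log 2 X + 1 with hE
  have hprod : (∏ i, f i) =
      ∑ e ∈ Fintype.piFinset (fun _ : Fin k => range E), ∏ i, cut (f i) (e i) := by
    calc (∏ i, f i) = ∏ i, ∑ e ∈ range E, cut (f i) e :=
          Finset.prod_congr rfl (fun i _ => dya_split X (f i) (hsupp i))
      _ = _ := Finset.prod_univ_sum _ _
  have hterm : ∀ p ∈ P, ‖∑ n ∈ Icc 1 X, (∏ i, f i) n * w p n‖ ≤
      ∑ e ∈ Fintype.piFinset (fun _ : Fin k => range E),
        ‖∑ n ∈ Icc 1 X, (∏ i, cut (f i) (e i)) n * w p n‖ := by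
    intro p _
    have h1 : ∑ n ∈ Icc 1 X, (∏ i, f i) n * w p n =
        ∑ e ∈ Fintype.piFinset (fun _ : Fin k => range E),
          ∑ n ∈ Icc 1 X, (∏ i, cut (f i) (e i)) n * w p n := by
      rw [Finset.sum_comm]
      refine Finset.sum_congr rfl (fun n _ => ?_)
      rw [hprod, dya_sum_apply, Finset.sum_mul]
    rw [h1]
    exact norm_sum_le _ _
  calc ∑ p ∈ P, ‖∑ n ∈ Icc 1 X, (∏ i, f i) n * w p n‖
      ≤ ∑ p ∈ P, ∑ e ∈ Fintype.piFinset (fun _ : Fin k => range E),
        ‖∑ n ∈ Icc 1 X, (∏ i, cut (f i) (e i)) n * w p n‖ := Finset.sum_le_sum hterm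
    _ = ∑ e ∈ Fintype.piFinset (fun _ : Fin k => range E), ∑ p ∈ P,
        ‖∑ n ∈ Icc 1 X, (∏ i, cut (f i) (e i)) n * w p n‖ := Finset.sum_comm
    _ ≤ ∑ _e ∈ Fintype.piFinset (fun _ : Fin k => range E), K :=
        Finset.sum_le_sum (fun e _ => hbd e)
    _ = (E : ℝ) ^ k * K := by
        rw [Finset.sum_const, Fintype.card_piFinset]
        simp [nsmul_eq_mul]

end Pool.Agent.CA.LC
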