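import Pool.Agent.Lib.MP_d610d0_nt.CA.LC.Stm

set_option autoImplicit false

/-!
Project CA, section LC, piece fm4: fourth moment for all conductors (dyadic sum).
-/

namespace Pool.Agent.CA.LC

open Finset Filter
open Pool.Agent.MP89da58 (primChars)

theorem fm4_mem {R : ℕ} {p : Σ q, DirichletCharacter ℂ q} (hp : p ∈ primChars R) :
    2 ≤ p.1 ∧ p.1 ≤ R ∧ p.2.IsPrimitive := by
  classical
  rw [primChars, mem_sigma, mem_filter, mem_Icc] at hp
  exact ⟨hp.1.1, hp.1.2, hp.2.2⟩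

theorem fm4_geo (n : ℕ) : ∑ i ∈ range n, ((1 : ℝ) / 2 ^ (i + 1)) ^ 2 ≤ 1 - 1 / 2 ^ n := by
  induction n with
  | zero => simp
  | succ n ih =>
    rw [sum_range_succ]
    have h1 : ((1 : ℝ) / 2 ^ (n + 1)) ^ 2 ≤ 1 / 2 ^ (n + 1) := by
      have h2 : (0 : ℝ) ≤ 1 / 2 ^ (n + 1) := by positivity
      have h3 : (1 : ℝ) / 2 ^ (n + 1) ≤ 1 := by
        rw [div_le_one (by positivity)]
        exact one_le_pow₀ (by norm_num)
      nlinarith
    have h4 : (1 : ℝ) / 2 ^ n = 2 * (1 / 2 ^ (n + 1)) := by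
      rw [pow_succ]
      field_simp
    linarith

theorem fm4_ex (R r : ℕ) (h2 : 2 ≤ r) (hr : r ≤ R) : ∃ i ∈ range R,
    1 ≤ (R : ℝ) / 2 ^ (i + 1) ∧ (R : ℝ) / 2 ^ (i + 1) < r ∧ (r : ℝ) ≤ 2 * ((R : ℝ) / 2 ^ (i + 1)) := by
  classical
  have hR : 2 ≤ R := h2.trans hr
  have hr0 : (2 : ℝ) ≤ r := by exact_mod_cast h2
  have hex : ∃ i : ℕ, (R : ℝ) / 2 ^ (i + 1) < r := by
    refine ⟨R, ?_⟩
    rw [div_lt_iff₀ (by positivity)]
    have h1 : (R : ℝ) < 2 ^ R := by exact_mod_cast Nat.lt_two_pow_self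
    have h3 : (2 : ℝ) ^ R ≤ 2 ^ (R + 1) := pow_le_pow_right₀ (by norm_num) (by omega)
    nlinarith [pow_pos (show (0 : ℝ) < 2 by norm_num) (R + 1)]
  obtain ⟨i, hi, hmin⟩ : ∃ i : ℕ, (R : ℝ) / 2 ^ (i + 1) < r ∧
      ∀ k < i, ¬ ((R : ℝ) / 2 ^ (k + 1) < r) :=
    ⟨Nat.find hex, Nat.find_spec hex, fun k hk => Nat.find_min hex hk⟩
  have hle : (r : ℝ) ≤ 2 * ((R : ℝ) / 2 ^ (i + 1)) := by
    rcases Nat.eq_zero_or_pos i with rfl | h
    · have h1 : 2 * ((R : ℝ) / 2 ^ (0 + 1)) = R := by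
        rw [zero_add, pow_one]; field_simp
      rw [h1]
      exact_mod_cast hr
    · have h1 := not_lt.mp (hmin (i - 1) (by omega))
      rw [show i - 1 + 1 = i by omega] at h1
      have h3 : 2 * ((R : ℝ) / 2 ^ (i + 1)) = R / 2 ^ i := by
        rw [pow_succ]; field_simp
      rw [h3]; exact h1
  refine ⟨i, ?_, by linarith, hi, hle⟩
  rw [mem_range]
  by_contra hcon
  have h1 : (R : ℝ) < 2 ^ i :=
    lt_of_lt_of_le (by exact_mod_cast Nat.lt_two_pow_self (n := R))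
      (pow_le_pow_right₀ (by norm_num) (not_lt.mp hcon))
  have h3 : 2 * ((R : ℝ) / 2 ^ (i + 1)) = R / 2 ^ i := by
    rw [pow_succ]; field_simp
  rw [h3] at hle
  have h4 : (R : ℝ) / 2 ^ i < 1 := by
    rw [div_lt_one (by positivity)]; exact h1
  linarith

theorem p_fm4 : S_fm4 := by
  classical
  intro h5 V hV
  obtain ⟨C, hC⟩ := h5 V hV
  refine ⟨C, fun R N θ hR hN => ?_⟩
  have hR1 : (1 : ℝ) ≤ R := by exact_mod_cast hR
  have hN1 : 1 ≤ N := by linarith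
  set F : ℝ := (1 + ((1 + |θ|) / N) ^ 2) * (1 + Real.log N + Real.log (1 + |θ|)) ^ C with hF
  have hF0 : 0 ≤ F := by
    have h1 : 0 ≤ Real.log N := Real.log_nonneg hN1
    have h2 : 0 ≤ Real.log (1 + |θ|) := Real.log_nonneg (by linarith [abs_nonneg θ])
    positivity
  let Q : ℕ → ℝ := fun i => (R : ℝ) / 2 ^ (i + 1)
  let A : ℕ → Finset (Σ q, DirichletCharacter ℂ q) := fun i =>
    (primChars ⌊2 * Q i⌋₊).filter (fun p => Q i < (p.1 : ℝ))
  let I : Finset ℕ := (range R).filter fun i => 1 ≤ Q i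
  let f : (Σ q, DirichletCharacter ℂ q) → ℝ := fun p => ‖SV V p.2 N θ‖ ^ 4
  have hf : ∀ p, 0 ≤ f p := fun p => by positivity
  have hmem : ∀ p ∈ primChars R, ∃ i ∈ I, p ∈ A i := by
    intro p hp
    obtain ⟨h2, h3, h4⟩ := fm4_mem hp
    obtain ⟨i, hi, e1, e2, e3⟩ := fm4_ex R p.1 h2 h3
    refine ⟨i, mem_filter.mpr ⟨hi, e1⟩, mem_filter.mpr ⟨?_, e2⟩⟩
    rw [primChars, mem_sigma, mem_filter, mem_Icc]
    exact ⟨⟨h2, Nat.le_floor e3⟩, mem_univ _, h4⟩
  have step1 : ∑ p ∈ primChars R, f p ≤ ∑ i ∈ I, ∑ p ∈ A i, f p := by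
    calc ∑ p ∈ primChars R, f p
        ≤ ∑ p ∈ primChars R, ∑ i ∈ I, (if p ∈ A i then f p else 0) := by
          apply sum_le_sum
          intro p hp
          obtain ⟨i, hi, hpi⟩ := hmem p hp
          calc f p = (if p ∈ A i then f p else 0) := by rw [if_pos hpi]
            _ ≤ ∑ i ∈ I, (if p ∈ A i then f p else 0) := by
              apply single_le_sum (f := fun i => if p ∈ A i then f p else 0) _ hi
              intro j _
              show 0 ≤ (if p ∈ A j then f p else 0)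
              split_ifs
              · exact hf p
              · exact le_rfl
      _ = ∑ i ∈ I, ∑ p ∈ primChars R, (if p ∈ A i then f p else 0) := sum_comm
      _ ≤ ∑ i ∈ I, ∑ p ∈ A i, f p := by
          apply sum_le_sum
          intro i _
          rw [← sum_filter]
          apply sum_le_sum_of_subset_of_nonneg
          · intro p hp
            exact (mem_filter.mp hp).2
          · intro p _ _
            exact hf p
  have step2 : ∀ i ∈ I, ∑ p ∈ A i, f p ≤ C * (N * R) ^ 2 * F * (1 / 2 ^ (i + 1)) ^ 2 := by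
    intro i hi
    have hQ : 1 ≤ Q i := (mem_filter.mp hi).2
    have h2Q : 2 * Q i ≤ N := by
      have h1 : 2 * Q i ≤ R := by
        show 2 * ((R : ℝ) / 2 ^ (i + 1)) ≤ R
        have h3 : 2 * ((R : ℝ) / 2 ^ (i + 1)) = R / 2 ^ i := by
          rw [pow_succ]; field_simp
        rw [h3]
        exact div_le_self (by positivity) (one_le_pow₀ (by norm_num))
      linarith
    have h1 := hC (Q i) N θ hQ h2Q
    refine h1.trans (le_of_eq ?_)
    rw [hF]
    show C * (N * ((R : ℝ) / 2 ^ (i + 1))) ^ 2 * (1 + ((1 + |θ|) / N) ^ 2) *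
      (1 + Real.log N + Real.log (1 + |θ|)) ^ C = _
    ring
  calc ∑ p ∈ primChars R, ‖SV V p.2 N θ‖ ^ 4 ≤ ∑ i ∈ I, ∑ p ∈ A i, f p := step1
    _ ≤ ∑ i ∈ I, C * (N * R) ^ 2 * F * (1 / 2 ^ (i + 1)) ^ 2 := sum_le_sum step2
    _ ≤ ∑ i ∈ range R, C * (N * R) ^ 2 * F * (1 / 2 ^ (i + 1)) ^ 2 := by
        apply sum_le_sum_of_subset_of_nonneg (filter_subset _ _)
        intro i _ _
        positivity
    _ = C * (N * R) ^ 2 * F * ∑ i ∈ range R, (1 / 2 ^ (i + 1)) ^ 2 := by rw [mul_sum]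
    _ ≤ C * (N * R) ^ 2 * F * 1 := by
        apply mul_le_mul_of_nonneg_left _ (by positivity)
        refine (fm4_geo R).trans ?_
        have : (0 : ℝ) ≤ 1 / 2 ^ R := by positivity
        linarith
    _ = C * (N * R) ^ 2 * (1 + ((1 + |θ|) / N) ^ 2) *
        (1 + Real.log N + Real.log (1 + |θ|)) ^ C := by rw [hF]; ring

end Pool.Agent.CA.LC
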