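import Pool.Agent.Lib.MP_d610d0_nt.CA.LC.Stm

set_option autoImplicit false

/-!
Piece fm5.
-/

namespace Pool.Agent.CA.LC

open Finset Filter
open scoped ContDiff
open Pool.Agent.MP89da58 (tri primChars)
open Pool.Agent.CH.V (pz ex)

lemma fm5_abel (a h : ℕ → ℂ) (M : ℕ) (hM : 1 ≤ M) :
    ∑ m ∈ Icc 1 M, a m * h m = (∑ m ∈ Icc 1 M, a m) * h M
      - ∑ m ∈ Ico 1 M, (∑ k ∈ Icc 1 m, a k) * (h (m + 1) - h m) := by
  induction M, hM using Nat.le_induction with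
  | base => simp
  | succ n hn ih =>
    rw [Finset.sum_Icc_succ_top (by omega), Finset.sum_Icc_succ_top (by omega),
      Finset.sum_Ico_succ_top hn, ih]
    ring

lemma fm5_holder (s : Finset ℕ) (A D : ℕ → ℝ) (hs : ∀ m ∈ s, 1 ≤ m) :
    (∑ m ∈ s, A m * D m) ^ 4 ≤ (∑ m ∈ s, A m ^ 4 / m) * (∑ m ∈ s, (1 : ℝ) / m) *
      (∑ m ∈ s, D m ^ 2 * m) ^ 2 := by
  have h1 : (∑ m ∈ s, A m * D m) ^ 2 ≤ (∑ m ∈ s, A m ^ 2 / m) * ∑ m ∈ s, D m ^ 2 * m := by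
    have h := Finset.sum_mul_sq_le_sq_mul_sq s (fun m => A m / Real.sqrt m)
      (fun m => D m * Real.sqrt m)
    have e1 : ∑ m ∈ s, A m / Real.sqrt m * (D m * Real.sqrt m) = ∑ m ∈ s, A m * D m := by
      refine Finset.sum_congr rfl fun m hm => ?_
      have : (0 : ℝ) < m := by exact_mod_cast hs m hm
      have h2 : Real.sqrt m ≠ 0 := (Real.sqrt_pos.2 this).ne'
      field_simp
    have e2 : ∑ m ∈ s, (A m / Real.sqrt m) ^ 2 = ∑ m ∈ s, A m ^ 2 / m := by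
      refine Finset.sum_congr rfl fun m hm => ?_
      rw [div_pow, Real.sq_sqrt (Nat.cast_nonneg m)]
    have e3 : ∑ m ∈ s, (D m * Real.sqrt m) ^ 2 = ∑ m ∈ s, D m ^ 2 * m := by
      refine Finset.sum_congr rfl fun m hm => ?_
      rw [mul_pow, Real.sq_sqrt (Nat.cast_nonneg m)]
    rw [e1, e2, e3] at h
    exact h
  have h2 : (∑ m ∈ s, A m ^ 2 / m) ^ 2 ≤ (∑ m ∈ s, A m ^ 4 / m) * ∑ m ∈ s, (1 : ℝ) / m := by
    have h := Finset.sum_mul_sq_le_sq_mul_sq s (fun m => A m ^ 2 / Real.sqrt m)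
      (fun m => 1 / Real.sqrt m)
    have e1 : ∑ m ∈ s, A m ^ 2 / Real.sqrt m * (1 / Real.sqrt m) = ∑ m ∈ s, A m ^ 2 / m := by
      refine Finset.sum_congr rfl fun m hm => ?_
      rw [div_mul_div_comm, mul_one, Real.mul_self_sqrt (Nat.cast_nonneg m)]
    have e2 : ∑ m ∈ s, (A m ^ 2 / Real.sqrt m) ^ 2 = ∑ m ∈ s, A m ^ 4 / m := by
      refine Finset.sum_congr rfl fun m hm => ?_
      rw [div_pow, Real.sq_sqrt (Nat.cast_nonneg m), ← pow_mul]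
    have e3 : ∑ m ∈ s, (1 / Real.sqrt m : ℝ) ^ 2 = ∑ m ∈ s, (1 : ℝ) / m := by
      refine Finset.sum_congr rfl fun m hm => ?_
      rw [div_pow, Real.sq_sqrt (Nat.cast_nonneg m), one_pow]
    rw [e1, e2, e3] at h
    exact h
  have h0 : 0 ≤ ∑ m ∈ s, D m ^ 2 * (m : ℝ) := Finset.sum_nonneg fun m _ => by positivity
  calc (∑ m ∈ s, A m * D m) ^ 4 = ((∑ m ∈ s, A m * D m) ^ 2) ^ 2 := by ring
    _ ≤ ((∑ m ∈ s, A m ^ 2 / m) * ∑ m ∈ s, D m ^ 2 * m) ^ 2 := by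
        exact pow_le_pow_left₀ (sq_nonneg _) h1 2
    _ = (∑ m ∈ s, A m ^ 2 / m) ^ 2 * (∑ m ∈ s, D m ^ 2 * m) ^ 2 := by ring
    _ ≤ _ := mul_le_mul_of_nonneg_right h2 (sq_nonneg _)

lemma fm5_pz_norm (t x : ℝ) : ‖pz t x‖ = 1 := by
  unfold pz
  rw [Complex.norm_exp]
  simp

lemma fm5_pz_mul (t x y : ℝ) (hx : 0 < x) (hy : 0 < y) : pz t (x * y) = pz t x * pz t y := by
  unfold pz
  rw [← Complex.exp_add, Real.log_mul hx.ne' hy.ne']
  congr 1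
  push_cast
  ring

lemma fm5_pz_neg (t x : ℝ) : pz t x * pz (-t) x = 1 := by
  unfold pz
  rw [← Complex.exp_add]
  have : -(Complex.I * ((t * Real.log x : ℝ) : ℂ)) + -(Complex.I * ((-t * Real.log x : ℝ) : ℂ)) = 0 := by
    push_cast
    ring
  rw [this, Complex.exp_zero]

lemma fm5_pz_cont (t c : ℝ) (hc : 0 < c) : ContinuousOn (fun u : ℝ => pz t (u * c)) (Set.Ioi 0) := by
  unfold pz
  apply Continuous.comp_continuousOn Complex.continuous_exp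
  apply ContinuousOn.neg
  apply ContinuousOn.mul continuousOn_const
  apply Continuous.comp_continuousOn Complex.continuous_ofReal
  apply ContinuousOn.mul continuousOn_const
  apply ContinuousOn.log
  · fun_prop
  · intro x hx
    have : 0 < x * c := mul_pos hx hc
    exact this.ne'

/-- continuity of `u ↦ hF V θ (s u c)` on the positive half line -/
lemma fm5_hF_cont (hder : R_der) (V : ℝ → ℝ) (hV : Vsm V) (θ c s : ℝ) (hc : 0 < c)
    (hs : s = 1 ∨ s = -1) : ContinuousOn (fun u : ℝ => hF V θ (s * (u * c))) (Set.Ioi 0) := by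
  have h1 : ContinuousOn (fun u : ℝ => pz (-θ) (u * c) * hF V θ (s * (u * c))) (Set.Ioi 0) := by
    intro u hu
    exact (hder V hV θ c s u hc hs hu).continuousAt.continuousWithinAt
  have h2 := (fm5_pz_cont θ c hc).mul h1
  refine h2.congr ?_
  intro u hu
  show hF V θ (s * (u * c)) = pz θ (u * c) * (pz (-θ) (u * c) * hF V θ (s * (u * c)))
  linear_combination (-(hF V θ (s * (u * c)))) * fm5_pz_neg θ (u * c)

/-- the difference of consecutive values -/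
lemma fm5_D (hder : R_der) (V : ℝ → ℝ) (hV : Vsm V) (hV1 : Vsm (V1 V)) (θ c s : ℝ) (hc : 0 < c)
    (hs : s = 1 ∨ s = -1) (m : ℕ) (hm : 1 ≤ m) :
    ‖pz (-θ) (((m + 1 : ℕ) : ℝ) * c) * hF V θ (s * (((m + 1 : ℕ) : ℝ) * c)) -
      pz (-θ) ((m : ℝ) * c) * hF V θ (s * ((m : ℝ) * c))‖ ^ 2 * m
    ≤ ∫ u in (m : ℝ)..((m + 1 : ℕ) : ℝ), ‖hF (V1 V) θ (s * (u * c))‖ ^ 2 / u := by
  have hm0 : (0 : ℝ) < m := by exact_mod_cast hm
  have hle : (m : ℝ) ≤ ((m + 1 : ℕ) : ℝ) := by push_cast; linarith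
  have hsub : Set.uIcc (m : ℝ) ((m + 1 : ℕ) : ℝ) ⊆ Set.Ioi 0 := by
    rw [Set.uIcc_of_le hle]
    intro x hx
    exact lt_of_lt_of_le hm0 hx.1
  set h : ℝ → ℂ := fun u : ℝ => pz (-θ) (u * c) * hF V θ (s * (u * c)) with hh
  set h' : ℝ → ℂ := fun u : ℝ =>
    -(1 / (u : ℂ)) * (pz (-θ) (u * c) * hF (V1 V) θ (s * (u * c))) with hh'
  have hcont : ContinuousOn h' (Set.Ioi 0) := by
    apply ContinuousOn.mul
    · apply ContinuousOn.neg
      apply ContinuousOn.div continuousOn_const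
      · exact Complex.continuous_ofReal.continuousOn
      · intro x hx
        exact_mod_cast (ne_of_gt hx)
    · exact (fm5_pz_cont (-θ) c hc).mul (fm5_hF_cont hder (V1 V) hV1 θ c s hc hs)
  have hnorm : ∀ u : ℝ, 0 < u → ‖h' u‖ ^ 2 = ‖hF (V1 V) θ (s * (u * c))‖ ^ 2 / u ^ 2 := by
    intro u hu
    simp only [hh', norm_mul, norm_neg, norm_div, norm_one, Complex.norm_real, fm5_pz_norm,
      Real.norm_eq_abs, abs_of_pos hu]
    field_simp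
  have hint : IntervalIntegrable h' MeasureTheory.volume (m : ℝ) ((m + 1 : ℕ) : ℝ) :=
    (hcont.mono hsub).intervalIntegrable
  have hftc : ∫ u in (m : ℝ)..((m + 1 : ℕ) : ℝ), h' u = h ((m + 1 : ℕ) : ℝ) - h (m : ℝ) := by
    apply intervalIntegral.integral_eq_sub_of_hasDerivAt
    · intro u hu
      exact hder V hV θ c s u hc hs (hsub hu)
    · exact hint
  have hn1 : ‖h ((m + 1 : ℕ) : ℝ) - h (m : ℝ)‖ ≤ ∫ u in (m : ℝ)..((m + 1 : ℕ) : ℝ), ‖h' u‖ := by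
    rw [← hftc]
    exact intervalIntegral.norm_integral_le_integral_norm hle
  have hnc : ContinuousOn (fun u => ‖h' u‖) (Set.uIcc (m : ℝ) ((m + 1 : ℕ) : ℝ)) :=
    (hcont.mono hsub).norm
  have hI : 0 ≤ ∫ u in (m : ℝ)..((m + 1 : ℕ) : ℝ), ‖h' u‖ :=
    intervalIntegral.integral_nonneg hle fun u _ => norm_nonneg _
  -- Cauchy-Schwarz on an interval of length one
  have hcs : (∫ u in (m : ℝ)..((m + 1 : ℕ) : ℝ), ‖h' u‖) ^ 2 ≤
      ∫ u in (m : ℝ)..((m + 1 : ℕ) : ℝ), ‖h' u‖ ^ 2 := by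
    set I := ∫ u in (m : ℝ)..((m + 1 : ℕ) : ℝ), ‖h' u‖ with hIdef
    have h0 : 0 ≤ ∫ u in (m : ℝ)..((m + 1 : ℕ) : ℝ), (‖h' u‖ - I) ^ 2 :=
      intervalIntegral.integral_nonneg hle fun u _ => sq_nonneg _
    have e : ∫ u in (m : ℝ)..((m + 1 : ℕ) : ℝ), (‖h' u‖ - I) ^ 2 =
        (∫ u in (m : ℝ)..((m + 1 : ℕ) : ℝ), ‖h' u‖ ^ 2) - 2 * I * I + I ^ 2 := by
      have e1 : ∀ u, (‖h' u‖ - I) ^ 2 = ‖h' u‖ ^ 2 - 2 * I * ‖h' u‖ + I ^ 2 := fun u => by ring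
      simp only [e1]
      rw [intervalIntegral.integral_add, intervalIntegral.integral_sub,
        intervalIntegral.integral_const_mul, intervalIntegral.integral_const]
      · simp only [smul_eq_mul]
        rw [← hIdef]
        push_cast
        ring
      · exact (hnc.pow 2).intervalIntegrable
      · exact (continuousOn_const.mul hnc).intervalIntegrable
      · exact ((hnc.pow 2).sub (continuousOn_const.mul hnc)).intervalIntegrable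
      · exact intervalIntegrable_const
    rw [e] at h0
    nlinarith
  have hR : ContinuousOn (fun u : ℝ => ‖hF (V1 V) θ (s * (u * c))‖ ^ 2 / u)
      (Set.uIcc (m : ℝ) ((m + 1 : ℕ) : ℝ)) := by
    apply ContinuousOn.div
    · exact (((fm5_hF_cont hder (V1 V) hV1 θ c s hc hs).mono hsub).norm).pow 2
    · exact continuousOn_id
    · intro x hx
      exact (ne_of_gt (hsub hx))
  calc ‖h ((m + 1 : ℕ) : ℝ) - h (m : ℝ)‖ ^ 2 * m
      ≤ (∫ u in (m : ℝ)..((m + 1 : ℕ) : ℝ), ‖h' u‖ ^ 2) * m := by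
        apply mul_le_mul_of_nonneg_right _ hm0.le
        exact (pow_le_pow_left₀ (norm_nonneg _) hn1 2).trans hcs
    _ = ∫ u in (m : ℝ)..((m + 1 : ℕ) : ℝ), ‖h' u‖ ^ 2 * m := by
        rw [intervalIntegral.integral_mul_const]
    _ ≤ _ := by
        apply intervalIntegral.integral_mono_on hle
        · exact ((hnc.pow 2).mul continuousOn_const).intervalIntegrable
        · exact hR.intervalIntegrable
        · intro u hu
          have hu0 : 0 < u := lt_of_lt_of_le hm0 hu.1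
          rw [hnorm u hu0, div_mul_eq_mul_div, div_le_div_iff₀ (by positivity) hu0]
          have : 0 ≤ ‖hF (V1 V) θ (s * (u * c))‖ ^ 2 := sq_nonneg _
          nlinarith [mul_le_mul_of_nonneg_left hu.1 (mul_nonneg this hu0.le)]

/-- the sum of the squares of the differences -/
lemma fm5_Dsum (hder : R_der) (V : ℝ → ℝ) (hV : Vsm V) (hV1 : Vsm (V1 V)) (Cl : ℝ)
    (hlms : ∀ (θ X s : ℝ), 1 ≤ X → (s = 1 ∨ s = -1) →
      ∫ ξ in (1 : ℝ)..X, ‖hF (V1 V) θ (s * ξ)‖ ^ 2 / ξ ≤ Cl * (1 + Real.log X) / (1 + |θ|))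
    (θ c s : ℝ) (hc : 1 ≤ c) (hs : s = 1 ∨ s = -1) (M : ℕ) (hM : 1 ≤ M) :
    ∑ m ∈ Ico 1 M, ‖pz (-θ) (((m + 1 : ℕ) : ℝ) * c) * hF V θ (s * (((m + 1 : ℕ) : ℝ) * c)) -
      pz (-θ) ((m : ℝ) * c) * hF V θ (s * ((m : ℝ) * c))‖ ^ 2 * m
    ≤ Cl * (1 + Real.log (M * c)) / (1 + |θ|) := by
  have hc0 : 0 < c := by linarith
  have hM0 : (1 : ℝ) ≤ M := by exact_mod_cast hM
  have hcontG : ContinuousOn (fun u : ℝ => ‖hF (V1 V) θ (s * (u * c))‖ ^ 2 / u) (Set.Ioi 0) := by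
    apply ContinuousOn.div
    · exact ((fm5_hF_cont hder (V1 V) hV1 θ c s hc0 hs).norm).pow 2
    · exact continuousOn_id
    · intro x hx
      exact (ne_of_gt hx)
  have hcontH : ContinuousOn (fun u : ℝ => ‖hF (V1 V) θ (s * u)‖ ^ 2 / u) (Set.Ioi 0) := by
    have := fm5_hF_cont hder (V1 V) hV1 θ 1 s one_pos hs
    simp only [mul_one] at this
    apply ContinuousOn.div
    · exact (this.norm).pow 2
    · exact continuousOn_id
    · intro x hx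
      exact (ne_of_gt hx)
  have h1 : ∑ m ∈ Ico 1 M, ∫ u in (m : ℝ)..((m + 1 : ℕ) : ℝ), ‖hF (V1 V) θ (s * (u * c))‖ ^ 2 / u
      = ∫ u in (1 : ℝ)..(M : ℝ), ‖hF (V1 V) θ (s * (u * c))‖ ^ 2 / u := by
    have := intervalIntegral.sum_integral_adjacent_intervals_Ico (μ := MeasureTheory.volume)
      (f := fun u : ℝ => ‖hF (V1 V) θ (s * (u * c))‖ ^ 2 / u) (a := fun m : ℕ => (m : ℝ)) hM
      (fun k hk => by
        apply ContinuousOn.intervalIntegrable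
        apply hcontG.mono
        intro x hx
        have hk1 : (1 : ℝ) ≤ k := by exact_mod_cast hk.1
        rw [Set.uIcc_of_le (by push_cast; linarith)] at hx
        exact lt_of_lt_of_le (by linarith) hx.1)
    simpa using this
  have h2 : ∫ u in (1 : ℝ)..(M : ℝ), ‖hF (V1 V) θ (s * (u * c))‖ ^ 2 / u
      = ∫ ξ in c..(M * c), ‖hF (V1 V) θ (s * ξ)‖ ^ 2 / ξ := by
    have := intervalIntegral.smul_integral_comp_mul_right
      (fun ξ : ℝ => ‖hF (V1 V) θ (s * ξ)‖ ^ 2 / ξ) c (a := 1) (b := M)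
    rw [one_mul] at this
    rw [← this, smul_eq_mul, ← intervalIntegral.integral_const_mul]
    apply intervalIntegral.integral_congr
    intro u hu
    rw [Set.uIcc_of_le hM0] at hu
    have hu0 : 0 < u := by linarith [hu.1]
    simp only
    field_simp
  have h3 : ∫ ξ in c..(M * c), ‖hF (V1 V) θ (s * ξ)‖ ^ 2 / ξ
      ≤ ∫ ξ in (1 : ℝ)..(M * c), ‖hF (V1 V) θ (s * ξ)‖ ^ 2 / ξ := by
    have hMc : c ≤ M * c := by nlinarith
    apply intervalIntegral.integral_mono_interval hc hMc le_rfl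
    · rw [Filter.EventuallyLE, MeasureTheory.ae_restrict_iff' measurableSet_Ioc]
      exact Eventually.of_forall fun x hx => div_nonneg (sq_nonneg _) (by linarith [hx.1])
    · apply ContinuousOn.intervalIntegrable
      apply hcontH.mono
      rw [Set.uIcc_of_le (by linarith)]
      intro x hx
      exact lt_of_lt_of_le one_pos hx.1
  calc _ ≤ ∑ m ∈ Ico 1 M, ∫ u in (m : ℝ)..((m + 1 : ℕ) : ℝ),
        ‖hF (V1 V) θ (s * (u * c))‖ ^ 2 / u :=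
        Finset.sum_le_sum fun m hm => fm5_D hder V hV hV1 θ c s hc0 hs m (Finset.mem_Ico.1 hm).1
    _ ≤ _ := by
        rw [h1, h2]
        exact h3.trans (hlms θ (M * c) s (by nlinarith) hs)

/-- main part for one sign -/
lemma fm5_main (hder : R_der) (V : ℝ → ℝ) (hV : Vsm V) (hV1 : Vsm (V1 V)) (Cl Co : ℝ)
    (hCl : 0 < Cl) (hCo : 0 < Co)
    (hlms : ∀ (θ X s : ℝ), 1 ≤ X → (s = 1 ∨ s = -1) →
      ∫ ξ in (1 : ℝ)..X, ‖hF (V1 V) θ (s * ξ)‖ ^ 2 / ξ ≤ Cl * (1 + Real.log X) / (1 + |θ|))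
    (ho1 : ∀ θ ξ : ℝ, 1 ≤ |ξ| → |θ| ≤ |ξ| → ‖hF V θ ξ‖ ≤ Co / ξ ^ 2)
    (θ c s : ℝ) (hc : 1 ≤ c) (hs : s = 1 ∨ s = -1) (M : ℕ) (hM : 1 ≤ M)
    (hMc : 1 + |θ| ≤ M * c) (x : ℕ → ℂ) :
    ‖∑ m ∈ Icc 1 M, x m * hF V θ (s * (m * c))‖ ^ 4
      ≤ (8 * (Co ^ 4 + Cl ^ 2 * (1 + Real.log (M * c)) ^ 3)) / (1 + |θ|) ^ 2 *
        (‖∑ k ∈ Icc 1 M, x k * pz θ k‖ ^ 4 + ∑ m ∈ Ico 1 M,
          ‖∑ k ∈ Icc 1 m, x k * pz θ k‖ ^ 4 / m) := by
  have hc0 : 0 < c := by linarith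
  have hM0 : (1 : ℝ) ≤ M := by exact_mod_cast hM
  have hτ : 1 ≤ 1 + |θ| := by linarith [abs_nonneg θ]
  have hlog : 0 ≤ Real.log (M * c) := Real.log_nonneg (by linarith)
  set h : ℕ → ℂ := fun m => pz (-θ) ((m : ℝ) * c) * hF V θ (s * ((m : ℝ) * c)) with hh
  set A : ℕ → ℂ := fun m => ∑ k ∈ Icc 1 m, x k * pz θ k with hA
  have e1 : ∑ m ∈ Icc 1 M, x m * hF V θ (s * (m * c)) =
      pz θ c * ∑ m ∈ Icc 1 M, (x m * pz θ m) * h m := by
    rw [Finset.mul_sum]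
    refine Finset.sum_congr rfl fun m hm => ?_
    have hm0 : (0 : ℝ) < m := by exact_mod_cast (Finset.mem_Icc.1 hm).1
    have h2 : pz θ c * pz θ m * pz (-θ) ((m : ℝ) * c) = 1 := by
      rw [mul_comm (pz θ c), ← fm5_pz_mul θ m c hm0 hc0, fm5_pz_neg]
    calc x m * hF V θ (s * (m * c))
        = x m * (pz θ c * pz θ m * pz (-θ) ((m : ℝ) * c)) * hF V θ (s * (m * c)) := by
          rw [h2, mul_one]
      _ = _ := by simp only [hh]; ring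
  rw [e1, norm_mul, fm5_pz_norm, one_mul, fm5_abel _ _ _ hM]
  have hAM : ‖h M‖ ≤ Co / (1 + |θ|) ^ 2 := by
    simp only [hh, norm_mul, fm5_pz_norm, one_mul]
    have habs : |s * ((M : ℝ) * c)| = M * c := by
      rw [abs_mul, abs_of_nonneg (by positivity : (0 : ℝ) ≤ M * c)]
      rcases hs with rfl | rfl <;> simp
    have h1 := ho1 θ (s * ((M : ℝ) * c)) (by rw [habs]; linarith)
      (by rw [habs]; linarith)
    refine h1.trans ?_
    rw [← sq_abs (s * ((M : ℝ) * c)), habs]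
    exact div_le_div_of_nonneg_left hCo.le (by positivity)
      (pow_le_pow_left₀ (by positivity) hMc 2)
  have hAM4 : (‖A M‖ * ‖h M‖) ^ 4 ≤ Co ^ 4 / (1 + |θ|) ^ 2 * ‖A M‖ ^ 4 := by
    rw [mul_pow, mul_comm]
    apply mul_le_mul_of_nonneg_right _ (by positivity)
    calc ‖h M‖ ^ 4 ≤ (Co / (1 + |θ|) ^ 2) ^ 4 := pow_le_pow_left₀ (norm_nonneg _) hAM 4
      _ = Co ^ 4 / (1 + |θ|) ^ 8 := by rw [div_pow, ← pow_mul]
      _ ≤ _ := div_le_div_of_nonneg_left (by positivity) (by positivity)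
        (pow_le_pow_right₀ hτ (by norm_num))
  have hsum4 : (∑ m ∈ Ico 1 M, ‖A m‖ * ‖h (m + 1) - h m‖) ^ 4 ≤
      Cl ^ 2 * (1 + Real.log (M * c)) ^ 3 / (1 + |θ|) ^ 2 * ∑ m ∈ Ico 1 M, ‖A m‖ ^ 4 / m := by
    have h1 := fm5_holder (Ico 1 M) (fun m => ‖A m‖) (fun m => ‖h (m + 1) - h m‖)
      (fun m hm => (Finset.mem_Ico.1 hm).1)
    have h2 := fm5_Dsum hder V hV hV1 Cl hlms θ c s hc hs M hM
    have h2' : ∑ m ∈ Ico 1 M, ‖h (m + 1) - h m‖ ^ 2 * m ≤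
        Cl * (1 + Real.log (M * c)) / (1 + |θ|) := h2
    have h3 : ∑ m ∈ Ico 1 M, (1 : ℝ) / m ≤ 1 + Real.log (M * c) := by
      have h4 : ∑ m ∈ Ico 1 M, (1 : ℝ) / m ≤ ∑ m ∈ Icc 1 M, (1 : ℝ) / m := by
        apply Finset.sum_le_sum_of_subset_of_nonneg
        · intro m hm
          rw [Finset.mem_Ico] at hm
          exact Finset.mem_Icc.2 ⟨hm.1, hm.2.le⟩
        · intro m _ _
          positivity
      have h5 : ∑ m ∈ Icc 1 M, (1 : ℝ) / m = (harmonic M : ℝ) := by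
        rw [harmonic_eq_sum_Icc]
        push_cast
        refine Finset.sum_congr rfl fun m _ => ?_
        rw [one_div]
      have h6 := harmonic_le_one_add_log M
      have h7 : Real.log M ≤ Real.log (M * c) :=
        Real.log_le_log (by linarith) (by nlinarith)
      linarith [h4, h5 ▸ h6]
    have h0 : 0 ≤ ∑ m ∈ Ico 1 M, ‖A m‖ ^ 4 / (m : ℝ) :=
      Finset.sum_nonneg fun m _ => by positivity
    have h00 : 0 ≤ ∑ m ∈ Ico 1 M, ‖h (m + 1) - h m‖ ^ 2 * (m : ℝ) :=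
      Finset.sum_nonneg fun m _ => by positivity
    calc _ ≤ _ := h1
      _ ≤ (∑ m ∈ Ico 1 M, ‖A m‖ ^ 4 / (m : ℝ)) * (1 + Real.log (M * c)) *
          (Cl * (1 + Real.log (M * c)) / (1 + |θ|)) ^ 2 := by
          apply mul_le_mul
          · exact mul_le_mul_of_nonneg_left h3 h0
          · exact pow_le_pow_left₀ h00 h2' 2
          · positivity
          · positivity
      _ = _ := by
          rw [div_pow]
          ring
  have h4 : ∀ a b : ℝ, 0 ≤ a → 0 ≤ b → (a + b) ^ 4 ≤ 8 * (a ^ 4 + b ^ 4) := by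
    intro a b ha hb
    nlinarith [sq_nonneg (a - b), sq_nonneg (a + b), sq_nonneg (a ^ 2 - b ^ 2),
      mul_nonneg ha hb, sq_nonneg (a * b), mul_nonneg (mul_nonneg ha hb) (sq_nonneg (a - b))]
  have hn : ‖(∑ m ∈ Icc 1 M, x m * pz θ m) * h M -
      ∑ m ∈ Ico 1 M, (∑ k ∈ Icc 1 m, x k * pz θ k) * (h (m + 1) - h m)‖ ≤
      ‖A M‖ * ‖h M‖ + ∑ m ∈ Ico 1 M, ‖A m‖ * ‖h (m + 1) - h m‖ := by
    refine (norm_sub_le _ _).trans ?_
    apply add_le_add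
    · rw [norm_mul]
    · refine (norm_sum_le _ _).trans ?_
      refine Finset.sum_le_sum fun m _ => ?_
      rw [norm_mul]
  have hS0 : 0 ≤ ∑ m ∈ Ico 1 M, ‖A m‖ ^ 4 / (m : ℝ) :=
    Finset.sum_nonneg fun m _ => by positivity
  calc _ ≤ (‖A M‖ * ‖h M‖ + ∑ m ∈ Ico 1 M, ‖A m‖ * ‖h (m + 1) - h m‖) ^ 4 :=
        pow_le_pow_left₀ (norm_nonneg _) hn 4
    _ ≤ 8 * ((‖A M‖ * ‖h M‖) ^ 4 + (∑ m ∈ Ico 1 M, ‖A m‖ * ‖h (m + 1) - h m‖) ^ 4) :=
        h4 _ _ (by positivity) (Finset.sum_nonneg fun m _ => by positivity)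
    _ ≤ 8 * (Co ^ 4 / (1 + |θ|) ^ 2 * ‖A M‖ ^ 4 +
        Cl ^ 2 * (1 + Real.log (M * c)) ^ 3 / (1 + |θ|) ^ 2 * ∑ m ∈ Ico 1 M, ‖A m‖ ^ 4 / m) := by
        gcongr
    _ ≤ 8 * ((Co ^ 4 + Cl ^ 2 * (1 + Real.log (M * c)) ^ 3) / (1 + |θ|) ^ 2 * ‖A M‖ ^ 4 +
        (Co ^ 4 + Cl ^ 2 * (1 + Real.log (M * c)) ^ 3) / (1 + |θ|) ^ 2 *
          ∑ m ∈ Ico 1 M, ‖A m‖ ^ 4 / m) := by
        have q1 : 0 ≤ Cl ^ 2 * (1 + Real.log (M * c)) ^ 3 := by positivity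
        have q2 : 0 ≤ Co ^ 4 := by positivity
        gcongr
        · linarith
        · linarith
    _ = _ := by
        simp only [hA]
        ring

/-- the tail for one sign -/
lemma fm5_tail (V : ℝ → ℝ) (Co : ℝ) (hCo : 0 < Co)
    (ho1 : ∀ θ ξ : ℝ, 1 ≤ |ξ| → |θ| ≤ |ξ| → ‖hF V θ ξ‖ ≤ Co / ξ ^ 2)
    (θ c s : ℝ) (hc : 1 ≤ c) (hs : s = 1 ∨ s = -1) (M : ℕ)
    (hMc : 1 + |θ| ≤ (M + 1 : ℝ) * c) (x : ℕ → ℂ) (hx : ∀ n, ‖x n‖ ≤ 1) :
    ‖∑' m : ℕ, x (m + M + 1) * hF V θ (s * (((m + M + 1 : ℕ) : ℝ) * c))‖ ≤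
      2 * Co / (c ^ 2 * (M + 1)) := by
  have hc0 : 0 < c := by linarith
  have hterm : ∀ m : ℕ, ‖x (m + M + 1) * hF V θ (s * (((m + M + 1 : ℕ) : ℝ) * c))‖ ≤
      Co / c ^ 2 * (((m + M + 1 : ℕ) : ℝ) ^ 2)⁻¹ := by
    intro m
    have h0 : (M + 1 : ℝ) ≤ ((m + M + 1 : ℕ) : ℝ) := by
      push_cast
      linarith [Nat.cast_nonneg (α := ℝ) m]
    have hpos : (0 : ℝ) < ((m + M + 1 : ℕ) : ℝ) := by positivity
    have habs : |s * (((m + M + 1 : ℕ) : ℝ) * c)| = ((m + M + 1 : ℕ) : ℝ) * c := by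
      rw [abs_mul, abs_of_nonneg (by positivity : (0 : ℝ) ≤ ((m + M + 1 : ℕ) : ℝ) * c)]
      rcases hs with rfl | rfl <;> simp
    have h2 : 1 + |θ| ≤ ((m + M + 1 : ℕ) : ℝ) * c :=
      hMc.trans (mul_le_mul_of_nonneg_right h0 hc0.le)
    have h1 := ho1 θ (s * (((m + M + 1 : ℕ) : ℝ) * c)) (by rw [habs]; linarith [abs_nonneg θ])
      (by rw [habs]; linarith)
    rw [norm_mul]
    calc ‖x (m + M + 1)‖ * ‖hF V θ (s * (((m + M + 1 : ℕ) : ℝ) * c))‖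
        ≤ 1 * (Co / (s * (((m + M + 1 : ℕ) : ℝ) * c)) ^ 2) :=
          mul_le_mul (hx _) h1 (norm_nonneg _) zero_le_one
      _ = _ := by
          rw [← sq_abs (s * (((m + M + 1 : ℕ) : ℝ) * c)), habs, mul_pow]
          field_simp
  have hsumm : Summable (fun m : ℕ => Co / c ^ 2 * (((m + M + 1 : ℕ) : ℝ) ^ 2)⁻¹) := by
    apply Summable.mul_left
    have := (summable_nat_add_iff (M + 1)).2 (Real.summable_nat_pow_inv.2 (by norm_num : 1 < 2))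
    exact this
  refine (tsum_of_norm_bounded hsumm.hasSum hterm).trans ?_
  rw [tsum_mul_left]
  have hle : ∑' m : ℕ, (((m + M + 1 : ℕ) : ℝ) ^ 2)⁻¹ ≤ 2 / (M + 1) := by
    apply Real.tsum_le_of_sum_range_le (fun n => by positivity)
    intro n
    have h1 := sum_Ioo_inv_sq_le (α := ℝ) M (n + M + 1)
    have h2 : ∑ i ∈ range n, (((i + M + 1 : ℕ) : ℝ) ^ 2)⁻¹ =
        ∑ i ∈ Ioo M (n + M + 1), ((i : ℝ) ^ 2)⁻¹ := by
      refine Finset.sum_bij (fun i _ => i + M + 1) ?_ ?_ ?_ ?_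
      · intro i hi
        rw [Finset.mem_range] at hi
        rw [Finset.mem_Ioo]
        omega
      · intro i _ k _ h
        omega
      · intro k hk
        rw [Finset.mem_Ioo] at hk
        exact ⟨k - M - 1, Finset.mem_range.2 (by omega), by omega⟩
      · intro i _
        rfl
    rw [h2]
    exact h1
  calc Co / c ^ 2 * ∑' m : ℕ, (((m + M + 1 : ℕ) : ℝ) ^ 2)⁻¹ ≤ Co / c ^ 2 * (2 / (M + 1)) :=
        mul_le_mul_of_nonneg_left hle (by positivity)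
    _ = _ := by field_simp

/-- splitting of the sum over the integers -/
lemma fm5_split (f : ℤ → ℂ) (hf : Summable f) (M : ℕ) :
    ‖∑' m : ℤ, f m‖ ≤ ‖f 0‖ + (‖∑ m ∈ Icc 1 M, f m‖ + ‖∑' m : ℕ, f ((m + M + 1 : ℕ) : ℤ)‖) +
      (‖∑ m ∈ Icc 1 M, f (-(m : ℤ))‖ + ‖∑' m : ℕ, f (-((m + M + 1 : ℕ) : ℤ))‖) := by
  have h1 : Summable (fun n : ℕ => f ((n : ℤ) + 1)) := by
    have hi : Function.Injective (fun n : ℕ => (n : ℤ) + 1) := fun a b h => by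
      simpa using h
    exact hf.comp_injective hi
  have h2 : Summable (fun n : ℕ => f (-((n : ℤ) + 1))) := by
    have hi : Function.Injective (fun n : ℕ => -((n : ℤ) + 1)) := fun a b h => by
      simpa using h
    exact hf.comp_injective hi
  rw [tsum_of_add_one_of_neg_add_one h1 h2]
  have key : ∀ g : ℤ → ℂ, Summable (fun n : ℕ => g ((n : ℤ) + 1)) →
      ∑' n : ℕ, g ((n : ℤ) + 1) = ∑ m ∈ Icc 1 M, g m + ∑' m : ℕ, g ((m + M + 1 : ℕ) : ℤ) := by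
    intro g hg
    rw [← hg.sum_add_tsum_nat_add M]
    congr 1
    · refine Finset.sum_bij (fun i _ => i + 1) ?_ ?_ ?_ ?_
      · intro i hi
        rw [Finset.mem_range] at hi
        rw [Finset.mem_Icc]
        omega
      · intro i _ k _ h
        omega
      · intro k hk
        rw [Finset.mem_Icc] at hk
        exact ⟨k - 1, Finset.mem_range.2 (by omega), by omega⟩
      · intro i _
        push_cast
        rfl
  have k1 := key f h1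
  have k2 := key (fun m => f (-m)) h2
  rw [k1, k2]
  have e1 := norm_add_le (∑ m ∈ Icc 1 M, f m + ∑' m : ℕ, f ((m + M + 1 : ℕ) : ℤ) + f 0)
    (∑ m ∈ Icc 1 M, f (-(m : ℤ)) + ∑' m : ℕ, f (-((m + M + 1 : ℕ) : ℤ)))
  have e2 := norm_add_le (∑ m ∈ Icc 1 M, f m + ∑' m : ℕ, f ((m + M + 1 : ℕ) : ℤ)) (f 0)
  have e3 := norm_add_le (∑ m ∈ Icc 1 M, f m) (∑' m : ℕ, f ((m + M + 1 : ℕ) : ℤ))
  have e4 := norm_add_le (∑ m ∈ Icc 1 M, f (-(m : ℤ))) (∑' m : ℕ, f (-((m + M + 1 : ℕ) : ℤ)))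
  linarith

/-- one character, before taking the fourth power -/
lemma fm5_char (hpoi : R_poi) (V : ℝ → ℝ) (hV : Vsm V) (Co : ℝ) (hCo : 0 < Co)
    (ho1 : ∀ θ ξ : ℝ, 1 ≤ |ξ| → |θ| ≤ |ξ| → ‖hF V θ ξ‖ ≤ Co / ξ ^ 2)
    (Q N θ : ℝ) (hQ : 1 ≤ Q) (hQN : 2 * Q ≤ N) (r : ℕ) (χ : DirichletCharacter ℂ r)
    (hr2 : 2 ≤ r) (hQr : Q < r) (hrQ : (r : ℝ) ≤ 2 * Q) (hχ : χ.IsPrimitive) (M : ℕ)
    (hM : 1 + |θ| ≤ (M + 1 : ℝ) * (N / (2 * Q))) :
    ‖SV V χ N θ‖ ≤ N / Real.sqrt Q * (‖∑ m ∈ Icc 1 M, χ⁻¹ (m : ZMod r) * hF V θ (1 * (m * (N / r)))‖ +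
      ‖∑ m ∈ Icc 1 M, χ⁻¹ (m : ZMod r) * hF V θ ((-1) * (m * (N / r)))‖) +
      N / Real.sqrt Q * (4 * Co / ((N / (2 * Q)) ^ 2 * (M + 1))) := by
  have : NeZero r := ⟨by omega⟩
  have hr0 : (0 : ℝ) < r := by positivity
  have hN0 : 0 < N := by linarith
  have hc : 1 ≤ N / r := by
    rw [le_div_iff₀ hr0]
    linarith
  have hcQ : N / (2 * Q) ≤ N / r := div_le_div_of_nonneg_left hN0.le hr0 hrQ
  have hcQ0 : 0 < N / (2 * Q) := by positivity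
  obtain ⟨hsm, heq⟩ := hpoi V hV r χ hr2 hχ N θ hN0
  set f : ℤ → ℂ := fun m => χ⁻¹ (m : ZMod r) * hF V θ (m * (N / r)) with hf
  have hch : ∀ a : ZMod r, ‖χ⁻¹ a‖ ≤ 1 := fun a => DirichletCharacter.norm_le_one _ a
  have hfs : Summable f := by
    refine Summable.of_norm_bounded hsm fun m => ?_
    simp only [hf, norm_mul]
    calc _ ≤ 1 * ‖hF V θ (m * (N / r))‖ := mul_le_mul_of_nonneg_right (hch _) (norm_nonneg _)
      _ = _ := one_mul _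
  have hsplit := fm5_split f hfs M
  have hf0 : f 0 = 0 := by
    simp only [hf, Int.cast_zero]
    have : χ⁻¹ (0 : ZMod r) = 0 := by
      have hnt : Nontrivial (ZMod r) := ZMod.nontrivial_iff.2 (by omega)
      exact MulChar.map_nonunit _ (by simp)
    rw [this, zero_mul]
  have hM' : 1 + |θ| ≤ (M + 1 : ℝ) * (N / r) :=
    hM.trans (mul_le_mul_of_nonneg_left hcQ (by positivity))
  have e1 : ∑ m ∈ Icc 1 M, f (m : ℤ) =
      ∑ m ∈ Icc 1 M, χ⁻¹ (m : ZMod r) * hF V θ (1 * (m * (N / r))) := by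
    refine Finset.sum_congr rfl fun m _ => ?_
    simp only [hf, one_mul]
    push_cast
    rfl
  have e2 : ∑ m ∈ Icc 1 M, f (-(m : ℤ)) =
      χ⁻¹ (-1 : ZMod r) * ∑ m ∈ Icc 1 M, χ⁻¹ (m : ZMod r) * hF V θ ((-1) * (m * (N / r))) := by
    rw [Finset.mul_sum]
    refine Finset.sum_congr rfl fun m _ => ?_
    simp only [hf]
    push_cast
    rw [show (-(m : ZMod r)) = (-1) * (m : ZMod r) by ring, map_mul]
    rw [show (-(m : ℝ)) * (N / r) = -1 * (m * (N / r)) by ring]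
    ring
  have e3 : ‖∑' m : ℕ, f ((m + M + 1 : ℕ) : ℤ)‖ ≤ 2 * Co / ((N / r) ^ 2 * (M + 1)) := by
    have h := fm5_tail V Co hCo ho1 θ (N / r) 1 hc (Or.inl rfl) M hM'
      (fun m => χ⁻¹ (m : ZMod r)) (fun n => hch _)
    have e : (fun m : ℕ => f ((m + M + 1 : ℕ) : ℤ)) = fun m : ℕ =>
        χ⁻¹ ((m + M + 1 : ℕ) : ZMod r) * hF V θ (1 * (((m + M + 1 : ℕ) : ℝ) * (N / r))) := by
      funext m
      simp only [hf, one_mul]
      push_cast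
      rfl
    rw [e]
    exact h
  have e4 : ‖∑' m : ℕ, f (-((m + M + 1 : ℕ) : ℤ))‖ ≤ 2 * Co / ((N / r) ^ 2 * (M + 1)) := by
    have h := fm5_tail V Co hCo ho1 θ (N / r) (-1) hc (Or.inr rfl) M hM'
      (fun m => χ⁻¹ (-(m : ZMod r))) (fun n => hch _)
    have e : (fun m : ℕ => f (-((m + M + 1 : ℕ) : ℤ))) = fun m : ℕ =>
        χ⁻¹ (-((m + M + 1 : ℕ) : ZMod r)) * hF V θ ((-1) * (((m + M + 1 : ℕ) : ℝ) * (N / r))) := by
      funext m
      simp only [hf]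
      push_cast
      congr 2
      ring
    rw [e]
    exact h
  have hsq : N / Real.sqrt r ≤ N / Real.sqrt Q :=
    div_le_div_of_nonneg_left hN0.le (Real.sqrt_pos.2 (by linarith))
      (Real.sqrt_le_sqrt hQr.le)
  have e5 : 2 * Co / ((N / r) ^ 2 * (M + 1)) ≤ 2 * Co / ((N / (2 * Q)) ^ 2 * (M + 1)) := by
    apply div_le_div_of_nonneg_left (by positivity) (by positivity)
    apply mul_le_mul_of_nonneg_right _ (by positivity)
    exact pow_le_pow_left₀ hcQ0.le hcQ 2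
  have e6 : ‖∑ m ∈ Icc 1 M, f (-(m : ℤ))‖ ≤
      ‖∑ m ∈ Icc 1 M, χ⁻¹ (m : ZMod r) * hF V θ ((-1) * (m * (N / r)))‖ := by
    rw [e2, norm_mul]
    calc _ ≤ 1 * _ := mul_le_mul_of_nonneg_right (hch _) (norm_nonneg _)
      _ = _ := one_mul _
  have e7 : ‖∑' m : ℤ, f m‖ ≤ (‖∑ m ∈ Icc 1 M, χ⁻¹ (m : ZMod r) * hF V θ (1 * (m * (N / r)))‖ +
      ‖∑ m ∈ Icc 1 M, χ⁻¹ (m : ZMod r) * hF V θ ((-1) * (m * (N / r)))‖) +
      4 * Co / ((N / (2 * Q)) ^ 2 * (M + 1)) := by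
    rw [hf0, norm_zero, e1] at hsplit
    have e8 : 4 * Co / ((N / (2 * Q)) ^ 2 * (M + 1)) =
        2 * Co / ((N / (2 * Q)) ^ 2 * (M + 1)) + 2 * Co / ((N / (2 * Q)) ^ 2 * (M + 1)) := by ring
    rw [e8]
    linarith
  rw [heq]
  calc N / Real.sqrt r * ‖∑' m : ℤ, f m‖ ≤ N / Real.sqrt Q * ‖∑' m : ℤ, f m‖ :=
        mul_le_mul_of_nonneg_right hsq (norm_nonneg _)
    _ ≤ N / Real.sqrt Q * _ := mul_le_mul_of_nonneg_left e7 (by positivity)
    _ = _ := by ring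

lemma fm5_cube (a b e : ℝ) :
    (a + b + e) ^ 4 ≤ 27 * (a ^ 4 + b ^ 4 + e ^ 4) := by
  have h2 : (a + b + e) ^ 2 ≤ 3 * (a ^ 2 + b ^ 2 + e ^ 2) := by
    nlinarith [sq_nonneg (a - b), sq_nonneg (a - e), sq_nonneg (b - e)]
  have h3 : (a ^ 2 + b ^ 2 + e ^ 2) ^ 2 ≤ 3 * (a ^ 4 + b ^ 4 + e ^ 4) := by
    nlinarith [sq_nonneg (a ^ 2 - b ^ 2), sq_nonneg (a ^ 2 - e ^ 2), sq_nonneg (b ^ 2 - e ^ 2)]
  calc (a + b + e) ^ 4 = ((a + b + e) ^ 2) ^ 2 := by ring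
    _ ≤ (3 * (a ^ 2 + b ^ 2 + e ^ 2)) ^ 2 := pow_le_pow_left₀ (sq_nonneg _) h2 2
    _ = 9 * (a ^ 2 + b ^ 2 + e ^ 2) ^ 2 := by ring
    _ ≤ _ := by linarith

/-- the sums of the fourth powers of the dual sums -/
lemma fm5_A (C4 : ℕ) (hA4 : ∀ (Q u : ℕ) (θ : ℝ), 1 ≤ Q → 1 ≤ u →
    ∑ p ∈ primChars Q, ‖∑ m ∈ Icc 1 u, p.2⁻¹ (m : ZMod p.1) * pz θ m‖ ^ 4
    ≤ C4 * ((Q : ℝ) ^ 2 + (u : ℝ) ^ 2) * (u : ℝ) ^ 2 * (1 + Real.log u) ^ C4)
    (Q θ : ℝ) (hQ : 1 ≤ Q) (S : Finset (Σ q, DirichletCharacter ℂ q))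
    (hS : S ⊆ primChars ⌊2 * Q⌋₊) (M u : ℕ) (hu : 1 ≤ u) (huM : u ≤ M) :
    ∑ p ∈ S, ‖∑ m ∈ Icc 1 u, p.2⁻¹ (m : ZMod p.1) * pz θ m‖ ^ 4
    ≤ C4 * (4 * Q ^ 2 + (M : ℝ) ^ 2) * (M : ℝ) ^ 2 * (1 + Real.log M) ^ C4 := by
  have h1 : ∑ p ∈ S, ‖∑ m ∈ Icc 1 u, p.2⁻¹ (m : ZMod p.1) * pz θ m‖ ^ 4 ≤
      ∑ p ∈ primChars ⌊2 * Q⌋₊, ‖∑ m ∈ Icc 1 u, p.2⁻¹ (m : ZMod p.1) * pz θ m‖ ^ 4 :=
    Finset.sum_le_sum_of_subset_of_nonneg hS fun _ _ _ => by positivity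
  have hfl : 1 ≤ ⌊2 * Q⌋₊ := Nat.le_floor (by push_cast; linarith)
  have h2 := hA4 ⌊2 * Q⌋₊ u θ hfl hu
  have hu0 : (1 : ℝ) ≤ u := by exact_mod_cast hu
  have huM' : (u : ℝ) ≤ M := by exact_mod_cast huM
  have hf : (⌊2 * Q⌋₊ : ℝ) ≤ 2 * Q := Nat.floor_le (by linarith)
  refine (h1.trans h2).trans ?_
  have hl0 : 0 ≤ Real.log u := Real.log_nonneg hu0
  have hl : Real.log u ≤ Real.log M := Real.log_le_log (by linarith) huM'
  have hf2 : (⌊2 * Q⌋₊ : ℝ) ^ 2 ≤ 4 * Q ^ 2 := by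
    calc (⌊2 * Q⌋₊ : ℝ) ^ 2 ≤ (2 * Q) ^ 2 := pow_le_pow_left₀ (by positivity) hf 2
      _ = _ := by ring
  gcongr

theorem p_fm5 : S_fm5 := by
  intro hpoi hA4 hder hlms ho1 hvsm V hV
  obtain ⟨C4, hC4⟩ := hA4
  have hV1 : Vsm (V1 V) := hvsm.2.1 V hV
  obtain ⟨Co, hCo, ho1'⟩ := ho1 V hV
  obtain ⟨Cl, hCl, hlms'⟩ := hlms (V1 V) hV1
  set K1 : ℝ := 27 * (2 * (8 * (Co ^ 4 + 27 * Cl ^ 2)) * C4 * 256 * 2 ^ C4 * 3 +
    16384 * Co ^ 4) with hK1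
  have hK1p : 0 ≤ K1 := by positivity
  refine ⟨max ⌈K1⌉₊ (C4 + 4), ?_⟩
  intro Q N θ hQ hQN
  have hN2 : 2 ≤ N := by linarith
  have hN0 : 0 < N := by linarith
  have hQ0 : 0 < Q := by linarith
  set τ : ℝ := 1 + |θ| with hτdef
  have hτ : 1 ≤ τ := by
    rw [hτdef]
    linarith [abs_nonneg θ]
  have hτ0 : 0 < τ := by linarith
  set ℓ : ℝ := 1 + Real.log N + Real.log τ with hℓdef
  have hlN : 0 ≤ Real.log N := Real.log_nonneg (by linarith)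
  have hlτ : 0 ≤ Real.log τ := Real.log_nonneg hτ
  have hlN2 : Real.log 2 ≤ Real.log N := Real.log_le_log (by norm_num) hN2
  have hℓ : 1 ≤ ℓ := by rw [hℓdef]; linarith
  set S := (primChars ⌊2 * Q⌋₊).filter (fun p => Q < (p.1 : ℝ)) with hS
  have hSsub : S ⊆ primChars ⌊2 * Q⌋₊ := Finset.filter_subset _ _
  have hScard : (S.card : ℝ) ≤ 4 * Q ^ 2 := by
    have h1 : S.card ≤ ⌊2 * Q⌋₊ ^ 2 :=
      (Finset.card_le_card hSsub).trans (Pool.Agent.MP89da58.card_primChars _)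
    have hf : (⌊2 * Q⌋₊ : ℝ) ≤ 2 * Q := Nat.floor_le (by linarith)
    calc (S.card : ℝ) ≤ ((⌊2 * Q⌋₊ ^ 2 : ℕ) : ℝ) := by exact_mod_cast h1
      _ = (⌊2 * Q⌋₊ : ℝ) ^ 2 := by push_cast; ring
      _ ≤ (2 * Q) ^ 2 := pow_le_pow_left₀ (by positivity) hf 2
      _ = _ := by ring
  have hmem : ∀ p ∈ S, 2 ≤ p.1 ∧ Q < (p.1 : ℝ) ∧ (p.1 : ℝ) ≤ 2 * Q ∧ p.2.IsPrimitive := by
    intro p hp
    rw [hS, Finset.mem_filter] at hp
    obtain ⟨hp1, h4⟩ := hp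
    have hp2 := hp1
    unfold primChars at hp2
    rw [Finset.mem_sigma, Finset.mem_Icc] at hp2
    obtain ⟨⟨h1, h2⟩, h3⟩ := hp2
    have h3' : p.2.IsPrimitive := by
      simp only [Finset.mem_filter] at h3
      exact h3.2
    refine ⟨h1, h4, ?_, h3'⟩
    calc (p.1 : ℝ) ≤ (⌊2 * Q⌋₊ : ℝ) := by exact_mod_cast h2
      _ ≤ 2 * Q := Nat.floor_le (by linarith)
  have hsqQ : Real.sqrt Q ^ 2 = Q := Real.sq_sqrt hQ0.le
  have hsq4 : Real.sqrt Q ^ 4 = Q ^ 2 := by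
    calc Real.sqrt Q ^ 4 = (Real.sqrt Q ^ 2) ^ 2 := by ring
      _ = _ := by rw [hsqQ]
  have hsq0 : 0 < Real.sqrt Q := Real.sqrt_pos.2 hQ0
  -- the final comparison
  have hfin : ∀ x : ℝ, x ≤ K1 * (N * Q) ^ 2 * (1 + (τ / N) ^ 2) * ℓ ^ (C4 + 4) →
      x ≤ (max ⌈K1⌉₊ (C4 + 4) : ℕ) * (N * Q) ^ 2 * (1 + (τ / N) ^ 2) *
        ℓ ^ (max ⌈K1⌉₊ (C4 + 4)) := by
    intro x hx
    refine hx.trans ?_
    have h1 : K1 ≤ ((max ⌈K1⌉₊ (C4 + 4) : ℕ) : ℝ) :=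
      (Nat.le_ceil K1).trans (by exact_mod_cast le_max_left _ _)
    have h2 : ℓ ^ (C4 + 4) ≤ ℓ ^ (max ⌈K1⌉₊ (C4 + 4)) :=
      pow_le_pow_right₀ hℓ (le_max_right _ _)
    gcongr
  apply hfin
  have hE : ∀ m : ℝ, 0 < m → N / Real.sqrt Q * (4 * Co / ((N / (2 * Q)) ^ 2 * m)) =
      16 * Co * Real.sqrt Q * (Q / (N * m)) := by
    intro m hm
    have : N / Real.sqrt Q * (4 * Co / ((N / (2 * Q)) ^ 2 * m)) =
        16 * Co * (Q ^ 2 / Real.sqrt Q) / (N * m) := by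
      field_simp
      ring
    rw [this]
    have h2 : Q ^ 2 / Real.sqrt Q = Q * Real.sqrt Q := by
      rw [div_eq_iff hsq0.ne']
      calc Q ^ 2 = Q * Q := by ring
        _ = Q * (Real.sqrt Q ^ 2) := by rw [hsqQ]
        _ = _ := by ring
    rw [h2]
    ring
  have hNQ4 : Q ^ 4 ≤ (N * Q) ^ 2 := by
    have : Q ≤ N := by linarith
    calc Q ^ 4 = (Q * Q) ^ 2 := by ring
      _ ≤ (N * Q) ^ 2 := by gcongr
  have hone : 1 ≤ (1 + (τ / N) ^ 2) * ℓ ^ (C4 + 4) := by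
    have h1 : (1 : ℝ) ≤ 1 + (τ / N) ^ 2 := by nlinarith [sq_nonneg (τ / N)]
    have h2 : (1 : ℝ) ≤ ℓ ^ (C4 + 4) := one_le_pow₀ hℓ
    nlinarith
  by_cases hcase : 2 * Q * τ / N < 1
  · -- only tails
    have hb : ∀ p ∈ S, ‖SV V p.2 N θ‖ ^ 4 ≤ 4096 * Co ^ 4 * Q ^ 2 := by
      intro p hp
      obtain ⟨h1, h2, h3, h4⟩ := hmem p hp
      have hc := fm5_char hpoi V hV Co hCo ho1' Q N θ hQ hQN p.1 p.2 h1 h2 h3 h4 0 (by
        have h5 : 2 * Q * τ < N := by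
          rw [div_lt_one hN0] at hcase
          exact hcase
        push_cast
        rw [zero_add, one_mul, le_div_iff₀ (by positivity)]
        linarith)
      simp only [Nat.cast_zero, zero_add] at hc
      rw [hE 1 one_pos] at hc
      simp only [show Icc 1 0 = (∅ : Finset ℕ) from rfl, Finset.sum_empty, norm_zero, add_zero,
        mul_zero, zero_add, mul_one] at hc
      have h6 : 16 * Co * Real.sqrt Q * (Q / N) ≤ 8 * Co * Real.sqrt Q := by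
        have : Q / N ≤ 1 / 2 := by
          rw [div_le_div_iff₀ hN0 (by norm_num)]
          linarith
        have h7 : 0 ≤ 16 * Co * Real.sqrt Q := by positivity
        nlinarith
      calc ‖SV V p.2 N θ‖ ^ 4 ≤ (8 * Co * Real.sqrt Q) ^ 4 :=
            pow_le_pow_left₀ (norm_nonneg _) (hc.trans h6) 4
        _ = 4096 * Co ^ 4 * Real.sqrt Q ^ 4 := by ring
        _ = _ := by rw [hsq4]
    calc ∑ p ∈ S, ‖SV V p.2 N θ‖ ^ 4 ≤ ∑ _p ∈ S, 4096 * Co ^ 4 * Q ^ 2 :=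
          Finset.sum_le_sum hb
      _ = S.card * (4096 * Co ^ 4 * Q ^ 2) := by rw [Finset.sum_const, nsmul_eq_mul]
      _ ≤ (4 * Q ^ 2) * (4096 * Co ^ 4 * Q ^ 2) :=
          mul_le_mul_of_nonneg_right hScard (by positivity)
      _ = 16384 * Co ^ 4 * Q ^ 4 := by ring
      _ ≤ 16384 * Co ^ 4 * (N * Q) ^ 2 := by gcongr
      _ ≤ K1 * (N * Q) ^ 2 := by
          apply mul_le_mul_of_nonneg_right _ (by positivity)
          rw [hK1]
          have : 0 ≤ 2 * (8 * (Co ^ 4 + 27 * Cl ^ 2)) * C4 * 256 * 2 ^ C4 * 3 := by positivity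
          nlinarith [pow_pos hCo 4]
      _ = K1 * (N * Q) ^ 2 * 1 := by ring
      _ ≤ K1 * (N * Q) ^ 2 * ((1 + (τ / N) ^ 2) * ℓ ^ (C4 + 4)) :=
          mul_le_mul_of_nonneg_left hone (by positivity)
      _ = _ := by ring
  · rw [not_lt] at hcase
    set M : ℕ := ⌊2 * Q * τ / N⌋₊ + 1 with hMdef
    have hMlo : 2 * Q * τ / N ≤ M := by
      rw [hMdef]
      push_cast
      exact (Nat.lt_floor_add_one _).le
    have hMhi : (M : ℝ) ≤ 4 * Q * τ / N := by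
      rw [hMdef]
      push_cast
      have h1 := Nat.floor_le (show 0 ≤ 2 * Q * τ / N by positivity)
      have h2 : 4 * Q * τ / N = 2 * Q * τ / N + 2 * Q * τ / N := by ring
      rw [h2]
      linarith
    have hM1 : 1 ≤ M := by omega
    have hM1' : (1 : ℝ) ≤ M := by exact_mod_cast hM1
    have hMτ : (M : ℝ) ≤ 2 * τ := by
      refine hMhi.trans ?_
      rw [div_le_iff₀ hN0]
      nlinarith
    have hMc : τ ≤ M * (N / (2 * Q)) := by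
      have := mul_le_mul_of_nonneg_right hMlo (show 0 ≤ N / (2 * Q) by positivity)
      calc τ = 2 * Q * τ / N * (N / (2 * Q)) := by field_simp
        _ ≤ _ := this
    have hlogM : 1 + Real.log M ≤ 2 * ℓ := by
      have h1 : Real.log M ≤ Real.log (2 * τ) := Real.log_le_log (by linarith) hMτ
      rw [Real.log_mul (by norm_num) hτ0.ne'] at h1
      rw [hℓdef]
      linarith
    have hlogM0 : 0 ≤ Real.log M := Real.log_nonneg hM1'
    have hlogMc : 1 + Real.log (M * (N / Q)) ≤ 3 * ℓ := by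
      have h0 : (M : ℝ) * (N / Q) ≤ 4 * τ := by
        calc (M : ℝ) * (N / Q) ≤ (4 * Q * τ / N) * (N / Q) :=
              mul_le_mul_of_nonneg_right hMhi (by positivity)
          _ = _ := by field_simp
      have h1 : Real.log (M * (N / Q)) ≤ Real.log (4 * τ) :=
        Real.log_le_log (by positivity) h0
      rw [Real.log_mul (by norm_num) hτ0.ne'] at h1
      have h4 : Real.log 4 = 2 * Real.log 2 := by
        rw [show (4 : ℝ) = 2 ^ 2 by norm_num, Real.log_pow]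
        push_cast
        ring
      rw [h4] at h1
      rw [hℓdef]
      linarith
    set A : (Σ q, DirichletCharacter ℂ q) → ℕ → ℝ := fun p u =>
      ‖∑ m ∈ Icc 1 u, p.2⁻¹ (m : ZMod p.1) * pz θ m‖ ^ 4 with hA
    have hA0 : ∀ p u, 0 ≤ A p u := fun p u => by positivity
    set K2 : ℝ := 8 * (Co ^ 4 + Cl ^ 2 * (3 * ℓ) ^ 3) with hK2
    have hK2p : 0 ≤ K2 := by positivity
    -- main parts
    have hmain : ∀ p ∈ S, ∀ s : ℝ, (s = 1 ∨ s = -1) →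
        ‖∑ m ∈ Icc 1 M, p.2⁻¹ (m : ZMod p.1) * hF V θ (s * (m * (N / p.1)))‖ ^ 4
        ≤ K2 / τ ^ 2 * (A p M + ∑ m ∈ Ico 1 M, A p m / m) := by
      intro p hp s hs
      obtain ⟨h1, h2, h3, h4⟩ := hmem p hp
      have hr0 : (0 : ℝ) < p.1 := by linarith
      have hc : 1 ≤ N / p.1 := by
        rw [le_div_iff₀ hr0]
        linarith
      have hcQ : N / (2 * Q) ≤ N / p.1 := div_le_div_of_nonneg_left hN0.le hr0 h3
      have hcQ' : N / p.1 ≤ N / Q := div_le_div_of_nonneg_left hN0.le hQ0 h2.le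
      have h5 := fm5_main hder V hV hV1 Cl Co hCl hCo hlms' ho1' θ (N / p.1) s hc hs M hM1
        (hMc.trans (mul_le_mul_of_nonneg_left hcQ (by positivity))) (fun m => p.2⁻¹ (m : ZMod p.1))
      refine h5.trans ?_
      have h6 : Real.log (M * (N / p.1)) ≤ Real.log (M * (N / Q)) :=
        Real.log_le_log (by positivity) (mul_le_mul_of_nonneg_left hcQ' (by positivity))
      have h7 : 0 ≤ Real.log (M * (N / p.1)) := Real.log_nonneg (by nlinarith)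
      have h8 : (1 + Real.log (M * (N / p.1))) ^ 3 ≤ (3 * ℓ) ^ 3 :=
        pow_le_pow_left₀ (by linarith) (by linarith) 3
      have h9 : 0 ≤ A p M + ∑ m ∈ Ico 1 M, A p m / m :=
        add_nonneg (hA0 _ _) (Finset.sum_nonneg fun m _ => div_nonneg (hA0 _ _) (by positivity))
      apply mul_le_mul_of_nonneg_right _ h9
      apply div_le_div_of_nonneg_right _ (by positivity)
      rw [hK2]
      have : Cl ^ 2 * (1 + Real.log (M * (N / p.1))) ^ 3 ≤ Cl ^ 2 * (3 * ℓ) ^ 3 :=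
        mul_le_mul_of_nonneg_left h8 (by positivity)
      linarith
    set B : ℝ := C4 * (4 * Q ^ 2 + (M : ℝ) ^ 2) * (M : ℝ) ^ 2 * (1 + Real.log M) ^ C4 with hB
    have hBp : 0 ≤ B := by positivity
    have hAsum : ∀ u : ℕ, 1 ≤ u → u ≤ M → ∑ p ∈ S, A p u ≤ B := fun u h1 h2 =>
      fm5_A C4 hC4 Q θ hQ S hSsub M u h1 h2
    have hAll : ∑ p ∈ S, (A p M + ∑ m ∈ Ico 1 M, A p m / m) ≤ B * (3 * ℓ) := by
      rw [Finset.sum_add_distrib, Finset.sum_comm]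
      have h1 := hAsum M hM1 le_rfl
      have h2 : ∑ m ∈ Ico 1 M, ∑ p ∈ S, A p m / m ≤ ∑ m ∈ Ico 1 M, B * (1 / (m : ℝ)) := by
        refine Finset.sum_le_sum fun m hm => ?_
        rw [Finset.mem_Ico] at hm
        rw [← Finset.sum_div, mul_one_div]
        exact div_le_div_of_nonneg_right (hAsum m hm.1 hm.2.le) (by positivity)
      have h3 : ∑ m ∈ Ico 1 M, (1 : ℝ) / m ≤ 1 + Real.log M := by
        have h4 : ∑ m ∈ Ico 1 M, (1 : ℝ) / m ≤ ∑ m ∈ Icc 1 M, (1 : ℝ) / m := by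
          apply Finset.sum_le_sum_of_subset_of_nonneg
          · intro m hm
            rw [Finset.mem_Ico] at hm
            exact Finset.mem_Icc.2 ⟨hm.1, hm.2.le⟩
          · intro m _ _
            positivity
        have h5 : ∑ m ∈ Icc 1 M, (1 : ℝ) / m = (harmonic M : ℝ) := by
          rw [harmonic_eq_sum_Icc]
          push_cast
          refine Finset.sum_congr rfl fun m _ => ?_
          rw [one_div]
        have h6 := harmonic_le_one_add_log M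
        linarith [h4, h5 ▸ h6]
      rw [← Finset.mul_sum] at h2
      have h7 : B * ∑ m ∈ Ico 1 M, (1 : ℝ) / m ≤ B * (2 * ℓ) :=
        mul_le_mul_of_nonneg_left (h3.trans hlogM) hBp
      nlinarith
    -- each character
    have hch : ∀ p ∈ S, ‖SV V p.2 N θ‖ ^ 4 ≤
        27 * (2 * (N ^ 4 / Q ^ 2 * (K2 / τ ^ 2 * (A p M + ∑ m ∈ Ico 1 M, A p m / m))) +
          4096 * Co ^ 4 * Q ^ 2) := by
      intro p hp
      obtain ⟨h1, h2, h3, h4⟩ := hmem p hp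
      have hc := fm5_char hpoi V hV Co hCo ho1' Q N θ hQ hQN p.1 p.2 h1 h2 h3 h4 M (by
        refine hMc.trans (mul_le_mul_of_nonneg_right (by linarith) (by positivity)))
      rw [hE (M + 1) (by positivity)] at hc
      have h6 : 16 * Co * Real.sqrt Q * (Q / (N * (M + 1))) ≤ 8 * Co * Real.sqrt Q := by
        have : Q / (N * (M + 1)) ≤ 1 / 2 := by
          rw [div_le_div_iff₀ (by positivity) (by norm_num)]
          nlinarith
        have h7 : 0 ≤ 16 * Co * Real.sqrt Q := by positivity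
        nlinarith
      set T1 := ‖∑ m ∈ Icc 1 M, p.2⁻¹ (m : ZMod p.1) * hF V θ (1 * (m * (N / p.1)))‖ with hT1
      set T2 := ‖∑ m ∈ Icc 1 M, p.2⁻¹ (m : ZMod p.1) * hF V θ ((-1) * (m * (N / p.1)))‖ with hT2
      have m1 := hmain p hp 1 (Or.inl rfl)
      have m2 := hmain p hp (-1) (Or.inr rfl)
      rw [← hT1] at m1
      rw [← hT2] at m2
      have hT1p : 0 ≤ T1 := norm_nonneg _
      have hT2p : 0 ≤ T2 := norm_nonneg _
      have hq0 : 0 ≤ N / Real.sqrt Q := by positivity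
      have e0 : (N / Real.sqrt Q) ^ 4 = N ^ 4 / Q ^ 2 := by rw [div_pow, hsq4]
      calc ‖SV V p.2 N θ‖ ^ 4
          ≤ (N / Real.sqrt Q * T1 + N / Real.sqrt Q * T2 + 8 * Co * Real.sqrt Q) ^ 4 := by
            apply pow_le_pow_left₀ (norm_nonneg _)
            calc _ ≤ _ := hc
              _ ≤ N / Real.sqrt Q * (T1 + T2) + 8 * Co * Real.sqrt Q := by linarith
              _ = _ := by ring
        _ ≤ 27 * ((N / Real.sqrt Q * T1) ^ 4 + (N / Real.sqrt Q * T2) ^ 4 +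
            (8 * Co * Real.sqrt Q) ^ 4) :=
            fm5_cube _ _ _
        _ = 27 * (N ^ 4 / Q ^ 2 * T1 ^ 4 + N ^ 4 / Q ^ 2 * T2 ^ 4 + 4096 * Co ^ 4 * Q ^ 2) := by
            rw [mul_pow (N / Real.sqrt Q) T1, mul_pow (N / Real.sqrt Q) T2, e0]
            rw [show (8 * Co * Real.sqrt Q) ^ 4 = 4096 * Co ^ 4 * Real.sqrt Q ^ 4 by ring, hsq4]
        _ ≤ _ := by
            have n1 := mul_le_mul_of_nonneg_left m1 (show 0 ≤ N ^ 4 / Q ^ 2 by positivity)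
            have n2 := mul_le_mul_of_nonneg_left m2 (show 0 ≤ N ^ 4 / Q ^ 2 by positivity)
            linarith
    have hBup : N ^ 4 / Q ^ 2 * (1 / τ ^ 2) * B ≤
        C4 * 256 * (N * Q) ^ 2 * (1 + (τ / N) ^ 2) * (2 * ℓ) ^ C4 := by
      have h1 : B ≤ C4 * (4 * Q ^ 2 + (4 * Q * τ / N) ^ 2) * (4 * Q * τ / N) ^ 2 *
          (2 * ℓ) ^ C4 := by
        rw [hB]
        gcongr
      have h2 := mul_le_mul_of_nonneg_left h1 (show 0 ≤ N ^ 4 / Q ^ 2 * (1 / τ ^ 2) by positivity)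
      refine h2.trans ?_
      have e : N ^ 4 / Q ^ 2 * (1 / τ ^ 2) * (C4 * (4 * Q ^ 2 + (4 * Q * τ / N) ^ 2) *
          (4 * Q * τ / N) ^ 2 * (2 * ℓ) ^ C4) =
          C4 * 64 * (N * Q) ^ 2 * (1 + 4 * (τ / N) ^ 2) * (2 * ℓ) ^ C4 := by
        field_simp
        ring
      rw [e]
      have h3 : (1 : ℝ) + 4 * (τ / N) ^ 2 ≤ 4 * (1 + (τ / N) ^ 2) := by nlinarith [sq_nonneg (τ / N)]
      calc C4 * 64 * (N * Q) ^ 2 * (1 + 4 * (τ / N) ^ 2) * (2 * ℓ) ^ C4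
          ≤ C4 * 64 * (N * Q) ^ 2 * (4 * (1 + (τ / N) ^ 2)) * (2 * ℓ) ^ C4 := by gcongr
        _ = _ := by ring
    calc ∑ p ∈ S, ‖SV V p.2 N θ‖ ^ 4
        ≤ ∑ p ∈ S, 27 * (2 * (N ^ 4 / Q ^ 2 * (K2 / τ ^ 2 *
          (A p M + ∑ m ∈ Ico 1 M, A p m / m))) + 4096 * Co ^ 4 * Q ^ 2) := Finset.sum_le_sum hch
      _ = 27 * (2 * (N ^ 4 / Q ^ 2 * (K2 / τ ^ 2 *
          ∑ p ∈ S, (A p M + ∑ m ∈ Ico 1 M, A p m / m))) + S.card * (4096 * Co ^ 4 * Q ^ 2)) := by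
          rw [← Finset.mul_sum, Finset.sum_add_distrib, ← Finset.mul_sum, ← Finset.mul_sum,
            ← Finset.mul_sum, Finset.sum_const, nsmul_eq_mul]
      _ ≤ 27 * (2 * (N ^ 4 / Q ^ 2 * (K2 / τ ^ 2 * (B * (3 * ℓ)))) +
          (4 * Q ^ 2) * (4096 * Co ^ 4 * Q ^ 2)) := by gcongr
      _ = 27 * (2 * K2 * (3 * ℓ) * (N ^ 4 / Q ^ 2 * (1 / τ ^ 2) * B) +
          16384 * Co ^ 4 * Q ^ 4) := by ring
      _ ≤ 27 * (2 * K2 * (3 * ℓ) * (C4 * 256 * (N * Q) ^ 2 * (1 + (τ / N) ^ 2) * (2 * ℓ) ^ C4) +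
          16384 * Co ^ 4 * (N * Q) ^ 2) := by gcongr
      _ ≤ 27 * (2 * (8 * (Co ^ 4 + 27 * Cl ^ 2) * ℓ ^ 3) * (3 * ℓ) *
          (C4 * 256 * (N * Q) ^ 2 * (1 + (τ / N) ^ 2) * (2 * ℓ) ^ C4) +
          16384 * Co ^ 4 * ((N * Q) ^ 2 * ((1 + (τ / N) ^ 2) * ℓ ^ (C4 + 4)))) := by
          have hk : K2 ≤ 8 * (Co ^ 4 + 27 * Cl ^ 2) * ℓ ^ 3 := by
            rw [hK2]
            have h1 : (1 : ℝ) ≤ ℓ ^ 3 := one_le_pow₀ hℓ
            have h2 : Co ^ 4 ≤ Co ^ 4 * ℓ ^ 3 := le_mul_of_one_le_right (by positivity) h1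
            nlinarith
          have h3 : (N * Q) ^ 2 ≤ (N * Q) ^ 2 * ((1 + (τ / N) ^ 2) * ℓ ^ (C4 + 4)) :=
            le_mul_of_one_le_right (by positivity) hone
          gcongr
      _ = K1 * (N * Q) ^ 2 * (1 + (τ / N) ^ 2) * ℓ ^ (C4 + 4) := by
          rw [hK1, mul_pow 2 ℓ]
          ring

end Pool.Agent.CA.LC
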