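import Pool.Agent.Lib.MP_d610d0_nt.CA.LC.Stm
import Pool.Agent.Lib.MP_d610d0_nt.CH.D.p_bA
import Pool.Agent.Lib.MP_d610d0_nt.CH.D.p_sch

set_option autoImplicit false

/-!
Piece hyb: the hybrid mean value theorem.
-/

namespace Pool.Agent.CA.LC

open Finset Filter
open Pool.Agent.MP89da58 (tri primChars)
open Pool.Agent.BVall (boxL)
open Pool.Agent.CH.V (pz ex)
open Pool.Agent.CH.D (xj kap dp R_ls R_kf R_kb)

lemma hyb_point (C : ℝ) (hC : 1 ≤ C)
    (hls : ∀ (R K N : ℕ) (x : ℕ → ℂ),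
      ∑ p ∈ primChars R, ‖∑ n ∈ Ioc K (K + N), x n * p.2 (n : ZMod p.1)‖ ^ 2
        ≤ C * ((N : ℝ) + (R : ℝ) ^ 2) * ∑ n ∈ Ioc K (K + N), ‖x n‖ ^ 2)
    (T : ℝ) (M R : ℕ) (a : ℕ → ℂ) (hT : 1 ≤ T) (s : ℝ) :
    ∑ p ∈ primChars R, ‖∑ m ∈ Icc 1 M, a m * p.2 (m : ZMod p.1) *
      (boxL T (Real.log m) s : ℂ)‖ ^ 2 ≤
    C * (1 + 2 * M / T + (R : ℝ) ^ 2) * ∑ m ∈ Icc 1 M, ‖a m‖ ^ 2 * boxL T (Real.log m) s := by
  have hT0 : (0 : ℝ) < T := by linarith
  have hRHS : 0 ≤ C * (1 + 2 * M / T + (R : ℝ) ^ 2) *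
      ∑ m ∈ Icc 1 M, ‖a m‖ ^ 2 * boxL T (Real.log m) s := by
    apply mul_nonneg (mul_nonneg (by linarith) (by positivity))
    exact sum_nonneg fun m _ => mul_nonneg (by positivity) (Pool.Agent.BVall.boxL_nonneg _ _)
  by_cases hs : Real.exp s ≤ M
  · -- the interval of integers
    obtain ⟨K, hK⟩ : ∃ K, K = ⌈Real.exp s⌉₊ - 1 := ⟨_, rfl⟩
    obtain ⟨N, hN⟩ : ∃ N, N = ⌊Real.exp (s + 1 / T)⌋₊ - K := ⟨_, rfl⟩
    have hpos : 0 < ⌈Real.exp s⌉₊ := Nat.ceil_pos.2 (Real.exp_pos s)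
    have hK1 : Real.exp s ≤ K + 1 := by
      have h1 : K + 1 = ⌈Real.exp s⌉₊ := by omega
      have h2 := Nat.le_ceil (Real.exp s)
      rw [← h1] at h2
      exact_mod_cast h2
    have hmem : ∀ m ∈ Icc 1 M, boxL T (Real.log m) s ≠ 0 → m ∈ Ioc K (K + N) := by
      intro m hm hb
      rw [mem_Icc] at hm
      have hm0 : (0 : ℝ) < m := by exact_mod_cast hm.1
      have h1 : Real.log m - 1 / T ≤ s ∧ s ≤ Real.log m := by
        by_contra h
        exact hb (Pool.Agent.BVall.boxL_of_not h)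
      have h2 : Real.exp s ≤ m := by
        rw [← Real.exp_log hm0]
        exact Real.exp_le_exp.2 h1.2
      have h3 : (m : ℝ) ≤ Real.exp (s + 1 / T) := by
        rw [← Real.exp_log hm0]
        exact Real.exp_le_exp.2 (by linarith [h1.1])
      have h4 : ⌈Real.exp s⌉₊ ≤ m := Nat.ceil_le.2 h2
      have h5 : m ≤ ⌊Real.exp (s + 1 / T)⌋₊ := Nat.le_floor h3
      rw [mem_Ioc]
      omega
    have hNle : (N : ℝ) ≤ 1 + 2 * M / T := by
      by_cases h : K ≤ ⌊Real.exp (s + 1 / T)⌋₊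
      · have h1 : (N : ℝ) = (⌊Real.exp (s + 1 / T)⌋₊ : ℝ) - K := by
          rw [hN, Nat.cast_sub h]
        have h2 : (⌊Real.exp (s + 1 / T)⌋₊ : ℝ) ≤ Real.exp (s + 1 / T) :=
          Nat.floor_le (Real.exp_pos _).le
        have h3 : Real.exp (1 / T) - 1 ≤ 2 * (1 / T) := by
          have h4 : |(1 / T)| ≤ 1 := by
            rw [abs_of_pos (by positivity), div_le_one (by positivity)]
            linarith
          have h5 := Real.abs_exp_sub_one_le h4
          rw [abs_of_pos (a := (1 / T)) (by positivity)] at h5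
          exact (le_abs_self _).trans h5
        have h7 : Real.exp (s + 1 / T) = Real.exp s * Real.exp (1 / T) :=
          Real.exp_add _ _
        have h8 : Real.exp s * (Real.exp (1 / T) - 1) ≤ M * (2 * (1 / T)) := by
          have h9 : 0 ≤ Real.exp (1 / T) - 1 := by
            have := Real.one_le_exp (x := 1 / T) (by positivity)
            linarith
          calc Real.exp s * (Real.exp (1 / T) - 1)
              ≤ M * (Real.exp (1 / T) - 1) := mul_le_mul_of_nonneg_right hs h9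
            _ ≤ M * (2 * (1 / T)) := mul_le_mul_of_nonneg_left h3 (Nat.cast_nonneg _)
        rw [h1]
        have h2' := h2.trans (le_of_eq h7)
        have h10 : (M : ℝ) * (2 * (1 / T)) = 2 * M / T := by ring
        rw [h10] at h8
        have h11 : Real.exp s * (Real.exp (1 / T) - 1) =
          Real.exp s * Real.exp (1 / T) - Real.exp s := by ring
        rw [h11] at h8
        linarith [h2', h8, hK1]
      · have h1 : N = 0 := by omega
        rw [h1]
        push_cast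
        positivity
    -- the sequence
    let x : ℕ → ℂ := fun m => if m ∈ Icc 1 M then a m * (boxL T (Real.log m) s : ℂ) else 0
    have hx0 : ∀ m, m ∉ Ioc K (K + N) → x m = 0 := by
      intro m hm
      show (if m ∈ Icc 1 M then a m * (boxL T (Real.log m) s : ℂ) else 0) = 0
      split_ifs with h
      · have : boxL T (Real.log m) s = 0 := by
          by_contra hb
          exact hm (hmem m h hb)
        rw [this]; simp
      · rfl
    have hsum : ∀ f : ℕ → ℂ → ℂ, (∀ m, f m 0 = 0) →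
        ∑ n ∈ Ioc K (K + N), f n (x n) = ∑ m ∈ Icc 1 M, f m (x m) := by
      intro f hf
      have h1 : ∑ n ∈ Ioc K (K + N), f n (x n) = ∑ n ∈ Ioc K (K + N) ∪ Icc 1 M, f n (x n) := by
        apply sum_subset subset_union_left
        intro n _ hn
        rw [hx0 n hn, hf]
      have h2 : ∑ n ∈ Icc 1 M, f n (x n) = ∑ n ∈ Ioc K (K + N) ∪ Icc 1 M, f n (x n) := by
        apply sum_subset subset_union_right
        intro n _ hn
        have : x n = 0 := if_neg hn
        rw [this, hf]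
      rw [h1, h2]
    have hsumR : ∑ n ∈ Ioc K (K + N), ‖x n‖ ^ 2 = ∑ m ∈ Icc 1 M, ‖x m‖ ^ 2 := by
      have h := hsum (fun _ z => ((‖z‖ ^ 2 : ℝ) : ℂ)) (fun m => by simp)
      have h' : ((∑ n ∈ Ioc K (K + N), ‖x n‖ ^ 2 : ℝ) : ℂ) =
          ((∑ m ∈ Icc 1 M, ‖x m‖ ^ 2 : ℝ) : ℂ) := by
        rw [Complex.ofReal_sum, Complex.ofReal_sum]
        exact h
      exact Complex.ofReal_injective h'
    have hmain := hls R K N x
    have e1 : ∀ p : (Σ q, DirichletCharacter ℂ q), ∑ m ∈ Icc 1 M, a m * p.2 (m : ZMod p.1) *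
        (boxL T (Real.log m) s : ℂ) = ∑ n ∈ Ioc K (K + N), x n * p.2 (n : ZMod p.1) := by
      intro p
      rw [hsum (fun n z => z * p.2 (n : ZMod p.1)) (fun m => zero_mul _)]
      apply sum_congr rfl
      intro m hm
      have : x m = a m * (boxL T (Real.log m) s : ℂ) := if_pos hm
      rw [this]
      ring
    rw [sum_congr rfl (fun p _ => by rw [e1 p])]
    refine hmain.trans ?_
    rw [hsumR]
    have e2 : ∑ m ∈ Icc 1 M, ‖x m‖ ^ 2 =
        ∑ m ∈ Icc 1 M, ‖a m‖ ^ 2 * boxL T (Real.log m) s := by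
      apply sum_congr rfl
      intro m hm
      have : x m = a m * (boxL T (Real.log m) s : ℂ) := if_pos hm
      rw [this, norm_mul, mul_pow]
      rcases Pool.Agent.CH.D.bA_sq T (Real.log m) s with h | h
      · rw [h]; simp
      · rw [h]; simp
    rw [e2]
    apply mul_le_mul_of_nonneg_right
    · apply mul_le_mul_of_nonneg_left
      · linarith
      · linarith
    · exact sum_nonneg fun m _ => mul_nonneg (by positivity) (Pool.Agent.BVall.boxL_nonneg _ _)
  · -- everything vanishes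
    have h0 : ∀ m ∈ Icc 1 M, boxL T (Real.log m) s = 0 := by
      intro m hm
      rw [mem_Icc] at hm
      apply Pool.Agent.BVall.boxL_of_not
      rintro ⟨_, h2⟩
      apply hs
      have hm0 : (0 : ℝ) < m := by exact_mod_cast hm.1
      have h3 : Real.exp s ≤ m := by
        rw [← Real.exp_log hm0]
        exact Real.exp_le_exp.2 h2
      have h4 : (m : ℝ) ≤ M := by exact_mod_cast hm.2
      linarith
    have h1 : ∀ p : (Σ q, DirichletCharacter ℂ q), ∑ m ∈ Icc 1 M, a m * p.2 (m : ZMod p.1) *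
        (boxL T (Real.log m) s : ℂ) = 0 := by
      intro p
      apply sum_eq_zero
      intro m hm
      rw [h0 m hm]; simp
    rw [sum_congr rfl (fun p _ => by rw [h1 p])]
    simpa using hRHS


lemma hyb_dp_cont (b : ℕ → ℂ) (N : ℕ) : Continuous (fun θ : ℝ => dp b N θ) := by
  unfold dp
  simp_rw [Pool.Agent.CH.D.sch_pz]
  fun_prop

lemma hyb_dp_norm (b : ℕ → ℂ) (N : ℕ) (θ : ℝ) : ‖dp b N θ‖ ≤ ∑ n ∈ Icc 1 N, ‖b n‖ := by
  unfold dp
  refine (norm_sum_le _ _).trans (sum_le_sum fun n _ => ?_)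
  rw [norm_mul, Pool.Agent.CH.D.sch_pz, Complex.norm_exp, Complex.I_mul_re, Complex.ofReal_im,
    neg_zero, Real.exp_zero, mul_one]

lemma hyb_integrable {k : ℝ → ℝ} (hk : MeasureTheory.Integrable k) (b : ℕ → ℂ) (N : ℕ) :
    MeasureTheory.Integrable (fun θ : ℝ => k θ * ‖dp b N θ‖ ^ 2) := by
  refine hk.mul_bdd (c := (∑ n ∈ Icc 1 N, ‖b n‖) ^ 2)
    ((hyb_dp_cont b N).norm.pow 2).aestronglyMeasurable (MeasureTheory.ae_of_all _ fun θ => ?_)
  rw [Real.norm_of_nonneg (by positivity)]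
  exact pow_le_pow_left₀ (norm_nonneg _) (hyb_dp_norm b N θ) 2

lemma hyb_id (hkf : R_kf) (lam : ℝ) (hlam : 1 ≤ lam) (b : ℕ → ℂ) (N : ℕ) :
    ∫ θ : ℝ, kap lam θ * ‖dp b N θ‖ ^ 2 =
      lam * ∫ s : ℝ, ‖∑ n ∈ Icc 1 N, b n * (boxL lam (Real.log n) s : ℂ)‖ ^ 2 := by
  have hl0 : 0 < lam := by linarith
  obtain ⟨hint, htri⟩ := hkf lam hl0
  have hexp : ∀ θ : ℝ, ((kap lam θ * ‖dp b N θ‖ ^ 2 : ℝ) : ℂ) =
      ∑ m ∈ Icc 1 N, ∑ n ∈ Icc 1 N, (b m * (starRingEnd ℂ) (b n)) *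
        ((kap lam θ : ℂ) * Complex.exp (Complex.I * ((θ * (Real.log m - Real.log n) : ℝ) : ℂ))) := by
    intro θ
    push_cast
    rw [← Complex.mul_conj']
    unfold dp
    rw [map_sum, Finset.sum_mul_sum, Finset.mul_sum]
    refine Finset.sum_congr rfl fun m _ => ?_
    rw [Finset.mul_sum]
    refine Finset.sum_congr rfl fun n _ => ?_
    have := Pool.Agent.CH.D.sch_mul θ (Real.log m) (Real.log n)
    rw [Pool.Agent.CH.D.sch_pz, Pool.Agent.CH.D.sch_pz, map_mul]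
    push_cast at this ⊢
    rw [← this]
    ring
  have hval : ((∫ θ : ℝ, kap lam θ * ‖dp b N θ‖ ^ 2 : ℝ) : ℂ) =
      ∑ m ∈ Icc 1 N, ∑ n ∈ Icc 1 N, (b m * (starRingEnd ℂ) (b n)) *
        ((tri (lam * (Real.log m - Real.log n)) : ℝ) : ℂ) := by
    rw [← integral_complex_ofReal]
    simp_rw [hexp]
    rw [MeasureTheory.integral_finsetSum _ fun m _ =>
      MeasureTheory.integrable_finsetSum _ fun n _ =>
        (Pool.Agent.CH.D.sch_int hint _).const_mul _]
    refine Finset.sum_congr rfl fun m _ => ?_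
    rw [MeasureTheory.integral_finsetSum _ fun n _ =>
      (Pool.Agent.CH.D.sch_int hint _).const_mul _]
    refine Finset.sum_congr rfl fun n _ => ?_
    rw [MeasureTheory.integral_const_mul, htri]
  have hexp2 : ∀ s : ℝ, ((‖∑ n ∈ Icc 1 N, b n * (boxL lam (Real.log n) s : ℂ)‖ ^ 2 : ℝ) : ℂ) =
      ∑ m ∈ Icc 1 N, ∑ n ∈ Icc 1 N, (b m * (starRingEnd ℂ) (b n)) *
        ((boxL lam (Real.log m) s * boxL lam (Real.log n) s : ℝ) : ℂ) := by
    intro s
    push_cast
    rw [← Complex.mul_conj', map_sum, Finset.sum_mul_sum]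
    refine Finset.sum_congr rfl fun m _ => Finset.sum_congr rfl fun n _ => ?_
    rw [map_mul, Complex.conj_ofReal]
    ring
  have hval2 : ((∫ s : ℝ, ‖∑ n ∈ Icc 1 N, b n * (boxL lam (Real.log n) s : ℂ)‖ ^ 2 : ℝ) : ℂ) =
      ∑ m ∈ Icc 1 N, ∑ n ∈ Icc 1 N, (b m * (starRingEnd ℂ) (b n)) *
        ((∫ s : ℝ, boxL lam (Real.log m) s * boxL lam (Real.log n) s : ℝ) : ℂ) := by
    have hi : ∀ m n : ℕ, MeasureTheory.Integrable (fun s : ℝ => (b m * (starRingEnd ℂ) (b n)) *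
        ((boxL lam (Real.log m) s * boxL lam (Real.log n) s : ℝ) : ℂ)) := fun m n =>
      (Pool.Agent.BVall.integrable_boxL_mul (lam := lam) (Real.log m) (Real.log n)).ofReal.const_mul _
    rw [← integral_complex_ofReal]
    simp_rw [hexp2]
    rw [MeasureTheory.integral_finsetSum _ fun m _ =>
      MeasureTheory.integrable_finsetSum _ fun n _ => hi m n]
    refine Finset.sum_congr rfl fun m _ => ?_
    rw [MeasureTheory.integral_finsetSum _ fun n _ => hi m n]
    refine Finset.sum_congr rfl fun n _ => ?_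
    rw [MeasureTheory.integral_const_mul, integral_complex_ofReal]
  apply Complex.ofReal_injective
  rw [hval, Complex.ofReal_mul, hval2, Finset.mul_sum]
  refine Finset.sum_congr rfl fun m _ => ?_
  rw [Finset.mul_sum]
  refine Finset.sum_congr rfl fun n _ => ?_
  rw [← Pool.Agent.BVall.integral_boxL_mul hlam]
  push_cast
  ring

theorem p_hyb : S_hyb := by
  rintro ⟨C, hC, hls⟩ hkf hkb
  refine ⟨16 * C, by linarith, fun R N a T hR hT => ?_⟩
  have hT0 : (0 : ℝ) < T := by linarith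
  have hR1 : (1 : ℝ) ≤ R := by exact_mod_cast hR
  obtain ⟨hk0, _, _, hk8, _, _, _⟩ := hkb T hT0
  obtain ⟨hkint, _⟩ := hkf T hT0
  set b : (Σ q, DirichletCharacter ℂ q) → ℕ → ℂ := fun p n => a n * p.2 (n : ZMod p.1) with hb
  -- step 1
  have hint1 : MeasureTheory.Integrable (fun θ : ℝ => ∑ p ∈ primChars R,
      kap T θ * ‖dp (b p) N θ‖ ^ 2) :=
    MeasureTheory.integrable_finsetSum _ fun p _ => hyb_integrable hkint (b p) N
  have hint8 : MeasureTheory.Integrable (fun θ : ℝ => 8 * T * ∑ p ∈ primChars R,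
      kap T θ * ‖dp (b p) N θ‖ ^ 2) := hint1.const_mul _
  have h1 : ∫ θ in (-T)..T, ∑ p ∈ primChars R, ‖dp (b p) N θ‖ ^ 2 ≤
      ∫ θ : ℝ, 8 * T * ∑ p ∈ primChars R, kap T θ * ‖dp (b p) N θ‖ ^ 2 := by
    have hc : Continuous (fun θ : ℝ => ∑ p ∈ primChars R, ‖dp (b p) N θ‖ ^ 2) :=
      continuous_finsetSum _ fun p _ => (hyb_dp_cont (b p) N).norm.pow 2
    have h2 : ∫ θ in (-T)..T, ∑ p ∈ primChars R, ‖dp (b p) N θ‖ ^ 2 ≤
        ∫ θ in (-T)..T, 8 * T * ∑ p ∈ primChars R, kap T θ * ‖dp (b p) N θ‖ ^ 2 := by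
      apply intervalIntegral.integral_mono_on (by linarith) (hc.intervalIntegrable _ _)
        hint8.intervalIntegrable
      intro θ hθ
      rw [Set.mem_Icc] at hθ
      have h3 := hk8 θ (abs_le.2 ⟨hθ.1, hθ.2⟩)
      rw [← Finset.mul_sum, ← mul_assoc]
      have h4 : 1 ≤ 8 * T * kap T θ := by
        have : 8 * T * (1 / (8 * T)) = 1 := by field_simp
        calc (1 : ℝ) = 8 * T * (1 / (8 * T)) := this.symm
          _ ≤ 8 * T * kap T θ := mul_le_mul_of_nonneg_left h3 (by positivity)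
      exact le_mul_of_one_le_left (sum_nonneg fun p _ => by positivity) h4
    refine h2.trans ?_
    rw [intervalIntegral.integral_of_le (by linarith)]
    exact MeasureTheory.setIntegral_le_integral hint8 (Filter.Eventually.of_forall fun θ =>
      mul_nonneg (by positivity) (sum_nonneg fun p _ => mul_nonneg (hk0 θ) (by positivity)))
  refine h1.trans ?_
  rw [MeasureTheory.integral_const_mul, MeasureTheory.integral_finsetSum _
    fun p _ => hyb_integrable hkint (b p) N]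
  rw [sum_congr rfl fun p _ => hyb_id hkf T hT (b p) N, ← mul_sum]
  -- step 2
  have hi : ∀ m ∈ Icc 1 N, MeasureTheory.Integrable (fun s : ℝ =>
      ‖a m‖ ^ 2 * boxL T (Real.log m) s) := fun m _ =>
    (Pool.Agent.CH.D.bA_int T (Real.log m) hT0).1.const_mul _
  have hint : MeasureTheory.Integrable (fun s : ℝ => C * (1 + 2 * N / T + (R : ℝ) ^ 2) *
      ∑ m ∈ Icc 1 N, ‖a m‖ ^ 2 * boxL T (Real.log m) s) :=
    (MeasureTheory.integrable_finsetSum _ hi).const_mul _
  have hip : ∀ p ∈ primChars R, MeasureTheory.Integrable (fun s : ℝ =>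
      ‖∑ n ∈ Icc 1 N, b p n * (boxL T (Real.log n) s : ℂ)‖ ^ 2) := by
    intro p _
    have hexp2 : ∀ s : ℝ, ((‖∑ n ∈ Icc 1 N, b p n * (boxL T (Real.log n) s : ℂ)‖ ^ 2 : ℝ) : ℂ) =
        ∑ m ∈ Icc 1 N, ∑ n ∈ Icc 1 N, (b p m * (starRingEnd ℂ) (b p n)) *
          ((boxL T (Real.log m) s * boxL T (Real.log n) s : ℝ) : ℂ) := by
      intro s
      push_cast
      rw [← Complex.mul_conj', map_sum, Finset.sum_mul_sum]
      refine Finset.sum_congr rfl fun m _ => Finset.sum_congr rfl fun n _ => ?_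
      rw [map_mul, Complex.conj_ofReal]
      ring
    have h5 : MeasureTheory.Integrable (fun s : ℝ =>
        ((‖∑ n ∈ Icc 1 N, b p n * (boxL T (Real.log n) s : ℂ)‖ ^ 2 : ℝ) : ℂ)) := by
      simp_rw [hexp2]
      exact MeasureTheory.integrable_finsetSum _ fun m _ =>
        MeasureTheory.integrable_finsetSum _ fun n _ =>
        (Pool.Agent.BVall.integrable_boxL_mul (lam := T) (Real.log m)
          (Real.log n)).ofReal.const_mul _
    exact h5.re
  rw [← MeasureTheory.integral_finsetSum _ hip]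
  have h6 : ∫ s : ℝ, ∑ p ∈ primChars R, ‖∑ n ∈ Icc 1 N, b p n * (boxL T (Real.log n) s : ℂ)‖ ^ 2 ≤
      ∫ s : ℝ, C * (1 + 2 * N / T + (R : ℝ) ^ 2) *
      ∑ m ∈ Icc 1 N, ‖a m‖ ^ 2 * boxL T (Real.log m) s := by
    apply MeasureTheory.integral_mono_of_nonneg
    · exact Filter.Eventually.of_forall fun s => sum_nonneg fun p _ => by positivity
    · exact hint
    · exact Filter.Eventually.of_forall fun s => hyb_point C hC hls T N R a hT s
  rw [MeasureTheory.integral_const_mul, MeasureTheory.integral_finsetSum _ hi] at h6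
  have h7 : ∑ m ∈ Icc 1 N, ∫ s : ℝ, ‖a m‖ ^ 2 * boxL T (Real.log m) s =
      (1 / T) * ∑ m ∈ Icc 1 N, ‖a m‖ ^ 2 := by
    rw [mul_sum]
    apply sum_congr rfl
    intro m _
    rw [MeasureTheory.integral_const_mul, (Pool.Agent.CH.D.bA_int T (Real.log m) hT0).2]
    ring
  rw [h7] at h6
  have hS : 0 ≤ ∑ m ∈ Icc 1 N, ‖a m‖ ^ 2 := sum_nonneg fun m _ => by positivity
  calc 8 * T * (T * ∫ s : ℝ, ∑ p ∈ primChars R,
        ‖∑ n ∈ Icc 1 N, b p n * (boxL T (Real.log n) s : ℂ)‖ ^ 2)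
      ≤ 8 * T * (T * (C * (1 + 2 * N / T + (R : ℝ) ^ 2) *
        ((1 / T) * ∑ m ∈ Icc 1 N, ‖a m‖ ^ 2))) := by
        apply mul_le_mul_of_nonneg_left _ (by positivity)
        exact mul_le_mul_of_nonneg_left h6 hT0.le
    _ = 8 * C * (T + 2 * N + (R : ℝ) ^ 2 * T) * ∑ m ∈ Icc 1 N, ‖a m‖ ^ 2 := by
        field_simp
    _ ≤ 16 * C * ((R : ℝ) ^ 2 * T + N) * ∑ m ∈ Icc 1 N, ‖a m‖ ^ 2 := by
        apply mul_le_mul_of_nonneg_right _ hS
        have h8 : T ≤ (R : ℝ) ^ 2 * T := le_mul_of_one_le_left hT0.le (by nlinarith)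
        have hN0 : (0 : ℝ) ≤ N := Nat.cast_nonneg _
        have h9 : 8 * (T + 2 * N + (R : ℝ) ^ 2 * T) ≤ 16 * ((R : ℝ) ^ 2 * T + N) := by linarith
        calc 8 * C * (T + 2 * N + (R : ℝ) ^ 2 * T) = C * (8 * (T + 2 * N + (R : ℝ) ^ 2 * T)) := by ring
          _ ≤ C * (16 * ((R : ℝ) ^ 2 * T + N)) := mul_le_mul_of_nonneg_left h9 (by linarith)
          _ = 16 * C * ((R : ℝ) ^ 2 * T + N) := by ring

end Pool.Agent.CA.LC
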