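import Pool.Agent.Lib.MP_d610d0_nt.CA.LC.Stm

set_option autoImplicit false

/-!
Project CA, section LC, piece lms: the logarithmic mean square of `hF`.
-/

namespace Pool.Agent.CA.LC

open Finset Filter MeasureTheory

theorem lms_int (g : ℝ → ℝ) (C : ℝ) (h0 : ∀ x, 0 ≤ g x) (hi : Integrable g)
    (hC : ∫ ξ : ℝ, g ξ ≤ C) (X s : ℝ) (hX : 1 ≤ X) (hs : s = 1 ∨ s = -1) :
    ∫ ξ in (1 : ℝ)..X, g (s * ξ) ≤ C := by
  have h1 : Integrable (fun ξ => g (s * ξ)) ∧ ∫ ξ : ℝ, g (s * ξ) = ∫ ξ : ℝ, g ξ := by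
    rcases hs with rfl | rfl
    · simp only [one_mul, and_true]
      exact hi
    · simp only [neg_one_mul]
      exact ⟨hi.comp_neg, integral_neg_eq_self _ _⟩
  rw [intervalIntegral.integral_of_le hX]
  refine (setIntegral_le_integral h1.1 (Eventually.of_forall fun x => h0 _)).trans ?_
  rw [h1.2]
  exact hC

theorem p_lms : S_lms := by
  intro ho2 hpla hvsm V hV
  obtain ⟨C2, hC2, h2⟩ := ho2 V hV
  obtain ⟨C3, hC3, h3⟩ := hpla V hV
  obtain ⟨C1, hC1, _, h1⟩ := hvsm.2.2 V hV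
  have hpi : 0 < Real.pi := Real.pi_pos
  refine ⟨2 * (C1 ^ 2 + C2 ^ 2 + 8 * Real.pi * C3), by positivity, ?_⟩
  intro θ X s hX hs
  obtain ⟨hc, hi, hint⟩ := h3 θ
  have hlog : 0 ≤ Real.log X := Real.log_nonneg hX
  have habs : ∀ ξ : ℝ, |s * ξ| = |ξ| := by
    intro ξ
    rcases hs with rfl | rfl
    · rw [one_mul]
    · rw [neg_one_mul, abs_neg]
  have hcont : ContinuousOn (fun ξ : ℝ => ‖hF V θ (s * ξ)‖ ^ 2 / ξ) (Set.uIcc 1 X) := by
    apply ContinuousOn.div
    · exact ((hc.comp (continuous_const.mul continuous_id)).norm.pow 2).continuousOn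
    · exact continuousOn_id
    · intro ξ hξ
      rw [Set.uIcc_of_le hX, Set.mem_Icc] at hξ
      have : 0 < ξ := by linarith [hξ.1]
      exact this.ne'
  have hinvc : ContinuousOn (fun ξ : ℝ => ξ⁻¹) (Set.uIcc 1 X) := by
    apply ContinuousOn.inv₀ continuousOn_id
    intro ξ hξ
    rw [Set.uIcc_of_le hX, Set.mem_Icc] at hξ
    have : 0 < ξ := by linarith [hξ.1]
    exact this.ne'
  have hinv : ∫ ξ in (1 : ℝ)..X, ξ⁻¹ = Real.log X := by
    rw [integral_inv_of_pos one_pos (by linarith), div_one]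
  have hden : 0 < 1 + |θ| := by positivity
  rw [le_div_iff₀ hden]
  rcases le_or_gt |θ| 1 with hθ | hθ
  · have e1 : ∫ ξ in (1 : ℝ)..X, ‖hF V θ (s * ξ)‖ ^ 2 / ξ ≤ ∫ ξ in (1 : ℝ)..X, C1 ^ 2 * ξ⁻¹ := by
      apply intervalIntegral.integral_mono_on hX hcont.intervalIntegrable
        (hinvc.intervalIntegrable.const_mul _)
      intro ξ hξ
      have hpos : 0 < ξ := by linarith [hξ.1]
      rw [div_eq_mul_inv]
      apply mul_le_mul_of_nonneg_right _ (by positivity)
      exact pow_le_pow_left₀ (norm_nonneg _) (h1 _ _) 2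
    rw [intervalIntegral.integral_const_mul, hinv] at e1
    have e2 : 0 ≤ 8 * Real.pi * C3 := by positivity
    calc (∫ ξ in (1 : ℝ)..X, ‖hF V θ (s * ξ)‖ ^ 2 / ξ) * (1 + |θ|)
        ≤ (C1 ^ 2 * Real.log X) * 2 := by
          apply mul_le_mul e1 (by linarith) hden.le (by positivity)
      _ ≤ 2 * (C1 ^ 2 + C2 ^ 2 + 8 * Real.pi * C3) * (1 + Real.log X) := by
          have e3 : 0 ≤ (C2 ^ 2 + 8 * Real.pi * C3) * (1 + Real.log X) := by positivity
          nlinarith [sq_nonneg C1]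
  · have hθ0 : 0 < |θ| := by linarith
    have e1 : ∫ ξ in (1 : ℝ)..X, ‖hF V θ (s * ξ)‖ ^ 2 / ξ ≤
        ∫ ξ in (1 : ℝ)..X, ((C2 / |θ|) ^ 2 * ξ⁻¹ + 8 * Real.pi / |θ| * ‖hF V θ (s * ξ)‖ ^ 2) := by
      apply intervalIntegral.integral_mono_on hX hcont.intervalIntegrable
      · apply ContinuousOn.intervalIntegrable
        exact (continuousOn_const.mul hinvc).add (continuousOn_const.mul
          ((hc.comp (continuous_const.mul continuous_id)).norm.pow 2).continuousOn)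
      · intro ξ hξ
        have hpos : 0 < ξ := by linarith [hξ.1]
        rcases le_or_gt (8 * Real.pi * ξ) |θ| with h | h
        · have k1 := h2 θ (s * ξ) hθ0 (by rw [habs, abs_of_pos hpos]; exact h)
          have k2 : ‖hF V θ (s * ξ)‖ ^ 2 / ξ ≤ (C2 / |θ|) ^ 2 * ξ⁻¹ := by
            rw [div_eq_mul_inv]
            exact mul_le_mul_of_nonneg_right (pow_le_pow_left₀ (norm_nonneg _) k1 2) (by positivity)
          have k3 : 0 ≤ 8 * Real.pi / |θ| * ‖hF V θ (s * ξ)‖ ^ 2 := by positivity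
          linarith
        · have k2 : ‖hF V θ (s * ξ)‖ ^ 2 / ξ ≤ 8 * Real.pi / |θ| * ‖hF V θ (s * ξ)‖ ^ 2 := by
            rw [div_eq_mul_inv, mul_comm]
            apply mul_le_mul_of_nonneg_right _ (by positivity)
            rw [inv_eq_one_div, div_le_div_iff₀ hpos hθ0]
            linarith
          have k3 : 0 ≤ (C2 / |θ|) ^ 2 * ξ⁻¹ := by positivity
          linarith
    have hg2 : Continuous (fun ξ : ℝ => 8 * Real.pi / |θ| * ‖hF V θ (s * ξ)‖ ^ 2) :=
      continuous_const.mul ((hc.comp (continuous_const.mul continuous_id)).norm.pow 2)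
    rw [intervalIntegral.integral_add (hinvc.intervalIntegrable.const_mul _)
      (hg2.intervalIntegrable _ _), intervalIntegral.integral_const_mul, intervalIntegral.integral_const_mul, hinv] at e1
    have e2 : ∫ ξ in (1 : ℝ)..X, ‖hF V θ (s * ξ)‖ ^ 2 ≤ C3 :=
      lms_int (fun ξ => ‖hF V θ ξ‖ ^ 2) C3 (fun x => by positivity) hi hint X s hX hs
    have e3 : (∫ ξ in (1 : ℝ)..X, ‖hF V θ (s * ξ)‖ ^ 2 / ξ) ≤
        (C2 ^ 2 * Real.log X + 8 * Real.pi * C3) / |θ| := by
      refine e1.trans ?_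
      rw [add_div]
      apply add_le_add
      · rw [div_pow, div_mul_eq_mul_div, div_le_div_iff₀ (by positivity) hθ0]
        have : |θ| ≤ |θ| ^ 2 := by nlinarith
        exact mul_le_mul_of_nonneg_left this (by positivity)
      · rw [div_mul_eq_mul_div]
        apply div_le_div_of_nonneg_right _ hθ0.le
        exact mul_le_mul_of_nonneg_left e2 (by positivity)
    calc (∫ ξ in (1 : ℝ)..X, ‖hF V θ (s * ξ)‖ ^ 2 / ξ) * (1 + |θ|)
        ≤ (C2 ^ 2 * Real.log X + 8 * Real.pi * C3) / |θ| * (2 * |θ|) := by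
          apply mul_le_mul e3 (by linarith) hden.le (by positivity)
      _ = 2 * (C2 ^ 2 * Real.log X + 8 * Real.pi * C3) := by
          field_simp
      _ ≤ 2 * (C1 ^ 2 + C2 ^ 2 + 8 * Real.pi * C3) * (1 + Real.log X) := by
          have k1 : 0 ≤ C1 ^ 2 * (1 + Real.log X) := by positivity
          have k2 : 0 ≤ 8 * Real.pi * C3 * Real.log X := by positivity
          nlinarith [sq_nonneg C2]

end Pool.Agent.CA.LC
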