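import Pool.Agent.Lib.MP_d610d0_nt.CA.LC.Stm

set_option autoImplicit false

/-!
Project CA, section LC, piece o1: Fourier integral without stationary point, large `ξ`.
-/

namespace Pool.Agent.CA.LC

open Finset Filter
open scoped ContDiff
open Pool.Agent.CH.V (pz ex)

/-- the exponential -/
private noncomputable def o1_E (θ ξ u : ℝ) : ℂ := pz (-θ) u * ex (-(ξ * u))

private theorem o1_norm_E (θ ξ u : ℝ) : ‖o1_E θ ξ u‖ = 1 := by
  unfold o1_E pz ex
  rw [norm_mul, Complex.norm_exp, Complex.norm_exp]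
  have h1 : (-(Complex.I * ((-θ * Real.log u : ℝ) : ℂ))).re = 0 := by
    rw [Complex.neg_re, Complex.I_mul_re, Complex.ofReal_im]; simp
  have h2 : (2 * Real.pi * Complex.I * ((-(ξ * u) : ℝ) : ℂ)).re = 0 := by
    have h3 : (2 * Real.pi * Complex.I * ((-(ξ * u) : ℝ) : ℂ)) =
        Complex.I * ((2 * Real.pi * (-(ξ * u)) : ℝ) : ℂ) := by push_cast; ring
    rw [h3, Complex.I_mul_re, Complex.ofReal_im, neg_zero]
  rw [h1, h2, Real.exp_zero, mul_one]

private theorem o1_deriv_E (θ ξ u : ℝ) (hu : 0 < u) : HasDerivAt (o1_E θ ξ)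
    (Complex.I * (((θ - 2 * Real.pi * ξ * u) / u : ℝ) : ℂ) * o1_E θ ξ u) u := by
  have hl : HasDerivAt (fun u : ℝ => ((-θ * Real.log u : ℝ) : ℂ)) ((-θ * u⁻¹ : ℝ) : ℂ) u :=
    ((Real.hasDerivAt_log hu.ne').const_mul (-θ)).ofReal_comp
  have hx : HasDerivAt (fun u : ℝ => ((-(ξ * u) : ℝ) : ℂ)) ((-(ξ * 1) : ℝ) : ℂ) u :=
    (((hasDerivAt_id u).const_mul ξ).neg).ofReal_comp
  have h1 : HasDerivAt (fun u : ℝ => pz (-θ) u)
      (pz (-θ) u * (-(Complex.I * ((-θ * u⁻¹ : ℝ) : ℂ)))) u := by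
    unfold pz
    exact ((hl.const_mul Complex.I).neg).cexp
  have h2 : HasDerivAt (fun u : ℝ => ex (-(ξ * u)))
      (ex (-(ξ * u)) * (2 * Real.pi * Complex.I * ((-(ξ * 1) : ℝ) : ℂ))) u := by
    unfold ex
    exact (hx.const_mul (2 * Real.pi * Complex.I)).cexp
  have h3 := h1.mul h2
  refine h3.congr_deriv ?_
  unfold o1_E
  have hu' : (u : ℂ) ≠ 0 := by exact_mod_cast hu.ne'
  push_cast
  field_simp
  ring

private theorem o1_ibp (θ ξ : ℝ) (U g g' : ℝ → ℝ)
    (hg : ∀ u ∈ Set.Icc (1 / 4 : ℝ) 4, HasDerivAt g (g' u) u)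
    (hU : ∀ u ∈ Set.Icc (1 / 4 : ℝ) 4, g u * ((θ - 2 * Real.pi * ξ * u) / u) = U u)
    (hc : ContinuousOn g' (Set.Icc (1 / 4 : ℝ) 4)) (h1 : g (1 / 4) = 0) (h2 : g 4 = 0) :
    ∫ u in (1 / 4 : ℝ)..4, (U u : ℂ) * o1_E θ ξ u =
      Complex.I * ∫ u in (1 / 4 : ℝ)..4, (g' u : ℂ) * o1_E θ ξ u := by
  have hI : Set.uIcc (1 / 4 : ℝ) 4 = Set.Icc (1 / 4 : ℝ) 4 := Set.uIcc_of_le (by norm_num)
  have hE : ContinuousOn (o1_E θ ξ) (Set.Icc (1 / 4 : ℝ) 4) := by
    intro u hu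
    have hu0 : 0 < u := lt_of_lt_of_le (by norm_num) hu.1
    exact (o1_deriv_E θ ξ u hu0).continuousAt.continuousWithinAt
  have hgc : ContinuousOn g (Set.Icc (1 / 4 : ℝ) 4) :=
    fun u hu => (hg u hu).continuousAt.continuousWithinAt
  have hUc : ContinuousOn U (Set.Icc (1 / 4 : ℝ) 4) := by
    have h3 : ContinuousOn (fun u : ℝ => g u * ((θ - 2 * Real.pi * ξ * u) / u))
        (Set.Icc (1 / 4 : ℝ) 4) := by
      refine hgc.mul ((by fun_prop : Continuous fun u : ℝ => θ - 2 * Real.pi * ξ * u).continuousOn.div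
        continuousOn_id ?_)
      intro u hu
      have hu0 : 0 < u := lt_of_lt_of_le (by norm_num) hu.1
      exact hu0.ne'
    exact h3.congr fun u hu => (hU u hu).symm
  have i1 : IntervalIntegrable (fun u : ℝ => (g' u : ℂ) * o1_E θ ξ u) MeasureTheory.volume
      (1 / 4) 4 := by
    apply ContinuousOn.intervalIntegrable
    rw [hI]
    exact (Complex.continuous_ofReal.comp_continuousOn hc).mul hE
  have i2 : IntervalIntegrable (fun u : ℝ => (U u : ℂ) * o1_E θ ξ u) MeasureTheory.volume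
      (1 / 4) 4 := by
    apply ContinuousOn.intervalIntegrable
    rw [hI]
    exact (Complex.continuous_ofReal.comp_continuousOn hUc).mul hE
  have hF : ∀ u ∈ Set.uIcc (1 / 4 : ℝ) 4, HasDerivAt (fun u : ℝ => (g u : ℂ) * o1_E θ ξ u)
      ((g' u : ℂ) * o1_E θ ξ u + Complex.I * ((U u : ℂ) * o1_E θ ξ u)) u := by
    intro u hu
    rw [hI] at hu
    have hu0 : 0 < u := lt_of_lt_of_le (by norm_num) hu.1
    have h3 := ((hg u hu).ofReal_comp).mul (o1_deriv_E θ ξ u hu0)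
    refine h3.congr_deriv ?_
    rw [← hU u hu]
    push_cast
    ring
  have h4 := intervalIntegral.integral_eq_sub_of_hasDerivAt hF (i1.add (i2.const_mul Complex.I))
  rw [intervalIntegral.integral_add i1 (i2.const_mul Complex.I),
    intervalIntegral.integral_const_mul, h1, h2] at h4
  have h5 : (∫ u in (1 / 4 : ℝ)..4, (g' u : ℂ) * o1_E θ ξ u) +
      Complex.I * ∫ u in (1 / 4 : ℝ)..4, (U u : ℂ) * o1_E θ ξ u = 0 := by
    rw [h4]; simp
  linear_combination (-Complex.I) * h5 + (∫ u in (1 / 4 : ℝ)..4, (U u : ℂ) * o1_E θ ξ u) *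
    Complex.I_mul_I

/-- the integral over the line is the integral over `[1/4, 4]` -/
private theorem o1_hF (V : ℝ → ℝ) (hV : Vsm V) (θ ξ : ℝ) :
    hF V θ ξ = ∫ u in (1 / 4 : ℝ)..4, (V u : ℂ) * o1_E θ ξ u := by
  unfold hF
  rw [intervalIntegral.integral_of_le (by norm_num)]
  rw [MeasureTheory.setIntegral_eq_integral_of_forall_compl_eq_zero]
  · refine MeasureTheory.integral_congr_ae (Filter.Eventually.of_forall fun u => ?_)
    unfold o1_E
    ring
  · intro u hu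
    have h0 : V u = 0 := by
      by_contra h
      obtain ⟨h1, h2⟩ := hV.sp u h
      exact hu ⟨by linarith, by linarith⟩
    rw [h0]
    simp

private theorem o1_bdd (f : ℝ → ℝ) (hf : Continuous f) :
    ∃ B : ℝ, ∀ u ∈ Set.Icc (1 / 4 : ℝ) 4, |f u| ≤ B := by
  obtain ⟨B, hB⟩ := (isCompact_Icc (a := (1 / 4 : ℝ)) (b := 4)).exists_bound_of_continuousOn
    hf.continuousOn
  exact ⟨B, fun u hu => hB u hu⟩

theorem p_o1 : S_o1 := by
  intro V hV
  -- the functions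
  have hid : ContDiff ℝ ∞ (fun u : ℝ => u) := contDiff_id
  have hP : ContDiff ℝ ∞ (fun u : ℝ => u * V u) := hid.mul hV.sm
  have hP1 : ContDiff ℝ ∞ (deriv fun u : ℝ => u * V u) := by
    have := (contDiff_infty_iff_deriv.mp hP).2
    exact this
  obtain ⟨P, hPdef⟩ : ∃ P : ℝ → ℝ, P = fun u : ℝ => u * V u := ⟨_, rfl⟩
  obtain ⟨P1, hP1def⟩ : ∃ P1 : ℝ → ℝ, P1 = deriv P := ⟨_, rfl⟩
  rw [← hPdef] at hP hP1
  rw [← hP1def] at hP1
  have hb : ContDiff ℝ ∞ (fun u : ℝ => u * P1 u) := hid.mul hP1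
  have hc : ContDiff ℝ ∞ (fun u : ℝ => u * P u) := hid.mul hP
  obtain ⟨b, hbdef⟩ : ∃ b : ℝ → ℝ, b = fun u : ℝ => u * P1 u := ⟨_, rfl⟩
  obtain ⟨c, hcdef⟩ : ∃ c : ℝ → ℝ, c = fun u : ℝ => u * P u := ⟨_, rfl⟩
  rw [← hbdef] at hb
  rw [← hcdef] at hc
  have hb1 : ContDiff ℝ ∞ (deriv b) := (contDiff_infty_iff_deriv.mp hb).2
  have hc1 : ContDiff ℝ ∞ (deriv c) := (contDiff_infty_iff_deriv.mp hc).2
  have dP : ∀ u, HasDerivAt P (P1 u) u := fun u => by
    rw [hP1def]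
    exact (hP.differentiable (by simp) u).hasDerivAt
  have db : ∀ u, HasDerivAt b (deriv b u) u := fun u =>
    (hb.differentiable (by simp) u).hasDerivAt
  have dc : ∀ u, HasDerivAt c (deriv c u) u := fun u =>
    (hc.differentiable (by simp) u).hasDerivAt
  -- vanishing
  have hV0 : ∀ u, u < 1 / 2 ∨ 2 < u → V u = 0 := by
    intro u hu
    by_contra h
    obtain ⟨h1, h2⟩ := hV.sp u h
    rcases hu with h | h
    · linarith
    · linarith
  have hP0 : ∀ u, u < 1 / 2 ∨ 2 < u → P u = 0 := by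
    intro u hu
    rw [hPdef]
    show u * V u = 0
    rw [hV0 u hu, mul_zero]
  have hP1a : P1 (1 / 4) = 0 := by
    have h1 : P =ᶠ[nhds (1 / 4)] fun _ => 0 := by
      filter_upwards [Iio_mem_nhds (show (1 / 4 : ℝ) < 1 / 2 by norm_num)] with u hu
      exact hP0 u (Or.inl hu)
    rw [hP1def, h1.deriv_eq, deriv_const]
  have hP1b : P1 4 = 0 := by
    have h1 : P =ᶠ[nhds 4] fun _ => 0 := by
      filter_upwards [Ioi_mem_nhds (show (2 : ℝ) < 4 by norm_num)] with u hu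
      exact hP0 u (Or.inr hu)
    rw [hP1def, h1.deriv_eq, deriv_const]
  -- bounds
  obtain ⟨B1, hB1⟩ := o1_bdd b hb.continuous
  obtain ⟨B2, hB2⟩ := o1_bdd c hc.continuous
  obtain ⟨B3, hB3⟩ := o1_bdd (deriv b) hb1.continuous
  obtain ⟨B4, hB4⟩ := o1_bdd (deriv c) hc1.continuous
  obtain ⟨B, hBdef⟩ : ∃ B : ℝ, B = |B1| + |B2| + |B3| + |B4| + 1 := ⟨_, rfl⟩
  have hBpos : 0 < B := by rw [hBdef]; positivity
  have hBb : ∀ u ∈ Set.Icc (1 / 4 : ℝ) 4, |b u| ≤ B := fun u hu => by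
    have := hB1 u hu
    have h1 := le_abs_self B1
    rw [hBdef]
    linarith [abs_nonneg B2, abs_nonneg B3, abs_nonneg B4]
  have hBc : ∀ u ∈ Set.Icc (1 / 4 : ℝ) 4, |c u| ≤ B := fun u hu => by
    have := hB2 u hu
    have h1 := le_abs_self B2
    rw [hBdef]
    linarith [abs_nonneg B1, abs_nonneg B3, abs_nonneg B4]
  have hBb1 : ∀ u ∈ Set.Icc (1 / 4 : ℝ) 4, |deriv b u| ≤ B := fun u hu => by
    have := hB3 u hu
    have h1 := le_abs_self B3
    rw [hBdef]
    linarith [abs_nonneg B1, abs_nonneg B2, abs_nonneg B4]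
  have hBc1 : ∀ u ∈ Set.Icc (1 / 4 : ℝ) 4, |deriv c u| ≤ B := fun u hu => by
    have := hB4 u hu
    have h1 := le_abs_self B4
    rw [hBdef]
    linarith [abs_nonneg B1, abs_nonneg B2, abs_nonneg B3]
  refine ⟨(320 * B + 24 * 34 * 16 * B) * (15 / 4), by positivity, ?_⟩
  intro θ ξ hξ hθ
  obtain ⟨D, hD⟩ : ∃ D : ℝ → ℝ, D = fun u => θ - 2 * Real.pi * ξ * u := ⟨_, rfl⟩
  have hDu : ∀ u, D u = θ - 2 * Real.pi * ξ * u := fun u => by rw [hD]
  have hξ0 : 0 < |ξ| := by linarith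
  have hpi := Real.pi_gt_three
  have hpi4 := Real.pi_lt_four
  have hpi' := Real.pi_gt_d2
  have hpi'' := Real.pi_lt_d2
  have hDlow : ∀ u ∈ Set.Icc (1 / 4 : ℝ) 4, |ξ| / 2 ≤ |D u| := by
    intro u hu
    rw [hDu]
    have h1 : |2 * Real.pi * ξ * u| = 2 * Real.pi * |ξ| * u := by
      rw [abs_mul, abs_mul, abs_mul, abs_of_pos (by norm_num : (0 : ℝ) < 2),
        abs_of_pos Real.pi_pos, abs_of_pos (lt_of_lt_of_le (by norm_num) hu.1)]
    have h2 := abs_sub_abs_le_abs_sub (2 * Real.pi * ξ * u) θ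
    rw [abs_sub_comm, h1] at h2
    have h3 : 2 * Real.pi * |ξ| * (1 / 4) ≤ 2 * Real.pi * |ξ| * u :=
      mul_le_mul_of_nonneg_left hu.1 (by positivity)
    have h4 : 3.14 * |ξ| ≤ Real.pi * |ξ| := mul_le_mul_of_nonneg_right hpi'.le hξ0.le
    linarith
  have hDup : ∀ u ∈ Set.Icc (1 / 4 : ℝ) 4, |D u| ≤ 27 * |ξ| := by
    intro u hu
    rw [hDu]
    have h1 : |2 * Real.pi * ξ * u| = 2 * Real.pi * |ξ| * u := by
      rw [abs_mul, abs_mul, abs_mul, abs_of_pos (by norm_num : (0 : ℝ) < 2),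
        abs_of_pos Real.pi_pos, abs_of_pos (lt_of_lt_of_le (by norm_num) hu.1)]
    have h2 := abs_sub θ (2 * Real.pi * ξ * u)
    rw [h1] at h2
    have h3 : 2 * Real.pi * |ξ| * u ≤ 2 * Real.pi * |ξ| * 4 :=
      mul_le_mul_of_nonneg_left hu.2 (by positivity)
    have h4 : Real.pi * |ξ| ≤ 3.15 * |ξ| := mul_le_mul_of_nonneg_right hpi''.le hξ0.le
    linarith
  have hD0 : ∀ u ∈ Set.Icc (1 / 4 : ℝ) 4, D u ≠ 0 := by
    intro u hu h
    have := hDlow u hu
    rw [h, abs_zero] at this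
    linarith
  have dD : ∀ u, HasDerivAt D (-(2 * Real.pi * ξ)) u := by
    intro u
    rw [hD]
    have h1 := ((hasDerivAt_id u).const_mul (2 * Real.pi * ξ)).const_sub θ
    refine h1.congr_deriv ?_
    ring
  have hDc : Continuous D := by
    rw [hD]; fun_prop
  -- first integration by parts
  have hPc : Continuous P := hP.continuous
  have hP1c : Continuous P1 := hP1.continuous
  have s1 := o1_ibp θ ξ V (fun u => P u / D u)
    (fun u => (P1 u * D u - P u * (-(2 * Real.pi * ξ))) / D u ^ 2)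
    (fun u hu => (dP u).div (dD u) (hD0 u hu))
    (fun u hu => by
      have hu0 : u ≠ 0 := (lt_of_lt_of_le (by norm_num) hu.1).ne'
      have h1 := hD0 u hu
      show P u / D u * ((θ - 2 * Real.pi * ξ * u) / u) = V u
      rw [← hDu, hPdef]
      field_simp)
    (by
      refine ContinuousOn.div (by fun_prop) (by fun_prop) ?_
      intro u hu
      exact pow_ne_zero _ (hD0 u hu))
    (by
      show P (1 / 4) / D (1 / 4) = 0
      rw [hP0 _ (Or.inl (by norm_num)), zero_div])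
    (by
      show P 4 / D 4 = 0
      rw [hP0 _ (Or.inr (by norm_num)), zero_div])
  -- second integration by parts
  obtain ⟨N, hN⟩ : ∃ N : ℝ → ℝ, N = fun u => b u * D u + 2 * Real.pi * ξ * c u := ⟨_, rfl⟩
  obtain ⟨N1, hN1⟩ : ∃ N1 : ℝ → ℝ, N1 = fun u => deriv b u * D u + b u * (-(2 * Real.pi * ξ)) +
    2 * Real.pi * ξ * deriv c u := ⟨_, rfl⟩
  have dN : ∀ u, HasDerivAt N (N1 u) u := by
    intro u
    rw [hN, hN1]
    exact ((db u).mul (dD u)).add ((dc u).const_mul (2 * Real.pi * ξ))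
  have dD3 : ∀ u, HasDerivAt (fun u => D u ^ 3) (3 * D u ^ 2 * (-(2 * Real.pi * ξ))) u := by
    intro u
    have h1 := (dD u).pow 3
    refine h1.congr_deriv ?_
    norm_num
  have hbc : Continuous b := hb.continuous
  have hcc : Continuous c := hc.continuous
  have hb1c : Continuous (deriv b) := hb1.continuous
  have hc1c : Continuous (deriv c) := hc1.continuous
  have hNc : Continuous N := by rw [hN]; fun_prop
  have hN1c : Continuous N1 := by rw [hN1]; fun_prop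
  have s2 := o1_ibp θ ξ (fun u => (P1 u * D u - P u * (-(2 * Real.pi * ξ))) / D u ^ 2)
    (fun u => N u / D u ^ 3)
    (fun u => (N1 u * D u ^ 3 - N u * (3 * D u ^ 2 * (-(2 * Real.pi * ξ)))) / (D u ^ 3) ^ 2)
    (fun u hu => (dN u).div (dD3 u) (pow_ne_zero _ (hD0 u hu)))
    (fun u hu => by
      have hu0 : u ≠ 0 := (lt_of_lt_of_le (by norm_num) hu.1).ne'
      have h1 := hD0 u hu
      show N u / D u ^ 3 * ((θ - 2 * Real.pi * ξ * u) / u) = _
      rw [← hDu, hN, hbdef, hcdef]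
      field_simp
      ring)
    (by
      refine ContinuousOn.div (by fun_prop) (by fun_prop) ?_
      intro u hu
      exact pow_ne_zero _ (pow_ne_zero _ (hD0 u hu)))
    (by
      show N (1 / 4) / D (1 / 4) ^ 3 = 0
      rw [hN, hbdef, hcdef]
      simp only [hP1a, hP0 (1 / 4) (Or.inl (by norm_num))]
      simp)
    (by
      show N 4 / D 4 ^ 3 = 0
      rw [hN, hbdef, hcdef]
      simp only [hP1b, hP0 4 (Or.inr (by norm_num))]
      simp)
  rw [o1_hF V hV, s1, s2, norm_mul, norm_mul, Complex.norm_I, one_mul, one_mul]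
  -- the bound
  have hbound : ∀ u ∈ Set.uIoc (1 / 4 : ℝ) 4,
      ‖(((N1 u * D u ^ 3 - N u * (3 * D u ^ 2 * (-(2 * Real.pi * ξ)))) / (D u ^ 3) ^ 2 : ℝ) : ℂ) *
        o1_E θ ξ u‖ ≤ (320 * B + 24 * 34 * 16 * B) / ξ ^ 2 := by
    intro u hu
    rw [Set.uIoc_of_le (by norm_num)] at hu
    have hu' : u ∈ Set.Icc (1 / 4 : ℝ) 4 := ⟨hu.1.le, hu.2⟩
    rw [norm_mul, o1_norm_E, mul_one, Complex.norm_real, Real.norm_eq_abs]
    have h1 := hD0 u hu'
    have h2 : (N1 u * D u ^ 3 - N u * (3 * D u ^ 2 * (-(2 * Real.pi * ξ)))) / (D u ^ 3) ^ 2 =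
        N1 u / D u ^ 3 + 6 * Real.pi * ξ * N u / D u ^ 4 := by
      field_simp
      ring
    rw [h2]
    have hNb : |N u| ≤ 34 * B * |ξ| := by
      rw [hN]
      have h3 := abs_add_le (b u * D u) (2 * Real.pi * ξ * c u)
      have h4 : |b u * D u| ≤ B * (27 * |ξ|) := by
        rw [abs_mul]
        exact mul_le_mul (hBb u hu') (hDup u hu') (abs_nonneg _) hBpos.le
      have h5 : |2 * Real.pi * ξ * c u| ≤ 7 * |ξ| * B := by
        rw [abs_mul, abs_mul, abs_mul, abs_of_pos (by norm_num : (0 : ℝ) < 2),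
          abs_of_pos Real.pi_pos]
        refine mul_le_mul ?_ (hBc u hu') (abs_nonneg _) (by positivity)
        exact mul_le_mul_of_nonneg_right (by linarith) hξ0.le
      calc |b u * D u + 2 * Real.pi * ξ * c u| ≤ _ := h3
        _ ≤ B * (27 * |ξ|) + 7 * |ξ| * B := add_le_add h4 h5
        _ = 34 * B * |ξ| := by ring
    have hN1b : |N1 u| ≤ 41 * B * |ξ| := by
      rw [hN1]
      have h3 := abs_add_le (deriv b u * D u + b u * (-(2 * Real.pi * ξ)))
        (2 * Real.pi * ξ * deriv c u)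
      have h3' := abs_add_le (deriv b u * D u) (b u * (-(2 * Real.pi * ξ)))
      have h4 : |deriv b u * D u| ≤ B * (27 * |ξ|) := by
        rw [abs_mul]
        exact mul_le_mul (hBb1 u hu') (hDup u hu') (abs_nonneg _) hBpos.le
      have h5 : |2 * Real.pi * ξ * deriv c u| ≤ 7 * |ξ| * B := by
        rw [abs_mul, abs_mul, abs_mul, abs_of_pos (by norm_num : (0 : ℝ) < 2),
          abs_of_pos Real.pi_pos]
        refine mul_le_mul ?_ (hBc1 u hu') (abs_nonneg _) (by positivity)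
        exact mul_le_mul_of_nonneg_right (by linarith) hξ0.le
      have h6 : |b u * (-(2 * Real.pi * ξ))| ≤ B * (7 * |ξ|) := by
        rw [abs_mul, abs_neg, abs_mul, abs_mul, abs_of_pos (by norm_num : (0 : ℝ) < 2),
          abs_of_pos Real.pi_pos]
        refine mul_le_mul (hBb u hu') ?_ (by positivity) hBpos.le
        exact mul_le_mul_of_nonneg_right (by linarith) hξ0.le
      calc |deriv b u * D u + b u * (-(2 * Real.pi * ξ)) + 2 * Real.pi * ξ * deriv c u| ≤ _ := h3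
        _ ≤ (B * (27 * |ξ|) + B * (7 * |ξ|)) + 7 * |ξ| * B :=
          add_le_add (h3'.trans (add_le_add h4 h6)) h5
        _ = 41 * B * |ξ| := by ring
    have hlow := hDlow u hu'
    have hD3 : (|ξ| / 2) ^ 3 ≤ |D u| ^ 3 := pow_le_pow_left₀ (by positivity) hlow 3
    have hD4 : (|ξ| / 2) ^ 4 ≤ |D u| ^ 4 := pow_le_pow_left₀ (by positivity) hlow 4
    have t1 : |N1 u / D u ^ 3| ≤ 328 * B / ξ ^ 2 := by
      rw [abs_div, abs_pow, ← sq_abs ξ]
      calc |N1 u| / |D u| ^ 3 ≤ (41 * B * |ξ|) / (|ξ| / 2) ^ 3 :=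
            div_le_div₀ (by positivity) hN1b (by positivity) hD3
        _ = 328 * B / |ξ| ^ 2 := by field_simp; ring
    have t2 : |6 * Real.pi * ξ * N u / D u ^ 4| ≤ 24 * 34 * 16 * B / ξ ^ 2 - 8 * B / ξ ^ 2 := by
      rw [abs_div, abs_pow, abs_mul, abs_mul, abs_mul, abs_of_pos (by norm_num : (0 : ℝ) < 6),
        abs_of_pos Real.pi_pos, ← sq_abs ξ]
      have h7 : 6 * Real.pi * |ξ| * |N u| ≤ 19 * |ξ| * (34 * B * |ξ|) := by
        refine mul_le_mul ?_ hNb (abs_nonneg _) (by positivity)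
        exact mul_le_mul_of_nonneg_right (by linarith) hξ0.le
      calc 6 * Real.pi * |ξ| * |N u| / |D u| ^ 4 ≤
          (19 * |ξ| * (34 * B * |ξ|)) / (|ξ| / 2) ^ 4 :=
            div_le_div₀ (by positivity) h7 (by positivity) hD4
        _ = 19 * 34 * 16 * B / |ξ| ^ 2 := by field_simp; ring
        _ ≤ 24 * 34 * 16 * B / |ξ| ^ 2 - 8 * B / |ξ| ^ 2 := by
          rw [← sub_div]
          apply div_le_div_of_nonneg_right _ (by positivity)
          linarith
    calc |N1 u / D u ^ 3 + 6 * Real.pi * ξ * N u / D u ^ 4| ≤ _ := abs_add_le _ _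
      _ ≤ 328 * B / ξ ^ 2 + (24 * 34 * 16 * B / ξ ^ 2 - 8 * B / ξ ^ 2) := add_le_add t1 t2
      _ = (320 * B + 24 * 34 * 16 * B) / ξ ^ 2 := by ring
  have hfin := intervalIntegral.norm_integral_le_of_norm_le_const hbound
  refine hfin.trans (le_of_eq ?_)
  rw [abs_of_pos (by norm_num)]
  ring

end Pool.Agent.CA.LC
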