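import Pool.Agent.Lib.MP_d610d0_nt.CA.LC.Stm

/-!
Project CA, section LC, piece pla: `hF V θ` is the Fourier transform of a Schwartz function; Plancherel.
-/

set_option autoImplicit false

namespace Pool.Agent.CA.LC

open MeasureTheory
open scoped ContDiff FourierTransform SchwartzMap
open Pool.Agent.CH.V (pz ex)

theorem pla_norm_pz (t x : ℝ) : ‖pz t x‖ = 1 := by
  unfold pz
  rw [show -(Complex.I * ((t * Real.log x : ℝ) : ℂ)) =
    ((-(t * Real.log x) : ℝ) : ℂ) * Complex.I by push_cast; ring, Complex.norm_exp_ofReal_mul_I]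

/-- `V(u) u^(iθ)` -/
noncomputable def pla_G (V : ℝ → ℝ) (θ u : ℝ) : ℂ := (V u : ℂ) * pz (-θ) u

theorem pla_smooth {V : ℝ → ℝ} (hV : Vsm V) (θ : ℝ) : ContDiff ℝ ∞ (pla_G V θ) := by
  rw [contDiff_iff_contDiffAt]
  intro u
  by_cases hu : u = 0
  · have h0 : pla_G V θ =ᶠ[nhds u] fun _ => 0 := by
      filter_upwards [Iio_mem_nhds (show u < 1 / 2 by rw [hu]; norm_num)] with x hx
      have hx0 : V x = 0 := by
        by_contra h
        exact absurd (hV.sp x h).1 (not_le.2 hx)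
      unfold pla_G
      rw [hx0, Complex.ofReal_zero, zero_mul]
    exact contDiffAt_const.congr_of_eventuallyEq h0
  · unfold pla_G pz
    apply ContDiffAt.mul
    · exact Complex.ofRealCLM.contDiff.contDiffAt.comp u hV.sm.contDiffAt
    · apply ContDiffAt.cexp
      apply ContDiffAt.neg
      apply contDiffAt_const.mul
      exact Complex.ofRealCLM.contDiff.contDiffAt.comp u
        (contDiffAt_const.mul (Real.contDiffAt_log.2 hu))

theorem pla_compact {V : ℝ → ℝ} (hV : Vsm V) (θ : ℝ) : HasCompactSupport (pla_G V θ) := by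
  apply HasCompactSupport.of_support_subset_isCompact (isCompact_Icc : IsCompact (Set.Icc (1 / 2 : ℝ) 2))
  intro x hx
  apply hV.sp x
  intro h
  apply hx
  unfold pla_G
  rw [h, Complex.ofReal_zero, zero_mul]

/-- `V(u) u^(iθ)` as a Schwartz function -/
noncomputable def pla_S {V : ℝ → ℝ} (hV : Vsm V) (θ : ℝ) : 𝓢(ℝ, ℂ) :=
  (pla_compact hV θ).toSchwartzMap (pla_smooth hV θ)

theorem pla_hF {V : ℝ → ℝ} (hV : Vsm V) (θ ξ : ℝ) : hF V θ ξ = 𝓕 (pla_S hV θ) ξ := by
  rw [SchwartzMap.fourier_coe, Real.fourier_real_eq_integral_exp_smul]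
  unfold hF
  apply integral_congr_ae
  refine Filter.Eventually.of_forall fun u => ?_
  show (V u : ℂ) * pz (-θ) u * ex (-(ξ * u)) =
    Complex.exp (↑(-2 * Real.pi * u * ξ) * Complex.I) • pla_G V θ u
  have e : ex (-(ξ * u)) = Complex.exp (↑(-2 * Real.pi * u * ξ) * Complex.I) := by
    unfold ex
    congr 1
    push_cast
    ring
  rw [smul_eq_mul, e, mul_comm]
  rfl

theorem p_pla : S_pla := by
  intro V hV
  have h0 : 0 ≤ ∫ u : ℝ, |V u| ^ 2 := integral_nonneg fun u => by positivity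
  refine ⟨(∫ u : ℝ, |V u| ^ 2) + 1, by linarith, ?_⟩
  intro θ
  have h1 : hF V θ = fun ξ => 𝓕 (pla_S hV θ) ξ := funext fun ξ => pla_hF hV θ ξ
  rw [h1]
  refine ⟨(𝓕 (pla_S hV θ)).continuous, ?_, ?_⟩
  · have h2 := (𝓕 (pla_S hV θ)).memLp 2 volume
    exact (memLp_two_iff_integrable_sq_norm h2.1).1 h2
  · have h3 := SchwartzMap.integral_norm_sq_fourier (pla_S hV θ)
    have h4 : ∀ u, ‖pla_S hV θ u‖ ^ 2 = |V u| ^ 2 := by
      intro u
      show ‖(V u : ℂ) * pz (-θ) u‖ ^ 2 = |V u| ^ 2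
      rw [norm_mul, pla_norm_pz, mul_one, Complex.norm_real, Real.norm_eq_abs]
    rw [integral_congr_ae (Filter.Eventually.of_forall h4)] at h3
    show ∫ ξ, ‖𝓕 (pla_S hV θ) ξ‖ ^ 2 ≤ _
    rw [h3]
    linarith

end Pool.Agent.CA.LC
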