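import Pool.Agent.Lib.MP_d610d0_nt.CA.LC.Stm

set_option autoImplicit false

/-!
Piece poi: Poisson summation with a primitive character.
-/

namespace Pool.Agent.CA.LC

open Finset Filter
open scoped ContDiff FourierTransform SchwartzMap
open Pool.Agent.CH.V (pz ex)

/-- the smooth function whose Fourier transform is `hF` -/
noncomputable def poi_G (V : ℝ → ℝ) (θ u : ℝ) : ℂ := (V u : ℂ) * pz (-θ) u

lemma poi_G_zero {V : ℝ → ℝ} (hV : Vsm V) (θ u : ℝ) (h : u < 1 / 2 ∨ 2 < u) : poi_G V θ u = 0 := by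
  have h1 : V u = 0 := by
    by_contra h0
    have h2 := hV.sp u h0
    rcases h with h | h
    · linarith [h2.1]
    · linarith [h2.2]
  unfold poi_G
  rw [h1, Complex.ofReal_zero, zero_mul]

lemma poi_G_smooth {V : ℝ → ℝ} (hV : Vsm V) (θ : ℝ) : ContDiff ℝ ∞ (poi_G V θ) := by
  rw [contDiff_iff_contDiffAt]
  intro u
  by_cases hu : u = 0
  · subst hu
    have h : (poi_G V θ) =ᶠ[nhds 0] fun _ => (0 : ℂ) := by
      have h1 : Set.Ioo (-(1 / 4) : ℝ) (1 / 4) ∈ nhds (0 : ℝ) :=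
        Ioo_mem_nhds (by norm_num) (by norm_num)
      filter_upwards [h1] with x hx
      exact poi_G_zero hV θ x (Or.inl (by linarith [hx.2]))
    exact contDiffAt_const.congr_of_eventuallyEq h
  · unfold poi_G pz
    refine ContDiffAt.mul (Complex.ofRealCLM.contDiff.comp hV.sm).contDiffAt ?_
    refine ContDiffAt.cexp (ContDiffAt.neg (ContDiffAt.mul contDiffAt_const ?_))
    exact Complex.ofRealCLM.contDiff.contDiffAt.comp u
      (contDiffAt_const.mul (Real.contDiffAt_log.2 hu))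

lemma poi_g_smooth {V : ℝ → ℝ} (hV : Vsm V) (θ c : ℝ) :
    ContDiff ℝ ∞ (fun x : ℝ => poi_G V θ (x * c)) :=
  (poi_G_smooth hV θ).comp (contDiff_id.mul contDiff_const)

lemma poi_g_supp {V : ℝ → ℝ} (hV : Vsm V) (θ c : ℝ) (hc : 0 < c) :
    HasCompactSupport (fun x : ℝ => poi_G V θ (x * c)) := by
  refine HasCompactSupport.of_support_subset_isCompact
    (isCompact_Icc (a := 1 / 2 / c) (b := 2 / c)) ?_
  intro x hx
  rw [Function.mem_support] at hx
  constructor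
  · rw [div_le_iff₀ hc]
    by_contra h
    exact hx (poi_G_zero hV θ _ (Or.inl (not_le.1 h)))
  · rw [le_div_iff₀ hc]
    by_contra h
    exact hx (poi_G_zero hV θ _ (Or.inr (not_le.1 h)))

/-- the Schwartz function -/
noncomputable def poi_g {V : ℝ → ℝ} (hV : Vsm V) (θ c : ℝ) (hc : 0 < c) : 𝓢(ℝ, ℂ) :=
  (poi_g_supp hV θ c hc).toSchwartzMap (poi_g_smooth hV θ c)

lemma poi_g_apply {V : ℝ → ℝ} (hV : Vsm V) (θ c : ℝ) (hc : 0 < c) (x : ℝ) :
    poi_g hV θ c hc x = poi_G V θ (x * c) := rfl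

lemma poi_F {V : ℝ → ℝ} (hV : Vsm V) (θ c : ℝ) (hc : 0 < c) (y : ℝ) :
    (𝓕 (poi_g hV θ c hc)) y = ((c⁻¹ : ℝ) : ℂ) * hF V θ (y / c) := by
  have h1 : (𝓕 (poi_g hV θ c hc)) y = (𝓕 (fun x : ℝ => poi_G V θ (x * c))) y := rfl
  rw [h1, Real.fourier_real_eq_integral_exp_smul]
  have h2 : (∫ v : ℝ, Complex.exp (↑(-2 * Real.pi * v * y) * Complex.I) • poi_G V θ (v * c)) =
      ∫ v : ℝ, (fun u : ℝ => (V u : ℂ) * pz (-θ) u * ex (-(y / c * u))) (v * c) := by
    congr 1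
    ext v
    simp only [poi_G, ex, smul_eq_mul]
    rw [mul_comm]
    congr 2
    have hc' : (c : ℂ) ≠ 0 := by exact_mod_cast hc.ne'
    push_cast
    field_simp
  rw [h2, MeasureTheory.Measure.integral_comp_mul_right (fun u : ℝ => (V u : ℂ) * pz (-θ) u * ex (-(y / c * u))) c,
    abs_of_pos (inv_pos.2 hc)]
  rw [Complex.real_smul]
  rfl

lemma poi_summ {V : ℝ → ℝ} (hV : Vsm V) (θ c : ℝ) (hc : 0 < c) :
    Summable (fun m : ℤ => ‖hF V θ (m / c)‖) := by
  have h1 : Summable (fun m : ℤ => ‖(𝓕 (poi_g hV θ c hc)) m‖) := by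
    refine Summable.norm ?_
    refine summable_of_isBigO (Real.summable_abs_int_rpow one_lt_two) ?_
    exact ((𝓕 (poi_g hV θ c hc)).isBigO_cocompact_rpow (-2)).comp_tendsto
      Int.tendsto_coe_cofinite
  have h2 : (fun m : ℤ => ‖hF V θ (m / c)‖) =
      fun m : ℤ => c * ‖(𝓕 (poi_g hV θ c hc)) m‖ := by
    ext m
    rw [poi_F, norm_mul, Complex.norm_real, Real.norm_eq_abs, abs_of_pos (inv_pos.2 hc)]
    field_simp
  rw [h2]
  exact h1.mul_left c

/-- one residue class -/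
lemma poi_class {V : ℝ → ℝ} (hV : Vsm V) (θ : ℝ) {N : ℝ} (hN : 0 < N) (r : ℕ) [NeZero r]
    (a : ℕ) :
    ∑' k : ℤ, poi_G V θ (((k * r + a : ℤ) : ℝ) / N) =
      ∑' m : ℤ, ((N / r : ℝ) : ℂ) * hF V θ (m * (N / r)) *
        ZMod.stdAddChar (((a : ℤ) * m : ℤ) : ZMod r) := by
  have hr : (0 : ℝ) < r := by exact_mod_cast Nat.pos_of_ne_zero (NeZero.ne r)
  have hc : 0 < (r : ℝ) / N := div_pos hr hN
  have h1 := SchwartzMap.tsum_eq_tsum_fourier (poi_g hV θ ((r : ℝ) / N) hc) ((a : ℝ) / r)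
  have h2 : ∀ k : ℤ, poi_g hV θ ((r : ℝ) / N) hc ((a : ℝ) / r + k) =
      poi_G V θ (((k * r + a : ℤ) : ℝ) / N) := by
    intro k
    rw [poi_g_apply]
    congr 1
    push_cast
    field_simp
    ring
  have h3 : ∀ m : ℤ, (𝓕 (poi_g hV θ ((r : ℝ) / N) hc)) m *
      (fourier m (((a : ℝ) / r : ℝ) : UnitAddCircle)) =
      ((N / r : ℝ) : ℂ) * hF V θ (m * (N / r)) *
        ZMod.stdAddChar (((a : ℤ) * m : ℤ) : ZMod r) := by
    intro m
    rw [poi_F, fourier_coe_apply, ZMod.stdAddChar_coe]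
    congr 1
    · rw [inv_div, div_div_eq_mul_div, mul_div_assoc]
    · congr 1
      push_cast
      ring
  rw [tsum_congr h2, tsum_congr h3] at h1
  exact h1

lemma poi_gauss {r : ℕ} [NeZero r] (χ : DirichletCharacter ℂ r) (h : χ.IsPrimitive) (m : ℤ) :
    ∑ a ∈ range r, χ (a : ZMod r) * ZMod.stdAddChar (((a : ℤ) * m : ℤ) : ZMod r) =
      χ⁻¹ (m : ZMod r) * gaussSum χ (ZMod.stdAddChar (N := r)) := by
  rw [← gaussSum_mulShift_of_isPrimitive (ZMod.stdAddChar (N := r)) h (m : ZMod r)]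
  unfold gaussSum
  symm
  refine Finset.sum_nbij' (fun a : ZMod r => a.val) (fun a : ℕ => (a : ZMod r)) ?_ ?_ ?_ ?_ ?_
  · intro a _
    exact mem_range.2 (ZMod.val_lt a)
  · intro a _
    exact mem_univ _
  · intro a _
    exact ZMod.natCast_zmod_val a
  · intro a ha
    exact ZMod.val_natCast_of_lt (mem_range.1 ha)
  · intro a _
    rw [AddChar.mulShift_apply]
    have h1 : ((((a.val : ℕ) : ℤ) * m : ℤ) : ZMod r) = (m : ZMod r) * a := by
      push_cast
      rw [ZMod.natCast_zmod_val, mul_comm]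
    rw [h1, ZMod.natCast_zmod_val]

lemma poi_SV {V : ℝ → ℝ} (hV : Vsm V) {r : ℕ} (χ : DirichletCharacter ℂ r) {N : ℝ} (hN : 0 < N)
    (θ : ℝ) :
    SV V χ N θ = pz (-θ) N * ∑' n : ℤ, χ (n : ZMod r) * poi_G V θ (n / N) := by
  have h1 : ∑' n : ℤ, χ (n : ZMod r) * poi_G V θ (n / N) =
      ∑ n ∈ (Icc 1 ⌊2 * N⌋₊).map Nat.castEmbedding,
        χ ((n : ℤ) : ZMod r) * poi_G V θ (n / N) := by
    apply tsum_eq_sum
    intro n hn
    have h2 : poi_G V θ (n / N) = 0 := by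
      apply poi_G_zero hV
      by_contra h
      push Not at h
      obtain ⟨h3, h4⟩ := h
      rw [le_div_iff₀ hN] at h3
      rw [div_le_iff₀ hN] at h4
      have h5 : 0 < (n : ℝ) := lt_of_lt_of_le (by positivity) h3
      have h6 : 0 < n := by exact_mod_cast h5
      obtain ⟨k, rfl⟩ := Int.eq_ofNat_of_zero_le h6.le
      apply hn
      rw [Finset.mem_map]
      refine ⟨k, mem_Icc.2 ⟨by exact_mod_cast h6, Nat.le_floor ?_⟩, rfl⟩
      simpa using h4
    rw [h2, mul_zero]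
  rw [h1, sum_map, mul_sum]
  unfold SV
  refine sum_congr rfl fun n hn => ?_
  have hn1 : 1 ≤ n := (mem_Icc.1 hn).1
  have hn0 : (0 : ℝ) < n := by exact_mod_cast hn1
  have h3 : pz (-θ) n = pz (-θ) N * pz (-θ) (n / N) := by
    unfold pz
    rw [← Complex.exp_add]
    congr 1
    rw [Real.log_div hn0.ne' hN.ne']
    push_cast
    ring
  rw [h3]
  simp only [Nat.castEmbedding_apply, Int.cast_natCast, poi_G]
  ring

lemma poi_split {V : ℝ → ℝ} (hV : Vsm V) {r : ℕ} [NeZero r] (χ : DirichletCharacter ℂ r) {N : ℝ}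
    (hN : 0 < N) (θ : ℝ) :
    ∑' n : ℤ, χ (n : ZMod r) * poi_G V θ (n / N) =
      ∑ a ∈ range r, χ (a : ZMod r) * ∑' k : ℤ, poi_G V θ (((k * r + a : ℤ) : ℝ) / N) := by
  set F : ℤ → ℂ := fun n => χ (n : ZMod r) * poi_G V θ (n / N) with hF
  have hs : Summable F := by
    refine summable_of_ne_finset_zero (s := Finset.Icc 0 ⌈2 * N⌉) ?_
    intro n hn
    have h2 : poi_G V θ (n / N) = 0 := by
      apply poi_G_zero hV
      by_contra h
      push Not at h
      obtain ⟨h3, h4⟩ := h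
      rw [le_div_iff₀ hN] at h3
      rw [div_le_iff₀ hN] at h4
      have h5 : 0 < (n : ℝ) := lt_of_lt_of_le (by positivity) h3
      have h6 : 0 < n := by exact_mod_cast h5
      apply hn
      rw [Finset.mem_Icc]
      refine ⟨h6.le, ?_⟩
      exact_mod_cast h4.trans (Int.le_ceil _)
    rw [hF]
    simp only
    rw [h2, mul_zero]
  set e : Fin r × ℤ ≃ ℤ := (Equiv.prodComm _ _).trans (Int.divModEquiv r).symm with he
  have hs2 : Summable (F ∘ e) := e.summable_iff.2 hs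
  rw [← e.tsum_eq F]
  have h3 : ∑' p : Fin r × ℤ, F (e p) = ∑' (a : Fin r) (k : ℤ), F (e (a, k)) := hs2.tsum_prod
  rw [h3, tsum_fintype, ← Fin.sum_univ_eq_sum_range (fun a : ℕ => χ (a : ZMod r) *
    ∑' k : ℤ, poi_G V θ (((k * r + a : ℤ) : ℝ) / N))]
  refine sum_congr rfl fun a _ => ?_
  rw [← tsum_mul_left]
  refine tsum_congr fun k => ?_
  have h4 : e (a, k) = k * r + ((a : ℕ) : ℤ) := rfl
  rw [h4, hF]
  simp only
  congr 2
  push_cast
  rw [ZMod.natCast_self, mul_zero, zero_add]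

theorem p_poi : S_poi := by
  intro hgs V hV r _ χ hr2 hχ N θ hN
  have hr : (0 : ℝ) < r := by exact_mod_cast Nat.pos_of_ne_zero (NeZero.ne r)
  have hsum : Summable (fun m : ℤ => ‖hF V θ (m * (N / r))‖) := by
    have h1 := poi_summ hV θ ((r : ℝ) / N) (div_pos hr hN)
    have h2 : (fun m : ℤ => ‖hF V θ (m / ((r : ℝ) / N))‖) =
        fun m : ℤ => ‖hF V θ (m * (N / r))‖ := by
      ext m
      congr 2
      field_simp
    rwa [h2] at h1
  refine ⟨hsum, ?_⟩
  have hs1 : ∀ a ∈ range r, Summable (fun m : ℤ => χ (a : ZMod r) *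
      (((N / r : ℝ) : ℂ) * hF V θ (m * (N / r)) *
        ZMod.stdAddChar (((a : ℤ) * m : ℤ) : ZMod r))) := by
    intro a _
    refine Summable.mul_left _ ?_
    refine Summable.of_norm ?_
    refine Summable.of_nonneg_of_le (fun _ => norm_nonneg _) (fun m => ?_)
      (hsum.mul_left (N / r))
    rw [norm_mul, norm_mul, Complex.norm_real, Real.norm_eq_abs, abs_of_pos (div_pos hN hr),
      AddChar.norm_apply, mul_one]
  have h1 : SV V χ N θ = pz (-θ) N * (((N / r : ℝ) : ℂ) * (gaussSum χ (ZMod.stdAddChar (N := r)) *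
      ∑' m : ℤ, χ⁻¹ (m : ZMod r) * hF V θ (m * (N / r)))) := by
    rw [poi_SV hV χ hN θ, poi_split hV χ hN θ]
    congr 1
    have h2 : ∀ a ∈ range r, χ (a : ZMod r) *
        ∑' k : ℤ, poi_G V θ (((k * r + a : ℤ) : ℝ) / N) =
        ∑' m : ℤ, χ (a : ZMod r) * (((N / r : ℝ) : ℂ) * hF V θ (m * (N / r)) *
          ZMod.stdAddChar (((a : ℤ) * m : ℤ) : ZMod r)) := by
      intro a _
      rw [poi_class hV θ hN r a, tsum_mul_left]
    rw [sum_congr rfl h2, ← Summable.tsum_finsetSum hs1, ← tsum_mul_left, ← tsum_mul_left]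
    refine tsum_congr fun m => ?_
    have h3 : ∀ a ∈ range r, χ (a : ZMod r) * (((N / r : ℝ) : ℂ) * hF V θ (m * (N / r)) *
        ZMod.stdAddChar (((a : ℤ) * m : ℤ) : ZMod r)) =
        (((N / r : ℝ) : ℂ) * hF V θ (m * (N / r))) * (χ (a : ZMod r) *
          ZMod.stdAddChar (((a : ℤ) * m : ℤ) : ZMod r)) := by
      intro a _
      ring
    rw [sum_congr rfl h3, ← mul_sum, poi_gauss χ hχ m]
    ring
  have h4 : ‖gaussSum χ (ZMod.stdAddChar (N := r))‖ = Real.sqrt r := by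
    rw [← hgs r χ hχ, Real.sqrt_sq (norm_nonneg _)]
  have h5 : ‖pz (-θ) N‖ = 1 := by
    unfold pz
    rw [Complex.norm_exp]
    simp
  rw [h1, norm_mul, norm_mul, norm_mul, h4, h5, Complex.norm_real, Real.norm_eq_abs,
    abs_of_pos (div_pos hN hr), one_mul, ← mul_assoc]
  congr 1
  have h6 : Real.sqrt r * Real.sqrt r = r := Real.mul_self_sqrt hr.le
  have h7 : 0 < Real.sqrt r := Real.sqrt_pos.2 hr
  field_simp
  nlinarith [h6]

end Pool.Agent.CA.LC
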