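import Pool.Agent.Lib.MP_d610d0_nt.CA.LC.Stm

set_option autoImplicit false

/-!
Project CA, section LC, piece blk: every kind of block is a block.
-/

namespace Pool.Agent.CA.LC

open Pool.Agent.CA

theorem blk_Wd_lo {x : ℝ} (hx : x ≤ 1 / 2) : Wd x = 0 := by
  unfold Wd
  rw [Real.smoothTransition.one_of_one_le (by linarith), Real.smoothTransition.one_of_one_le (by linarith),
    sub_self]

theorem blk_Wd_hi {x : ℝ} (hx : 2 ≤ x) : Wd x = 0 := by
  unfold Wd
  rw [Real.smoothTransition.zero_of_nonpos (by linarith), Real.smoothTransition.zero_of_nonpos (by linarith),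
    sub_self]

theorem blk_Wd_abs (x : ℝ) : |Wd x| ≤ 1 := by
  unfold Wd
  have h1 := Real.smoothTransition.nonneg (2 - x)
  have h2 := Real.smoothTransition.le_one (2 - x)
  have h3 := Real.smoothTransition.nonneg (2 - 2 * x)
  have h4 := Real.smoothTransition.le_one (2 - 2 * x)
  rw [abs_le]
  constructor <;> linarith

theorem blk_Vs_sp {i : Fin 2} {x : ℝ} (h : Vs i x ≠ 0) : 1 / 2 ≤ x ∧ x ≤ 2 := by
  have hW : Wd x ≠ 0 := by
    intro h0
    apply h
    unfold Vs
    rw [h0, zero_mul, ite_self]
  constructor
  · by_contra hc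
    exact hW (blk_Wd_lo (le_of_lt (not_le.1 hc)))
  · by_contra hc
    exact hW (blk_Wd_hi (le_of_lt (not_le.1 hc)))

theorem blk_Vs_abs (i : Fin 2) (x : ℝ) : |Vs i x| ≤ 1 := by
  by_cases h : Vs i x = 0
  · rw [h, abs_zero]; exact zero_le_one
  · obtain ⟨h1, h2⟩ := blk_Vs_sp h
    have hx : 0 < x := by linarith
    unfold Vs
    split_ifs with hi
    · exact blk_Wd_abs x
    · rw [abs_mul]
      have hl : |Real.log x| ≤ 1 := by
        have e2 : Real.log 2 ≤ 1 := by
          have := Real.log_two_lt_d9
          linarith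
        rw [abs_le]
        constructor
        · have h3 : Real.log (1 / 2) ≤ Real.log x := Real.log_le_log (by norm_num) h1
          rw [one_div, Real.log_inv] at h3
          linarith
        · have h3 : Real.log x ≤ Real.log 2 := Real.log_le_log hx h2
          linarith
      calc |Wd x| * |Real.log x| ≤ 1 * 1 :=
            mul_le_mul (blk_Wd_abs x) hl (abs_nonneg _) zero_le_one
        _ = 1 := one_mul 1

theorem p_blk : S_blk := by
  refine ⟨?_, ?_, ?_⟩
  · rintro f N ⟨h1, i, hf⟩
    have hN : 0 < N := by linarith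
    refine ⟨h1, fun n => ?_, fun n hn => ?_⟩
    · rcases Nat.eq_zero_or_pos n with h0 | h0
      · rw [h0, ArithmeticFunction.map_zero, norm_zero]; exact zero_le_one
      · rw [hf n h0, Complex.norm_real]
        exact blk_Vs_abs _ _
    · have h0 : 1 ≤ n := by
        rcases Nat.eq_zero_or_pos n with h0 | h0
        · exfalso; apply hn; rw [h0, ArithmeticFunction.map_zero]
        · exact h0
      have h2 : Vs i (n / N) ≠ 0 := by
        intro h3
        apply hn
        rw [hf n h0, h3, Complex.ofReal_zero]
      obtain ⟨h3, h4⟩ := blk_Vs_sp h2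
      rw [le_div_iff₀ hN] at h3
      rw [div_le_iff₀ hN] at h4
      constructor <;> linarith
  · rintro f N ⟨h1, a, b, ha, hb, hf⟩
    refine ⟨h1, fun n => ?_, fun n hn => ?_⟩
    · rw [hf n]
      split_ifs with h
      · rw [Complex.norm_intCast]
        exact_mod_cast ArithmeticFunction.abs_moebius_le_one
      · rw [norm_zero]; exact zero_le_one
    · rw [hf n] at hn
      have h : a < n ∧ n ≤ b := by
        by_contra hc
        rw [if_neg hc] at hn
        exact hn rfl
      have h2 : (a : ℝ) + 1 ≤ n := by exact_mod_cast h.1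
      have h3 : (n : ℝ) ≤ b := by exact_mod_cast h.2
      constructor <;> linarith
  · rintro f N ⟨h1, a, b, ha, hb, hf⟩
    refine ⟨h1, fun n => ?_, fun n hn => ?_⟩
    · rw [hf n]
      split_ifs with h
      · rw [norm_one]
      · rw [norm_zero]; exact zero_le_one
    · rw [hf n] at hn
      have h : n.Prime ∧ a < n ∧ n ≤ b := by
        by_contra hc
        rw [if_neg hc] at hn
        exact hn rfl
      have h2 : (a : ℝ) + 1 ≤ n := by exact_mod_cast h.2.1
      have h3 : (n : ℝ) ≤ b := by exact_mod_cast h.2.2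
      constructor <;> linarith
end Pool.Agent.CA.LC
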