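import Pool.Agent.Lib.MP_d610d0_nt.CA.LC.Stm

set_option autoImplicit false

/-!
Project CA, section LC: piece vsm (the shapes are smooth).
-/

namespace Pool.Agent.CA.LC

open Finset Filter
open scoped ContDiff Topology
open Pool.Agent.CH.V (pz ex)

theorem vsm_Wd_zero (x : ℝ) (h : x < 1 / 2 ∨ 2 < x) : Wd x = 0 := by
  unfold Wd
  rcases h with h | h
  · rw [Real.smoothTransition.one_of_one_le (by linarith),
      Real.smoothTransition.one_of_one_le (by linarith), sub_self]
  · rw [Real.smoothTransition.zero_of_nonpos (by linarith),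
      Real.smoothTransition.zero_of_nonpos (by linarith), sub_self]

theorem vsm_Wd_smooth : ContDiff ℝ ∞ Wd := by
  unfold Wd
  exact (Real.smoothTransition.contDiff.comp (contDiff_const.sub contDiff_id)).sub
    (Real.smoothTransition.contDiff.comp (contDiff_const.sub (contDiff_const.mul contDiff_id)))

theorem vsm_open (x : ℝ) (h : ¬ (1 / 2 ≤ x ∧ x ≤ 2)) :
    ∀ᶠ u in 𝓝 x, u < 1 / 2 ∨ 2 < u := by
  by_cases h1 : x < 1 / 2
  · filter_upwards [gt_mem_nhds h1] with u hu using Or.inl hu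
  · have h2 : 2 < x := by
      by_contra h3
      exact h ⟨not_lt.1 h1, not_lt.1 h3⟩
    filter_upwards [lt_mem_nhds h2] with u hu using Or.inr hu

theorem vsm_out (V : ℝ → ℝ) (hV : Vsm V) (u : ℝ) (h : u < 1 / 2 ∨ 2 < u) : V u = 0 := by
  by_contra h0
  obtain ⟨h1, h2⟩ := hV.sp u h0
  rcases h with h | h
  · linarith
  · linarith

theorem vsm_Vs (i : Fin 2) : Vsm (Vs i) := by
  have hsp : ∀ x, (x < 1 / 2 ∨ 2 < x) → Vs i x = 0 := by
    intro x hx
    unfold Vs
    rw [vsm_Wd_zero x hx]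
    split_ifs
    · rfl
    · rw [zero_mul]
  refine ⟨?_, fun x hx => ?_⟩
  · rw [contDiff_iff_contDiffAt]
    intro x
    by_cases hx : 1 / 2 ≤ x ∧ x ≤ 2
    · have hx0 : x ≠ 0 := by
        intro h
        rw [h] at hx
        linarith [hx.1]
      have h1 : ContDiffAt ℝ ∞ Wd x := vsm_Wd_smooth.contDiffAt
      by_cases hi : i = 0
      · have h2 : Vs i = Wd := by
          funext y
          unfold Vs
          rw [if_pos hi]
        rw [h2]
        exact h1
      · have h2 : Vs i = fun y => Wd y * Real.log y := by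
          funext y
          unfold Vs
          rw [if_neg hi]
        rw [h2]
        exact h1.mul (Real.contDiffAt_log.2 hx0)
    · have h1 : Vs i =ᶠ[𝓝 x] fun _ => (0 : ℝ) := by
        filter_upwards [vsm_open x hx] with u hu using hsp u hu
      exact contDiffAt_const.congr_of_eventuallyEq h1
  · by_contra h
    exact hx (hsp x (by
      by_cases h1 : x < 1 / 2
      · exact Or.inl h1
      · right
        by_contra h3
        exact h ⟨not_lt.1 h1, not_lt.1 h3⟩))

theorem vsm_V1 (V : ℝ → ℝ) (hV : Vsm V) : Vsm (V1 V) := by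
  have h1 : ContDiff ℝ ∞ (fun u : ℝ => u * V u) := contDiff_id.mul hV.sm
  refine ⟨(contDiff_infty_iff_deriv.1 h1).2, fun x hx => ?_⟩
  by_contra h
  apply hx
  have h2 : (fun u : ℝ => u * V u) =ᶠ[𝓝 x] fun _ => (0 : ℝ) := by
    filter_upwards [vsm_open x h] with u hu
    rw [vsm_out V hV u hu, mul_zero]
  show deriv (fun u : ℝ => u * V u) x = 0
  rw [h2.deriv_eq, deriv_const]

theorem vsm_norm_pz (t x : ℝ) : ‖pz t x‖ = 1 := by
  unfold pz
  rw [Complex.norm_exp]
  simp

theorem vsm_norm_ex (x : ℝ) : ‖ex x‖ = 1 := by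
  unfold ex
  rw [Complex.norm_exp]
  simp

theorem vsm_bd (V : ℝ → ℝ) (hV : Vsm V) :
    ∃ C : ℝ, 0 < C ∧ (∀ x, |V x| ≤ C) ∧ ∀ (θ ξ : ℝ), ‖hF V θ ξ‖ ≤ C := by
  obtain ⟨C, hC⟩ := (isCompact_Icc (a := (1 / 2 : ℝ)) (b := 2)).exists_bound_of_continuousOn
    (f := V) hV.sm.continuous.continuousOn
  have hC0 : 0 ≤ C := le_trans (norm_nonneg _) (hC 1 ⟨by norm_num, by norm_num⟩)
  have hb : ∀ x, |V x| ≤ C := by
    intro x
    by_cases h : V x = 0
    · rw [h, abs_zero]
      exact hC0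
    · exact hC x (hV.sp x h)
  refine ⟨2 * C + 1, by linarith, fun x => by linarith [hb x], fun θ ξ => ?_⟩
  unfold hF
  have h1 : ∫ u : ℝ, (V u : ℂ) * pz (-θ) u * ex (-(ξ * u)) =
      ∫ u in Set.Icc (1 / 2 : ℝ) 2, (V u : ℂ) * pz (-θ) u * ex (-(ξ * u)) := by
    symm
    apply MeasureTheory.setIntegral_eq_integral_of_forall_compl_eq_zero
    intro u hu
    have h2 : V u = 0 := by
      by_contra h3
      exact hu (hV.sp u h3)
    rw [h2, Complex.ofReal_zero, zero_mul, zero_mul]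
  rw [h1]
  have h2 := MeasureTheory.norm_setIntegral_le_of_norm_le_const
    (μ := MeasureTheory.volume) (s := Set.Icc (1 / 2 : ℝ) 2) (C := C)
    (f := fun u : ℝ => (V u : ℂ) * pz (-θ) u * ex (-(ξ * u))) (by
      rw [Real.volume_Icc]
      exact ENNReal.ofReal_lt_top) (fun u _ => by
      rw [norm_mul, norm_mul, vsm_norm_pz, vsm_norm_ex, mul_one, mul_one, Complex.norm_real]
      exact hb u)
  rw [Real.volume_real_Icc_of_le (by norm_num)] at h2
  linarith

theorem p_vsm : S_vsm := ⟨vsm_Vs, vsm_V1, vsm_bd⟩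

end Pool.Agent.CA.LC
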