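import Pool.Agent.Lib.MP_d610d0_nt.CA.LC.Stm
import Pool.Agent.Lib.MP_d610d0_nt.CA.LC.P.vsm
import Pool.Agent.Lib.MP_d610d0_nt.CA.LC.P.blk

set_option autoImplicit false

/-!
Project CA, section LC: piece tiv (smooth character sums in a window). The lemmas on the variation of the
window are those of `CH/D/p_tI.lean`.
-/

namespace Pool.Agent.CA.LC

open Finset Filter
open scoped ContDiff
open Pool.Agent.MP89da58 (tri)
open Pool.Agent.CH (wJ)

theorem tiv_mono {a b : ℝ} (h : |b| ≤ |a|) : tri a ≤ tri b := by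
  unfold tri
  exact max_le_max le_rfl (by linarith)

theorem tiv_nonneg (a : ℝ) : 0 ≤ tri a := le_max_left _ _

theorem tiv_le_one (a : ℝ) : tri a ≤ 1 := by
  unfold tri
  exact max_le (by norm_num) (by linarith [abs_nonneg a])

theorem tiv_up (c X : ℝ) (hc : 0 ≤ c) (d n : ℕ) (hd : 1 ≤ d) (hn : 1 ≤ n)
    (h : ((d * (n + 1) : ℕ) : ℝ) ≤ X) :
    tri (c * Real.log (((d * n : ℕ) : ℝ) / X)) ≤ tri (c * Real.log (((d * (n + 1) : ℕ) : ℝ) / X)) := by
  have h0 : (0 : ℝ) < ((d * n : ℕ) : ℝ) := by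
    have : 0 < d * n := Nat.mul_pos hd hn
    exact_mod_cast this
  have h1 : ((d * n : ℕ) : ℝ) ≤ ((d * (n + 1) : ℕ) : ℝ) := by
    exact_mod_cast Nat.mul_le_mul_left d (Nat.le_succ n)
  have hX : 0 < X := lt_of_lt_of_le (lt_of_lt_of_le h0 h1) h
  have e1 : Real.log (((d * n : ℕ) : ℝ) / X) ≤ Real.log (((d * (n + 1) : ℕ) : ℝ) / X) :=
    Real.log_le_log (div_pos h0 hX) (div_le_div_of_nonneg_right h1 hX.le)
  have e2 : Real.log (((d * (n + 1) : ℕ) : ℝ) / X) ≤ 0 :=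
    Real.log_nonpos (div_nonneg (h0.le.trans h1) hX.le) ((div_le_one hX).2 h)
  apply tiv_mono
  rw [abs_mul, abs_mul, abs_of_nonneg hc, abs_of_nonpos e2, abs_of_nonpos (e1.trans e2)]
  exact mul_le_mul_of_nonneg_left (by linarith) hc

theorem tiv_down (c X : ℝ) (hc : 0 ≤ c) (hX : 0 < X) (d n : ℕ)
    (h : X < ((d * n : ℕ) : ℝ)) :
    tri (c * Real.log (((d * (n + 1) : ℕ) : ℝ) / X)) ≤ tri (c * Real.log (((d * n : ℕ) : ℝ) / X)) := by
  have h0 : (0 : ℝ) < ((d * n : ℕ) : ℝ) := hX.trans h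
  have h1 : ((d * n : ℕ) : ℝ) ≤ ((d * (n + 1) : ℕ) : ℝ) := by
    exact_mod_cast Nat.mul_le_mul_left d (Nat.le_succ n)
  have e1 : Real.log (((d * n : ℕ) : ℝ) / X) ≤ Real.log (((d * (n + 1) : ℕ) : ℝ) / X) :=
    Real.log_le_log (div_pos h0 hX) (div_le_div_of_nonneg_right h1 hX.le)
  have e2 : 0 ≤ Real.log (((d * n : ℕ) : ℝ) / X) :=
    Real.log_nonneg ((one_le_div hX).2 h.le)
  apply tiv_mono
  rw [abs_mul, abs_mul, abs_of_nonneg hc, abs_of_nonneg e2, abs_of_nonneg (e2.trans e1)]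
  exact mul_le_mul_of_nonneg_left e1 hc

/-- the variation of the window -/
theorem tiv_var (c X : ℝ) (hc : 0 ≤ c) (hX : 0 < X) (d : ℕ) (hd : 1 ≤ d) (g : ℕ → ℝ)
    (hg : ∀ n, g n = tri (c * Real.log (((d * n : ℕ) : ℝ) / X))) (N : ℕ) (hN : 1 ≤ N) :
    (((d * N : ℕ) : ℝ) ≤ X → ∑ n ∈ Ico 1 N, |g n - g (n + 1)| ≤ g N) ∧
      (X < ((d * N : ℕ) : ℝ) → ∑ n ∈ Ico 1 N, |g n - g (n + 1)| + g N ≤ 3) := by
  have g0 : ∀ n, 0 ≤ g n := fun n => by rw [hg]; exact tiv_nonneg _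
  have g1 : ∀ n, g n ≤ 1 := fun n => by rw [hg]; exact tiv_le_one _
  induction N, hN using Nat.le_induction with
  | base =>
    rw [Ico_self, sum_empty]
    exact ⟨fun _ => g0 1, fun _ => by linarith [g1 1]⟩
  | succ N hN ih =>
    rw [sum_Ico_succ_top hN]
    have hle : ((d * N : ℕ) : ℝ) ≤ ((d * (N + 1) : ℕ) : ℝ) := by
      exact_mod_cast Nat.mul_le_mul_left d (Nat.le_succ N)
    refine ⟨fun h => ?_, fun h => ?_⟩
    · have hm : g N ≤ g (N + 1) := by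
        rw [hg, hg]
        exact tiv_up c X hc d N hd hN h
      have := ih.1 (hle.trans h)
      rw [abs_of_nonpos (by linarith)]
      linarith
    · rcases le_or_gt ((d * N : ℕ) : ℝ) X with h2 | h2
      · have h3 := ih.1 h2
        have h4 : |g N - g (N + 1)| ≤ 1 := by
          rw [abs_le]
          constructor
          · linarith [g0 N, g1 (N + 1)]
          · linarith [g1 N, g0 (N + 1)]
        linarith [g1 N, g1 (N + 1)]
      · have hm : g (N + 1) ≤ g N := by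
          rw [hg, hg]
          exact tiv_down c X hc hX d N h2
        have := ih.2 h2
        rw [abs_of_nonneg (by linarith)]
        linarith

theorem tiv_var' (c X : ℝ) (hc : 0 ≤ c) (hX : 0 < X) (d : ℕ) (hd : 1 ≤ d) (g : ℕ → ℝ)
    (hg : ∀ n, g n = tri (c * Real.log (((d * n : ℕ) : ℝ) / X))) (N : ℕ) (hN : 1 ≤ N) :
    ∑ n ∈ Ico 1 N, |g n - g (n + 1)| + g N ≤ 3 := by
  have h := tiv_var c X hc hX d hd g hg N hN
  have g1 : g N ≤ 1 := by rw [hg]; exact tiv_le_one _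
  rcases le_or_gt ((d * N : ℕ) : ℝ) X with h2 | h2
  · linarith [h.1 h2]
  · exact h.2 h2

/-- Abel summation -/
theorem tiv_abel (x : ℕ → ℂ) (g : ℕ → ℝ) (N : ℕ) :
    ∑ n ∈ Icc 1 N, x n * (g n : ℂ) =
      (∑ m ∈ Icc 1 N, x m) * (g N : ℂ) +
        ∑ n ∈ range N, (∑ m ∈ Icc 1 n, x m) * ((g n - g (n + 1) : ℝ) : ℂ) := by
  induction N with
  | zero => simp
  | succ N ih =>
    rw [sum_Icc_succ_top (by omega), ih, sum_Icc_succ_top (by omega), sum_range_succ]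
    push_cast
    ring

theorem tiv_abel_le (x : ℕ → ℂ) (g : ℕ → ℝ) (r : ℝ) (_ : 0 ≤ r)
    (hx : ∀ N, ‖∑ m ∈ Icc 1 N, x m‖ ≤ r) (N : ℕ) (hN : 1 ≤ N) :
    ‖∑ n ∈ Icc 1 N, x n * (g n : ℂ)‖ ≤
      r * (∑ n ∈ Ico 1 N, |g n - g (n + 1)| + |g N|) := by
  rw [tiv_abel]
  refine (norm_add_le _ _).trans ?_
  have h1 : ‖(∑ m ∈ Icc 1 N, x m) * (g N : ℂ)‖ ≤ r * |g N| := by
    rw [norm_mul, Complex.norm_real, Real.norm_eq_abs]
    exact mul_le_mul_of_nonneg_right (hx N) (abs_nonneg _)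
  have h2 : ‖∑ n ∈ range N, (∑ m ∈ Icc 1 n, x m) * ((g n - g (n + 1) : ℝ) : ℂ)‖ ≤
      r * ∑ n ∈ Ico 1 N, |g n - g (n + 1)| := by
    rw [range_eq_Ico, sum_eq_sum_Ico_succ_bot (by omega), mul_sum]
    simp only [Icc_eq_empty_of_lt Nat.zero_lt_one, sum_empty, zero_mul, zero_add]
    refine (norm_sum_le _ _).trans (sum_le_sum fun n _ => ?_)
    rw [norm_mul, Complex.norm_real, Real.norm_eq_abs]
    exact mul_le_mul_of_nonneg_right (hx n) (abs_nonneg _)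
  linarith

/-- The shapes are Lipschitz. -/
theorem tiv_lip : ∃ C : ℝ, 0 < C ∧ ∀ (i : Fin 2) (x y : ℝ), |Vs i x - Vs i y| ≤ C * |x - y| := by
  have h : ∀ i : Fin 2, ∃ C : ℝ, 0 ≤ C ∧ ∀ x y : ℝ, |Vs i x - Vs i y| ≤ C * |x - y| := by
    intro i
    have hc : HasCompactSupport (Vs i) := by
      apply HasCompactSupport.intro (isCompact_Icc (a := (1 / 2 : ℝ)) (b := 2))
      intro x hx
      by_contra h0
      exact hx ((vsm_Vs i).sp x h0)
    obtain ⟨C, hC⟩ := ContDiff.lipschitzWith_of_hasCompactSupport hc (vsm_Vs i).sm (by simp)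
    refine ⟨C, C.2, fun x y => ?_⟩
    have h1 := hC.dist_le_mul x y
    rwa [Real.dist_eq, Real.dist_eq] at h1
  obtain ⟨C0, hC0, h0⟩ := h 0
  obtain ⟨C1, hC1, h1⟩ := h 1
  refine ⟨C0 + C1 + 1, by positivity, ?_⟩
  intro i x y
  have ha : 0 ≤ |x - y| := abs_nonneg _
  fin_cases i
  · exact (h0 x y).trans (mul_le_mul_of_nonneg_right (by linarith) ha)
  · exact (h1 x y).trans (mul_le_mul_of_nonneg_right (by linarith) ha)

/-- The variation of the shapes. -/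
theorem tiv_varV {C : ℝ} (hC0 : 0 < C)
    (hC : ∀ (i : Fin 2) (x y : ℝ), |Vs i x - Vs i y| ≤ C * |x - y|) (i : Fin 2) (N : ℝ)
    (hN : 1 ≤ N) (X : ℕ) :
    ∑ l ∈ Ico 1 X, |Vs i ((l : ℕ) / N) - Vs i (((l + 1 : ℕ) : ℝ) / N)| ≤ 2 * C := by
  have hN0 : 0 < N := by linarith
  have h1 : ∀ l ∈ Ico 1 X, |Vs i ((l : ℕ) / N) - Vs i (((l + 1 : ℕ) : ℝ) / N)| ≤
      if l ≤ ⌊2 * N⌋₊ then C / N else 0 := by
    intro l _
    split_ifs with hl
    · refine (hC i _ _).trans (le_of_eq ?_)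
      have e1 : (l : ℝ) / N - ((l + 1 : ℕ) : ℝ) / N = -(1 / N) := by
        push_cast
        field_simp
        ring
      rw [e1, abs_neg, abs_of_pos (by positivity)]
      ring
    · rw [not_le, Nat.floor_lt (by positivity)] at hl
      have e2 : 2 < (l : ℝ) / N := by rwa [lt_div_iff₀ hN0]
      have e3 : 2 < ((l + 1 : ℕ) : ℝ) / N := by
        rw [lt_div_iff₀ hN0]
        push_cast
        linarith
      have z1 : Vs i ((l : ℝ) / N) = 0 := by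
        by_contra h0
        linarith [((vsm_Vs i).sp _ h0).2]
      have z2 : Vs i (((l + 1 : ℕ) : ℝ) / N) = 0 := by
        by_contra h0
        linarith [((vsm_Vs i).sp _ h0).2]
      rw [z1, z2, sub_zero, abs_zero]
  refine (sum_le_sum h1).trans ?_
  rw [← sum_filter, sum_const, nsmul_eq_mul]
  have h2 : ((Ico 1 X).filter (fun l => l ≤ ⌊2 * N⌋₊)).card ≤ ⌊2 * N⌋₊ := by
    calc ((Ico 1 X).filter (fun l => l ≤ ⌊2 * N⌋₊)).card ≤ (Icc 1 ⌊2 * N⌋₊).card := by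
          apply card_le_card
          intro l hl
          rw [mem_filter, mem_Ico] at hl
          rw [mem_Icc]
          exact ⟨hl.1.1, hl.2⟩
      _ = ⌊2 * N⌋₊ := by simp
  have h3 : (((Ico 1 X).filter (fun l => l ≤ ⌊2 * N⌋₊)).card : ℝ) ≤ 2 * N :=
    le_trans (by exact_mod_cast h2) (Nat.floor_le (by positivity))
  calc (((Ico 1 X).filter (fun l => l ≤ ⌊2 * N⌋₊)).card : ℝ) * (C / N) ≤ 2 * N * (C / N) :=
        mul_le_mul_of_nonneg_right h3 (by positivity)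
    _ = 2 * C := by field_simp

theorem p_tiv : S_tiv := by
  obtain ⟨C, hC0, hC⟩ := tiv_lip
  refine ⟨2 * C + 4, by positivity, ?_⟩
  intro J j e r X N i χ hJ hj he hr hχ hN
  have : NeZero r := ⟨by omega⟩
  have hr0 : (0 : ℝ) ≤ r := Nat.cast_nonneg r
  have hx : ∀ N : ℕ, ‖∑ m ∈ Icc 1 N, χ ((m : ℕ) : ZMod r)‖ ≤ r := fun N =>
    Pool.Agent.MP89da58.norm_sum_Icc_char_le χ hχ N
  rcases Nat.eq_zero_or_pos X with rfl | hX
  · simp only [Icc_eq_empty_of_lt Nat.zero_lt_one, sum_empty, norm_zero]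
    positivity
  have hXj : (0 : ℝ) < ((j : ℝ) + 1 / 2) ^ 3 := by positivity
  have hc : (0 : ℝ) ≤ 2 * J := by positivity
  have hg : ∀ n, wJ J j (e * n) =
      tri (2 * J * Real.log (((e * n : ℕ) : ℝ) / ((j : ℝ) + 1 / 2) ^ 3)) := fun n => rfl
  have hV := tiv_var' (2 * J) _ hc hXj e he (fun n => wJ J j (e * n)) hg X hX
  have g0 : ∀ n, 0 ≤ wJ J j (e * n) := fun n => by rw [hg]; exact tiv_nonneg _
  have g1 : ∀ n, wJ J j (e * n) ≤ 1 := fun n => by rw [hg]; exact tiv_le_one _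
  have h := tiv_abel_le (fun n => χ (n : ZMod r))
    (fun l => Vs i ((l : ℕ) / N) * wJ J j (e * l)) r hr0 hx X hX
  have eq1 : ∀ l : ℕ, χ (l : ZMod r) * ((Vs i (l / N) : ℝ) : ℂ) * (wJ J j (e * l) : ℂ) =
      χ (l : ZMod r) * ((Vs i ((l : ℕ) / N) * wJ J j (e * l) : ℝ) : ℂ) := by
    intro l
    push_cast
    ring
  simp only [eq1]
  refine h.trans ?_
  have hstep : ∀ l ∈ Ico 1 X, |Vs i ((l : ℕ) / N) * wJ J j (e * l) -
      Vs i (((l + 1 : ℕ) : ℝ) / N) * wJ J j (e * (l + 1))| ≤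
      |Vs i ((l : ℕ) / N) - Vs i (((l + 1 : ℕ) : ℝ) / N)| +
        |wJ J j (e * l) - wJ J j (e * (l + 1))| := by
    intro l _
    have e1 : Vs i ((l : ℕ) / N) * wJ J j (e * l) -
        Vs i (((l + 1 : ℕ) : ℝ) / N) * wJ J j (e * (l + 1)) =
        (Vs i ((l : ℕ) / N) - Vs i (((l + 1 : ℕ) : ℝ) / N)) * wJ J j (e * l) +
          Vs i (((l + 1 : ℕ) : ℝ) / N) * (wJ J j (e * l) - wJ J j (e * (l + 1))) := by ring
    rw [e1]
    refine (abs_add_le _ _).trans ?_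
    rw [abs_mul, abs_mul, abs_of_nonneg (g0 l)]
    apply add_le_add
    · calc _ ≤ |Vs i ((l : ℕ) / N) - Vs i (((l + 1 : ℕ) : ℝ) / N)| * 1 :=
          mul_le_mul_of_nonneg_left (g1 l) (abs_nonneg _)
        _ = _ := mul_one _
    · calc _ ≤ 1 * |wJ J j (e * l) - wJ J j (e * (l + 1))| :=
          mul_le_mul_of_nonneg_right (blk_Vs_abs i _) (abs_nonneg _)
        _ = _ := one_mul _
  have hsum := sum_le_sum hstep
  rw [sum_add_distrib] at hsum
  have hvV := tiv_varV hC0 hC i N hN X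
  have hend : |Vs i ((X : ℕ) / N) * wJ J j (e * X)| ≤ 1 := by
    rw [abs_mul, abs_of_nonneg (g0 X)]
    calc _ ≤ 1 * (1 : ℝ) := mul_le_mul (blk_Vs_abs i _) (g1 X) (g0 X) (by norm_num)
      _ = 1 := by norm_num
  have hgX := g0 X
  rw [mul_comm (2 * C + 4) (r : ℝ)]
  apply mul_le_mul_of_nonneg_left _ hr0
  linarith

end Pool.Agent.CA.LC
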