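import Pool.Agent.Lib.MP_d610d0_nt.CA.LC.Stm

set_option autoImplicit false

/-!
Project CA, section LC, piece tri: the trilinear bound (Hoelder over the characters and the height).
-/

namespace Pool.Agent.CA.LC

open Finset Filter
open scoped ContDiff
open Pool.Agent.MP89da58 (tri primChars)
open Pool.Agent.CH.V (pz ex)
open Pool.Agent.CH.D (dp)

/-! ### Hoelder's inequality -/

/-- The Cauchy-Schwarz inequality for a finite sum of continuous functions on an interval. -/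
theorem tri_cs {ι : Type*} (P : Finset ι) (f g : ι → ℝ → ℝ) (hf : ∀ p, Continuous (f p))
    (hg : ∀ p, Continuous (g p)) (T : ℝ) (hT : 0 ≤ T) :
    (∫ θ in (-T)..T, ∑ p ∈ P, f p θ * g p θ) ^ 2 ≤
      (∫ θ in (-T)..T, ∑ p ∈ P, f p θ ^ 2) * ∫ θ in (-T)..T, ∑ p ∈ P, g p θ ^ 2 := by
  have hff : Continuous fun θ => ∑ p ∈ P, f p θ ^ 2 :=
    continuous_finsetSum _ fun p _ => (hf p).pow 2
  have hgg : Continuous fun θ => ∑ p ∈ P, g p θ ^ 2 :=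
    continuous_finsetSum _ fun p _ => (hg p).pow 2
  have hfg : Continuous fun θ => ∑ p ∈ P, f p θ * g p θ :=
    continuous_finsetSum _ fun p _ => (hf p).mul (hg p)
  have key : ∀ x : ℝ, 0 ≤ (∫ θ in (-T)..T, ∑ p ∈ P, g p θ ^ 2) * (x * x) +
      (2 * ∫ θ in (-T)..T, ∑ p ∈ P, f p θ * g p θ) * x + ∫ θ in (-T)..T, ∑ p ∈ P, f p θ ^ 2 := by
    intro x
    have h1 : 0 ≤ ∫ θ in (-T)..T, ∑ p ∈ P, (f p θ + x * g p θ) ^ 2 := by
      apply intervalIntegral.integral_nonneg (by linarith)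
      intro θ _
      exact Finset.sum_nonneg fun p _ => sq_nonneg _
    have h2 : (fun θ => ∑ p ∈ P, (f p θ + x * g p θ) ^ 2) = fun θ =>
        (x * x) * (∑ p ∈ P, g p θ ^ 2) + (2 * x) * (∑ p ∈ P, f p θ * g p θ) +
          ∑ p ∈ P, f p θ ^ 2 := by
      funext θ
      rw [Finset.mul_sum, Finset.mul_sum, ← Finset.sum_add_distrib, ← Finset.sum_add_distrib]
      refine Finset.sum_congr rfl fun p _ => ?_
      ring
    rw [h2, intervalIntegral.integral_add, intervalIntegral.integral_add,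
      intervalIntegral.integral_const_mul, intervalIntegral.integral_const_mul] at h1
    · linarith
    · exact (continuous_const.mul hgg).intervalIntegrable _ _
    · exact (continuous_const.mul hfg).intervalIntegrable _ _
    · exact ((continuous_const.mul hgg).add (continuous_const.mul hfg)).intervalIntegrable _ _
    · exact hff.intervalIntegrable _ _
  have h3 := discrim_le_zero key
  unfold discrim at h3
  linarith

/-- Hoelder's inequality with exponents `4, 4, 2`. -/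
theorem tri_hol {ι : Type*} (P : Finset ι) (f g h : ι → ℝ → ℝ) (hf : ∀ p, Continuous (f p))
    (hg : ∀ p, Continuous (g p)) (hh : ∀ p, Continuous (h p)) (T a b d Z : ℝ) (hT : 0 ≤ T)
    (ha : ∫ θ in (-T)..T, ∑ p ∈ P, f p θ ^ 4 ≤ a) (hb : ∫ θ in (-T)..T, ∑ p ∈ P, g p θ ^ 4 ≤ b)
    (hd : ∫ θ in (-T)..T, ∑ p ∈ P, h p θ ^ 2 ≤ d) (hZ : 0 ≤ Z) (hab : a * b * d ^ 2 ≤ Z ^ 4) :
    ∫ θ in (-T)..T, ∑ p ∈ P, f p θ * g p θ * h p θ ≤ Z := by
  have n4 : ∀ F : ι → ℝ → ℝ, 0 ≤ ∫ θ in (-T)..T, ∑ p ∈ P, F p θ ^ 4 := by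
    intro F
    apply intervalIntegral.integral_nonneg (by linarith)
    intro θ _
    exact Finset.sum_nonneg fun p _ => by positivity
  have n2 : ∀ F : ι → ℝ → ℝ, 0 ≤ ∫ θ in (-T)..T, ∑ p ∈ P, F p θ ^ 2 := by
    intro F
    apply intervalIntegral.integral_nonneg (by linarith)
    intro θ _
    exact Finset.sum_nonneg fun p _ => by positivity
  have h1 := tri_cs P (fun p θ => f p θ * g p θ) h (fun p => (hf p).mul (hg p)) hh T hT
  have h2 := tri_cs P (fun p θ => f p θ ^ 2) (fun p θ => g p θ ^ 2) (fun p => (hf p).pow 2)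
    (fun p => (hg p).pow 2) T hT
  have e1 : ∀ F : ι → ℝ → ℝ, (fun θ => ∑ p ∈ P, (F p θ ^ 2) ^ 2) = fun θ => ∑ p ∈ P, F p θ ^ 4 := by
    intro F
    funext θ
    refine Finset.sum_congr rfl fun p _ => ?_
    ring
  have e2 : (fun θ => ∑ p ∈ P, f p θ ^ 2 * g p θ ^ 2) = fun θ => ∑ p ∈ P, (f p θ * g p θ) ^ 2 := by
    funext θ
    refine Finset.sum_congr rfl fun p _ => ?_
    ring
  simp only [e1, e2] at h2
  obtain ⟨X, hX⟩ : ∃ X, X = ∫ θ in (-T)..T, ∑ p ∈ P, f p θ * g p θ * h p θ := ⟨_, rfl⟩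
  obtain ⟨Y, hY⟩ : ∃ Y, Y = ∫ θ in (-T)..T, ∑ p ∈ P, (f p θ * g p θ) ^ 2 := ⟨_, rfl⟩
  have hY0 : 0 ≤ Y := by
    rw [hY]
    exact n2 fun p θ => f p θ * g p θ
  rw [← hX, ← hY] at h1
  rw [← hY] at h2
  rw [← hX]
  have k1 : Y ^ 2 ≤ a * b := h2.trans (mul_le_mul ha hb (n4 g) ((n4 f).trans ha))
  have k2 : X ^ 2 ≤ Y * d := h1.trans (mul_le_mul_of_nonneg_left hd hY0)
  have k3 : X ^ 4 ≤ Z ^ 4 := by
    have : (X ^ 2) ^ 2 ≤ (Y * d) ^ 2 := pow_le_pow_left₀ (sq_nonneg _) k2 2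
    calc X ^ 4 = (X ^ 2) ^ 2 := by ring
      _ ≤ (Y * d) ^ 2 := this
      _ = Y ^ 2 * d ^ 2 := by ring
      _ ≤ a * b * d ^ 2 := mul_le_mul_of_nonneg_right k1 (sq_nonneg _)
      _ ≤ Z ^ 4 := hab
  by_contra hc
  push Not at hc
  have := pow_lt_pow_left₀ hc hZ (n := 4) (by norm_num)
  linarith

/-! ### Continuity -/

theorem tri_pz (n : ℕ) : Continuous fun θ : ℝ => pz (-θ) n := by
  unfold pz
  fun_prop

theorem tri_cSV (V : ℝ → ℝ) {r : ℕ} (χ : DirichletCharacter ℂ r) (N : ℝ) :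
    Continuous fun θ => SV V χ N θ := by
  unfold SV
  exact continuous_finsetSum _ fun n _ => continuous_const.mul (tri_pz n)

theorem tri_cdp (a : ℕ → ℂ) (N : ℕ) : Continuous fun θ => dp a N θ := by
  unfold dp
  exact continuous_finsetSum _ fun n _ => continuous_const.mul (tri_pz n)

/-! ### Large `J` -/

theorem tri_ev (K : ℝ) (C : ℕ) (e : ℝ) (he : 0 < e) :
    ∀ᶠ J : ℕ in atTop, K * (Real.log J) ^ C ≤ (J : ℝ) ^ e := by
  have h := (isLittleO_log_rpow_rpow_atTop (C : ℝ) he).def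
    (show (0 : ℝ) < 1 / (|K| + 1) by positivity)
  have h2 := tendsto_natCast_atTop_atTop.eventually h
  filter_upwards [h2, eventually_ge_atTop 1] with J hJ h1
  have hL : 0 ≤ Real.log (J : ℝ) := Real.log_nonneg (by exact_mod_cast h1)
  rw [Real.rpow_natCast, Real.norm_of_nonneg (pow_nonneg hL C),
    Real.norm_of_nonneg (Real.rpow_nonneg (Nat.cast_nonneg J) e)] at hJ
  have hK : K ≤ |K| + 1 := (le_abs_self K).trans (by linarith)
  have hp : (0 : ℝ) < |K| + 1 := by positivity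
  calc K * (Real.log J) ^ C ≤ (|K| + 1) * (Real.log J) ^ C :=
        mul_le_mul_of_nonneg_right hK (pow_nonneg hL C)
    _ ≤ (|K| + 1) * (1 / (|K| + 1) * (J : ℝ) ^ e) := mul_le_mul_of_nonneg_left hJ hp.le
    _ = (J : ℝ) ^ e := by field_simp

/-- The fourth moment over an interval. -/
theorem tri_four (h4 : R_fm4) (V : ℝ → ℝ) (hV : Vsm V) : ∀ᶠ J : ℕ in atTop, ∀ (R : ℕ) (N T : ℝ),
    1 ≤ R → (R : ℝ) ≤ (J : ℝ) ^ (4998 / 10000 : ℝ) → (J : ℝ) ^ (1 - 1 / 50000 : ℝ) ≤ N →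
    N ≤ (J : ℝ) ^ (1 + 1 / 50000 : ℝ) → (J : ℝ) ≤ T → T ≤ 2 * (J : ℝ) ^ 3 →
    ∫ θ in (-T)..T, ∑ p ∈ primChars R, ‖SV V p.2 N θ‖ ^ 4 ≤
      (R : ℝ) ^ 2 * T ^ 3 * (J : ℝ) ^ (1 / 25000 + 1 / 200000 : ℝ) := by
  obtain ⟨C, hC⟩ := h4 V hV
  filter_upwards [tri_ev (10 * C * 10 ^ C) C (1 / 200000) (by norm_num),
    tri_ev 2 0 (1 / 2) (by norm_num), eventually_ge_atTop 3] with J h1 h2 hJ3 R N T hR hRJ hN1 hN2
    hT1 hT2
  have hJ3' : (3 : ℝ) ≤ J := by exact_mod_cast hJ3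
  have hJ0 : (0 : ℝ) < J := by linarith
  have hJ1 : (1 : ℝ) ≤ J := by linarith
  have hT0 : (0 : ℝ) ≤ T := by linarith
  have hT1' : (1 : ℝ) ≤ T := by linarith
  rw [pow_zero, mul_one] at h2
  have hN0 : (1 : ℝ) ≤ N := (Real.one_le_rpow hJ1 (by norm_num)).trans hN1
  have h2R : 2 * (R : ℝ) ≤ N := by
    calc 2 * (R : ℝ) ≤ (J : ℝ) ^ (1 / 2 : ℝ) * (J : ℝ) ^ (4998 / 10000 : ℝ) :=
          mul_le_mul h2 hRJ (Nat.cast_nonneg R) (Real.rpow_nonneg hJ0.le _)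
      _ = (J : ℝ) ^ (1 / 2 + 4998 / 10000 : ℝ) := (Real.rpow_add hJ0 _ _).symm
      _ ≤ (J : ℝ) ^ (1 - 1 / 50000 : ℝ) := Real.rpow_le_rpow_of_exponent_le hJ1 (by norm_num)
      _ ≤ N := hN1
  have hL1 : 1 ≤ Real.log J := by
    rw [Real.le_log_iff_exp_le hJ0]
    linarith [Real.exp_one_lt_d9]
  obtain ⟨L, hL⟩ : ∃ L, L = Real.log (J : ℝ) := ⟨_, rfl⟩
  rw [← hL] at h1 hL1
  have hJe : (1 : ℝ) ≤ (J : ℝ) ^ (1 / 25000 : ℝ) := Real.one_le_rpow hJ1 (by norm_num)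
  -- the pointwise bound
  have hpt : ∀ θ ∈ Set.Icc (-T) T, ∑ p ∈ primChars R, ‖SV V p.2 N θ‖ ^ 4 ≤
      C * (5 * (R : ℝ) ^ 2 * T ^ 2 * (J : ℝ) ^ (1 / 25000 : ℝ)) * (10 * L) ^ C := by
    intro θ hθ
    have hab : |θ| ≤ T := abs_le.2 hθ
    have hab0 := abs_nonneg θ
    refine (hC R N θ hR h2R).trans ?_
    have hlog0 : 0 ≤ 1 + Real.log N + Real.log (1 + |θ|) := by
      have a1 := Real.log_nonneg hN0
      have a2 := Real.log_nonneg (show (1 : ℝ) ≤ 1 + |θ| by linarith)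
      linarith
    have hlog : 1 + Real.log N + Real.log (1 + |θ|) ≤ 10 * L := by
      have a1 : Real.log N ≤ (1 + 1 / 50000) * L := by
        have := Real.log_le_log (by linarith) hN2
        rw [Real.log_rpow hJ0, ← hL] at this
        exact this
      have a2 : Real.log (1 + |θ|) ≤ 4 * L := by
        have b1 : 1 + |θ| ≤ (J : ℝ) ^ 4 := by
          have c1 : (1 : ℝ) ≤ (J : ℝ) ^ 3 := one_le_pow₀ hJ1
          calc 1 + |θ| ≤ 1 + 2 * (J : ℝ) ^ 3 := by linarith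
            _ ≤ 3 * (J : ℝ) ^ 3 := by linarith
            _ ≤ J * (J : ℝ) ^ 3 := mul_le_mul_of_nonneg_right hJ3' (by positivity)
            _ = (J : ℝ) ^ 4 := by ring
        have := Real.log_le_log (by linarith) b1
        rw [Real.log_pow, ← hL] at this
        exact_mod_cast this
      linarith
    have hfac : (N * R) ^ 2 * (1 + ((1 + |θ|) / N) ^ 2) ≤
        5 * (R : ℝ) ^ 2 * T ^ 2 * (J : ℝ) ^ (1 / 25000 : ℝ) := by
      have hN' : N ≠ 0 := by linarith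
      have e1 : (N * R) ^ 2 * (1 + ((1 + |θ|) / N) ^ 2) = (R : ℝ) ^ 2 * (N ^ 2 + (1 + |θ|) ^ 2) := by
        field_simp
      have e2 : N ^ 2 ≤ T ^ 2 * (J : ℝ) ^ (1 / 25000 : ℝ) := by
        calc N ^ 2 ≤ ((J : ℝ) ^ (1 + 1 / 50000 : ℝ)) ^ 2 := pow_le_pow_left₀ (by linarith) hN2 2
          _ = (J : ℝ) ^ (2 : ℝ) * (J : ℝ) ^ (1 / 25000 : ℝ) := by
              rw [← Real.rpow_natCast, ← Real.rpow_mul hJ0.le, ← Real.rpow_add hJ0]
              norm_num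
          _ ≤ T ^ 2 * (J : ℝ) ^ (1 / 25000 : ℝ) := by
              apply mul_le_mul_of_nonneg_right _ (by positivity)
              rw [Real.rpow_two]
              exact pow_le_pow_left₀ hJ0.le hT1 2
      have e3 : (1 + |θ|) ^ 2 ≤ 4 * T ^ 2 * (J : ℝ) ^ (1 / 25000 : ℝ) := by
        calc (1 + |θ|) ^ 2 ≤ (2 * T) ^ 2 := pow_le_pow_left₀ (by linarith) (by linarith) 2
          _ = 4 * T ^ 2 * 1 := by ring
          _ ≤ 4 * T ^ 2 * (J : ℝ) ^ (1 / 25000 : ℝ) :=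
              mul_le_mul_of_nonneg_left hJe (by positivity)
      rw [e1]
      have hR2 : (0 : ℝ) ≤ (R : ℝ) ^ 2 := by positivity
      nlinarith
    have hC0 : (0 : ℝ) ≤ C := Nat.cast_nonneg C
    calc (C : ℝ) * (N * R) ^ 2 * (1 + ((1 + |θ|) / N) ^ 2) *
          (1 + Real.log N + Real.log (1 + |θ|)) ^ C
        = C * ((N * R) ^ 2 * (1 + ((1 + |θ|) / N) ^ 2)) *
          (1 + Real.log N + Real.log (1 + |θ|)) ^ C := by ring
      _ ≤ C * (5 * (R : ℝ) ^ 2 * T ^ 2 * (J : ℝ) ^ (1 / 25000 : ℝ)) * (10 * L) ^ C := by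
          apply mul_le_mul
          · exact mul_le_mul_of_nonneg_left hfac hC0
          · exact pow_le_pow_left₀ hlog0 hlog C
          · positivity
          · positivity
  have hcont : Continuous fun θ => ∑ p ∈ primChars R, ‖SV V p.2 N θ‖ ^ 4 :=
    continuous_finsetSum _ fun p _ => ((tri_cSV V p.2 N).norm).pow 4
  have hint := intervalIntegral.integral_mono_on (μ := MeasureTheory.volume)
    (show -T ≤ T by linarith) (hcont.intervalIntegrable _ _)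
    (continuous_const.intervalIntegrable (-T) T) hpt
  rw [intervalIntegral.integral_const, smul_eq_mul] at hint
  refine hint.trans ?_
  calc (T - -T) * (C * (5 * (R : ℝ) ^ 2 * T ^ 2 * (J : ℝ) ^ (1 / 25000 : ℝ)) * (10 * L) ^ C)
      = ((R : ℝ) ^ 2 * T ^ 3 * (J : ℝ) ^ (1 / 25000 : ℝ)) * (10 * C * 10 ^ C * L ^ C) := by
        rw [mul_pow]; ring
    _ ≤ ((R : ℝ) ^ 2 * T ^ 3 * (J : ℝ) ^ (1 / 25000 : ℝ)) * (J : ℝ) ^ (1 / 200000 : ℝ) :=
        mul_le_mul_of_nonneg_left h1 (by positivity)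
    _ = (R : ℝ) ^ 2 * T ^ 3 * (J : ℝ) ^ (1 / 25000 + 1 / 200000 : ℝ) := by
        rw [Real.rpow_add hJ0]; ring

/-- [CA LC tri] The trilinear bound. -/
theorem p_tri : S_tri := by
  intro h4 hh V W hV hW
  obtain ⟨C, hC1, hC⟩ := hh
  filter_upwards [tri_four h4 V hV, tri_four h4 W hW, tri_ev (2 * C) 0 (1 / 200000) (by norm_num),
    eventually_ge_atTop 3] with J hV4 hW4 hCJ hJ3 R X N1 N2 T b hR hRJ hN1 hN1' hN2 hN2' hX hb hT1
    hT2
  have hJ3' : (3 : ℝ) ≤ J := by exact_mod_cast hJ3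
  have hJ0 : (0 : ℝ) < J := by linarith
  have hJ1 : (1 : ℝ) ≤ J := by linarith
  have hT0 : (0 : ℝ) ≤ T := by linarith
  have hT1' : (1 : ℝ) ≤ T := by linarith
  have hR1 : (1 : ℝ) ≤ R := by exact_mod_cast hR
  rw [pow_zero, mul_one] at hCJ
  -- the second moment
  have hD : ∫ θ in (-T)..T, ∑ p ∈ primChars R,
      ‖dp (fun n => b n * p.2 (n : ZMod p.1)) X θ‖ ^ 2 ≤
      (R : ℝ) ^ 2 * T * (J : ℝ) ^ (1 + 1 / 20000 + 1 / 15000 + 1 / 200000 : ℝ) := by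
    refine (hC R X b T hR hT1').trans ?_
    have hXT : (R : ℝ) ^ 2 * T + X ≤ 2 * ((R : ℝ) ^ 2 * T * (J : ℝ) ^ (1 / 20000 : ℝ)) := by
      have e1 : (1 : ℝ) ≤ (J : ℝ) ^ (1 / 20000 : ℝ) := Real.one_le_rpow hJ1 (by norm_num)
      have e2 : (0 : ℝ) ≤ (R : ℝ) ^ 2 * T := by positivity
      have e3 : (X : ℝ) ≤ (R : ℝ) ^ 2 * T * (J : ℝ) ^ (1 / 20000 : ℝ) := by
        calc (X : ℝ) ≤ (J : ℝ) ^ (1 + 1 / 20000 : ℝ) := hX
          _ = J * (J : ℝ) ^ (1 / 20000 : ℝ) := by rw [Real.rpow_add hJ0, Real.rpow_one]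
          _ ≤ (1 * T) * (J : ℝ) ^ (1 / 20000 : ℝ) := by
              rw [one_mul]
              exact mul_le_mul_of_nonneg_right hT1 (by positivity)
          _ ≤ (R : ℝ) ^ 2 * T * (J : ℝ) ^ (1 / 20000 : ℝ) := by
              apply mul_le_mul_of_nonneg_right _ (by positivity)
              exact mul_le_mul_of_nonneg_right (one_le_pow₀ hR1) hT0
      have e4 : (R : ℝ) ^ 2 * T * 1 ≤ (R : ℝ) ^ 2 * T * (J : ℝ) ^ (1 / 20000 : ℝ) :=
        mul_le_mul_of_nonneg_left e1 e2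
      linarith
    have hC0 : (0 : ℝ) ≤ C := by linarith
    calc C * ((R : ℝ) ^ 2 * T + X) * ∑ n ∈ Icc 1 X, ‖b n‖ ^ 2
        ≤ C * (2 * ((R : ℝ) ^ 2 * T * (J : ℝ) ^ (1 / 20000 : ℝ))) *
          (J : ℝ) ^ (1 + 1 / 15000 : ℝ) := by
          apply mul_le_mul (mul_le_mul_of_nonneg_left hXT hC0) hb
          · exact Finset.sum_nonneg fun n _ => by positivity
          · positivity
      _ = (R : ℝ) ^ 2 * T * ((J : ℝ) ^ (1 / 20000 : ℝ) * (J : ℝ) ^ (1 + 1 / 15000 : ℝ)) *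
          (2 * C) := by ring
      _ ≤ (R : ℝ) ^ 2 * T * ((J : ℝ) ^ (1 / 20000 : ℝ) * (J : ℝ) ^ (1 + 1 / 15000 : ℝ)) *
          (J : ℝ) ^ (1 / 200000 : ℝ) := mul_le_mul_of_nonneg_left hCJ (by positivity)
      _ = (R : ℝ) ^ 2 * T * (J : ℝ) ^ (1 + 1 / 20000 + 1 / 15000 + 1 / 200000 : ℝ) := by
          rw [mul_assoc ((R : ℝ) ^ 2 * T), ← Real.rpow_add hJ0, ← Real.rpow_add hJ0]
          norm_num
  apply tri_hol (primChars R) (fun p θ => ‖SV V p.2 N1 θ‖) (fun p θ => ‖SV W p.2 N2 θ‖)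
    (fun p θ => ‖dp (fun n => b n * p.2 (n : ZMod p.1)) X θ‖)
    (fun p => (tri_cSV V p.2 N1).norm) (fun p => (tri_cSV W p.2 N2).norm)
    (fun p => (tri_cdp _ X).norm) T _ _ _ _ hT0 (hV4 R N1 T hR hRJ hN1 hN1' hT1 hT2)
    (hW4 R N2 T hR hRJ hN2 hN2' hT1 hT2) hD (by positivity)
  have e1 : (R : ℝ) ^ 2 * T ^ 3 * (J : ℝ) ^ (1 / 25000 + 1 / 200000 : ℝ) *
      ((R : ℝ) ^ 2 * T ^ 3 * (J : ℝ) ^ (1 / 25000 + 1 / 200000 : ℝ)) *
      ((R : ℝ) ^ 2 * T * (J : ℝ) ^ (1 + 1 / 20000 + 1 / 15000 + 1 / 200000 : ℝ)) ^ 2 =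
      (R : ℝ) ^ 8 * T ^ 8 * (((J : ℝ) ^ (1 / 25000 + 1 / 200000 : ℝ)) ^ 2 *
        ((J : ℝ) ^ (1 + 1 / 20000 + 1 / 15000 + 1 / 200000 : ℝ)) ^ 2) := by ring
  have e2 : ((R : ℝ) ^ 2 * T ^ 2 * (J : ℝ) ^ (1 / 2 + 1 / 9000 : ℝ)) ^ 4 =
      (R : ℝ) ^ 8 * T ^ 8 * ((J : ℝ) ^ (1 / 2 + 1 / 9000 : ℝ)) ^ 4 := by ring
  rw [e1, e2]
  apply mul_le_mul_of_nonneg_left _ (by positivity)
  rw [← Real.rpow_natCast, ← Real.rpow_natCast, ← Real.rpow_natCast, ← Real.rpow_mul hJ0.le,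
    ← Real.rpow_mul hJ0.le, ← Real.rpow_mul hJ0.le, ← Real.rpow_add hJ0]
  apply Real.rpow_le_rpow_of_exponent_le hJ1
  norm_num

end Pool.Agent.CA.LC
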