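import Pool.Agent.Lib.MP_d610d0_nt.CA.LC.Stm
import Pool.Agent.Lib.MP_d610d0_nt.CH.D.p_ms

set_option autoImplicit false

/-!
# Piece LBc: products with two smooth blocks of length about `J`
-/

namespace Pool.Agent.CA.LC

open Finset Filter
open scoped ContDiff
open Pool.Agent.MP89da58 (tri primChars card_primChars)
open Pool.Agent.CH (zJ wJ wL Rough VV Wt dsum thP EE)
open Pool.Agent.CH.V (pz ex)
open Pool.Agent.CH.D (xj kap dp Sf FL FT R_ls R_kf R_kb R_spc R_bA ms_pz ms_pz_norm ms_dp_cont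
  ms_dp_le ms_fourier ms_wJ ms_kap_tail ms_set)

lemma LBc_pz_mul (t : ℝ) {x y : ℝ} (hx : 0 < x) (hy : 0 < y) :
    pz t (x * y) = pz t x * pz t y := by
  unfold pz
  rw [← Complex.exp_add, Real.log_mul hx.ne' hy.ne']
  congr 1
  push_cast
  ring

lemma LBc_dp_mul (hcvl : R_cvl) (f g : ArithmeticFunction ℂ) (A B : ℕ) {r : ℕ}
    (χ : DirichletCharacter ℂ r) (θ : ℝ)
    (hf : ∀ n, f n ≠ 0 → n ≤ A) (hg : ∀ n, g n ≠ 0 → n ≤ B) :
    dp (fun n => (f * g) n * χ (n : ZMod r)) (A * B) θ =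
      dp (fun n => f n * χ (n : ZMod r)) A θ * dp (fun n => g n * χ (n : ZMod r)) B θ := by
  have h := hcvl f g A B (A * B)
    (fun n => if n ≤ A * B then χ (n : ZMod r) * pz (-θ) n else 0) hf hg
    (fun n hn => if_neg (by omega))
  unfold dp
  have e1 : ∑ n ∈ Icc 1 (A * B), (f * g) n * χ (n : ZMod r) * pz (-θ) n =
      ∑ n ∈ Icc 1 (A * B), (f * g) n *
        (if n ≤ A * B then χ (n : ZMod r) * pz (-θ) n else 0) := by
    refine Finset.sum_congr rfl fun n hn => ?_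
    rw [if_pos (Finset.mem_Icc.1 hn).2]
    ring
  rw [e1, h, Finset.sum_mul_sum]
  refine Finset.sum_congr rfl fun m hm => Finset.sum_congr rfl fun n hn => ?_
  obtain ⟨hm1, hm2⟩ := Finset.mem_Icc.1 hm
  obtain ⟨hn1, hn2⟩ := Finset.mem_Icc.1 hn
  rw [if_pos (Nat.mul_le_mul hm2 hn2)]
  have hm0 : (0 : ℝ) < m := by exact_mod_cast hm1
  have hn0 : (0 : ℝ) < n := by exact_mod_cast hn1
  have e2 : pz (-θ) ((m * n : ℕ) : ℝ) = pz (-θ) m * pz (-θ) n := by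
    rw [Nat.cast_mul, LBc_pz_mul _ hm0 hn0]
  have e3 : χ ((m * n : ℕ) : ZMod r) = χ (m : ZMod r) * χ (n : ZMod r) := by
    rw [Nat.cast_mul, map_mul]
  rw [e2, e3]
  ring

lemma LBc_wJ (hspc : R_spc) {J j : ℕ} (hJ : 1 ≤ J) (hj : j ∈ Ioc J (2 * J)) (n : ℕ)
    (hn : 27 * J ^ 3 < n) : wJ J j n = 0 := by
  by_contra h
  have h1 := ((hspc J hJ).2.1 j hj n (by omega) h).2
  have hj2 := (Finset.mem_Ioc.1 hj).2
  have h2 : (j + 1) ^ 3 ≤ (3 * J) ^ 3 := Nat.pow_le_pow_left (by omega) 3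
  have h3 : (3 * J) ^ 3 = 27 * J ^ 3 := by ring
  omega

lemma LBc_Wf (hcvl : R_cvl) (hkf : R_kf) (hspc : R_spc) {J j : ℕ} (hJ : 1 ≤ J)
    (hj : j ∈ Ioc J (2 * J)) (u v : ArithmeticFunction ℂ) (M X : ℕ)
    (hu : ∀ n, u n ≠ 0 → n ≤ M) (hv : ∀ n, v n ≠ 0 → n ≤ X) {r : ℕ}
    (χ : DirichletCharacter ℂ r) :
    Wf (u * v) J j χ = ∫ θ : ℝ, (kap (2 * J) θ : ℂ) *
      (dp (fun n => u n * χ (n : ZMod r)) M θ * dp (fun n => v n * χ (n : ZMod r)) X θ) *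
      Complex.exp (-(Complex.I * ((θ * Real.log (xj j) : ℝ) : ℂ))) := by
  have hl0 : (0 : ℝ) < 2 * J := by
    have : (1 : ℝ) ≤ J := by exact_mod_cast hJ
    linarith
  rw [← ms_fourier hkf hl0]
  have h := hcvl u v M X (27 * J ^ 3) (fun n => χ (n : ZMod r) * (wJ J j n : ℂ)) hu hv
    (fun n hn => by
      show χ (n : ZMod r) * (wJ J j n : ℂ) = 0
      rw [LBc_wJ hspc hJ hj n hn]
      simp)
  unfold Wf
  have e1 : ∑ n ∈ Icc 1 (27 * J ^ 3), (u * v) n * χ (n : ZMod r) * (wJ J j n : ℂ) =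
      ∑ n ∈ Icc 1 (27 * J ^ 3), (u * v) n * (χ (n : ZMod r) * (wJ J j n : ℂ)) :=
    Finset.sum_congr rfl fun n _ => by ring
  rw [e1, h]
  refine Finset.sum_congr rfl fun m hm => Finset.sum_congr rfl fun n hn => ?_
  rw [← ms_wJ J j (Finset.mem_Icc.1 hm).1 (Finset.mem_Icc.1 hn).1]
  have e3 : χ ((m * n : ℕ) : ZMod r) = χ (m : ZMod r) * χ (n : ZMod r) := by
    rw [Nat.cast_mul, map_mul]
  rw [e3]
  ring

lemma LBc_kg (hkf : R_kf) {lam : ℝ} (hl : 0 < lam) {G : ℝ → ℝ} (hG : Continuous G) {B : ℝ}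
    (hB : ∀ θ, |G θ| ≤ B) : MeasureTheory.Integrable (fun θ => kap lam θ * G θ) := by
  obtain ⟨hint, _⟩ := hkf lam hl
  refine hint.mul_bdd (c := B) hG.aestronglyMeasurable (MeasureTheory.ae_of_all _ fun θ => ?_)
  rw [Real.norm_eq_abs]
  exact hB θ

lemma LBc_norm_Wf (hcvl : R_cvl) (hkf : R_kf) (hkb : R_kb) (hspc : R_spc) {J j : ℕ} (hJ : 1 ≤ J)
    (hj : j ∈ Ioc J (2 * J)) (u v : ArithmeticFunction ℂ) (M X : ℕ)
    (hu : ∀ n, u n ≠ 0 → n ≤ M) (hv : ∀ n, v n ≠ 0 → n ≤ X) {r : ℕ}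
    (χ : DirichletCharacter ℂ r) :
    ‖Wf (u * v) J j χ‖ ≤ ∫ θ : ℝ, kap (2 * J) θ *
      (‖dp (fun n => u n * χ (n : ZMod r)) M θ‖ * ‖dp (fun n => v n * χ (n : ZMod r)) X θ‖) := by
  have hl0 : (0 : ℝ) < 2 * J := by
    have : (1 : ℝ) ≤ J := by exact_mod_cast hJ
    linarith
  rw [LBc_Wf hcvl hkf hspc hJ hj u v M X hu hv χ]
  refine (MeasureTheory.norm_integral_le_integral_norm _).trans (le_of_eq ?_)
  refine MeasureTheory.integral_congr_ae (MeasureTheory.ae_of_all _ fun θ => ?_)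
  simp only [norm_mul]
  have h1 : ‖Complex.exp (-(Complex.I * ((θ * Real.log (xj j) : ℝ) : ℂ)))‖ = 1 := by
    rw [Complex.norm_exp]
    simp
  rw [h1, mul_one, Complex.norm_real, Real.norm_of_nonneg ((hkb (2 * J) hl0).1 θ)]

/-- Splitting of the integral with Fejer's kernel. -/
lemma LBc_split (hkf : R_kf) (hkb : R_kb) {x : ℝ} (hx : 0 < x) (F : ℝ → ℝ) (hF : Continuous F)
    (hF0 : ∀ θ, 0 ≤ F θ) (Fm : ℝ) (hFm : ∀ θ, F θ ≤ Fm) (K : ℝ) (I : ℕ)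
    (hK : ∀ i ≤ I, ∫ θ in (-(2 ^ i * x))..(2 ^ i * x), F θ ≤ K * (2 ^ i * x) ^ 2) :
    ∫ θ : ℝ, kap (2 * x) θ * F θ ≤ 16 * ((I : ℝ) + 1) * x * K +
      Fm * (4 * (2 * x) / (Real.pi * (2 ^ I * x))) := by
  have hl0 : 0 < 2 * x := by linarith
  obtain ⟨hint, _⟩ := hkf (2 * x) hl0
  obtain ⟨hk0, hk1, hk2, _⟩ := hkb (2 * x) hl0
  have hpi := Real.pi_gt_three
  have hFm0 : 0 ≤ Fm := (hF0 0).trans (hFm 0)
  have hT : ∀ i : ℕ, 0 < 2 ^ i * x := fun i => by positivity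
  have i1 : MeasureTheory.Integrable (fun θ => kap (2 * x) θ * F θ) :=
    LBc_kg hkf hl0 hF (B := Fm) (fun θ => by rw [abs_of_nonneg (hF0 θ)]; exact hFm θ)
  have i2 : ∀ i : ℕ, MeasureTheory.Integrable
      ((Set.Icc (-(2 ^ i * x)) (2 ^ i * x)).indicator F) := by
    intro i
    rw [MeasureTheory.integrable_indicator_iff measurableSet_Icc]
    exact hF.continuousOn.integrableOn_Icc
  have i3 : MeasureTheory.Integrable ({θ : ℝ | 2 ^ I * x < |θ|}.indicator (kap (2 * x))) :=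
    hint.indicator (ms_set _)
  have i4 : MeasureTheory.Integrable (fun θ => ∑ i ∈ range (I + 1),
      16 * x / (2 ^ i * x) ^ 2 * (Set.Icc (-(2 ^ i * x)) (2 ^ i * x)).indicator F θ) :=
    MeasureTheory.integrable_finsetSum _ fun i _ => (i2 i).const_mul _
  have key : ∀ θ : ℝ, kap (2 * x) θ * F θ ≤ ∑ i ∈ range (I + 1),
      16 * x / (2 ^ i * x) ^ 2 * (Set.Icc (-(2 ^ i * x)) (2 ^ i * x)).indicator F θ +
      Fm * {θ : ℝ | 2 ^ I * x < |θ|}.indicator (kap (2 * x)) θ := by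
    intro θ
    have hterm : ∀ i : ℕ, 0 ≤ 16 * x / (2 ^ i * x) ^ 2 *
        (Set.Icc (-(2 ^ i * x)) (2 ^ i * x)).indicator F θ := by
      intro i
      apply mul_nonneg (by positivity)
      exact Set.indicator_nonneg (fun θ _ => hF0 θ) θ
    have hsum0 : 0 ≤ ∑ i ∈ range (I + 1), 16 * x / (2 ^ i * x) ^ 2 *
        (Set.Icc (-(2 ^ i * x)) (2 ^ i * x)).indicator F θ :=
      Finset.sum_nonneg fun i _ => hterm i
    by_cases hθ : 2 ^ I * x < |θ|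
    · rw [Set.indicator_of_mem (show θ ∈ {θ : ℝ | 2 ^ I * x < |θ|} from hθ)]
      have := mul_le_mul_of_nonneg_left (hFm θ) (hk0 θ)
      linarith
    · rw [Set.indicator_of_notMem (show θ ∉ {θ : ℝ | 2 ^ I * x < |θ|} from hθ), mul_zero,
        add_zero]
      have hex : ∃ i : ℕ, |θ| ≤ 2 ^ i * x := ⟨I, not_lt.1 hθ⟩
      classical
      set i := Nat.find hex with hi
      have hi1 : |θ| ≤ 2 ^ i * x := Nat.find_spec hex
      have hi2 : i ≤ I := Nat.find_min' hex (not_lt.1 hθ)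
      have hk : kap (2 * x) θ ≤ 16 * x / (2 ^ i * x) ^ 2 := by
        rcases Nat.eq_zero_or_pos i with h0 | h0
        · rw [h0, pow_zero, one_mul]
          refine (hk1 θ).trans ?_
          rw [div_le_div_iff₀ (by positivity) (by positivity)]
          nlinarith
        · have hi3 : 2 ^ (i - 1) * x < |θ| := not_le.1 (Nat.find_min hex (by omega))
          have hpw : (2 : ℝ) ^ i = 2 * 2 ^ (i - 1) := by
            rw [← pow_succ']
            congr 1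
            omega
          have hθ0 : θ ≠ 0 := by
            rintro rfl
            rw [abs_zero] at hi3
            exact absurd hi3 (not_lt.2 (hT (i - 1)).le)
          refine (hk2 θ hθ0).trans ?_
          have hsq : (2 ^ (i - 1) * x) ^ 2 ≤ θ ^ 2 := by
            rw [← sq_abs θ]
            exact pow_le_pow_left₀ (hT _).le hi3.le 2
          have hsq' : (2 ^ i * x) ^ 2 = 4 * (2 ^ (i - 1) * x) ^ 2 := by
            rw [hpw]
            ring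
          have hp0 : 0 < (2 ^ (i - 1) * x) ^ 2 := by positivity
          rw [hsq', div_le_div_iff₀ (by positivity) (by positivity)]
          have h5 : 2 * (2 * x) * (4 * (2 ^ (i - 1) * x) ^ 2) =
              16 * x * (2 ^ (i - 1) * x) ^ 2 := by ring
          rw [h5]
          have h6 : (2 ^ (i - 1) * x) ^ 2 ≤ Real.pi * θ ^ 2 := by nlinarith
          exact mul_le_mul_of_nonneg_left h6 (by positivity)
      have hmem : θ ∈ Set.Icc (-(2 ^ i * x)) (2 ^ i * x) := by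
        rw [Set.mem_Icc, ← abs_le]
        exact hi1
      have h7 := Finset.single_le_sum (f := fun i => 16 * x / (2 ^ i * x) ^ 2 *
        (Set.Icc (-(2 ^ i * x)) (2 ^ i * x)).indicator F θ) (fun i _ => hterm i)
        (Finset.mem_range.2 (show i < I + 1 by omega))
      rw [Set.indicator_of_mem hmem] at h7
      exact (mul_le_mul_of_nonneg_right hk (hF0 θ)).trans h7
  calc ∫ θ : ℝ, kap (2 * x) θ * F θ ≤ ∫ θ : ℝ, (∑ i ∈ range (I + 1),
        16 * x / (2 ^ i * x) ^ 2 * (Set.Icc (-(2 ^ i * x)) (2 ^ i * x)).indicator F θ +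
        Fm * {θ : ℝ | 2 ^ I * x < |θ|}.indicator (kap (2 * x)) θ) :=
        MeasureTheory.integral_mono i1 (i4.add (i3.const_mul _)) key
    _ = ∑ i ∈ range (I + 1), 16 * x / (2 ^ i * x) ^ 2 *
          (∫ θ in (-(2 ^ i * x))..(2 ^ i * x), F θ) +
        Fm * ∫ θ in {θ : ℝ | 2 ^ I * x < |θ|}, kap (2 * x) θ := by
        rw [MeasureTheory.integral_add i4 (i3.const_mul _), MeasureTheory.integral_const_mul,
          MeasureTheory.integral_indicator (ms_set _),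
          MeasureTheory.integral_finsetSum _ fun i _ => (i2 i).const_mul _]
        congr 1
        refine Finset.sum_congr rfl fun i _ => ?_
        rw [MeasureTheory.integral_const_mul, MeasureTheory.integral_indicator measurableSet_Icc,
          MeasureTheory.integral_Icc_eq_integral_Ioc, intervalIntegral.integral_of_le]
        have := hT i
        linarith
    _ ≤ ∑ i ∈ range (I + 1), 16 * x * K +
        Fm * (4 * (2 * x) / (Real.pi * (2 ^ I * x))) := by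
        apply add_le_add
        · refine Finset.sum_le_sum fun i hi => ?_
          have h8 := hK i (by have := Finset.mem_range.1 hi; omega)
          have h9 := mul_le_mul_of_nonneg_left h8
            (show 0 ≤ 16 * x / (2 ^ i * x) ^ 2 by positivity)
          refine h9.trans (le_of_eq ?_)
          have := (hT i).ne'
          field_simp
        · exact mul_le_mul_of_nonneg_left (ms_kap_tail hkf hkb hl0 (hT I)) hFm0
    _ = _ := by
        rw [Finset.sum_const, Finset.card_range]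
        simp only [nsmul_eq_mul]
        push_cast
        ring

lemma LBc_log (c : ℝ) (k : ℕ) {e : ℝ} (he : 0 < e) :
    ∀ᶠ J : ℕ in atTop, c * (Real.log J) ^ k ≤ (J : ℝ) ^ e := by
  have h := (isLittleO_log_rpow_rpow_atTop (k : ℝ) he).bound
    (show 0 < 1 / (|c| + 1) by positivity)
  have h' := (tendsto_natCast_atTop_atTop (R := ℝ)).eventually h
  filter_upwards [h'] with J hJ
  have hL : 0 ≤ Real.log J := Real.log_natCast_nonneg J
  rw [Real.rpow_natCast, Real.norm_of_nonneg (by positivity),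
    Real.norm_of_nonneg (by positivity)] at hJ
  have hc : 0 < |c| + 1 := by positivity
  rw [one_div, inv_mul_eq_div, le_div_iff₀ hc] at hJ
  have h1 : c ≤ |c| + 1 := by
    have := le_abs_self c
    linarith
  have h2 := mul_le_mul_of_nonneg_right h1 (pow_nonneg hL k)
  linarith

lemma LBc_SV {f : ArithmeticFunction ℂ} {N : ℝ} {V : ℝ → ℝ}
    (hf : ∀ n : ℕ, 1 ≤ n → f n = ((V (n / N) : ℝ) : ℂ)) {r : ℕ} (χ : DirichletCharacter ℂ r)
    (θ : ℝ) : SV V χ N θ = dp (fun n => f n * χ (n : ZMod r)) ⌊2 * N⌋₊ θ := by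
  unfold SV dp
  refine Finset.sum_congr rfl fun n hn => ?_
  show χ (n : ZMod r) * ((V (n / N) : ℝ) : ℂ) * pz (-θ) n = f n * χ (n : ZMod r) * pz (-θ) n
  rw [hf n (Finset.mem_Icc.1 hn).1]
  ring

lemma LBc_dp_triv {f : ℕ → ℂ} (M : ℕ) {r : ℕ} (χ : DirichletCharacter ℂ r) (θ : ℝ) :
    ‖dp (fun n => f n * χ (n : ZMod r)) M θ‖ ≤ ∑ n ∈ Icc 1 M, ‖f n‖ := by
  refine (ms_dp_le _ M θ).trans (Finset.sum_le_sum fun n _ => ?_)
  rw [norm_mul]
  exact mul_le_of_le_one_right (norm_nonneg _) (χ.norm_le_one _)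

lemma LBc_sum_block {f : ArithmeticFunction ℂ} {N : ℝ} (h : Bd f N) :
    ∑ n ∈ Icc 1 ⌊2 * N⌋₊, ‖f n‖ ≤ 2 * N := by
  have h1 : ∑ n ∈ Icc 1 ⌊2 * N⌋₊, ‖f n‖ ≤ ∑ n ∈ Icc 1 ⌊2 * N⌋₊, (1 : ℝ) :=
    Finset.sum_le_sum fun n _ => h.bd n
  rw [Finset.sum_const, Nat.card_Icc, nsmul_eq_mul, mul_one] at h1
  have h2 := Nat.floor_le (show 0 ≤ 2 * N by have := h.one; linarith)
  simp only [Nat.add_sub_cancel] at h1
  linarith

lemma LBc_mul_sp {f g : ArithmeticFunction ℂ} {A B : ℕ} (hf : ∀ n, f n ≠ 0 → n ≤ A)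
    (hg : ∀ n, g n ≠ 0 → n ≤ B) : ∀ n, (f * g) n ≠ 0 → n ≤ A * B := by
  intro n hn
  rw [ArithmeticFunction.mul_apply] at hn
  obtain ⟨x, hx, hx0⟩ := Finset.exists_ne_zero_of_sum_ne_zero hn
  have h1 := (Nat.mem_divisorsAntidiagonal.1 hx).1
  rw [← h1]
  exact Nat.mul_le_mul (hf _ (left_ne_zero_of_mul hx0)) (hg _ (right_ne_zero_of_mul hx0))

/-- The bound before the choice of parameters. -/
lemma LBc_core (hcvl : R_cvl) (hkf : R_kf) (hkb : R_kb) (hspc : R_spc) {J j R : ℕ} (hJ : 1 ≤ J)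
    (hj : j ∈ Ioc J (2 * J)) {f g : ArithmeticFunction ℂ} {N1 N2 : ℝ} (hf : Bd f N1)
    (hg : Bd g N2) {V W : ℝ → ℝ} (hfV : ∀ n : ℕ, 1 ≤ n → f n = ((V (n / N1) : ℝ) : ℂ))
    (hgW : ∀ n : ℕ, 1 ≤ n → g n = ((W (n / N2) : ℝ) : ℂ)) (b : ArithmeticFunction ℂ) (X : ℕ)
    (hb : ∀ n, b n ≠ 0 → n ≤ X) (K : ℝ) (I : ℕ) (B : ℝ)
    (hB : ∑ n ∈ Icc 1 X, ‖b n‖ ≤ B)
    (hK : ∀ i ≤ I, ∫ θ in (-(2 ^ i * (J : ℝ)))..(2 ^ i * (J : ℝ)), ∑ p ∈ primChars R,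
      ‖SV V p.2 N1 θ‖ * ‖SV W p.2 N2 θ‖ * ‖dp (fun n => b n * p.2 (n : ZMod p.1)) X θ‖
        ≤ K * (2 ^ i * (J : ℝ)) ^ 2) :
    ∑ p ∈ primChars R, ‖Wf (f * g * b) J j p.2‖ ≤ 16 * ((I : ℝ) + 1) * J * K +
      (R : ℝ) ^ 2 * (2 * N1 * (2 * N2) * B) * (4 * (2 * J) / (Real.pi * (2 ^ I * J))) := by
  have hJ0 : (0 : ℝ) < J := by exact_mod_cast hJ
  have hl0 : (0 : ℝ) < 2 * J := by linarith
  have hf1 : ∀ n, f n ≠ 0 → n ≤ ⌊2 * N1⌋₊ := fun n hn => Nat.le_floor (hf.sp n hn).2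
  have hg1 : ∀ n, g n ≠ 0 → n ≤ ⌊2 * N2⌋₊ := fun n hn => Nat.le_floor (hg.sp n hn).2
  have hN1 := hf.one
  have hN2 := hg.one
  have hB0 : 0 ≤ B := (Finset.sum_nonneg fun _ _ => norm_nonneg _).trans hB
  set G : (Σ q, DirichletCharacter ℂ q) → ℝ → ℝ := fun p θ =>
    ‖SV V p.2 N1 θ‖ * ‖SV W p.2 N2 θ‖ * ‖dp (fun n => b n * p.2 (n : ZMod p.1)) X θ‖ with hG
  have hGc : ∀ p, Continuous (G p) := by
    intro p
    have e1 : G p = fun θ => ‖dp (fun n => f n * p.2 (n : ZMod p.1)) ⌊2 * N1⌋₊ θ‖ *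
        ‖dp (fun n => g n * p.2 (n : ZMod p.1)) ⌊2 * N2⌋₊ θ‖ *
        ‖dp (fun n => b n * p.2 (n : ZMod p.1)) X θ‖ := by
      funext θ
      simp only [hG]
      rw [LBc_SV hfV, LBc_SV hgW]
    rw [e1]
    exact (((ms_dp_cont _ _).norm).mul ((ms_dp_cont _ _).norm)).mul ((ms_dp_cont _ _).norm)
  have hG0 : ∀ p θ, 0 ≤ G p θ := fun p θ => by
    simp only [hG]
    positivity
  have hGB : ∀ p θ, G p θ ≤ 2 * N1 * (2 * N2) * B := by
    intro p θ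
    simp only [hG]
    rw [LBc_SV hfV, LBc_SV hgW]
    have h1 := (LBc_dp_triv (f := fun n => f n) ⌊2 * N1⌋₊ p.2 θ).trans (LBc_sum_block hf)
    have h2 := (LBc_dp_triv (f := fun n => g n) ⌊2 * N2⌋₊ p.2 θ).trans (LBc_sum_block hg)
    have h3 := (LBc_dp_triv (f := fun n => b n) X p.2 θ).trans hB
    have h4 : ‖dp (fun n => f n * p.2 (n : ZMod p.1)) ⌊2 * N1⌋₊ θ‖ *
        ‖dp (fun n => g n * p.2 (n : ZMod p.1)) ⌊2 * N2⌋₊ θ‖ ≤ 2 * N1 * (2 * N2) :=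
      mul_le_mul h1 h2 (norm_nonneg _) (by linarith)
    exact mul_le_mul h4 h3 (norm_nonneg _) (by positivity)
  have hone : ∀ p : (Σ q, DirichletCharacter ℂ q), ‖Wf (f * g * b) J j p.2‖ ≤
      ∫ θ : ℝ, kap (2 * J) θ * G p θ := by
    intro p
    refine (LBc_norm_Wf hcvl hkf hkb hspc hJ hj (f * g) b _ X (LBc_mul_sp hf1 hg1) hb
      p.2).trans (le_of_eq ?_)
    refine MeasureTheory.integral_congr_ae (MeasureTheory.ae_of_all _ fun θ => ?_)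
    simp only [hG]
    rw [LBc_dp_mul hcvl f g _ _ p.2 θ hf1 hg1, norm_mul, LBc_SV hfV, LBc_SV hgW]
  set F : ℝ → ℝ := fun θ => ∑ p ∈ primChars R, G p θ with hF
  have hsum : ∑ p ∈ primChars R, ‖Wf (f * g * b) J j p.2‖ ≤ ∫ θ : ℝ, kap (2 * J) θ * F θ := by
    refine (Finset.sum_le_sum fun p _ => hone p).trans (le_of_eq ?_)
    rw [← MeasureTheory.integral_finsetSum _ fun p _ => LBc_kg hkf hl0 (hGc p)
      (B := 2 * N1 * (2 * N2) * B) (fun θ => by rw [abs_of_nonneg (hG0 p θ)]; exact hGB p θ)]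
    refine MeasureTheory.integral_congr_ae (MeasureTheory.ae_of_all _ fun θ => ?_)
    simp only [hF, Finset.mul_sum]
  refine hsum.trans (LBc_split hkf hkb hJ0 F ?_ ?_ _ ?_ K I hK)
  · exact continuous_finsetSum _ fun p _ => hGc p
  · exact fun θ => Finset.sum_nonneg fun p _ => hG0 p θ
  · intro θ
    have h1 : F θ ≤ ∑ p ∈ primChars R, 2 * N1 * (2 * N2) * B :=
      Finset.sum_le_sum fun p _ => hGB p θ
    rw [Finset.sum_const, nsmul_eq_mul] at h1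
    refine h1.trans (mul_le_mul_of_nonneg_right ?_ (by positivity))
    exact_mod_cast card_primChars R

theorem p_LBc : S_LBc := by
  intro htri hcof hcvl hvsm _ hkf hkb hspc m A
  obtain ⟨C, hC⟩ := hcof m
  have htri' : ∀ᶠ J : ℕ in atTop, ∀ i i' : Fin 2, ∀ (R X : ℕ) (N1 N2 T : ℝ) (b : ℕ → ℂ),
      1 ≤ R → (R : ℝ) ≤ (J : ℝ) ^ (4998 / 10000 : ℝ) →
      (J : ℝ) ^ (1 - 1 / 50000 : ℝ) ≤ N1 → N1 ≤ (J : ℝ) ^ (1 + 1 / 50000 : ℝ) →
      (J : ℝ) ^ (1 - 1 / 50000 : ℝ) ≤ N2 → N2 ≤ (J : ℝ) ^ (1 + 1 / 50000 : ℝ) →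
      (X : ℝ) ≤ (J : ℝ) ^ (1 + 1 / 20000 : ℝ) →
      ∑ n ∈ Icc 1 X, ‖b n‖ ^ 2 ≤ (J : ℝ) ^ (1 + 1 / 15000 : ℝ) → (J : ℝ) ≤ T →
      T ≤ 2 * (J : ℝ) ^ 3 →
      ∫ θ in (-T)..T, ∑ p ∈ primChars R,
        ‖SV (Vs i) p.2 N1 θ‖ * ‖SV (Vs i') p.2 N2 θ‖ *
          ‖dp (fun n => b n * p.2 (n : ZMod p.1)) X θ‖
      ≤ (R : ℝ) ^ 2 * T ^ 2 * (J : ℝ) ^ (1 / 2 + 1 / 9000 : ℝ) := by
    rw [eventually_all]
    intro i
    rw [eventually_all]
    intro i'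
    exact htri (Vs i) (Vs i') (hvsm.1 i) (hvsm.1 i')
  filter_upwards [htri', LBc_log (4 ^ m * 27) 0 (show (0 : ℝ) < 1 / 100000 by norm_num),
    LBc_log (3 ^ C) C (show (0 : ℝ) < 1 / 60000 by norm_num),
    LBc_log 104 (A + 1) (show (0 : ℝ) < 1 / 11250 by norm_num),
    eventually_ge_atTop 3] with J ht h1 h2 h3 hJ3 R hR hR1 j hj f N hBd hprod k l hkl hSk hSl
      hk1 hk2 hl1 hl2
  have hJ1 : 1 ≤ J := by omega
  have hJr : (3 : ℝ) ≤ J := by exact_mod_cast hJ3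
  have hJ0 : (0 : ℝ) < J := by linarith
  have hJone : (1 : ℝ) ≤ J := by linarith
  have hL1 : 1 ≤ Real.log J := by
    rw [Real.le_log_iff_exp_le hJ0]
    have := Real.exp_one_lt_d9
    linarith
  have hL0 : 0 < Real.log J := by linarith
  obtain ⟨i, hVi⟩ := hSk.sm
  obtain ⟨i', hVi'⟩ := hSl.sm
  set S : Finset (Fin m) := ({k, l} : Finset (Fin m))ᶜ with hS
  set b : ArithmeticFunction ℂ := ∏ q ∈ S, f q with hb
  set P : ℝ := ∏ q ∈ S, N q with hP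
  set X : ℕ := ⌊2 ^ m * P⌋₊ with hX
  obtain ⟨_, c2, c3⟩ := hC f N hBd S
  have hsplitf : ∏ q, f q = f k * f l * b := by
    rw [hb, hS, ← Finset.prod_pair hkl, Finset.prod_mul_prod_compl]
  have hsplitN : ∏ q, N q = N k * N l * P := by
    rw [hP, hS, ← Finset.prod_pair hkl, Finset.prod_mul_prod_compl]
  have hNk := hSk.one
  have hNl := hSl.one
  have hP0 : 0 ≤ P := Finset.prod_nonneg fun q _ => by
    have := (hBd q).one
    linarith
  have hbX : ∀ n, b n ≠ 0 → n ≤ X := fun n hn => Nat.le_floor (c2 n hn).2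
  -- the size of X
  have hPJ : P ≤ 2 ^ m * 27 * (J : ℝ) ^ (1 + 1 / 25000 : ℝ) := by
    have e1 : (J : ℝ) ^ (1 - 1 / 50000 : ℝ) * (J : ℝ) ^ (1 - 1 / 50000 : ℝ) ≤ N k * N l :=
      mul_le_mul hk1 hl1 (by positivity) (by linarith)
    have e2 : (J : ℝ) ^ (1 - 1 / 50000 : ℝ) * (J : ℝ) ^ (1 - 1 / 50000 : ℝ) * P ≤
        2 ^ m * (27 * (J : ℝ) ^ 3) := by
      rw [hsplitN] at hprod
      exact (mul_le_mul_of_nonneg_right e1 hP0).trans hprod
    have e3 : (J : ℝ) ^ 3 = (J : ℝ) ^ (1 - 1 / 50000 : ℝ) * (J : ℝ) ^ (1 - 1 / 50000 : ℝ) *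
        (J : ℝ) ^ (1 + 1 / 25000 : ℝ) := by
      rw [← Real.rpow_add hJ0, ← Real.rpow_add hJ0, ← Real.rpow_natCast]
      congr 1
      norm_num
    have e4 : 0 < (J : ℝ) ^ (1 - 1 / 50000 : ℝ) * (J : ℝ) ^ (1 - 1 / 50000 : ℝ) := by positivity
    refine le_of_mul_le_mul_left (e2.trans (le_of_eq ?_)) e4
    rw [e3]
    ring
  have hXJ : (X : ℝ) ≤ (J : ℝ) ^ (1 + 1 / 20000 : ℝ) := by
    have e1 : (X : ℝ) ≤ 2 ^ m * P := Nat.floor_le (by positivity)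
    have e2 : 2 ^ m * P ≤ 4 ^ m * 27 * (J : ℝ) ^ (1 + 1 / 25000 : ℝ) := by
      have := mul_le_mul_of_nonneg_left hPJ (show (0 : ℝ) ≤ 2 ^ m by positivity)
      refine this.trans (le_of_eq ?_)
      have e4 : (4 : ℝ) ^ m = 2 ^ m * 2 ^ m := by
        rw [← mul_pow]
        norm_num
      rw [e4]
      ring
    rw [pow_zero, mul_one] at h1
    have e3 : (J : ℝ) ^ (1 + 1 / 20000 : ℝ) =
        (J : ℝ) ^ (1 / 100000 : ℝ) * (J : ℝ) ^ (1 + 1 / 25000 : ℝ) := by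
      rw [← Real.rpow_add hJ0]
      congr 1
      norm_num
    rw [e3]
    exact (e1.trans e2).trans (mul_le_mul_of_nonneg_right h1 (by positivity))
  have hb2 : ∑ n ∈ Icc 1 X, ‖b n‖ ^ 2 ≤ (J : ℝ) ^ (1 + 1 / 15000 : ℝ) := by
    rcases Nat.eq_zero_or_pos X with h0 | h0
    · rw [h0]
      simp only [Finset.Icc_eq_empty_of_lt (show 0 < 1 by norm_num), Finset.sum_empty]
      positivity
    have hX1 : (1 : ℝ) ≤ X := by exact_mod_cast h0
    have hlX0 : 0 ≤ Real.log X := Real.log_nonneg hX1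
    have hlX : Real.log X ≤ 2 * Real.log J := by
      have e1 := Real.log_le_log (by linarith) hXJ
      rw [Real.log_rpow hJ0] at e1
      nlinarith
    have e1 : (1 + Real.log X) ^ C ≤ (3 * Real.log J) ^ C :=
      pow_le_pow_left₀ (by linarith) (by linarith) C
    rw [mul_pow] at e1
    have e2 := e1.trans h2
    have e3 := c3 X
    have e4 : (J : ℝ) ^ (1 + 1 / 15000 : ℝ) =
        (J : ℝ) ^ (1 + 1 / 20000 : ℝ) * (J : ℝ) ^ (1 / 60000 : ℝ) := by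
      rw [← Real.rpow_add hJ0]
      congr 1
      norm_num
    rw [e4]
    exact e3.trans (mul_le_mul hXJ e2 (by positivity) (by positivity))
  have hB : ∑ n ∈ Icc 1 X, ‖b n‖ ≤ 2 * (J : ℝ) ^ (1 + 1 / 15000 : ℝ) := by
    have e1 : ∑ n ∈ Icc 1 X, ‖b n‖ ≤ ∑ n ∈ Icc 1 X, (1 + ‖b n‖ ^ 2) :=
      Finset.sum_le_sum fun n _ => by nlinarith [sq_nonneg (‖b n‖ - 1), norm_nonneg (b n)]
    rw [Finset.sum_add_distrib, Finset.sum_const, Nat.card_Icc, nsmul_eq_mul, mul_one] at e1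
    simp only [Nat.add_sub_cancel] at e1
    have e2 : (J : ℝ) ^ (1 + 1 / 20000 : ℝ) ≤ (J : ℝ) ^ (1 + 1 / 15000 : ℝ) :=
      Real.rpow_le_rpow_of_exponent_le hJone (by norm_num)
    linarith
  -- the number of dyadic ranges
  set I : ℕ := Nat.clog 2 (J ^ 2) with hI
  have hI1 : (J : ℝ) ^ 2 ≤ 2 ^ I := by
    have := Nat.le_pow_clog (show 1 < 2 by norm_num) (J ^ 2)
    exact_mod_cast this
  have hI2 : (2 : ℝ) ^ I ≤ 2 * (J : ℝ) ^ 2 := by
    have e1 : 1 < J ^ 2 := by nlinarith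
    have e2 := Nat.pow_pred_clog_lt_self (show 1 < 2 by norm_num) e1
    have e3 : 0 < Nat.clog 2 (J ^ 2) := Nat.clog_pos (by norm_num) e1
    have e4 : 2 ^ I = 2 * 2 ^ (Nat.clog 2 (J ^ 2)).pred := by
      rw [← pow_succ', hI]
      congr 1
      exact (Nat.succ_pred_eq_of_pos e3).symm
    have e5 : 2 ^ I ≤ 2 * J ^ 2 := by
      rw [e4]
      omega
    exact_mod_cast e5
  have hI3 : (I : ℝ) + 1 ≤ 5 * Real.log J := by
    have e1 := Real.log_le_log (by positivity) hI2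
    rw [Real.log_pow, Real.log_mul (by norm_num) (by positivity), Real.log_pow] at e1
    push_cast at e1
    have e2 := Real.log_two_gt_d9
    nlinarith
  have hT : ∀ q ≤ I, (J : ℝ) ≤ 2 ^ q * J ∧ 2 ^ q * (J : ℝ) ≤ 2 * (J : ℝ) ^ 3 := by
    intro q hq
    have e1 : (1 : ℝ) ≤ 2 ^ q := one_le_pow₀ (by norm_num)
    have e2 : (2 : ℝ) ^ q ≤ 2 ^ I := pow_le_pow_right₀ (by norm_num) hq
    refine ⟨by nlinarith, ?_⟩
    have e3 : 2 ^ q * (J : ℝ) ≤ 2 * (J : ℝ) ^ 2 * J :=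
      mul_le_mul_of_nonneg_right (e2.trans hI2) hJ0.le
    refine e3.trans (le_of_eq ?_)
    ring
  have hcore := LBc_core (R := R) hcvl hkf hkb hspc hJ1 hj (hBd k) (hBd l) hVi hVi' b X hbX
    ((R : ℝ) ^ 2 * (J : ℝ) ^ (1 / 2 + 1 / 9000 : ℝ)) I (2 * (J : ℝ) ^ (1 + 1 / 15000 : ℝ)) hB (by
      intro q hq
      refine (ht i i' R X (N k) (N l) (2 ^ q * J) (fun n => b n) hR1 hR hk1 hk2 hl1 hl2 hXJ hb2
        (hT q hq).1 (hT q hq).2).trans (le_of_eq ?_)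
      ring)
  rw [hsplitf]
  refine hcore.trans ?_
  -- the main term
  have m1 : 16 * ((I : ℝ) + 1) * J * ((R : ℝ) ^ 2 * (J : ℝ) ^ (1 / 2 + 1 / 9000 : ℝ)) ≤
      80 * Real.log J * ((R : ℝ) ^ 2 * (J : ℝ) ^ (3 / 2 + 1 / 9000 : ℝ)) := by
    have e1 : (J : ℝ) ^ (3 / 2 + 1 / 9000 : ℝ) = J * (J : ℝ) ^ (1 / 2 + 1 / 9000 : ℝ) := by
      nth_rw 2 [← Real.rpow_one (J : ℝ)]
      rw [← Real.rpow_add hJ0]
      congr 1
      norm_num
    rw [e1]
    have e2 : 0 ≤ (J : ℝ) * ((R : ℝ) ^ 2 * (J : ℝ) ^ (1 / 2 + 1 / 9000 : ℝ)) := by positivity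
    have e3 := mul_le_mul_of_nonneg_right hI3 e2
    calc 16 * ((I : ℝ) + 1) * J * ((R : ℝ) ^ 2 * (J : ℝ) ^ (1 / 2 + 1 / 9000 : ℝ))
        = 16 * (((I : ℝ) + 1) * (J * ((R : ℝ) ^ 2 * (J : ℝ) ^ (1 / 2 + 1 / 9000 : ℝ)))) := by
          ring
      _ ≤ 16 * (5 * Real.log J * (J * ((R : ℝ) ^ 2 * (J : ℝ) ^ (1 / 2 + 1 / 9000 : ℝ)))) := by
          linarith
      _ = _ := by ring
  have m2 : (R : ℝ) ^ 2 * (2 * N k * (2 * N l) * (2 * (J : ℝ) ^ (1 + 1 / 15000 : ℝ))) *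
      (4 * (2 * J) / (Real.pi * (2 ^ I * J))) ≤
      24 * Real.log J * ((R : ℝ) ^ 2 * (J : ℝ) ^ (3 / 2 + 1 / 9000 : ℝ)) := by
    have e1 : 4 * (2 * (J : ℝ)) / (Real.pi * (2 ^ I * J)) ≤ 3 / (J : ℝ) ^ 2 := by
      rw [div_le_div_iff₀ (by positivity) (by positivity)]
      have hp := Real.pi_gt_three
      have e3 : (J : ℝ) * (J : ℝ) ^ 2 ≤ J * 2 ^ I := mul_le_mul_of_nonneg_left hI1 hJ0.le
      have e4 : 3 * (J * 2 ^ I) ≤ Real.pi * (J * 2 ^ I) :=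
        mul_le_mul_of_nonneg_right hp.le (by positivity)
      nlinarith
    have e2 : 2 * N k * (2 * N l) * (2 * (J : ℝ) ^ (1 + 1 / 15000 : ℝ)) ≤
        8 * ((J : ℝ) ^ 2 * (J : ℝ) ^ (3 / 2 + 1 / 9000 : ℝ)) := by
      have e5 : N k * N l ≤ (J : ℝ) ^ (1 + 1 / 50000 : ℝ) * (J : ℝ) ^ (1 + 1 / 50000 : ℝ) :=
        mul_le_mul hk2 hl2 (by linarith) (by positivity)
      have e6 : (J : ℝ) ^ (1 + 1 / 50000 : ℝ) * (J : ℝ) ^ (1 + 1 / 50000 : ℝ) *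
          (J : ℝ) ^ (1 + 1 / 15000 : ℝ) ≤ (J : ℝ) ^ 2 * (J : ℝ) ^ (3 / 2 + 1 / 9000 : ℝ) := by
        rw [← Real.rpow_add hJ0, ← Real.rpow_add hJ0, ← Real.rpow_natCast (J : ℝ) 2,
          ← Real.rpow_add hJ0]
        exact Real.rpow_le_rpow_of_exponent_le hJone (by norm_num)
      have e7 := mul_le_mul_of_nonneg_right e5
        (show 0 ≤ (J : ℝ) ^ (1 + 1 / 15000 : ℝ) by positivity)
      linarith
    calc (R : ℝ) ^ 2 * (2 * N k * (2 * N l) * (2 * (J : ℝ) ^ (1 + 1 / 15000 : ℝ))) *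
          (4 * (2 * J) / (Real.pi * (2 ^ I * J)))
        ≤ (R : ℝ) ^ 2 * (8 * ((J : ℝ) ^ 2 * (J : ℝ) ^ (3 / 2 + 1 / 9000 : ℝ))) *
          (3 / (J : ℝ) ^ 2) := by
          apply mul_le_mul _ e1 (by positivity) (by positivity)
          exact mul_le_mul_of_nonneg_left e2 (by positivity)
      _ = 24 * 1 * ((R : ℝ) ^ 2 * (J : ℝ) ^ (3 / 2 + 1 / 9000 : ℝ)) := by
          field_simp
          ring
      _ ≤ _ := by
          apply mul_le_mul_of_nonneg_right _ (by positivity)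
          linarith
  have m3 : 104 * Real.log J * ((R : ℝ) ^ 2 * (J : ℝ) ^ (3 / 2 + 1 / 9000 : ℝ)) ≤
      (R : ℝ) * (J : ℝ) ^ 2 / (Real.log J) ^ A := by
    rw [le_div_iff₀ (by positivity)]
    have e1 : (R : ℝ) * (J : ℝ) ^ (3 / 2 + 1 / 9000 : ℝ) * (104 * (Real.log J) ^ (A + 1)) ≤
        (J : ℝ) ^ (4998 / 10000 : ℝ) * (J : ℝ) ^ (3 / 2 + 1 / 9000 : ℝ) *
          (J : ℝ) ^ (1 / 11250 : ℝ) := by
      apply mul_le_mul _ h3 (by positivity) (by positivity)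
      exact mul_le_mul_of_nonneg_right hR (by positivity)
    have e2 : (J : ℝ) ^ (4998 / 10000 : ℝ) * (J : ℝ) ^ (3 / 2 + 1 / 9000 : ℝ) *
        (J : ℝ) ^ (1 / 11250 : ℝ) = (J : ℝ) ^ 2 := by
      rw [← Real.rpow_add hJ0, ← Real.rpow_add hJ0, ← Real.rpow_natCast (J : ℝ) 2]
      congr 1
      norm_num
    rw [e2] at e1
    have e3 := mul_le_mul_of_nonneg_left e1 (show (0 : ℝ) ≤ R by positivity)
    refine le_trans (le_of_eq ?_) e3
    ring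
  have m4 : 80 * Real.log J * ((R : ℝ) ^ 2 * (J : ℝ) ^ (3 / 2 + 1 / 9000 : ℝ)) +
      24 * Real.log J * ((R : ℝ) ^ 2 * (J : ℝ) ^ (3 / 2 + 1 / 9000 : ℝ)) =
      104 * Real.log J * ((R : ℝ) ^ 2 * (J : ℝ) ^ (3 / 2 + 1 / 9000 : ℝ)) := by ring
  linarith

end Pool.Agent.CA.LC
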