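import Pool.Agent.Lib.MP_d610d0_nt.CA.LC.Stm

set_option autoImplicit false

/-!
Project CA, section LC, piece o2: no stationary point, small `ξ`.
-/

namespace Pool.Agent.CA.LC

open Finset Filter MeasureTheory
open scoped ContDiff
open Pool.Agent.CH.V (pz ex)

/-- the oscillating factor `u^(iθ) e(-ξ u)` -/
private noncomputable def o2_E (θ ξ u : ℝ) : ℂ := pz (-θ) u * ex (-(ξ * u))

private theorem o2_norm (θ ξ u : ℝ) : ‖o2_E θ ξ u‖ = 1 := by
  unfold o2_E pz ex
  rw [← Complex.exp_add, Complex.norm_exp]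
  simp

private theorem o2_deriv (θ ξ u : ℝ) (hu : 0 < u) :
    HasDerivAt (o2_E θ ξ) (Complex.I * ((θ / u - 2 * Real.pi * ξ : ℝ) : ℂ) * o2_E θ ξ u) u := by
  have h1 : HasDerivAt (fun u : ℝ => θ * Real.log u - 2 * Real.pi * ξ * u)
      (θ * u⁻¹ - 2 * Real.pi * ξ * 1) u :=
    ((Real.hasDerivAt_log hu.ne').const_mul θ).sub ((hasDerivAt_id u).const_mul _)
  have h2 := ((h1.ofReal_comp).const_mul Complex.I).cexp
  have h3 : o2_E θ ξ = fun u : ℝ =>
      Complex.exp (Complex.I * ((θ * Real.log u - 2 * Real.pi * ξ * u : ℝ) : ℂ)) := by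
    funext v
    unfold o2_E pz ex
    rw [← Complex.exp_add]
    congr 1
    push_cast
    ring
  rw [h3]
  refine h2.congr_deriv ?_
  push_cast
  rw [div_eq_mul_inv]
  ring

/-- a bound for the integral, `D = θ - 2πξu` -/
theorem p_o2 : S_o2 := by
  intro V hV
  have hcd : Differentiable ℝ V := hV.sm.differentiable (by simp)
  have hcd' : Continuous (deriv V) := hV.sm.continuous_deriv (by simp)
  have hc : Continuous V := hV.sm.continuous
  obtain ⟨C0, hC0⟩ := isCompact_Icc.exists_bound_of_continuousOn (s := Set.Icc (1 / 2 : ℝ) 2)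
    (f := fun x => x * V x) (by fun_prop)
  obtain ⟨C1, hC1⟩ := isCompact_Icc.exists_bound_of_continuousOn (s := Set.Icc (1 / 2 : ℝ) 2)
    (f := fun x => V x + x * deriv V x) (by fun_prop)
  have hV0 : V (1 / 2) = 0 := by
    by_contra h
    have h1 : ∀ᶠ x in nhds (1 / 2 : ℝ), V x ≠ 0 := hc.continuousAt.eventually_ne h
    obtain ⟨ε, hε, hb⟩ := Metric.eventually_nhds_iff.1 h1
    have h2 := hb (y := 1 / 2 - ε / 2) (by rw [Real.dist_eq]; rw [abs_lt]; constructor <;> linarith)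
    linarith [(hV.sp _ h2).1]
  have hV2 : V 2 = 0 := by
    by_contra h
    have h1 : ∀ᶠ x in nhds (2 : ℝ), V x ≠ 0 := hc.continuousAt.eventually_ne h
    obtain ⟨ε, hε, hb⟩ := Metric.eventually_nhds_iff.1 h1
    have h2 := hb (y := 2 + ε / 2) (by rw [Real.dist_eq]; rw [abs_lt]; constructor <;> linarith)
    linarith [(hV.sp _ h2).2]
  refine ⟨3 / 2 * (2 * |C1| + |C0|) + 1, by positivity, ?_⟩
  intro θ ξ hθ hξ
  have hpi := Real.pi_pos
  -- the denominator
  have hD : ∀ x ∈ Set.Icc (1 / 2 : ℝ) 2, |θ| / 2 ≤ |θ - 2 * Real.pi * ξ * x| := by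
    intro x hx
    have h1 : |2 * Real.pi * ξ * x| ≤ |θ| / 2 := by
      rw [abs_mul, abs_mul, abs_of_pos (by positivity : (0 : ℝ) < 2 * Real.pi),
        abs_of_pos (by linarith [hx.1] : (0 : ℝ) < x)]
      have : 2 * Real.pi * |ξ| * x ≤ 2 * Real.pi * |ξ| * 2 :=
        mul_le_mul_of_nonneg_left hx.2 (by positivity)
      linarith
    have h2 : |θ| ≤ |θ - 2 * Real.pi * ξ * x| + |2 * Real.pi * ξ * x| := by
      have := abs_add_le (θ - 2 * Real.pi * ξ * x) (2 * Real.pi * ξ * x)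
      rwa [sub_add_cancel] at this
    linarith
  have hD0 : ∀ x ∈ Set.Icc (1 / 2 : ℝ) 2, θ - 2 * Real.pi * ξ * x ≠ 0 := by
    intro x hx h
    have := hD x hx
    rw [h, abs_zero] at this
    linarith
  let D : ℝ → ℝ := fun x => θ - 2 * Real.pi * ξ * x
  let W : ℝ → ℝ := fun x => x * V x / D x
  let W' : ℝ → ℝ := fun x =>
    ((V x + x * deriv V x) * D x - x * V x * (-(2 * Real.pi * ξ))) / D x ^ 2
  have hW : ∀ x ∈ Set.Icc (1 / 2 : ℝ) 2, HasDerivAt W (W' x) x := by
    intro x hx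
    have e1 : HasDerivAt (fun x => x * V x) (1 * V x + x * deriv V x) x :=
      (hasDerivAt_id x).mul (hcd x).hasDerivAt
    have e2 : HasDerivAt D (-(2 * Real.pi * ξ * 1)) x :=
      ((hasDerivAt_id x).const_mul (2 * Real.pi * ξ)).const_sub θ
    refine (e1.div e2 (hD0 x hx)).congr_deriv ?_
    simp only [one_mul, mul_one, W']
  have hDc : Continuous D := by fun_prop
  have hEc : ContinuousOn (o2_E θ ξ) (Set.Icc (1 / 2 : ℝ) 2) := fun x hx =>
    (o2_deriv θ ξ x (by linarith [hx.1])).continuousAt.continuousWithinAt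
  have hW'c : ContinuousOn W' (Set.Icc (1 / 2 : ℝ) 2) := by
    refine ContinuousOn.div (by fun_prop) (by fun_prop) fun x hx => ?_
    exact pow_ne_zero 2 (hD0 x hx)
  have h12 : (1 / 2 : ℝ) ≤ 2 := by norm_num
  have hi1 : IntervalIntegrable (fun x => ((W' x : ℝ) : ℂ) * o2_E θ ξ x) volume (1 / 2) 2 := by
    apply ContinuousOn.intervalIntegrable
    rw [Set.uIcc_of_le h12]
    exact (Complex.continuous_ofReal.comp_continuousOn hW'c).mul hEc
  have hi2 : IntervalIntegrable (fun x => ((V x : ℝ) : ℂ) * o2_E θ ξ x) volume (1 / 2) 2 := by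
    apply ContinuousOn.intervalIntegrable
    rw [Set.uIcc_of_le h12]
    exact (Complex.continuous_ofReal.comp_continuousOn hc.continuousOn).mul hEc
  have hFF : ∫ x in (1 / 2 : ℝ)..2, (((W' x : ℝ) : ℂ) * o2_E θ ξ x +
      Complex.I * (((V x : ℝ) : ℂ) * o2_E θ ξ x)) = 0 := by
    have := intervalIntegral.integral_eq_sub_of_hasDerivAt
      (f := fun x => ((W x : ℝ) : ℂ) * o2_E θ ξ x)
      (f' := fun x => ((W' x : ℝ) : ℂ) * o2_E θ ξ x +
        Complex.I * (((V x : ℝ) : ℂ) * o2_E θ ξ x)) (a := 1 / 2) (b := 2) ?_ ?_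
    · rw [this]
      simp only [W, hV0, hV2, mul_zero, zero_div, Complex.ofReal_zero, zero_mul, sub_zero]
    · intro x hx
      rw [Set.uIcc_of_le h12] at hx
      have hx0 : (0 : ℝ) < x := by linarith [hx.1]
      refine ((hW x hx).ofReal_comp.mul (o2_deriv θ ξ x hx0)).congr_deriv ?_
      have e3 : W x * (θ / x - 2 * Real.pi * ξ) = V x := by
        have e5 : θ / x - 2 * Real.pi * ξ = D x / x := by
          simp only [D]
          field_simp
        have e6 : D x ≠ 0 := hD0 x hx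
        rw [e5]
        show x * V x / D x * (D x / x) = V x
        generalize D x = d at e6
        field_simp
      have e4 : ((W x : ℝ) : ℂ) * ((θ / x - 2 * Real.pi * ξ : ℝ) : ℂ) = ((V x : ℝ) : ℂ) := by
        rw [← Complex.ofReal_mul, e3]
      linear_combination (Complex.I * o2_E θ ξ x) * e4
    · exact hi1.add (hi2.const_mul _)
  rw [intervalIntegral.integral_add hi1 (hi2.const_mul _), intervalIntegral.integral_const_mul] at hFF
  have hint : hF V θ ξ = ∫ x in (1 / 2 : ℝ)..2, ((V x : ℝ) : ℂ) * o2_E θ ξ x := by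
    have h1 : ∀ x, x ∉ Set.Icc (1 / 2 : ℝ) 2 → (V x : ℂ) * pz (-θ) x * ex (-(ξ * x)) = 0 := by
      intro x hx
      have : V x = 0 := by
        by_contra h
        exact hx (hV.sp x h)
      rw [this, Complex.ofReal_zero, zero_mul, zero_mul]
    unfold hF
    rw [← setIntegral_eq_integral_of_forall_compl_eq_zero h1, integral_Icc_eq_integral_Ioc,
      ← intervalIntegral.integral_of_le h12]
    refine intervalIntegral.integral_congr fun x _ => ?_
    show (V x : ℂ) * pz (-θ) x * ex (-(ξ * x)) = ((V x : ℝ) : ℂ) * o2_E θ ξ x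
    rw [mul_assoc]
    rfl
  have hb : ∀ x ∈ Set.uIoc (1 / 2 : ℝ) 2, ‖((W' x : ℝ) : ℂ) * o2_E θ ξ x‖ ≤
      (2 * |C1| + |C0|) / |θ| := by
    intro x hx
    rw [Set.uIoc_of_le h12] at hx
    have hx' : x ∈ Set.Icc (1 / 2 : ℝ) 2 := ⟨hx.1.le, hx.2⟩
    rw [norm_mul, o2_norm, mul_one, Complex.norm_real]
    have b0 : |x * V x| ≤ |C0| := (hC0 x hx').trans (le_abs_self _)
    have b1 : |V x + x * deriv V x| ≤ |C1| := (hC1 x hx').trans (le_abs_self _)
    have bD : |θ| / 2 ≤ |D x| := hD x hx'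
    have hD1 : D x ≠ 0 := hD0 x hx'
    have hDpos : 0 < |D x| := abs_pos.2 hD1
    have e7 : W' x = (V x + x * deriv V x) / D x + x * V x * (2 * Real.pi * ξ) / D x ^ 2 := by
      show ((V x + x * deriv V x) * D x - x * V x * (-(2 * Real.pi * ξ))) / D x ^ 2 = _
      generalize D x = d at hD1
      field_simp
      ring
    rw [e7, Real.norm_eq_abs]
    have b3 := abs_add_le ((V x + x * deriv V x) / D x) (x * V x * (2 * Real.pi * ξ) / D x ^ 2)
    refine b3.trans ?_
    rw [add_div (2 * |C1|)]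
    refine add_le_add ?_ ?_
    · rw [abs_div]
      calc |V x + x * deriv V x| / |D x| ≤ |C1| / (|θ| / 2) := by gcongr
        _ = 2 * |C1| / |θ| := by field_simp
    · rw [abs_div, abs_mul (x * V x), abs_pow, abs_mul (2 * Real.pi),
        abs_of_pos (by positivity : (0 : ℝ) < 2 * Real.pi)]
      have b2 : 2 * Real.pi * |ξ| ≤ |θ| / 4 := by linarith
      calc |x * V x| * (2 * Real.pi * |ξ|) / |D x| ^ 2
          ≤ |C0| * (|θ| / 4) / (|θ| / 2) ^ 2 := by gcongr
        _ = |C0| / |θ| := by field_simp; ring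
  have hn := intervalIntegral.norm_integral_le_of_norm_le_const hb
  have hI : ‖hF V θ ξ‖ = ‖∫ x in (1 / 2 : ℝ)..2, ((W' x : ℝ) : ℂ) * o2_E θ ξ x‖ := by
    rw [hint]
    have : (∫ x in (1 / 2 : ℝ)..2, ((W' x : ℝ) : ℂ) * o2_E θ ξ x) =
        -(Complex.I * ∫ x in (1 / 2 : ℝ)..2, ((V x : ℝ) : ℂ) * o2_E θ ξ x) := by
      linear_combination hFF
    rw [this, norm_neg, norm_mul, Complex.norm_I, one_mul]
  rw [hI]
  refine hn.trans ?_
  rw [show |(2 : ℝ) - 1 / 2| = 3 / 2 by norm_num, div_mul_eq_mul_div]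
  gcongr
  linarith

end Pool.Agent.CA.LC
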